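import Pool.Agent.FPP.Defs

open scoped ENNReal BigOperators
open MeasureTheory Filter Topology

namespace Pool.Agent.FPP

theorem IsWt.transport {Γ : Type} [Group Γ] {Ω : Type} [MulAction Γ Ω] {φ : Ω → ℝ≥0∞}
    (hφ : IsWt Γ φ) {T : Type} [MulAction Γ T] (x y : T → Ω)
    (hx : ∀ (g : Γ) τ, x (g • τ) = g • x τ) (hy : ∀ (g : Γ) τ, y (g • τ) = g • y τ)
    (f : T → ℝ≥0∞) (hf : ∀ (g : Γ) τ, f (g • τ) = f τ) :
    ∑' τ, φ (x τ) * f τ = ∑' τ, φ (y τ) * f τ := by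
  have hinv : ∀ ω : Ω, ∑' g : Γ, φ (g⁻¹ • ω) = 1 := by
    intro ω
    rw [← hφ.one ω]
    exact (Equiv.inv Γ).tsum_eq (fun g : Γ => φ (g • ω))
  calc ∑' τ, φ (x τ) * f τ = ∑' τ, ∑' g : Γ, φ (x τ) * f τ * φ (g • y τ) := by
        refine tsum_congr fun τ => ?_
        rw [ENNReal.tsum_mul_left, hφ.one, mul_one]
    _ = ∑' g : Γ, ∑' τ, φ (x τ) * f τ * φ (g • y τ) := ENNReal.tsum_comm
    _ = ∑' g : Γ, ∑' τ, φ (g⁻¹ • x τ) * f τ * φ (y τ) := by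
        refine tsum_congr fun g => ?_
        rw [← (MulAction.toPerm g⁻¹).tsum_eq]
        refine tsum_congr fun τ => ?_
        simp only [MulAction.toPerm_apply]
        rw [hx, hy, hf, smul_inv_smul]
    _ = ∑' τ, ∑' g : Γ, φ (g⁻¹ • x τ) * f τ * φ (y τ) := ENNReal.tsum_comm
    _ = ∑' τ, φ (y τ) * f τ := by
        refine tsum_congr fun τ => ?_
        rw [ENNReal.tsum_mul_right, ENNReal.tsum_mul_right, hinv, one_mul, mul_comm]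

theorem IsWt.isMass {Γ : Type} [Group Γ] {Ω : Type} [MulAction Γ Ω] {φ : Ω → ℝ≥0∞}
    (hφ : IsWt Γ φ) : IsMass Γ φ := by
  refine ⟨hφ.fin, ?_⟩
  intro F hF
  have h := hφ.transport (T := Ω × Ω) (fun τ => τ.1) (fun τ => τ.2) (fun _ _ => rfl)
    (fun _ _ => rfl) (fun τ => F τ.1 τ.2) (fun g τ => hF g τ.1 τ.2)
  rw [ENNReal.tsum_prod', ENNReal.tsum_prod'] at h
  exact h

theorem mg1_sum {Ω₁ Ω₂ : Type} (φ : Ω₁ × Ω₂ → ℝ≥0∞) : ∑' a, mg1 φ a = ∑' ω, φ ω := by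
  rw [ENNReal.tsum_prod']
  rfl

theorem mg2_sum {Ω₁ Ω₂ : Type} (φ : Ω₁ × Ω₂ → ℝ≥0∞) : ∑' b, mg2 φ b = ∑' ω, φ ω := by
  rw [ENNReal.tsum_prod', ENNReal.tsum_comm]
  rfl

theorem IsWt.mg1_isMass {Γ : Type} [Group Γ] {Ω₁ Ω₂ : Type} [MulAction Γ Ω₁] [MulAction Γ Ω₂]
    {φ : Ω₁ × Ω₂ → ℝ≥0∞} (hφ : IsWt Γ φ) : IsMass Γ (mg1 φ) := by
  refine ⟨?_, ?_⟩
  · rw [mg1_sum]
    exact hφ.fin
  intro F hF
  have h := hφ.transport (T := Ω₁ × Ω₁ × Ω₂) (fun τ => (τ.1, τ.2.2)) (fun τ => (τ.2.1, τ.2.2))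
    (fun _ _ => rfl) (fun _ _ => rfl) (fun τ => F τ.1 τ.2.1) (fun g τ => hF g τ.1 τ.2.1)
  simp only [ENNReal.tsum_prod'] at h
  unfold mg1
  simp only [← ENNReal.tsum_mul_right]
  exact h

theorem IsWt.mg2_isMass {Γ : Type} [Group Γ] {Ω₁ Ω₂ : Type} [MulAction Γ Ω₁] [MulAction Γ Ω₂]
    {φ : Ω₁ × Ω₂ → ℝ≥0∞} (hφ : IsWt Γ φ) : IsMass Γ (mg2 φ) := by
  refine ⟨?_, ?_⟩
  · rw [mg2_sum]
    exact hφ.fin
  intro F hF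
  have h := hφ.transport (T := Ω₂ × Ω₂ × Ω₁) (fun τ => (τ.2.2, τ.1)) (fun τ => (τ.2.2, τ.2.1))
    (fun _ _ => rfl) (fun _ _ => rfl) (fun τ => F τ.1 τ.2.1) (fun g τ => hF g τ.1 τ.2.1)
  simp only [ENNReal.tsum_prod'] at h
  unfold mg2
  simp only [← ENNReal.tsum_mul_right]
  exact h

end Pool.Agent.FPP
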