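import Pool.Agent.FPP.Defs

open scoped ENNReal BigOperators
open MeasureTheory Filter Topology

namespace Pool.Agent.FPP

/-!
**[FPP-K1] Algebra of kernels.**
PROOF. `mulK_assoc`: `ENNReal.tsum_mul_left`, `ENNReal.tsum_mul_right`, `ENNReal.tsum_comm`, `mul_assoc`. Units: `tsum_eq_single`. `pw_one`, `pw_add` by induction on `m` (`Nat.succ_add`).
-/

theorem mulK_assoc {Ω : Type} (P Q R : Ω → Ω → ℝ≥0∞) : mulK (mulK P Q) R = mulK P (mulK Q R) := by
  funext x z
  unfold mulK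
  simp only [← ENNReal.tsum_mul_left, ← ENNReal.tsum_mul_right]
  rw [ENNReal.tsum_comm]
  simp only [mul_assoc]

theorem one_mulK {Ω : Type} (P : Ω → Ω → ℝ≥0∞) : mulK oneK P = P := by
  funext x z
  unfold mulK oneK
  rw [tsum_eq_single x]
  · rw [if_pos rfl, one_mul]
  · intro y hy
    rw [if_neg (Ne.symm hy), zero_mul]

theorem mulK_one {Ω : Type} (P : Ω → Ω → ℝ≥0∞) : mulK P oneK = P := by
  funext x z
  unfold mulK oneK
  rw [tsum_eq_single z]
  · rw [if_pos rfl, mul_one]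
  · intro y hy
    rw [if_neg hy, mul_zero]

theorem pw_one {Ω : Type} (P : Ω → Ω → ℝ≥0∞) : pw P 1 = P :=
  mulK_one P

theorem pw_add {Ω : Type} (P : Ω → Ω → ℝ≥0∞) (m n : ℕ) :
    pw P (m + n) = mulK (pw P m) (pw P n) := by
  induction m with
  | zero =>
    rw [Nat.zero_add]
    exact (one_mulK _).symm
  | succ k ih =>
    rw [Nat.succ_add]
    show mulK P (pw P (k + n)) = mulK (mulK P (pw P k)) (pw P n)
    rw [ih, mulK_assoc]

end Pool.Agent.FPP
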