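import Pool.Agent.FPP.Defs
import Pool.Agent.FPP.K1

open scoped ENNReal BigOperators
open MeasureTheory Filter Topology

namespace Pool.Agent.FPP

/-!
**[FPP-K2] Symmetry, invariance, row sums of the powers.**
PROOF. `pw_symm`: induction, `pw P (k+1) = mulK P (pw P k) = mulK (pw P k) P` (`pw_add`, `pw_one`, `add_comm`). `pw_inv`: induction; reindex the sum over `y` by `MulAction.toPerm g` (`Equiv.tsum_eq`). `pw_sum`: induction and `ENNReal.tsum_comm`, `ENNReal.tsum_mul_left`. `pw_le_one`: `ENNReal.le_tsum`.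
-/

theorem pw_symm {Ω : Type} {P : Ω → Ω → ℝ≥0∞} (h : ∀ x y, P x y = P y x) (k : ℕ) (x y : Ω) :
    pw P k x y = pw P k y x := by
  induction k generalizing x y with
  | zero =>
    simp only [pw, oneK]
    by_cases hxy : x = y
    · rw [if_pos hxy, if_pos hxy.symm]
    · rw [if_neg hxy, if_neg (fun h' => hxy h'.symm)]
  | succ k ih =>
    have h1 : pw P (k + 1) y x = mulK (pw P k) (pw P 1) y x := by
      rw [← pw_add]
    rw [h1, pw_one]
    show mulK P (pw P k) x y = mulK (pw P k) P y x
    unfold mulK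
    refine tsum_congr fun z => ?_
    rw [h x z, ih z y, mul_comm]

theorem pw_inv {Γ : Type} [Group Γ] {Ω : Type} [MulAction Γ Ω] {P : Ω → Ω → ℝ≥0∞}
    (h : ∀ (g : Γ) (x y : Ω), P (g • x) (g • y) = P x y) (k : ℕ) (g : Γ) (x y : Ω) :
    pw P k (g • x) (g • y) = pw P k x y := by
  induction k generalizing x y with
  | zero =>
    simp only [pw, oneK]
    by_cases hxy : x = y
    · rw [if_pos hxy, if_pos (by rw [hxy])]
    · rw [if_neg hxy, if_neg (fun h' => hxy (MulAction.injective g h'))]
  | succ k ih =>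
    show mulK P (pw P k) (g • x) (g • y) = mulK P (pw P k) x y
    unfold mulK
    rw [← Equiv.tsum_eq (MulAction.toPerm g) (fun z => P (g • x) z * pw P k z (g • y))]
    refine tsum_congr fun z => ?_
    rw [MulAction.toPerm_apply, h g x z, ih z y]

theorem pw_sum {Ω : Type} {P : Ω → Ω → ℝ≥0∞} (h : ∀ x, ∑' y, P x y = 1) (k : ℕ) (x : Ω) :
    ∑' y, pw P k x y = 1 := by
  induction k generalizing x with
  | zero =>
    simp only [pw, oneK]
    rw [tsum_eq_single x (fun y hy => if_neg (fun h' => hy h'.symm))]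
    exact if_pos rfl
  | succ k ih =>
    show ∑' y, mulK P (pw P k) x y = 1
    unfold mulK
    rw [ENNReal.tsum_comm]
    calc ∑' z, ∑' y, P x z * pw P k z y = ∑' z, P x z := by
          refine tsum_congr fun z => ?_
          rw [ENNReal.tsum_mul_left, ih z, mul_one]
      _ = 1 := h x

theorem pw_le_one {Ω : Type} {P : Ω → Ω → ℝ≥0∞} (h : ∀ x, ∑' y, P x y = 1) (k : ℕ) (x y : Ω) :
    pw P k x y ≤ 1 := by
  rw [← pw_sum h k x]
  exact ENNReal.le_tsum y

end Pool.Agent.FPP
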