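import Pool.Agent.FPP.Defs
import Pool.Agent.FPP.K1
import Pool.Agent.FPP.K2

open scoped ENNReal BigOperators
open MeasureTheory Filter Topology

namespace Pool.Agent.FPP

/-!
**[FPP-K3] Supports and lower bounds of the powers.**
PROOF. `pw_low`: induction; `pw P (k+1) x z = ∑' y, P x y * pw P k y z ≠ 0` gives `y` with both factors nonzero (`ENNReal.tsum_eq_zero`), and the sum is at least this term, `≥ κ * κ ^ k`. `pw_fin`: induction, the support of `pw P (k+1) x` is contained in the union over the finite set `{y | P x y ≠ 0}` of the supports of `pw P k y`. `pw_trans`: `pw_add` and `ENNReal.le_tsum`. `pw_mono`: `pw P j x x ≠ 0` for all `j` by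
`lazy` and `pw_trans`, `l = (l - k) + k`. `tr_near`: induction on `t - s` with `pw_trans` and `pw_one`.
-/

theorem pw_trans {Ω : Type} {P : Ω → Ω → ℝ≥0∞} {k l : ℕ} {x y z : Ω} (h1 : pw P k x y ≠ 0)
    (h2 : pw P l y z ≠ 0) : pw P (k + l) x z ≠ 0 := by
  rw [pw_add]
  intro h0
  have h3 : pw P k x y * pw P l y z ≤ mulK (pw P k) (pw P l) x z := by
    unfold mulK
    exact ENNReal.le_tsum y
  rw [h0] at h3
  rcases mul_eq_zero.1 (le_antisymm h3 bot_le) with h4 | h4
  · exact h1 h4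
  · exact h2 h4

/-- a step of a nonzero entry of the next power -/
private theorem pw_succ_exists {Ω : Type} {P : Ω → Ω → ℝ≥0∞} {k : ℕ} {x z : Ω}
    (h : pw P (k + 1) x z ≠ 0) : ∃ y, P x y ≠ 0 ∧ pw P k y z ≠ 0 := by
  by_contra hc
  apply h
  show mulK P (pw P k) x z = 0
  unfold mulK
  rw [ENNReal.tsum_eq_zero]
  intro y
  by_cases h1 : P x y = 0
  · rw [h1, zero_mul]
  · by_cases h2 : pw P k y z = 0
    · rw [h2, mul_zero]
    · exact absurd ⟨y, h1, h2⟩ hc

theorem pw_low {Γ : Type} [Group Γ] {Ω : Type} [MulAction Γ Ω] {P : Ω → Ω → ℝ≥0∞} {κ ρ : ℝ≥0∞} (hK : IsKern Γ P κ ρ) (k : ℕ) (x y : Ω) (h : pw P k x y ≠ 0) :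
    κ ^ k ≤ pw P k x y := by
  induction k generalizing x y with
  | zero =>
    rw [pow_zero]
    have h' : oneK x y ≠ 0 := h
    show 1 ≤ oneK x y
    unfold oneK at h' ⊢
    by_cases hxy : x = y
    · rw [if_pos hxy]
    · rw [if_neg hxy] at h'
      exact absurd rfl h'
  | succ k ih =>
    obtain ⟨z, hz1, hz2⟩ := pw_succ_exists h
    have h3 : P x z * pw P k z y ≤ pw P (k + 1) x y := by
      show P x z * pw P k z y ≤ mulK P (pw P k) x y
      unfold mulK
      exact ENNReal.le_tsum z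
    refine le_trans ?_ h3
    rw [pow_succ, mul_comm]
    exact mul_le_mul' (hK.low x z hz1) (ih z y hz2)

theorem pw_fin {Γ : Type} [Group Γ] {Ω : Type} [MulAction Γ Ω] {P : Ω → Ω → ℝ≥0∞} {κ ρ : ℝ≥0∞} (hK : IsKern Γ P κ ρ) (k : ℕ) (x : Ω) : {y | pw P k x y ≠ 0}.Finite := by
  induction k generalizing x with
  | zero =>
    refine (Set.finite_singleton x).subset ?_
    intro y hy
    have h' : oneK x y ≠ 0 := hy
    unfold oneK at h'
    by_cases hxy : x = y
    · exact hxy.symm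
    · rw [if_neg hxy] at h'
      exact absurd rfl h'
  | succ k ih =>
    refine ((hK.fin x).biUnion (fun z _ => ih z)).subset ?_
    intro y hy
    obtain ⟨z, hz1, hz2⟩ := pw_succ_exists hy
    exact Set.mem_biUnion (show z ∈ {y | P x y ≠ 0} from hz1) hz2

/-- lazy kernels: the diagonal entries of all powers are nonzero -/
private theorem pw_diag_ne {Γ : Type} [Group Γ] {Ω : Type} [MulAction Γ Ω] {P : Ω → Ω → ℝ≥0∞} {κ ρ : ℝ≥0∞}
    (hK : IsKern Γ P κ ρ) (k : ℕ) (x : Ω) : pw P k x x ≠ 0 := by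
  induction k with
  | zero =>
    show oneK x x ≠ 0
    unfold oneK
    rw [if_pos rfl]
    exact one_ne_zero
  | succ k ih =>
    refine pw_trans ih ?_
    rw [pw_one]
    exact hK.lazy x

theorem pw_mono {Γ : Type} [Group Γ] {Ω : Type} [MulAction Γ Ω] {P : Ω → Ω → ℝ≥0∞} {κ ρ : ℝ≥0∞} (hK : IsKern Γ P κ ρ) {k l : ℕ} (hkl : k ≤ l) {x y : Ω} (h : pw P k x y ≠ 0) :
    pw P l x y ≠ 0 := by
  have h1 := pw_trans (pw_diag_ne hK (l - k) x) h
  rwa [Nat.sub_add_cancel hkl] at h1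

theorem tr_near {Ω : Type} {P : Ω → Ω → ℝ≥0∞} {n : ℕ} {τ : Tr Ω} (h : TrOk P n τ) {s t : ℕ}
    (hst : s ≤ t) (htn : t ≤ n) : pw P (t - s) (τ.1 s) (τ.1 t) ≠ 0 := by
  obtain ⟨d, rfl⟩ := Nat.exists_eq_add_of_le hst
  rw [Nat.add_sub_cancel_left]
  induction d with
  | zero =>
    show oneK (τ.1 s) (τ.1 s) ≠ 0
    unfold oneK
    rw [if_pos rfl]
    exact one_ne_zero
  | succ d ih =>
    have h1 := ih (by omega) (by omega)
    refine pw_trans h1 ?_
    rw [pw_one]
    exact h (s + d) (by omega)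

end Pool.Agent.FPP
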