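import Pool.Agent.FPP.Defs
import Pool.Agent.FPP.K1
import Pool.Agent.FPP.K2
import Pool.Agent.FPP.K3

open scoped ENNReal BigOperators
open MeasureTheory Filter Topology

namespace Pool.Agent.FPP

/-!
**[FPP-K4] The killed walk kernel `gg`.**
PROOF. `geo_sum`: `ENNReal.tsum_mul_left`, `ENNReal.tsum_geometric`, `ENNReal.mul_inv_cancel` (`1 - lam ≠ 0`, `≠ ⊤`). `gg_sum`: `ENNReal.tsum_comm`, `pw_sum`. `gg_diag`: the term `k = 0`. `gg_pos`: by `conn` there is `n` with `pw P n x y ≠ 0`; the term `k = n` is nonzero.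
-/

theorem geo_sum {lam : ℝ≥0∞} (h : lam < 1) : ∑' k : ℕ, (1 - lam) * lam ^ k = 1 := by
  rw [ENNReal.tsum_mul_left, ENNReal.tsum_geometric]
  exact ENNReal.mul_inv_cancel (tsub_pos_of_lt h).ne' (ENNReal.sub_ne_top ENNReal.one_ne_top)

theorem gg_sum {Ω : Type} {P : Ω → Ω → ℝ≥0∞} (hP : ∀ x, ∑' y, P x y = 1) {lam : ℝ≥0∞}
    (h : lam < 1) (x : Ω) : ∑' y, gg P lam x y = 1 := by
  unfold gg
  rw [ENNReal.tsum_comm]
  calc ∑' k : ℕ, ∑' y, (1 - lam) * lam ^ k * pw P k x y = ∑' k : ℕ, (1 - lam) * lam ^ k := by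
        refine tsum_congr fun k => ?_
        rw [ENNReal.tsum_mul_left, pw_sum hP k x, mul_one]
    _ = 1 := geo_sum h

theorem gg_symm {Ω : Type} {P : Ω → Ω → ℝ≥0∞} (hP : ∀ x y, P x y = P y x) (lam : ℝ≥0∞) (x y : Ω) :
    gg P lam x y = gg P lam y x := by
  unfold gg
  refine tsum_congr fun k => ?_
  rw [pw_symm hP k x y]

theorem gg_inv {Γ : Type} [Group Γ] {Ω : Type} [MulAction Γ Ω] {P : Ω → Ω → ℝ≥0∞}
    (h : ∀ (g : Γ) (x y : Ω), P (g • x) (g • y) = P x y) (lam : ℝ≥0∞) (g : Γ) (x y : Ω) :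
    gg P lam (g • x) (g • y) = gg P lam x y := by
  unfold gg
  refine tsum_congr fun k => ?_
  rw [pw_inv h k g x y]

theorem gg_le_one {Ω : Type} {P : Ω → Ω → ℝ≥0∞} (hP : ∀ x, ∑' y, P x y = 1) {lam : ℝ≥0∞}
    (h : lam < 1) (x y : Ω) : gg P lam x y ≤ 1 := by
  rw [← gg_sum hP h x]
  exact ENNReal.le_tsum y

theorem gg_diag {Ω : Type} (P : Ω → Ω → ℝ≥0∞) (lam : ℝ≥0∞) (x : Ω) : 1 - lam ≤ gg P lam x x := by
  have h1 : (1 - lam) * lam ^ 0 * pw P 0 x x ≤ gg P lam x x := by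
    unfold gg
    exact ENNReal.le_tsum (f := fun k : ℕ => (1 - lam) * lam ^ k * pw P k x x) 0
  have h2 : pw P 0 x x = 1 := by
    show oneK x x = 1
    unfold oneK
    exact if_pos rfl
  rwa [h2, pow_zero, mul_one, mul_one] at h1

theorem gg_pos {Γ : Type} [Group Γ] {Ω : Type} [MulAction Γ Ω] {P : Ω → Ω → ℝ≥0∞} {κ ρ : ℝ≥0∞} (hK : IsKern Γ P κ ρ) {lam : ℝ≥0∞} (h0 : lam ≠ 0) (h : lam < 1) (x y : Ω) :
    gg P lam x y ≠ 0 := by
  obtain ⟨n, hn⟩ := hK.conn x y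
  have h1 : (1 - lam) * lam ^ n * pw P n x y ≤ gg P lam x y := by
    unfold gg
    exact ENNReal.le_tsum (f := fun k : ℕ => (1 - lam) * lam ^ k * pw P k x y) n
  intro h2
  rw [h2] at h1
  exact (mul_ne_zero (mul_ne_zero (tsub_pos_of_lt h).ne' (pow_ne_zero n h0)) hn)
    (le_antisymm h1 bot_le)

end Pool.Agent.FPP
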