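import Pool.Agent.FPP.Defs
import Pool.Agent.FPP.K1
import Pool.Agent.FPP.K2
import Pool.Agent.FPP.K4

open scoped ENNReal BigOperators
open MeasureTheory Filter Topology

namespace Pool.Agent.FPP

/-!
**[FPP-K5] `pw P k * gg`.**
PROOF. `mulK_pw_gg`: `ENNReal.tsum_mul_left`, `ENNReal.tsum_comm`, `pw_add`. `mulK_gg_step`: split off `j = 0` (`tsum_eq_zero_add'` or `ENNReal.tsum_eq_zero_add`-like lemma `tsum_eq_zero_add ENNReal.summable`), `k + (j + 1) = (k + 1) + j`. `gg_ge`: `lam ^ k * ∑' j, (1 - lam) * lam ^ j * pw P (k + j) x y = ∑' j, (1 - lam) * lam ^ (k + j) * pw P (k + j) x y ≤` the whole sum (`ENNReal.tsum_comp_le_tsum_of_injective` or `tsum_comp_le_tsum_of_inj`). `mulK_gg_sum`,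
`mulK_gg_symm` from the formula.
-/

theorem mulK_pw_gg {Ω : Type} (P : Ω → Ω → ℝ≥0∞) (lam : ℝ≥0∞) (k : ℕ) (x y : Ω) :
    mulK (pw P k) (gg P lam) x y = ∑' j : ℕ, (1 - lam) * lam ^ j * pw P (k + j) x y := by
  unfold mulK gg
  calc ∑' z, pw P k x z * ∑' j : ℕ, (1 - lam) * lam ^ j * pw P j z y
      = ∑' z, ∑' j : ℕ, (1 - lam) * lam ^ j * (pw P k x z * pw P j z y) := by
        refine tsum_congr fun z => ?_
        rw [← ENNReal.tsum_mul_left]
        refine tsum_congr fun j => ?_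
        rw [← mul_assoc, mul_comm (pw P k x z), mul_assoc]
    _ = ∑' j : ℕ, ∑' z, (1 - lam) * lam ^ j * (pw P k x z * pw P j z y) := ENNReal.tsum_comm
    _ = ∑' j : ℕ, (1 - lam) * lam ^ j * pw P (k + j) x y := by
        refine tsum_congr fun j => ?_
        rw [ENNReal.tsum_mul_left, pw_add]
        rfl

theorem mulK_gg_step {Ω : Type} (P : Ω → Ω → ℝ≥0∞) (lam : ℝ≥0∞) (k : ℕ) (x y : Ω) :
    mulK (pw P k) (gg P lam) x y =
      (1 - lam) * pw P k x y + lam * mulK (pw P (k + 1)) (gg P lam) x y := by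
  rw [mulK_pw_gg, mulK_pw_gg, ← ENNReal.tsum_mul_left,
    tsum_eq_zero_add' (f := fun j : ℕ => (1 - lam) * lam ^ j * pw P (k + j) x y)
      ENNReal.summable]
  refine congrArg₂ (· + ·) ?_ ?_
  · rw [pow_zero, mul_one, Nat.add_zero]
  · refine tsum_congr fun j => ?_
    have h1 : k + (j + 1) = k + 1 + j := by omega
    rw [h1, pow_succ, ← mul_assoc, ← mul_assoc, ← mul_assoc]
    rw [mul_comm ((1 - lam) * lam ^ j) lam, ← mul_assoc]

theorem gg_ge {Ω : Type} (P : Ω → Ω → ℝ≥0∞) (lam : ℝ≥0∞) (k : ℕ) (x y : Ω) :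
    lam ^ k * mulK (pw P k) (gg P lam) x y ≤ gg P lam x y := by
  rw [mulK_pw_gg, ← ENNReal.tsum_mul_left]
  have h1 : ∀ j : ℕ, lam ^ k * ((1 - lam) * lam ^ j * pw P (k + j) x y) =
      (fun i : ℕ => (1 - lam) * lam ^ i * pw P i x y) (k + j) := by
    intro j
    show lam ^ k * ((1 - lam) * lam ^ j * pw P (k + j) x y) =
      (1 - lam) * lam ^ (k + j) * pw P (k + j) x y
    rw [pow_add, ← mul_assoc, ← mul_assoc, mul_comm (lam ^ k) (1 - lam), mul_assoc (1 - lam)]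
  rw [tsum_congr h1]
  unfold gg
  exact ENNReal.tsum_comp_le_tsum_of_injective (fun a b hab => Nat.add_left_cancel hab)
    (fun i : ℕ => (1 - lam) * lam ^ i * pw P i x y)

theorem mulK_gg_sum {Ω : Type} {P : Ω → Ω → ℝ≥0∞} (hP : ∀ x, ∑' y, P x y = 1) {lam : ℝ≥0∞}
    (h : lam < 1) (k : ℕ) (x : Ω) : ∑' y, mulK (pw P k) (gg P lam) x y = 1 := by
  unfold mulK
  rw [ENNReal.tsum_comm]
  calc ∑' z, ∑' y, pw P k x z * gg P lam z y = ∑' z, pw P k x z := by
        refine tsum_congr fun z => ?_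
        rw [ENNReal.tsum_mul_left, gg_sum hP h z, mul_one]
    _ = 1 := pw_sum hP k x

theorem mulK_gg_symm {Ω : Type} {P : Ω → Ω → ℝ≥0∞} (hP : ∀ x y, P x y = P y x) (lam : ℝ≥0∞)
    (k : ℕ) (x y : Ω) : mulK (pw P k) (gg P lam) x y = mulK (pw P k) (gg P lam) y x := by
  rw [mulK_pw_gg, mulK_pw_gg]
  refine tsum_congr fun j => ?_
  rw [pw_symm hP (k + j) x y]

end Pool.Agent.FPP
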