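import Pool.Agent.FPP.Defs

open scoped ENNReal BigOperators
open MeasureTheory Filter Topology

namespace Pool.Agent.FPP

/-!
**[FPP-W1] The expectation `Ex`.**
PROOF. All by induction on `n` (generalizing `F`, `G`, `a`), unfolding `Ex`. `Ex_mono`: in the step, if `P a b = 0` the term is `0`; otherwise apply the induction hypothesis to `fun x => F (cns a x)` and `fun x => G (cns a x)`: for `x` with `x 0 = b` and allowed steps, `cns a x` starts at `a` and its steps are allowed (the first one because `P a (x 0) = P a b ≠ 0`). `Ex_tsum`: `ENNReal.tsum_comm`, `ENNReal.tsum_mul_left`. `Ex_congr` follows from `Ex_mono`. `Ex_const` uses `hP`.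
-/

theorem Ex_add {Ω : Type} (P : Ω → Ω → ℝ≥0∞) (n : ℕ) (F G : (ℕ → Ω) → ℝ≥0∞) (a : Ω) :
    Ex P n (fun x => F x + G x) a = Ex P n F a + Ex P n G a := by
  induction n generalizing F G a with
  | zero => rfl
  | succ n ih =>
    show ∑' b, P a b * Ex P n (fun x => F (cns a x) + G (cns a x)) b =
      ∑' b, P a b * Ex P n (fun x => F (cns a x)) b + ∑' b, P a b * Ex P n (fun x => G (cns a x)) b
    rw [← ENNReal.tsum_add]
    refine tsum_congr fun b => ?_
    rw [ih, mul_add]

theorem Ex_mul {Ω : Type} (P : Ω → Ω → ℝ≥0∞) (n : ℕ) (c : ℝ≥0∞) (F : (ℕ → Ω) → ℝ≥0∞) (a : Ω) :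
    Ex P n (fun x => c * F x) a = c * Ex P n F a := by
  induction n generalizing F a with
  | zero => rfl
  | succ n ih =>
    show ∑' b, P a b * Ex P n (fun x => c * F (cns a x)) b =
      c * ∑' b, P a b * Ex P n (fun x => F (cns a x)) b
    rw [← ENNReal.tsum_mul_left]
    refine tsum_congr fun b => ?_
    rw [ih (fun x => F (cns a x)) b]
    ring

theorem Ex_tsum {Ω : Type} (P : Ω → Ω → ℝ≥0∞) (n : ℕ) {ι : Type} (F : ι → (ℕ → Ω) → ℝ≥0∞)
    (a : Ω) : Ex P n (fun x => ∑' i, F i x) a = ∑' i, Ex P n (F i) a := by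
  induction n generalizing F a with
  | zero => rfl
  | succ n ih =>
    show ∑' b, P a b * Ex P n (fun x => ∑' i, F i (cns a x)) b =
      ∑' i, ∑' b, P a b * Ex P n (fun x => F i (cns a x)) b
    rw [ENNReal.tsum_comm]
    refine tsum_congr fun b => ?_
    rw [ih (fun i x => F i (cns a x)) b, ENNReal.tsum_mul_left]

theorem Ex_mono {Ω : Type} (P : Ω → Ω → ℝ≥0∞) (n : ℕ) (F G : (ℕ → Ω) → ℝ≥0∞) (a : Ω)
    (h : ∀ x : ℕ → Ω, x 0 = a → (∀ t < n, P (x t) (x (t + 1)) ≠ 0) → F x ≤ G x) :
    Ex P n F a ≤ Ex P n G a := by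
  induction n generalizing F G a with
  | zero => exact h _ rfl fun t ht => absurd ht (Nat.not_lt_zero t)
  | succ n ih =>
    show ∑' b, P a b * Ex P n (fun x => F (cns a x)) b ≤
      ∑' b, P a b * Ex P n (fun x => G (cns a x)) b
    refine ENNReal.tsum_le_tsum fun b => ?_
    by_cases hb : P a b = 0
    · rw [hb, zero_mul, zero_mul]
    · refine mul_le_mul_right (ih (fun x => F (cns a x)) (fun x => G (cns a x)) b
        fun x hx hP => h (cns a x) rfl fun t ht => ?_) _
      cases t with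
      | zero =>
        show P a (x 0) ≠ 0
        rw [hx]
        exact hb
      | succ t => exact hP t (by omega)

theorem Ex_const {Ω : Type} {P : Ω → Ω → ℝ≥0∞} (hP : ∀ x, ∑' y, P x y = 1) (n : ℕ) (c : ℝ≥0∞)
    (a : Ω) : Ex P n (fun _ => c) a = c := by
  induction n generalizing a with
  | zero => rfl
  | succ n ih =>
    show ∑' b, P a b * Ex P n (fun _ => c) b = c
    have h1 : ∀ b, P a b * Ex P n (fun _ => c) b = P a b * c := fun b => by rw [ih b]
    rw [tsum_congr h1, ENNReal.tsum_mul_right, hP a, one_mul]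

end Pool.Agent.FPP
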