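import Pool.Agent.FPP.Defs
import Pool.Agent.FPP.W1

open scoped ENNReal BigOperators
open MeasureTheory Filter Topology

namespace Pool.Agent.FPP

/-!
**[FPP-W2] Equivariance of `Ex`.**
PROOF. Induction on `n` generalizing `F`, `a`. `(g • x) t = g • x t` (`Pi.smul_apply`), so `cns (g • a) (g • x) = g • cns a x` (`funext`, cases on `t`). Step: `∑' b, P (g • a) b * Ex P n (F ∘ cns (g • a)) b`, reindex `b = g • b'` (`(MulAction.toPerm g).tsum_eq`), use `hP` and the induction hypothesis.
-/

theorem Ex_smul {Γ : Type} [Group Γ] {Ω : Type} [MulAction Γ Ω] {P : Ω → Ω → ℝ≥0∞}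
    (hP : ∀ (g : Γ) (x y : Ω), P (g • x) (g • y) = P x y) (n : ℕ) (F : (ℕ → Ω) → ℝ≥0∞) (g : Γ)
    (a : Ω) : Ex P n F (g • a) = Ex P n (fun x => F (g • x)) a := by
  induction n generalizing F a with
  | zero => rfl
  | succ n ih =>
    show ∑' b, P (g • a) b * Ex P n (fun x => F (cns (g • a) x)) b =
      ∑' b, P a b * Ex P n (fun x => F (g • cns a x)) b
    rw [← (MulAction.toPerm g : Equiv.Perm Ω).tsum_eq
      (fun b => P (g • a) b * Ex P n (fun x => F (cns (g • a) x)) b)]
    refine tsum_congr fun b => ?_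
    show P (g • a) (g • b) * Ex P n (fun x => F (cns (g • a) x)) (g • b) = _
    rw [hP, ih]
    congr 2
    funext x
    congr 1
    funext t
    cases t <;> rfl

end Pool.Agent.FPP
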