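import Pool.Agent.FPP.Defs
import Pool.Agent.FPP.K4
import Pool.Agent.FPP.W1
import Pool.Agent.FPP.W2

open scoped ENNReal BigOperators
open MeasureTheory Filter Topology

namespace Pool.Agent.FPP

/-!
**[FPP-W4] The sum over trajectories `Sm`.**
PROOF. Unfold `Sm` and use `Ex_add`, `Ex_mul`, `Ex_tsum`, `Ex_mono` and the rules for `ℝ≥0∞`-valued sums (`ENNReal.tsum_add`, `ENNReal.tsum_mul_left`, `ENNReal.tsum_comm`, `ENNReal.tsum_le_tsum`; `TrOk P n (x, u, v)` is the condition in `Ex_mono`). `Sm_sum`: induction on the finset with `Sm_add`, or `Ex_tsum` over the subtype. `Sm_smul`: reindex `a` by `g` (`Ex_smul`) and `u`, `v` by `g` (`gg_inv`): `Sm F = ∑' a, Ex P n (…) (g • a) = …`. Note `g • τ = (g • τ.1, g • τ.2.1, g • τ.2.2)`.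
-/

theorem Sm_add {Ω : Type} (P : Ω → Ω → ℝ≥0∞) (lam : ℝ≥0∞) (n : ℕ) (F G : Tr Ω → ℝ≥0∞) :
    Sm P lam n (fun τ => F τ + G τ) = Sm P lam n F + Sm P lam n G := by
  unfold Sm
  simp only [mul_add, ENNReal.tsum_add, Ex_add]

theorem Sm_mul {Ω : Type} (P : Ω → Ω → ℝ≥0∞) (lam : ℝ≥0∞) (n : ℕ) (c : ℝ≥0∞) (F : Tr Ω → ℝ≥0∞) :
    Sm P lam n (fun τ => c * F τ) = c * Sm P lam n F := by
  unfold Sm
  simp only [mul_left_comm _ c, ENNReal.tsum_mul_left, Ex_mul]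

theorem Sm_tsum {Ω : Type} (P : Ω → Ω → ℝ≥0∞) (lam : ℝ≥0∞) (n : ℕ) {ι : Type}
    (F : ι → Tr Ω → ℝ≥0∞) : Sm P lam n (fun τ => ∑' i, F i τ) = ∑' i, Sm P lam n (F i) := by
  unfold Sm
  rw [ENNReal.tsum_comm]
  refine tsum_congr fun a => ?_
  rw [← Ex_tsum]
  congr 1
  funext x
  simp only [← ENNReal.tsum_mul_left]
  rw [ENNReal.tsum_comm]
  have h : ∀ u, (∑' v, ∑' i, gg P lam (x n) u * gg P lam (x 0) v * F i (x, u, v)) =
      ∑' i, ∑' v, gg P lam (x n) u * gg P lam (x 0) v * F i (x, u, v) :=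
    fun u => ENNReal.tsum_comm
  rw [ENNReal.tsum_comm]
  simp only [h]
  exact ENNReal.tsum_comm

theorem Sm_sum {Ω : Type} (P : Ω → Ω → ℝ≥0∞) (lam : ℝ≥0∞) (n : ℕ) {ι : Type} (s : Finset ι)
    (F : ι → Tr Ω → ℝ≥0∞) : Sm P lam n (fun τ => ∑ i ∈ s, F i τ) = ∑ i ∈ s, Sm P lam n (F i) := by
  classical
  induction s using Finset.induction_on with
  | empty =>
    simp only [Finset.sum_empty]
    have h := Sm_mul P lam n 0 (fun _ : Tr Ω => 0)
    simpa using h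
  | insert i s hi ih =>
    simp only [Finset.sum_insert hi]
    rw [Sm_add, ih]

theorem Sm_mono {Ω : Type} (P : Ω → Ω → ℝ≥0∞) (lam : ℝ≥0∞) (n : ℕ) (F G : Tr Ω → ℝ≥0∞)
    (h : ∀ τ, TrOk P n τ → F τ ≤ G τ) : Sm P lam n F ≤ Sm P lam n G := by
  unfold Sm
  refine ENNReal.tsum_le_tsum fun a => Ex_mono P n _ _ a fun x _ hx => ?_
  refine ENNReal.tsum_le_tsum fun u => ENNReal.tsum_le_tsum fun v => ?_
  exact mul_le_mul_right (h (x, u, v) hx) _

theorem Sm_smul {Γ : Type} [Group Γ] {Ω : Type} [MulAction Γ Ω] {P : Ω → Ω → ℝ≥0∞}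
    (hP : ∀ (g : Γ) (x y : Ω), P (g • x) (g • y) = P x y) (lam : ℝ≥0∞) (n : ℕ)
    (F : Tr Ω → ℝ≥0∞) (g : Γ) : Sm P lam n (fun τ => F (g • τ)) = Sm P lam n F := by
  unfold Sm
  rw [← (MulAction.toPerm g : Equiv.Perm Ω).tsum_eq
    (fun a => Ex P n (fun x => ∑' u, ∑' v, gg P lam (x n) u * gg P lam (x 0) v * F (x, u, v)) a)]
  refine tsum_congr fun a => ?_
  show _ = Ex P n _ (g • a)
  rw [Ex_smul hP]
  congr 1
  funext x
  rw [← (MulAction.toPerm g : Equiv.Perm Ω).tsum_eq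
    (fun u => ∑' v, gg P lam ((g • x) n) u * gg P lam ((g • x) 0) v * F (g • x, u, v))]
  refine tsum_congr fun u => ?_
  show _ = ∑' v, gg P lam ((g • x) n) (g • u) * gg P lam ((g • x) 0) v * F (g • x, g • u, v)
  rw [← (MulAction.toPerm g : Equiv.Perm Ω).tsum_eq
    (fun v => gg P lam ((g • x) n) (g • u) * gg P lam ((g • x) 0) v * F (g • x, g • u, v))]
  refine tsum_congr fun v => ?_
  show _ = gg P lam (g • x n) (g • u) * gg P lam (g • x 0) (g • v) * F (g • x, g • u, g • v)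
  rw [gg_inv hP, gg_inv hP]
  rfl

end Pool.Agent.FPP
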