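import Pool.Agent.FPP.Defs
import Pool.Agent.FPP.K1
import Pool.Agent.FPP.W1

open scoped ENNReal BigOperators
open MeasureTheory Filter Topology

namespace Pool.Agent.FPP

/-!
**[FPP-W3] Joint law of four positions.**
PROOF. (i) `Ex P n (fun x => f (x 0) (x n)) a = ∑' d, pw P n a d * f a d` by induction on `n` (generalizing `f`, `a`): the step is `∑' b, P a b * Ex P n (fun x => f a (x n)) b = ∑' b, P a b * ∑' d, pw P n b d * f a d`, interchange the sums. (ii) `Ex P n (fun x => f (x 0) (x t) (x n)) a = ∑' c, pw P t a c * ∑' d, pw P (n - t) c d * f a c d` for `t ≤ n`, by induction on `t` (generalizing `n`, `f`, `a`): `t = 0` is (i) (`pw P 0 = oneK`); `t + 1 ≤ n` forces `n = n' + 1`, unfold `Ex` once.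
(iii) the claim, by induction on `s` in the same way. (For `s + 1 ≤ t + 1 ≤ n + 1` the differences do not change.)
-/

theorem oneK_tsum_w3 {Ω : Type} (a : Ω) (f : Ω → ℝ≥0∞) : ∑' b, oneK a b * f b = f a := by
  rw [tsum_eq_single a]
  · unfold oneK
    rw [if_pos rfl, one_mul]
  · intro b hb
    unfold oneK
    rw [if_neg (Ne.symm hb), zero_mul]

theorem mulK_tsum_w3 {Ω : Type} (P Q : Ω → Ω → ℝ≥0∞) (a : Ω) (f : Ω → ℝ≥0∞) :
    ∑' b, P a b * ∑' c, Q b c * f c = ∑' c, mulK P Q a c * f c := by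
  simp only [mulK, ← ENNReal.tsum_mul_left, ← ENNReal.tsum_mul_right]
  rw [ENNReal.tsum_comm]
  simp only [mul_assoc]

theorem Ex_marg1 {Ω : Type} (P : Ω → Ω → ℝ≥0∞) (n : ℕ) (f : Ω → Ω → ℝ≥0∞) (a : Ω) :
    Ex P n (fun x => f (x 0) (x n)) a = ∑' d, pw P n a d * f a d := by
  induction n generalizing f a with
  | zero =>
    show f a a = _
    exact (oneK_tsum_w3 a (f a)).symm
  | succ n ih =>
    show ∑' b, P a b * Ex P n (fun x => f a (x n)) b = _
    have h : ∀ b, Ex P n (fun x => f a (x n)) b = ∑' d, pw P n b d * f a d :=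
      fun b => ih (fun _ d => f a d) b
    simp only [h]
    exact mulK_tsum_w3 P (pw P n) a (f a)

theorem Ex_marg2 {Ω : Type} (P : Ω → Ω → ℝ≥0∞) (t : ℕ) : ∀ (n : ℕ) (_ : t ≤ n)
    (f : Ω → Ω → Ω → ℝ≥0∞) (a : Ω),
    Ex P n (fun x => f (x 0) (x t) (x n)) a =
      ∑' c, pw P t a c * ∑' d, pw P (n - t) c d * f a c d := by
  induction t with
  | zero =>
    intro n _ f a
    rw [Ex_marg1 P n (fun x y => f x x y) a, Nat.sub_zero]
    exact (oneK_tsum_w3 a (fun c => ∑' d, pw P n c d * f a c d)).symm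
  | succ t ih =>
    intro n hn f a
    obtain ⟨m, rfl⟩ : ∃ m, n = m + 1 := ⟨n - 1, by omega⟩
    show ∑' b, P a b * Ex P m (fun x => f a (x t) (x m)) b = _
    have h : ∀ b, Ex P m (fun x => f a (x t) (x m)) b =
        ∑' c, pw P t b c * ∑' d, pw P (m - t) c d * f a c d :=
      fun b => ih m (by omega) (fun _ c d => f a c d) b
    simp only [h]
    rw [mulK_tsum_w3 P (pw P t) a (fun c => ∑' d, pw P (m - t) c d * f a c d),
      Nat.add_sub_add_right]
    rfl

theorem Ex_marg3 {Ω : Type} (P : Ω → Ω → ℝ≥0∞) (s : ℕ) : ∀ (n t : ℕ) (_ : s ≤ t) (_ : t ≤ n)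
    (f : Ω → Ω → Ω → Ω → ℝ≥0∞) (a : Ω),
    Ex P n (fun x => f (x 0) (x s) (x t) (x n)) a =
      ∑' b, pw P s a b * ∑' c, pw P (t - s) b c * ∑' d, pw P (n - t) c d * f a b c d := by
  induction s with
  | zero =>
    intro n t _ htn f a
    rw [Ex_marg2 P t n htn (fun x y z => f x x y z) a, Nat.sub_zero]
    exact (oneK_tsum_w3 a (fun b => ∑' c, pw P t b c * ∑' d, pw P (n - t) c d * f a b c d)).symm
  | succ s ih =>
    intro n t hst htn f a
    obtain ⟨m, rfl⟩ : ∃ m, n = m + 1 := ⟨n - 1, by omega⟩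
    obtain ⟨r, rfl⟩ : ∃ r, t = r + 1 := ⟨t - 1, by omega⟩
    show ∑' b, P a b * Ex P m (fun x => f a (x s) (x r) (x m)) b = _
    have h : ∀ b, Ex P m (fun x => f a (x s) (x r) (x m)) b =
        ∑' b', pw P s b b' * ∑' c, pw P (r - s) b' c * ∑' d, pw P (m - r) c d * f a b' c d :=
      fun b => ih m r (by omega) (by omega) (fun _ b c d => f a b c d) b
    simp only [h]
    rw [mulK_tsum_w3 P (pw P s) a
      (fun b => ∑' c, pw P (r - s) b c * ∑' d, pw P (m - r) c d * f a b c d),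
      Nat.add_sub_add_right, Nat.add_sub_add_right]
    rfl

theorem Ex_marg {Ω : Type} (P : Ω → Ω → ℝ≥0∞) {n s t : ℕ} (hst : s ≤ t) (htn : t ≤ n)
    (f : Ω → Ω → Ω → Ω → ℝ≥0∞) (a : Ω) :
    Ex P n (fun x => f (x 0) (x s) (x t) (x n)) a =
      ∑' b, pw P s a b * ∑' c, pw P (t - s) b c * ∑' d, pw P (n - t) c d * f a b c d :=
  Ex_marg3 P s n t hst htn f a

end Pool.Agent.FPP
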