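import Pool.Agent.FPP.Defs
import Pool.Agent.FPP.K2
import Pool.Agent.FPP.W3
import Pool.Agent.FPP.W4

open scoped ENNReal BigOperators
open MeasureTheory Filter Topology

namespace Pool.Agent.FPP

/-!
**[FPP-W5] Joint law of two positions and the two end points.**
PROOF. Unfold `Sm` and apply `Ex_marg` with `f x0 a b d = ∑' u, ∑' v, gg P lam d u * gg P lam x0 v * f a b u v`: the left side is `∑' x0, ∑' a, pw P s x0 a * ∑' b, pw P (t - s) a b * ∑' d, pw P (n - t) b d * ∑' u, ∑' v, gg P lam d u * gg P lam x0 v * f a b u v`. Use `pw P s x0 a = pw P s a x0` (`pw_symm`), interchange the sums (`ENNReal.tsum_comm`, `ENNReal.tsum_mul_left/right`) and recognise `∑' x0, pw P s a x0 * gg P lam x0 v = mulK (pw P s) (gg P lam) a v` and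
`∑' d, pw P (n - t) b d * gg P lam d u`.
-/

theorem mulK_mul_w5 {Ω : Type} (P Q : Ω → Ω → ℝ≥0∞) (x z : Ω) (c : ℝ≥0∞) :
    mulK P Q x z * c = ∑' y, P x y * Q y z * c := by
  unfold mulK
  rw [ENNReal.tsum_mul_right]

theorem Sm_marg {Ω : Type} {P : Ω → Ω → ℝ≥0∞} (hP : ∀ x y, P x y = P y x) (lam : ℝ≥0∞)
    {n s t : ℕ} (hst : s ≤ t) (htn : t ≤ n) (f : Ω → Ω → Ω → Ω → ℝ≥0∞) :
    Sm P lam n (fun τ => f (τ.1 s) (τ.1 t) τ.2.1 τ.2.2) =
      ∑' a, ∑' b, ∑' u, ∑' v, pw P (t - s) a b *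
        (mulK (pw P (n - t)) (gg P lam) b u * (mulK (pw P s) (gg P lam) a v * f a b u v)) := by
  unfold Sm
  have h1 : ∀ a0, Ex P n (fun x => ∑' u, ∑' v, gg P lam (x n) u * gg P lam (x 0) v *
      f (x s) (x t) u v) a0 = ∑' b, ∑' c, ∑' d, ∑' u, ∑' v, pw P s a0 b * (pw P (t - s) b c *
        (pw P (n - t) c d * (gg P lam d u * gg P lam a0 v * f b c u v))) := by
    intro a0
    rw [Ex_marg P hst htn (fun x0 b c d => ∑' u, ∑' v, gg P lam d u * gg P lam x0 v * f b c u v)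
      a0]
    simp only [ENNReal.tsum_mul_left]
  simp only at h1 ⊢
  simp only [h1]
  rw [ENNReal.tsum_comm]
  refine tsum_congr fun b => ?_
  rw [ENNReal.tsum_comm]
  refine tsum_congr fun c => ?_
  have h2 : ∀ a0, (∑' d, ∑' u, ∑' v, pw P s a0 b * (pw P (t - s) b c *
        (pw P (n - t) c d * (gg P lam d u * gg P lam a0 v * f b c u v)))) =
      ∑' u, ∑' v, ∑' d, pw P s a0 b * (pw P (t - s) b c *
        (pw P (n - t) c d * (gg P lam d u * gg P lam a0 v * f b c u v))) := by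
    intro a0
    rw [ENNReal.tsum_comm]
    exact tsum_congr fun u => ENNReal.tsum_comm
  simp only [h2]
  rw [ENNReal.tsum_comm]
  refine tsum_congr fun u => ?_
  rw [ENNReal.tsum_comm]
  refine tsum_congr fun v => ?_
  have e1 : pw P (t - s) b c * (mulK (pw P (n - t)) (gg P lam) c u *
      (mulK (pw P s) (gg P lam) b v * f b c u v)) = mulK (pw P s) (gg P lam) b v *
      (mulK (pw P (n - t)) (gg P lam) c u * (pw P (t - s) b c * f b c u v)) := by ring
  rw [e1, mulK_mul_w5]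
  refine tsum_congr fun a0 => ?_
  rw [mulK_mul_w5, ← ENNReal.tsum_mul_left]
  refine tsum_congr fun d => ?_
  rw [pw_symm hP s b a0]
  ring

end Pool.Agent.FPP
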