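import Pool.Agent.FPP.Defs
import Pool.Agent.FPP.K5
import Pool.Agent.FPP.C1
import Pool.Agent.FPP.W4
import Pool.Agent.FPP.W5

open scoped ENNReal BigOperators
open MeasureTheory Filter Topology

namespace Pool.Agent.FPP

/-!
**[FPP-C3] Sums over pairs of trajectories.**
PROOF. `Sc_add`, `Sc_mono`, `Sc_sum`: from `Sm_add`, `Sm_mono`, `Sm_sum` twice. `Sc_fst`: for fixed `τ₁`, `Sm P₂ lam n (fun τ₂ => φ (τ₁.1 k, τ₂.1 l) * F τ₁) = ∑' b, φ (τ₁.1 k, b) * F τ₁` by `Sm_marg` with `s = t = l` (`pw P 0 = oneK`, `mulK_gg_sum`), which is `mg1 φ (τ₁.1 k) * F τ₁`. `Sc_snd`: write `φ (τ₁.1 k, τ₂.1 l) * F τ₂ = ∑' b, φ (τ₁.1 k, b) * (ind (τ₂.1 l = b) * F τ₂)`, so that the inner sum is `∑' b, φ (τ₁.1 k, b) * Sm P₂ lam n (fun τ₂ => ind (τ₂.1 l = b) *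 F τ₂)` (`Sm_tsum`, `Sm_mul`), the outer sum gives
`∑' b, (∑' a, φ (a, b)) * Sm P₂ (…) = Sm P₂ lam n (fun τ₂ => mg2 φ (τ₂.1 l) * F τ₂)`. `Sc_root`: `Sm_marg` twice (or `Sc_fst` with `F = 1` and the analogous formula), `ENNReal.tsum_prod'`.
-/

theorem c3_one {Ω : Type} {P : Ω → Ω → ℝ≥0∞} (hs : ∀ x y, P x y = P y x) (h1 : ∀ x, ∑' y, P x y = 1)
    {lam : ℝ≥0∞} (hlam : lam < 1) {n l : ℕ} (hl : l ≤ n) (f : Ω → ℝ≥0∞) :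
    Sm P lam n (fun τ => f (τ.1 l)) = ∑' a, f a := by
  rw [Sm_marg hs lam (le_refl l) hl (fun a _ _ _ => f a)]
  refine tsum_congr fun a => ?_
  have e1 : ∀ b u, ∑' v, pw P (l - l) a b *
        (mulK (pw P (n - l)) (gg P lam) b u * (mulK (pw P l) (gg P lam) a v * f a)) =
      pw P (l - l) a b * (mulK (pw P (n - l)) (gg P lam) b u * f a) := by
    intro b u
    rw [ENNReal.tsum_mul_left, ENNReal.tsum_mul_left, ENNReal.tsum_mul_right, mulK_gg_sum h1 hlam, one_mul]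
  have e2 : ∀ b, ∑' u, pw P (l - l) a b * (mulK (pw P (n - l)) (gg P lam) b u * f a) =
      pw P (l - l) a b * f a := by
    intro b
    rw [ENNReal.tsum_mul_left, ENNReal.tsum_mul_right, mulK_gg_sum h1 hlam, one_mul]
  simp only [e1, e2]
  rw [ENNReal.tsum_mul_right, Nat.sub_self]
  have e3 : ∑' b, pw P 0 a b = 1 := by
    rw [tsum_eq_single a]
    · show oneK a a = 1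
      unfold oneK
      exact if_pos rfl
    · intro b hb
      show oneK a b = 0
      unfold oneK
      exact if_neg (Ne.symm hb)
  rw [e3, one_mul]

theorem Sc_add {Ω₁ Ω₂ : Type} (P₁ : Ω₁ → Ω₁ → ℝ≥0∞) (P₂ : Ω₂ → Ω₂ → ℝ≥0∞) (lam : ℝ≥0∞) (n : ℕ)
    (F G : Tr Ω₁ → Tr Ω₂ → ℝ≥0∞) :
    Sc P₁ P₂ lam n (fun τ₁ τ₂ => F τ₁ τ₂ + G τ₁ τ₂) = Sc P₁ P₂ lam n F + Sc P₁ P₂ lam n G := by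
  unfold Sc
  rw [← Sm_add]
  congr 1
  funext τ₁
  exact Sm_add P₂ lam n _ _

theorem Sc_mul {Ω₁ Ω₂ : Type} (P₁ : Ω₁ → Ω₁ → ℝ≥0∞) (P₂ : Ω₂ → Ω₂ → ℝ≥0∞) (lam : ℝ≥0∞) (n : ℕ)
    (c : ℝ≥0∞) (F : Tr Ω₁ → Tr Ω₂ → ℝ≥0∞) :
    Sc P₁ P₂ lam n (fun τ₁ τ₂ => c * F τ₁ τ₂) = c * Sc P₁ P₂ lam n F := by
  unfold Sc
  rw [← Sm_mul]
  congr 1
  funext τ₁
  exact Sm_mul P₂ lam n _ _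

theorem Sc_sum {Ω₁ Ω₂ : Type} (P₁ : Ω₁ → Ω₁ → ℝ≥0∞) (P₂ : Ω₂ → Ω₂ → ℝ≥0∞) (lam : ℝ≥0∞) (n : ℕ)
    {ι : Type} (s : Finset ι) (F : ι → Tr Ω₁ → Tr Ω₂ → ℝ≥0∞) :
    Sc P₁ P₂ lam n (fun τ₁ τ₂ => ∑ i ∈ s, F i τ₁ τ₂) = ∑ i ∈ s, Sc P₁ P₂ lam n (F i) := by
  unfold Sc
  rw [← Sm_sum]
  congr 1
  funext τ₁
  exact Sm_sum P₂ lam n s fun i => F i τ₁

theorem Sc_mono {Ω₁ Ω₂ : Type} (P₁ : Ω₁ → Ω₁ → ℝ≥0∞) (P₂ : Ω₂ → Ω₂ → ℝ≥0∞) (lam : ℝ≥0∞) (n : ℕ)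
    (F G : Tr Ω₁ → Tr Ω₂ → ℝ≥0∞)
    (h : ∀ τ₁ τ₂, TrOk P₁ n τ₁ → TrOk P₂ n τ₂ → F τ₁ τ₂ ≤ G τ₁ τ₂) :
    Sc P₁ P₂ lam n F ≤ Sc P₁ P₂ lam n G := by
  unfold Sc
  exact Sm_mono P₁ lam n _ _ fun τ₁ h₁ => Sm_mono P₂ lam n _ _ fun τ₂ h₂ => h τ₁ τ₂ h₁ h₂

theorem Sc_fst {Ω₁ Ω₂ : Type} (P₁ : Ω₁ → Ω₁ → ℝ≥0∞) {P₂ : Ω₂ → Ω₂ → ℝ≥0∞}
    (hs : ∀ x y, P₂ x y = P₂ y x) (h1 : ∀ x, ∑' y, P₂ x y = 1) {lam : ℝ≥0∞} (hlam : lam < 1)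
    {n l : ℕ} (hl : l ≤ n) (k : ℕ) (φ : Ω₁ × Ω₂ → ℝ≥0∞) (F : Tr Ω₁ → ℝ≥0∞) :
    Sc P₁ P₂ lam n (fun τ₁ τ₂ => φ (τ₁.1 k, τ₂.1 l) * F τ₁) =
      Sm P₁ lam n (fun τ₁ => mg1 φ (τ₁.1 k) * F τ₁) := by
  unfold Sc
  congr 1
  funext τ₁
  rw [c3_one hs h1 hlam hl (fun b => φ (τ₁.1 k, b) * F τ₁), ENNReal.tsum_mul_right]
  rfl

theorem Sc_snd {Ω₁ Ω₂ : Type} {P₁ : Ω₁ → Ω₁ → ℝ≥0∞} (P₂ : Ω₂ → Ω₂ → ℝ≥0∞)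
    (hs : ∀ x y, P₁ x y = P₁ y x) (h1 : ∀ x, ∑' y, P₁ x y = 1) {lam : ℝ≥0∞} (hlam : lam < 1)
    {n k : ℕ} (hk : k ≤ n) (l : ℕ) (φ : Ω₁ × Ω₂ → ℝ≥0∞) (F : Tr Ω₂ → ℝ≥0∞) :
    Sc P₁ P₂ lam n (fun τ₁ τ₂ => φ (τ₁.1 k, τ₂.1 l) * F τ₂) =
      Sm P₂ lam n (fun τ₂ => mg2 φ (τ₂.1 l) * F τ₂) := by
  unfold Sc
  rw [c3_one hs h1 hlam hk (fun a => Sm P₂ lam n (fun τ₂ => φ (a, τ₂.1 l) * F τ₂)),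
    ← Sm_tsum P₂ lam n (fun a τ₂ => φ (a, τ₂.1 l) * F τ₂)]
  congr 1
  funext τ₂
  rw [ENNReal.tsum_mul_right]
  rfl

theorem Sc_root {Ω₁ Ω₂ : Type} {P₁ : Ω₁ → Ω₁ → ℝ≥0∞} {P₂ : Ω₂ → Ω₂ → ℝ≥0∞}
    (hs₁ : ∀ x y, P₁ x y = P₁ y x) (h₁ : ∀ x, ∑' y, P₁ x y = 1)
    (hs₂ : ∀ x y, P₂ x y = P₂ y x) (h₂ : ∀ x, ∑' y, P₂ x y = 1) {lam : ℝ≥0∞} (hlam : lam < 1)
    {n k l : ℕ} (hk : k ≤ n) (hl : l ≤ n) (f : Ω₁ × Ω₂ → ℝ≥0∞) :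
    Sc P₁ P₂ lam n (fun τ₁ τ₂ => f (τ₁.1 k, τ₂.1 l)) = ∑' ω, f ω := by
  unfold Sc
  rw [c3_one hs₁ h₁ hlam hk (fun a => Sm P₂ lam n (fun τ₂ => f (a, τ₂.1 l))), ENNReal.tsum_prod']
  refine tsum_congr fun a => ?_
  exact c3_one hs₂ h₂ hlam hl (fun b => f (a, b))

end Pool.Agent.FPP
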