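import Pool.Agent.FPP.Defs
import Pool.Agent.FPP.K5
import Pool.Agent.FPP.W4
import Pool.Agent.FPP.W5
import Pool.Agent.FPP.C3

open scoped ENNReal BigOperators
open MeasureTheory Filter Topology

namespace Pool.Agent.FPP

/-!
**[FPP-C4] Domination by independent end points.**
PROOF. By `Sm_marg` with `s = t` (`pw P 0 = oneK`) in both factors, `Sc (…) = ∑' a, ∑' u₁, ∑' v₁, ∑' b, ∑' u₂, ∑' v₂, φ (a, b) * (mulK (pw P₁ (n - k)) (gg P₁ lam) a u₁ * mulK (pw P₁ k) (gg P₁ lam) a v₁ * mulK (pw P₂ (n - l)) (gg P₂ lam) b u₂ * mulK (pw P₂ l) (gg P₂ lam) b v₂) * F (a, b) (u₁, v₂) (v₁, u₂)` (up to the order of sums and factors). Since `lam ^ j * mulK (pw P j) (gg P lam) x y ≤ gg P lam x y` (`gg_ge`) and `(n - k) + k + (n - l) + l = 2 * n`, multiplying by `lam ^ (2 * n)` gives at most the same sum with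
`gg P₁ lam a u₁ * gg P₁ lam a v₁ * gg P₂ lam b u₂ * gg P₂ lam b v₂ = g2 (a, b) (u₁, v₂) * g2 (a, b) (v₁, u₂)`, which is the right side with `ω = (a, b)`, `ωi = (u₁, v₂)`, `ωj = (v₁, u₂)` (`ENNReal.tsum_prod'`, `ENNReal.tsum_comm`).
-/


theorem c4_perm {A B C D E : Type} (T : A → B → C → D → E → ℝ≥0∞) :
    ∑' u, ∑' v, ∑' b, ∑' x, ∑' y, T u v b x y = ∑' b, ∑' u, ∑' y, ∑' v, ∑' x, T u v b x y := by
  calc ∑' u, ∑' v, ∑' b, ∑' x, ∑' y, T u v b x y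
      = ∑' u, ∑' b, ∑' v, ∑' x, ∑' y, T u v b x y := by
        refine tsum_congr fun u => ?_
        exact ENNReal.tsum_comm
    _ = ∑' b, ∑' u, ∑' v, ∑' x, ∑' y, T u v b x y := ENNReal.tsum_comm
    _ = ∑' b, ∑' u, ∑' y, ∑' v, ∑' x, T u v b x y := by
        refine tsum_congr fun b => tsum_congr fun u => ?_
        calc ∑' v, ∑' x, ∑' y, T u v b x y = ∑' v, ∑' y, ∑' x, T u v b x y := by
              refine tsum_congr fun v => ?_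
              exact ENNReal.tsum_comm
          _ = ∑' y, ∑' v, ∑' x, T u v b x y := ENNReal.tsum_comm

theorem c4_one {Ω : Type} {P : Ω → Ω → ℝ≥0∞} (hP : ∀ x y, P x y = P y x) (lam : ℝ≥0∞)
    {n k : ℕ} (hk : k ≤ n) (f : Ω → Ω → Ω → ℝ≥0∞) :
    Sm P lam n (fun τ => f (τ.1 k) τ.2.1 τ.2.2) =
      ∑' a, ∑' u, ∑' v, (mulK (pw P (n - k)) (gg P lam) a u *
        (mulK (pw P k) (gg P lam) a v * f a u v)) := by
  have h := Sm_marg hP lam (le_refl k) hk (fun a _ u v => f a u v)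
  rw [h]
  refine tsum_congr fun a => ?_
  rw [tsum_eq_single a]
  · refine tsum_congr fun u => tsum_congr fun v => ?_
    have : pw P (k - k) a a = 1 := by
      rw [Nat.sub_self]
      unfold pw oneK
      exact if_pos rfl
    rw [this, one_mul]
  · intro b hb
    have : pw P (k - k) a b = 0 := by
      rw [Nat.sub_self]
      unfold pw oneK
      exact if_neg (fun h => hb h.symm)
    simp only [this, zero_mul, tsum_zero]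

theorem c4_dom {Ω : Type} {P : Ω → Ω → ℝ≥0∞} (hP : ∀ x y, P x y = P y x) (lam : ℝ≥0∞)
    {n k : ℕ} (hk : k ≤ n) (f : Ω → Ω → Ω → ℝ≥0∞) :
    lam ^ n * Sm P lam n (fun τ => f (τ.1 k) τ.2.1 τ.2.2) ≤
      ∑' a, ∑' u, ∑' v, (gg P lam a u * (gg P lam a v * f a u v)) := by
  rw [c4_one hP lam hk f, ← ENNReal.tsum_mul_left]
  refine ENNReal.tsum_le_tsum fun a => ?_
  rw [← ENNReal.tsum_mul_left]
  refine ENNReal.tsum_le_tsum fun u => ?_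
  rw [← ENNReal.tsum_mul_left]
  refine ENNReal.tsum_le_tsum fun v => ?_
  have hn : lam ^ n = lam ^ (n - k) * lam ^ k := by
    rw [← pow_add]
    congr 1
    omega
  calc lam ^ n * (mulK (pw P (n - k)) (gg P lam) a u *
        (mulK (pw P k) (gg P lam) a v * f a u v))
      = (lam ^ (n - k) * mulK (pw P (n - k)) (gg P lam) a u) *
        ((lam ^ k * mulK (pw P k) (gg P lam) a v) * f a u v) := by
        rw [hn]
        ring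
    _ ≤ gg P lam a u * (gg P lam a v * f a u v) := by
        gcongr
        · exact gg_ge P lam (n - k) a u
        · exact gg_ge P lam k a v

theorem Sc_dom {Ω₁ Ω₂ : Type} {P₁ : Ω₁ → Ω₁ → ℝ≥0∞} {P₂ : Ω₂ → Ω₂ → ℝ≥0∞}
    (hs₁ : ∀ x y, P₁ x y = P₁ y x) (hs₂ : ∀ x y, P₂ x y = P₂ y x) {lam : ℝ≥0∞} (hlam : lam < 1)
    {n k l : ℕ} (hk : k ≤ n) (hl : l ≤ n) (φ : Ω₁ × Ω₂ → ℝ≥0∞)
    (F : Ω₁ × Ω₂ → Ω₁ × Ω₂ → Ω₁ × Ω₂ → ℝ≥0∞) :
    lam ^ (2 * n) * Sc P₁ P₂ lam n (fun τ₁ τ₂ => φ (τ₁.1 k, τ₂.1 l) *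
        F (τ₁.1 k, τ₂.1 l) (τ₁.2.1, τ₂.2.2) (τ₁.2.2, τ₂.2.1)) ≤
      ∑' ω, ∑' ωi, ∑' ωj, φ ω * (g2 P₁ P₂ lam ω ωi * g2 P₁ P₂ lam ω ωj * F ω ωi ωj) := by
  have e1 : Sc P₁ P₂ lam n (fun τ₁ τ₂ => φ (τ₁.1 k, τ₂.1 l) *
        F (τ₁.1 k, τ₂.1 l) (τ₁.2.1, τ₂.2.2) (τ₁.2.2, τ₂.2.1)) =
      Sm P₁ lam n (fun τ₁ => Sm P₂ lam n (fun τ₂ => φ (τ₁.1 k, τ₂.1 l) *
        F (τ₁.1 k, τ₂.1 l) (τ₁.2.1, τ₂.2.2) (τ₁.2.2, τ₂.2.1))) := rfl
  rw [e1, two_mul, pow_add, mul_assoc, ← Sm_mul]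
  have e2 : Sm P₁ lam n (fun τ₁ => lam ^ n * Sm P₂ lam n (fun τ₂ => φ (τ₁.1 k, τ₂.1 l) *
        F (τ₁.1 k, τ₂.1 l) (τ₁.2.1, τ₂.2.2) (τ₁.2.2, τ₂.2.1))) ≤
      Sm P₁ lam n (fun τ₁ => ∑' b, ∑' u, ∑' v, (gg P₂ lam b u * (gg P₂ lam b v *
        (φ (τ₁.1 k, b) * F (τ₁.1 k, b) (τ₁.2.1, v) (τ₁.2.2, u))))) := by
    refine Sm_mono _ _ _ _ _ fun τ₁ _ => ?_
    exact c4_dom hs₂ lam hl (fun b u v => φ (τ₁.1 k, b) * F (τ₁.1 k, b) (τ₁.2.1, v) (τ₁.2.2, u))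
  refine (mul_le_mul_right e2 (lam ^ n)).trans ?_
  refine (c4_dom hs₁ lam hk (fun a u₁ v₁ => ∑' b, ∑' u, ∑' v, (gg P₂ lam b u * (gg P₂ lam b v *
        (φ (a, b) * F (a, b) (u₁, v) (v₁, u)))))).trans ?_
  refine le_of_eq ?_
  rw [ENNReal.tsum_prod']
  refine tsum_congr fun a => ?_
  have e3 : ∀ u₁ v₁, gg P₁ lam a u₁ * (gg P₁ lam a v₁ * ∑' b, ∑' u, ∑' v, (gg P₂ lam b u *
        (gg P₂ lam b v * (φ (a, b) * F (a, b) (u₁, v) (v₁, u))))) =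
      ∑' b, ∑' u, ∑' v, gg P₁ lam a u₁ * (gg P₁ lam a v₁ * (gg P₂ lam b u *
        (gg P₂ lam b v * (φ (a, b) * F (a, b) (u₁, v) (v₁, u))))) := by
    intro u₁ v₁
    simp only [ENNReal.tsum_mul_left]
  calc ∑' u₁, ∑' v₁, gg P₁ lam a u₁ * (gg P₁ lam a v₁ * ∑' b, ∑' u, ∑' v, (gg P₂ lam b u *
        (gg P₂ lam b v * (φ (a, b) * F (a, b) (u₁, v) (v₁, u)))))
      = ∑' u₁, ∑' v₁, ∑' b, ∑' u, ∑' v, gg P₁ lam a u₁ * (gg P₁ lam a v₁ * (gg P₂ lam b u *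
        (gg P₂ lam b v * (φ (a, b) * F (a, b) (u₁, v) (v₁, u))))) := by
        refine tsum_congr fun u₁ => tsum_congr fun v₁ => e3 u₁ v₁
    _ = ∑' b, ∑' u₁, ∑' v, ∑' v₁, ∑' u, gg P₁ lam a u₁ * (gg P₁ lam a v₁ * (gg P₂ lam b u *
        (gg P₂ lam b v * (φ (a, b) * F (a, b) (u₁, v) (v₁, u))))) :=
        c4_perm (fun u₁ v₁ b u v => gg P₁ lam a u₁ * (gg P₁ lam a v₁ * (gg P₂ lam b u *
        (gg P₂ lam b v * (φ (a, b) * F (a, b) (u₁, v) (v₁, u))))))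
    _ = _ := by
        refine tsum_congr fun b => ?_
        rw [ENNReal.tsum_prod']
        refine tsum_congr fun u₁ => tsum_congr fun v₂ => ?_
        rw [ENNReal.tsum_prod']
        refine tsum_congr fun v₁ => tsum_congr fun u₂ => ?_
        unfold g2
        ring

end Pool.Agent.FPP
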