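import Pool.Agent.FPP.Defs

open scoped ENNReal BigOperators
open MeasureTheory Filter Topology

namespace Pool.Agent.FPP

/-!
**[FPP-C6] Separated points in rich cells.**
PROOF. Put `M = L * (2 * G + 1) ^ 2` and let the cell of `p` be `(⌊a p⌋, ⌊b p⌋) : ℤ × ℤ`. Points of the same cell satisfy `|a p - a q| ≤ 1`, `|b p - b q| ≤ 1`. Greedy choice: a finite set `T ⊆ ℕ × ℕ` with at least `L * (2 * G + 1) ^ 2` elements contains `L` pairwise separated ones (induction on `L`: choose one element, discard the at most `(2 * G + 1) ^ 2` elements of the box of radius `G` around it). So if `p` is in the filtered set, its cell contains fewer than `M` elements of `S` (at most `M`). The number of cells is at most `(2 A + 2) * (2 B + 2)`: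
`⌊a p⌋ ∈ Finset.Icc ⌊-A⌋ ⌊A⌋` which has `⌊A⌋ - ⌊-A⌋ + 1 ≤ 2 A + 2` elements. `Finset.card_le_mul_card_image` (or `Finset.card_eq_sum_card_fiberwise`).
-/

theorem pigeon_greedy (G : ℕ) : ∀ (L : ℕ) (T : Finset (ℕ × ℕ)), L * (2 * G + 1) ^ 2 ≤ T.card →
    ∃ q : Fin L → ℕ × ℕ, (∀ i, q i ∈ T) ∧
      ∀ i j, i ≠ j → ((q i).1 + G ≤ (q j).1 ∨ (q j).1 + G ≤ (q i).1) ∨
          ((q i).2 + G ≤ (q j).2 ∨ (q j).2 + G ≤ (q i).2) := by
  intro L
  induction L with
  | zero =>
    intro T _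
    exact ⟨fun i => i.elim0, fun i => i.elim0, fun i => i.elim0⟩
  | succ L ih =>
    intro T hT
    have hpos : 0 < T.card := by
      refine lt_of_lt_of_le ?_ hT
      positivity
    obtain ⟨x, hx⟩ := Finset.card_pos.1 hpos
    set T' := T.filter (fun y => (x.1 + G ≤ y.1 ∨ y.1 + G ≤ x.1) ∨
      (x.2 + G ≤ y.2 ∨ y.2 + G ≤ x.2)) with hT'
    have hsub : T ⊆ T' ∪ (Finset.Icc (x.1 - G) (x.1 + G) ×ˢ Finset.Icc (x.2 - G) (x.2 + G)) := by
      intro y hy
      rw [Finset.mem_union, hT', Finset.mem_filter, Finset.mem_product, Finset.mem_Icc,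
        Finset.mem_Icc]
      by_cases h : (x.1 + G ≤ y.1 ∨ y.1 + G ≤ x.1) ∨ (x.2 + G ≤ y.2 ∨ y.2 + G ≤ x.2)
      · exact Or.inl ⟨hy, h⟩
      · right
        push Not at h
        omega
    have hc1 : ∀ z : ℕ, (Finset.Icc (z - G) (z + G)).card ≤ 2 * G + 1 := by
      intro z
      rw [Nat.card_Icc]
      omega
    have hcard : T.card ≤ T'.card + (2 * G + 1) ^ 2 := by
      refine (Finset.card_le_card hsub).trans ((Finset.card_union_le _ _).trans ?_)
      rw [Finset.card_product, sq]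
      exact Nat.add_le_add_left (Nat.mul_le_mul (hc1 _) (hc1 _)) _
    have hT'c : L * (2 * G + 1) ^ 2 ≤ T'.card := by
      have := hT.trans hcard
      rw [add_mul, one_mul] at this
      omega
    obtain ⟨q, hq1, hq2⟩ := ih T' hT'c
    refine ⟨Fin.cons x q, ?_, ?_⟩
    · intro i
      refine Fin.cases ?_ (fun j => ?_) i
      · simpa using hx
      · simp only [Fin.cons_succ]
        exact (Finset.mem_filter.1 (hq1 j)).1
    · intro i j
      refine Fin.cases ?_ (fun i' => ?_) i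
      · refine Fin.cases ?_ (fun j' => ?_) j
        · intro h
          exact absurd rfl h
        · intro _
          simp only [Fin.cons_succ, Fin.cons_zero]
          exact (Finset.mem_filter.1 (hq1 j')).2
      · refine Fin.cases ?_ (fun j' => ?_) j
        · intro _
          simp only [Fin.cons_succ, Fin.cons_zero]
          have := (Finset.mem_filter.1 (hq1 i')).2
          tauto
        · intro h
          simp only [Fin.cons_succ]
          refine hq2 i' j' fun h' => h ?_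
          rw [h']

theorem pigeon (G L : ℕ) (A B : ℝ) (hA : 0 ≤ A) (hB : 0 ≤ B) (S : Finset (ℕ × ℕ))
    (a b : ℕ × ℕ → ℝ) (ha : ∀ p ∈ S, |a p| ≤ A) (hb : ∀ p ∈ S, |b p| ≤ B) :
    ∃ T : Finset (ℕ × ℕ), (T.card : ℝ) ≤ (2 * A + 2) * (2 * B + 2) * (L * (2 * G + 1) ^ 2) ∧
      ∀ p ∈ S, p ∉ T → ∃ q : Fin L → ℕ × ℕ,
        (∀ i, q i ∈ S ∧ |a (q i) - a p| ≤ 1 ∧ |b (q i) - b p| ≤ 1) ∧
        ∀ i j, i ≠ j → ((q i).1 + G ≤ (q j).1 ∨ (q j).1 + G ≤ (q i).1) ∨
          ((q i).2 + G ≤ (q j).2 ∨ (q j).2 + G ≤ (q i).2) := by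
  classical
  set cell : ℕ × ℕ → ℤ × ℤ := fun p => (⌊a p⌋, ⌊b p⌋) with hcell
  set M : ℕ := L * (2 * G + 1) ^ 2 with hM
  set T : Finset (ℕ × ℕ) := S.filter (fun p => (S.filter (fun q => cell q = cell p)).card < M)
    with hT
  refine ⟨T, ?_, ?_⟩
  · have h1 : T.card ≤ M * (T.image cell).card := by
      refine Finset.card_le_mul_card_image T M fun c hc => ?_
      obtain ⟨p, hp, rfl⟩ := Finset.mem_image.1 hc
      have hp2 := (Finset.mem_filter.1 hp).2
      refine le_trans (Finset.card_le_card ?_) hp2.le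
      intro q hq
      rw [Finset.mem_filter] at hq ⊢
      exact ⟨(Finset.mem_filter.1 hq.1).1, hq.2⟩
    have h2 : T.image cell ⊆ Finset.Icc ⌊-A⌋ ⌊A⌋ ×ˢ Finset.Icc ⌊-B⌋ ⌊B⌋ := by
      intro c hc
      obtain ⟨p, hp, rfl⟩ := Finset.mem_image.1 hc
      have hpS := (Finset.mem_filter.1 hp).1
      have e1 := abs_le.1 (ha p hpS)
      have e2 := abs_le.1 (hb p hpS)
      rw [Finset.mem_product, Finset.mem_Icc, Finset.mem_Icc]
      exact ⟨⟨Int.floor_le_floor e1.1, Int.floor_le_floor e1.2⟩,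
        ⟨Int.floor_le_floor e2.1, Int.floor_le_floor e2.2⟩⟩
    have h3 : ∀ X : ℝ, 0 ≤ X → ((Finset.Icc ⌊-X⌋ ⌊X⌋).card : ℝ) ≤ 2 * X + 2 := by
      intro X hX
      rw [Int.card_Icc]
      have f1 : ⌊-X⌋ ≤ ⌊X⌋ := Int.floor_le_floor (by linarith)
      have f2 : (0 : ℤ) ≤ ⌊X⌋ + 1 - ⌊-X⌋ := by linarith
      have f3 : (((⌊X⌋ + 1 - ⌊-X⌋).toNat : ℕ) : ℝ) = ((⌊X⌋ + 1 - ⌊-X⌋ : ℤ) : ℝ) := by
        have := Int.toNat_of_nonneg f2
        exact_mod_cast this
      rw [f3]
      push_cast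
      have f4 := Int.floor_le X
      have f5 := Int.sub_one_lt_floor (-X)
      linarith
    have h4 : ((T.image cell).card : ℝ) ≤ (2 * A + 2) * (2 * B + 2) := by
      have h5 := Finset.card_le_card h2
      rw [Finset.card_product] at h5
      have h6 : ((T.image cell).card : ℝ) ≤ ((Finset.Icc ⌊-A⌋ ⌊A⌋).card : ℝ) *
          ((Finset.Icc ⌊-B⌋ ⌊B⌋).card : ℝ) := by exact_mod_cast h5
      refine h6.trans ?_
      have := h3 A hA
      have := h3 B hB
      gcongr
    have h7 : (T.card : ℝ) ≤ (M : ℝ) * ((T.image cell).card : ℝ) := by exact_mod_cast h1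
    refine h7.trans ?_
    have h8 : (M : ℝ) = L * (2 * G + 1) ^ 2 := by
      rw [hM]; push_cast; ring
    rw [h8, mul_comm]
    gcongr
  · intro p hp hpT
    have h1 : M ≤ (S.filter (fun q => cell q = cell p)).card := by
      by_contra h
      exact hpT (Finset.mem_filter.2 ⟨hp, not_le.1 h⟩)
    obtain ⟨q, hq1, hq2⟩ := pigeon_greedy G L _ h1
    refine ⟨q, fun i => ?_, hq2⟩
    have h2 := Finset.mem_filter.1 (hq1 i)
    have h3 : ⌊a (q i)⌋ = ⌊a p⌋ ∧ ⌊b (q i)⌋ = ⌊b p⌋ := by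
      have := h2.2
      simp only [hcell, Prod.mk.injEq] at this
      exact this
    exact ⟨h2.1, (Int.abs_sub_lt_one_of_floor_eq_floor h3.1).le,
      (Int.abs_sub_lt_one_of_floor_eq_floor h3.2).le⟩

end Pool.Agent.FPP
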