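import Pool.Agent.FPP.Defs
import Pool.Agent.FPP.K3
import Pool.Agent.FPP.K4
import Pool.Agent.FPP.K5

open scoped ENNReal BigOperators
open MeasureTheory Filter Topology

namespace Pool.Agent.FPP

/-!
**[FPP-K6] Harnack inequality.**
PROOF. `harnack`: `gg P lam x z ≥ lam ^ k * mulK (pw P k) (gg P lam) x z ≥ lam ^ k * pw P k x y * gg P lam y z ≥ (1/2) ^ k * κ ^ k * gg P lam y z` (`gg_ge`, `ENNReal.le_tsum`, `pw_low`). `ell_nonneg`: `gg ≤ 1`. `ell_lip`: take logarithms of `harnack` (all values are positive and finite, `gg_pos`, `gg_le_one`; `κ.toReal ∈ (0, 1]`), and use it also with `x`, `y` exchanged (`pw_symm`): `Real.log (κ / 2) = - cc κ`.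
`ell_le`: `gg P lam x y ≥ (κ / 2) ^ k * gg P lam y y ≥ (κ / 2) ^ k * (1 - lam)` (`harnack` with `z = y`, `gg_diag`). `(1 - lam).toReal = 1 - lam.toReal`.
-/

theorem harnack {Γ : Type} [Group Γ] {Ω : Type} [MulAction Γ Ω] {P : Ω → Ω → ℝ≥0∞} {κ ρ : ℝ≥0∞} (hK : IsKern Γ P κ ρ) {lam : ℝ≥0∞} (hlam : 2⁻¹ ≤ lam) {k : ℕ} {x y : Ω}
    (h : pw P k x y ≠ 0) (z : Ω) : (κ / 2) ^ k * gg P lam y z ≤ gg P lam x z := by
  refine le_trans ?_ (gg_ge P lam k x z)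
  have h1 : pw P k x y * gg P lam y z ≤ mulK (pw P k) (gg P lam) x z :=
    ENNReal.le_tsum (f := fun y => pw P k x y * gg P lam y z) y
  refine le_trans ?_ (mul_le_mul_right h1 (lam ^ k))
  have h2 : (κ / 2) ^ k = (2⁻¹) ^ k * κ ^ k := by
    rw [ENNReal.div_eq_inv_mul, mul_pow]
  rw [h2, mul_assoc]
  exact mul_le_mul' (pow_le_pow_left' hlam k) (mul_le_mul' (pw_low hK k x y h) le_rfl)

theorem k6_kap {Γ : Type} [Group Γ] {Ω : Type} [MulAction Γ Ω] {P : Ω → Ω → ℝ≥0∞} {κ ρ : ℝ≥0∞} (hK : IsKern Γ P κ ρ) :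
    0 < κ.toReal ∧ κ.toReal ≤ 1 := by
  have h1 : κ ≠ ⊤ := (hK.κ_le.trans_lt ENNReal.one_lt_top).ne
  refine ⟨ENNReal.toReal_pos hK.κ_pos h1, ?_⟩
  have h2 := ENNReal.toReal_mono ENNReal.one_ne_top hK.κ_le
  rwa [ENNReal.toReal_one] at h2

theorem cc_nonneg {Γ : Type} [Group Γ] {Ω : Type} [MulAction Γ Ω] {P : Ω → Ω → ℝ≥0∞} {κ ρ : ℝ≥0∞} (hK : IsKern Γ P κ ρ) : 0 ≤ cc κ := by
  obtain ⟨h1, h2⟩ := k6_kap hK
  unfold cc
  refine Real.log_nonneg ?_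
  rw [le_div_iff₀ h1]
  linarith

theorem ell_nonneg {Ω : Type} {P : Ω → Ω → ℝ≥0∞} (hP : ∀ x, ∑' y, P x y = 1) {lam : ℝ≥0∞}
    (h : lam < 1) (x y : Ω) : 0 ≤ ell P lam x y := by
  unfold ell
  have h1 := ENNReal.toReal_mono ENNReal.one_ne_top (gg_le_one hP h x y)
  rw [ENNReal.toReal_one] at h1
  have h2 := Real.log_nonpos ENNReal.toReal_nonneg h1
  linarith

theorem ell_symm {Ω : Type} {P : Ω → Ω → ℝ≥0∞} (hP : ∀ x y, P x y = P y x) (lam : ℝ≥0∞) (x y : Ω) :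
    ell P lam x y = ell P lam y x := by
  unfold ell
  rw [gg_symm hP]

theorem ell_inv {Γ : Type} [Group Γ] {Ω : Type} [MulAction Γ Ω] {P : Ω → Ω → ℝ≥0∞}
    (h : ∀ (g : Γ) (x y : Ω), P (g • x) (g • y) = P x y) (lam : ℝ≥0∞) (g : Γ) (x y : Ω) :
    ell P lam (g • x) (g • y) = ell P lam x y := by
  unfold ell
  rw [gg_inv h]

theorem k6_half {Γ : Type} [Group Γ] {Ω : Type} [MulAction Γ Ω] {P : Ω → Ω → ℝ≥0∞} {κ ρ : ℝ≥0∞} (hK : IsKern Γ P κ ρ) {lam : ℝ≥0∞} (h1 : 2⁻¹ ≤ lam) (h2 : lam < 1) {k : ℕ}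
    {x y : Ω} (h : pw P k x y ≠ 0) (z : Ω) : ell P lam x z - ell P lam y z ≤ k * cc κ := by
  obtain ⟨k1, k2⟩ := k6_kap hK
  have hl0 : lam ≠ 0 := fun h0 => by
    rw [h0, nonpos_iff_eq_zero, ENNReal.inv_eq_zero] at h1
    exact ENNReal.ofNat_ne_top h1
  have f1 : gg P lam x z ≠ ⊤ := ((gg_le_one hK.sum_one h2 x z).trans_lt ENNReal.one_lt_top).ne
  have f2 : gg P lam y z ≠ ⊤ := ((gg_le_one hK.sum_one h2 y z).trans_lt ENNReal.one_lt_top).ne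
  have p1 : 0 < (gg P lam x z).toReal := ENNReal.toReal_pos (gg_pos hK hl0 h2 x z) f1
  have p2 : 0 < (gg P lam y z).toReal := ENNReal.toReal_pos (gg_pos hK hl0 h2 y z) f2
  have h3 := ENNReal.toReal_mono f1 (harnack hK h1 h z)
  rw [ENNReal.toReal_mul, ENNReal.toReal_pow, ENNReal.toReal_div, ENNReal.toReal_ofNat] at h3
  have h4 : 0 < κ.toReal / 2 := by positivity
  have h5 := Real.log_le_log (by positivity) h3
  rw [Real.log_mul (by positivity) p2.ne', Real.log_pow] at h5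
  have h6 : cc κ = -Real.log (κ.toReal / 2) := by
    unfold cc
    rw [← Real.log_inv, inv_div]
  unfold ell
  rw [h6]
  linarith

theorem ell_lip {Γ : Type} [Group Γ] {Ω : Type} [MulAction Γ Ω] {P : Ω → Ω → ℝ≥0∞} {κ ρ : ℝ≥0∞} (hK : IsKern Γ P κ ρ) {lam : ℝ≥0∞} (h1 : 2⁻¹ ≤ lam) (h2 : lam < 1) {k : ℕ}
    {x y : Ω} (h : pw P k x y ≠ 0) (z : Ω) : |ell P lam x z - ell P lam y z| ≤ k * cc κ := by
  rw [abs_sub_le_iff]
  refine ⟨k6_half hK h1 h2 h z, k6_half hK h1 h2 ?_ z⟩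
  rw [pw_symm hK.symm]
  exact h

theorem ell_le {Γ : Type} [Group Γ] {Ω : Type} [MulAction Γ Ω] {P : Ω → Ω → ℝ≥0∞} {κ ρ : ℝ≥0∞} (hK : IsKern Γ P κ ρ) {lam : ℝ≥0∞} (h1 : 2⁻¹ ≤ lam) (h2 : lam < 1) {k : ℕ}
    {x y : Ω} (h : pw P k x y ≠ 0) : ell P lam x y ≤ -Real.log (1 - lam.toReal) + k * cc κ := by
  have h3 := k6_half hK h1 h2 h y
  have hlt : lam ≠ ⊤ := (h2.trans ENNReal.one_lt_top).ne
  have h4 : ell P lam y y ≤ -Real.log (1 - lam.toReal) := by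
    unfold ell
    have h5 : lam.toReal < 1 := by
      have := (ENNReal.toReal_lt_toReal hlt ENNReal.one_ne_top).2 h2
      rwa [ENNReal.toReal_one] at this
    have f2 : gg P lam y y ≠ ⊤ := ((gg_le_one hK.sum_one h2 y y).trans_lt ENNReal.one_lt_top).ne
    have h6 := ENNReal.toReal_mono f2 (gg_diag P lam y)
    rw [ENNReal.toReal_sub_of_le h2.le ENNReal.one_ne_top, ENNReal.toReal_one] at h6
    have h7 := Real.log_le_log (by linarith) h6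
    linarith
  linarith

end Pool.Agent.FPP
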