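import Pool.Agent.FPP.Defs
import Pool.Agent.FPP.K4

open scoped ENNReal BigOperators
open MeasureTheory Filter Topology

namespace Pool.Agent.FPP

theorem sqrt_mul_le (a b : ℝ≥0∞) : a ^ (1 / 2 : ℝ) * b ^ (1 / 2 : ℝ) ≤ a / 2 + b / 2 := by
  have h := ENNReal.young_inequality (a ^ (1 / 2 : ℝ)) (b ^ (1 / 2 : ℝ))
    (p := 2) (q := 2) (Real.HolderConjugate.two_two)
  have e : ∀ c : ℝ≥0∞, (c ^ (1 / 2 : ℝ)) ^ (2 : ℝ) = c := by
    intro c
    rw [← ENNReal.rpow_mul]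
    norm_num
  rw [e, e] at h
  have e2 : ENNReal.ofReal 2 = 2 := by norm_num
  rw [e2] at h
  exact h

theorem hh_le_one {Ω : Type} {P : Ω → Ω → ℝ≥0∞} (hP : ∀ x, ∑' y, P x y = 1) {lam : ℝ≥0∞}
    (h : lam < 1) (x y : Ω) : hh P lam x y ≤ 1 := by
  unfold hh
  calc ∑' z, gg P lam x z ^ (1 / 2 : ℝ) * gg P lam y z ^ (1 / 2 : ℝ)
      ≤ ∑' z, (gg P lam x z / 2 + gg P lam y z / 2) :=
        ENNReal.tsum_le_tsum fun z => sqrt_mul_le _ _
    _ = 1 := by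
        rw [ENNReal.tsum_add]
        simp only [div_eq_mul_inv]
        rw [ENNReal.tsum_mul_right, ENNReal.tsum_mul_right, gg_sum hP h, gg_sum hP h]
        simp [ENNReal.inv_two_add_inv_two]

theorem hh_symm {Ω : Type} (P : Ω → Ω → ℝ≥0∞) (lam : ℝ≥0∞) (x y : Ω) :
    hh P lam x y = hh P lam y x := by
  unfold hh
  exact tsum_congr fun z => mul_comm _ _

theorem hh_inv {Γ : Type} [Group Γ] {Ω : Type} [MulAction Γ Ω] {P : Ω → Ω → ℝ≥0∞}
    (h : ∀ (g : Γ) (x y : Ω), P (g • x) (g • y) = P x y) (lam : ℝ≥0∞) (g : Γ) (x y : Ω) :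
    hh P lam (g • x) (g • y) = hh P lam x y := by
  unfold hh
  rw [← (MulAction.toPerm g).tsum_eq]
  exact tsum_congr fun z => by
    simp only [MulAction.toPerm_apply]
    rw [gg_inv h, gg_inv h]

end Pool.Agent.FPP
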