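import Pool.Agent.FPP.Defs
import Pool.Agent.FPP.K2
import Pool.Agent.FPP.K3
import Pool.Agent.FPP.K4
import Pool.Agent.FPP.K6
import Pool.Agent.FPP.K7

open scoped ENNReal BigOperators
open MeasureTheory Filter Topology

namespace Pool.Agent.FPP

/-!
**[FPP-C7] Good positions give good pairs.**
PROOF. Take `y i = (τ₁.1 (q i).1, τ₂.1 (q i).2)`; by `hGP i` there are `g` with `near P₁ P₂ D (τ₁.1 ((q i).1 + r), τ₂.1 (q i).2) (g • o)` (this is `u i`) and `near P₁ P₂ D (τ₁.1 ((q i).1 - r), τ₂.1 (q i).2) (g • o)` (this is `v i`). (1) `near n (x_k, y_l) (y i)`: `tr_near`, `pw_symm`, `pw_mono`. `near m (y i) (u i • o)`: first factor `r` steps along `τ₁` (`tr_near`) and then `D` steps (`pw_trans`), second factor `D ≤ m` steps. The same for `v i` (`pw_symm`). (2) with `a, b` as in the hypotheses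
`ha`, `hb`: `L2 (y i) ωi = (b - a) / 2`, `L2 (y i) ωj = (a + b) / 2`, so both differences are at most `1`. (3) Put `p = (τ₁.1 ((q i).1 + r), τ₂.1 (q i).2)`. The second coordinate is that of `y i`, so the conditions in `GP` give `L2 p ωj - L2 p ωi ≥ L2 (y i) ωj - L2 (y i) ωi + 2 R'`, and `|L2 (u i • o) ω' - L2 p ω'| ≤ D * cc κ₁ + D * cc κ₂` for every `ω'` (`ell_lip` in both factors, `(g • o).1 = g • o.1`), hence (3) by `hR`. (4) the same with `(q i).1 - r`.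
(5) If the first coordinates of `q i`, `q j` are separated then `hh P₁ ≤ δ` by `GP` and `hh P₂ ≤ 1` (`hh_le_one`); otherwise exchange the roles.
-/

theorem pw_near_tr {Γ : Type} [Group Γ] {Ω : Type} [MulAction Γ Ω] {P : Ω → Ω → ℝ≥0∞}
    {κ ρ : ℝ≥0∞} (hK : IsKern Γ P κ ρ) {n : ℕ} {τ : Tr Ω} (h : TrOk P n τ) {s t : ℕ}
    (hs : s ≤ n) (ht : t ≤ n) : pw P n (τ.1 s) (τ.1 t) ≠ 0 := by
  rcases le_total s t with hst | hst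
  · exact pw_mono hK ((Nat.sub_le _ _).trans ht) (tr_near h hst ht)
  · rw [pw_symm hK.symm]
    exact pw_mono hK ((Nat.sub_le _ _).trans hs) (tr_near h hst hs)

private theorem L2_lip_seven {Γ : Type} [Group Γ] {Ω₁ Ω₂ : Type} [MulAction Γ Ω₁] [MulAction Γ Ω₂]
    {P₁ : Ω₁ → Ω₁ → ℝ≥0∞} {P₂ : Ω₂ → Ω₂ → ℝ≥0∞} {κ₁ ρ₁ κ₂ ρ₂ : ℝ≥0∞} (hK₁ : IsKern Γ P₁ κ₁ ρ₁)
    (hK₂ : IsKern Γ P₂ κ₂ ρ₂) {lam : ℝ≥0∞} (h1 : 2⁻¹ ≤ lam) (h2 : lam < 1) {D : ℕ}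
    {p p' : Ω₁ × Ω₂} (h : near P₁ P₂ D p p') (z : Ω₁ × Ω₂) :
    |L2 P₁ P₂ lam p' z - L2 P₁ P₂ lam p z| ≤ D * cc κ₁ + D * cc κ₂ := by
  have e1 := ell_lip hK₁ h1 h2 h.1 z.1
  have e2 := ell_lip hK₂ h1 h2 h.2 z.2
  rw [abs_le] at e1 e2 ⊢
  simp only [L2]
  constructor <;> linarith [e1.1, e1.2, e2.1, e2.2]

theorem good_of_sites {Γ : Type} [Group Γ] {Ω₁ Ω₂ : Type} [MulAction Γ Ω₁] [MulAction Γ Ω₂]
    {P₁ : Ω₁ → Ω₁ → ℝ≥0∞} {P₂ : Ω₂ → Ω₂ → ℝ≥0∞} {κ₁ ρ₁ κ₂ ρ₂ : ℝ≥0∞} (hK₁ : IsKern Γ P₁ κ₁ ρ₁)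
    (hK₂ : IsKern Γ P₂ κ₂ ρ₂) {lam : ℝ≥0∞} (h1 : 2⁻¹ ≤ lam) (h2 : lam < 1) (o : Ω₁ × Ω₂)
    {n r D G L m : ℕ} {R R' η : ℝ} {δ : ℝ≥0∞} (hm : r + D ≤ m)
    (hR : R + 2 * (D * cc κ₁ + D * cc κ₂) ≤ 2 * R') (τ₁ : Tr Ω₁) (τ₂ : Tr Ω₂)
    (hτ₁ : TrOk P₁ n τ₁) (hτ₂ : TrOk P₂ n τ₂) (k l : ℕ) (hk : k ≤ n) (hl : l ≤ n)
    (q : Fin L → ℕ × ℕ) (hq : ∀ i, r ≤ (q i).1 ∧ (q i).1 + r ≤ n ∧ (q i).2 ≤ n)
    (hGP : ∀ i, GP Γ P₁ P₂ lam o n r D G R' η δ τ₁ τ₂ (q i).1 (q i).2)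
    (a b : ℕ × ℕ → ℝ)
    (ha : ∀ p, a p = L2 P₁ P₂ lam (τ₁.1 p.1, τ₂.1 p.2) (τ₁.2.2, τ₂.2.1) -
      L2 P₁ P₂ lam (τ₁.1 p.1, τ₂.1 p.2) (τ₁.2.1, τ₂.2.2))
    (hb : ∀ p, b p = L2 P₁ P₂ lam (τ₁.1 p.1, τ₂.1 p.2) (τ₁.2.2, τ₂.2.1) +
      L2 P₁ P₂ lam (τ₁.1 p.1, τ₂.1 p.2) (τ₁.2.1, τ₂.2.2))
    (hc : ∀ i, |a (q i) - a (k, l)| ≤ 1 ∧ |b (q i) - b (k, l)| ≤ 1)
    (hs : ∀ i j, i ≠ j → ((q i).1 + G ≤ (q j).1 ∨ (q j).1 + G ≤ (q i).1) ∨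
      ((q i).2 + G ≤ (q j).2 ∨ (q j).2 + G ≤ (q i).2)) :
    Good Γ P₁ P₂ lam o R m L δ n (τ₁.1 k, τ₂.1 l) (τ₁.2.1, τ₂.2.2) (τ₁.2.2, τ₂.2.1) := by
  classical
  choose u hu using fun i => (hGP i).2.2.2.2.1
  choose v hv using fun i => (hGP i).2.2.2.2.2.1
  refine ⟨fun i => (τ₁.1 (q i).1, τ₂.1 (q i).2), u, v, fun i => ⟨?_, ?_, ?_⟩, fun i => ?_,
    fun i => ?_, fun i => ?_, fun i j hij => ?_⟩
  · -- near K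
    obtain ⟨hq1, hq2, hq3⟩ := hq i
    exact ⟨pw_near_tr hK₁ hτ₁ hk (by omega), pw_near_tr hK₂ hτ₂ hl hq3⟩
  · obtain ⟨hq1, hq2, hq3⟩ := hq i
    have e1 : pw P₁ r (τ₁.1 (q i).1) (τ₁.1 ((q i).1 + r)) ≠ 0 := by
      have := tr_near hτ₁ (s := (q i).1) (t := (q i).1 + r) (by omega) hq2
      rwa [Nat.add_sub_cancel_left] at this
    exact ⟨pw_mono hK₁ hm (pw_trans e1 (hu i).1), pw_mono hK₂ (by omega) (hu i).2⟩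
  · obtain ⟨hq1, hq2, hq3⟩ := hq i
    have e1 : pw P₁ r (τ₁.1 (q i).1) (τ₁.1 ((q i).1 - r)) ≠ 0 := by
      rw [pw_symm hK₁.symm]
      have := tr_near hτ₁ (s := (q i).1 - r) (t := (q i).1) (by omega) (by omega)
      rwa [Nat.sub_sub_self hq1] at this
    exact ⟨pw_mono hK₁ hm (pw_trans e1 (hv i).1), pw_mono hK₂ (by omega) (hv i).2⟩
  · -- differences
    have e1 := (hc i).1
    have e2 := (hc i).2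
    rw [ha, ha] at e1
    rw [hb, hb] at e2
    rw [abs_le] at e1 e2
    constructor
    · rw [abs_le]
      constructor <;> linarith [e1.1, e1.2, e2.1, e2.2]
    · rw [abs_le]
      constructor <;> linarith [e1.1, e1.2, e2.1, e2.2]
  · -- u
    obtain ⟨g1, g2, g3, g4, -⟩ := hGP i
    have f1 := abs_le.1 (L2_lip_seven hK₁ hK₂ h1 h2 (hu i) (τ₁.2.2, τ₂.2.1))
    have f2 := abs_le.1 (L2_lip_seven hK₁ hK₂ h1 h2 (hu i) (τ₁.2.1, τ₂.2.2))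
    have f3 : L2 P₁ P₂ lam (τ₁.1 (q i).1, τ₂.1 (q i).2) (τ₁.2.2, τ₂.2.1) -
        L2 P₁ P₂ lam (τ₁.1 (q i).1, τ₂.1 (q i).2) (τ₁.2.1, τ₂.2.2) + 2 * R' ≤
        L2 P₁ P₂ lam (τ₁.1 ((q i).1 + r), τ₂.1 (q i).2) (τ₁.2.2, τ₂.2.1) -
        L2 P₁ P₂ lam (τ₁.1 ((q i).1 + r), τ₂.1 (q i).2) (τ₁.2.1, τ₂.2.2) := by
      simp only [L2]
      linarith
    linarith [f1.1, f1.2, f2.1, f2.2]
  · obtain ⟨g1, g2, g3, g4, -⟩ := hGP i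
    have f1 := abs_le.1 (L2_lip_seven hK₁ hK₂ h1 h2 (hv i) (τ₁.2.2, τ₂.2.1))
    have f2 := abs_le.1 (L2_lip_seven hK₁ hK₂ h1 h2 (hv i) (τ₁.2.1, τ₂.2.2))
    have f3 : L2 P₁ P₂ lam (τ₁.1 ((q i).1 - r), τ₂.1 (q i).2) (τ₁.2.2, τ₂.2.1) -
        L2 P₁ P₂ lam (τ₁.1 ((q i).1 - r), τ₂.1 (q i).2) (τ₁.2.1, τ₂.2.2) ≤
        L2 P₁ P₂ lam (τ₁.1 (q i).1, τ₂.1 (q i).2) (τ₁.2.2, τ₂.2.1) -
        L2 P₁ P₂ lam (τ₁.1 (q i).1, τ₂.1 (q i).2) (τ₁.2.1, τ₂.2.2) - 2 * R' := by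
      simp only [L2]
      linarith
    linarith [f1.1, f1.2, f2.1, f2.2]
  · obtain ⟨-, -, -, -, -, -, g7, g8, -⟩ := hGP i
    obtain ⟨hq1, hq2, hq3⟩ := hq j
    show hh P₁ lam (τ₁.1 (q i).1) (τ₁.1 (q j).1) * hh P₂ lam (τ₂.1 (q i).2) (τ₂.1 (q j).2) ≤ δ
    rcases hs i j hij with h | h
    · have e1 := g7 (q j).1 (by omega) (by tauto)
      calc hh P₁ lam (τ₁.1 (q i).1) (τ₁.1 (q j).1) * hh P₂ lam (τ₂.1 (q i).2) (τ₂.1 (q j).2)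
          ≤ δ * 1 := by
            gcongr
            exact hh_le_one hK₂.sum_one h2 _ _
        _ = δ := mul_one _
    · have e1 := g8 (q j).2 hq3 (by tauto)
      calc hh P₁ lam (τ₁.1 (q i).1) (τ₁.1 (q j).1) * hh P₂ lam (τ₂.1 (q i).2) (τ₂.1 (q j).2)
          ≤ 1 * δ := by
            gcongr
            exact hh_le_one hK₁.sum_one h2 _ _
        _ = δ := one_mul _

end Pool.Agent.FPP
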