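import Pool.Agent.FPP.Defs
import Pool.Agent.FPP.K3
import Pool.Agent.FPP.K6
import Pool.Agent.FPP.C6
import Pool.Agent.FPP.C7

open scoped ENNReal BigOperators
open MeasureTheory Filter Topology

namespace Pool.Agent.FPP

/-!
**[FPP-C8] Counting bad positions.**
PROOF. Let `box = Finset.Icc r (n - r) ×ˢ Finset.Icc r (n - r)`, `S` the set of `p ∈ box` with `GP … p.1 p.2`, and `a p = L2 (τ₁.1 p.1, τ₂.1 p.2) ωj - L2 (…) ωi`, `b p` the sum, with `ωi = (τ₁.2.1, τ₂.2.2)`, `ωj = (τ₁.2.2, τ₂.2.1)`. By `ell_lip` and `tr_near` (`pw_symm` for the direction) `|ell P₁ lam (τ₁.1 k) w - ell P₁ lam (τ₁.1 0) w| ≤ k * cc κ₁ ≤ n * cc κ₁`, so `|a p - a (0, 0)| ≤ 2 * (cc κ₁ + cc κ₂) * n`; and `b p - b (0, 0) = dv P₁ lam τ₁ p.1 + dv P₂ lam τ₂ p.2`, at most `2 * η * n` in absolute value for `p ∈ S`.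
Apply `pigeon` to `S`, `a - a (0, 0)`, `b - b (0, 0)` with `A = 2 * (cc κ₁ + cc κ₂) * n`, `B = 2 * η * n`: a set `T` such that for `p ∈ S`, `p ∉ T` the theorem `good_of_sites` gives `Good … p`. So `ind (¬Good p) ≤ ind (¬GP p) + ind (p ∈ T)` for `p ∈ box`; sum over `box`. (`hη : 0 ≤ η`.)
-/

theorem bad_count {Γ : Type} [Group Γ] {Ω₁ Ω₂ : Type} [MulAction Γ Ω₁] [MulAction Γ Ω₂]
    {P₁ : Ω₁ → Ω₁ → ℝ≥0∞} {P₂ : Ω₂ → Ω₂ → ℝ≥0∞} {κ₁ ρ₁ κ₂ ρ₂ : ℝ≥0∞} (hK₁ : IsKern Γ P₁ κ₁ ρ₁)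
    (hK₂ : IsKern Γ P₂ κ₂ ρ₂) {lam : ℝ≥0∞} (h1 : 2⁻¹ ≤ lam) (h2 : lam < 1) (o : Ω₁ × Ω₂)
    {n r D G L m : ℕ} {R R' η : ℝ} {δ : ℝ≥0∞} (hη : 0 ≤ η) (hm : r + D ≤ m)
    (hR : R + 2 * (D * cc κ₁ + D * cc κ₂) ≤ 2 * R') (τ₁ : Tr Ω₁) (τ₂ : Tr Ω₂)
    (hτ₁ : TrOk P₁ n τ₁) (hτ₂ : TrOk P₂ n τ₂) :
    ∑ p ∈ Finset.Icc r (n - r) ×ˢ Finset.Icc r (n - r),
        ind (¬Good Γ P₁ P₂ lam o R m L δ n (τ₁.1 p.1, τ₂.1 p.2) (τ₁.2.1, τ₂.2.2)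
          (τ₁.2.2, τ₂.2.1)) ≤
      ∑ p ∈ Finset.Icc r (n - r) ×ˢ Finset.Icc r (n - r),
        ind (¬GP Γ P₁ P₂ lam o n r D G R' η δ τ₁ τ₂ p.1 p.2) +
      ENNReal.ofReal ((2 * (2 * (cc κ₁ + cc κ₂) * n) + 2) * (2 * (2 * η * n) + 2) *
        (L * (2 * G + 1) ^ 2)) := by
  classical
  set box := Finset.Icc r (n - r) ×ˢ Finset.Icc r (n - r) with hbox
  obtain ⟨a, ha⟩ : ∃ a : ℕ × ℕ → ℝ, ∀ p, a p = L2 P₁ P₂ lam (τ₁.1 p.1, τ₂.1 p.2)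
      (τ₁.2.2, τ₂.2.1) - L2 P₁ P₂ lam (τ₁.1 p.1, τ₂.1 p.2) (τ₁.2.1, τ₂.2.2) :=
    ⟨fun p => _, fun p => rfl⟩
  obtain ⟨b, hb⟩ : ∃ b : ℕ × ℕ → ℝ, ∀ p, b p = L2 P₁ P₂ lam (τ₁.1 p.1, τ₂.1 p.2)
      (τ₁.2.2, τ₂.2.1) + L2 P₁ P₂ lam (τ₁.1 p.1, τ₂.1 p.2) (τ₁.2.1, τ₂.2.2) :=
    ⟨fun p => _, fun p => rfl⟩
  have hc1 := cc_nonneg hK₁
  have hc2 := cc_nonneg hK₂
  have hn0 : (0 : ℝ) ≤ n := Nat.cast_nonneg n
  have hbx : ∀ p ∈ box, r ≤ p.1 ∧ p.1 + r ≤ n ∧ r ≤ p.2 ∧ p.2 + r ≤ n := by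
    intro p hp
    rw [hbox, Finset.mem_product, Finset.mem_Icc, Finset.mem_Icc] at hp
    obtain ⟨⟨u1, u2⟩, u3, u4⟩ := hp
    refine ⟨u1, ?_, u3, ?_⟩ <;> omega
  have step1 : ∀ t ≤ n, ∀ w, |ell P₁ lam (τ₁.1 t) w - ell P₁ lam (τ₁.1 0) w| ≤ n * cc κ₁ := by
    intro t ht w
    have h := tr_near hτ₁ (Nat.zero_le t) ht
    rw [Nat.sub_zero] at h
    have h' := ell_lip hK₁ h1 h2 h w
    rw [abs_sub_comm]
    refine h'.trans (mul_le_mul_of_nonneg_right ?_ hc1)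
    exact_mod_cast ht
  have step2 : ∀ t ≤ n, ∀ w, |ell P₂ lam (τ₂.1 t) w - ell P₂ lam (τ₂.1 0) w| ≤ n * cc κ₂ := by
    intro t ht w
    have h := tr_near hτ₂ (Nat.zero_le t) ht
    rw [Nat.sub_zero] at h
    have h' := ell_lip hK₂ h1 h2 h w
    rw [abs_sub_comm]
    refine h'.trans (mul_le_mul_of_nonneg_right ?_ hc2)
    exact_mod_cast ht
  set S := box.filter (fun p => GP Γ P₁ P₂ lam o n r D G R' η δ τ₁ τ₂ p.1 p.2) with hS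
  have hA : ∀ p ∈ S, |a p - a (0, 0)| ≤ 2 * (cc κ₁ + cc κ₂) * n := by
    intro p hp
    rw [hS, Finset.mem_filter] at hp
    obtain ⟨e1, e2, e3, e4⟩ := hbx p hp.1
    have g1 := abs_le.1 (step1 p.1 (by omega) τ₁.2.2)
    have g2 := abs_le.1 (step1 p.1 (by omega) τ₁.2.1)
    have g3 := abs_le.1 (step2 p.2 (by omega) τ₂.2.1)
    have g4 := abs_le.1 (step2 p.2 (by omega) τ₂.2.2)
    rw [ha, ha]
    simp only [L2]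
    rw [abs_le]
    constructor
    · linarith [g1.1, g1.2, g2.1, g2.2, g3.1, g3.2, g4.1, g4.2]
    · linarith [g1.1, g1.2, g2.1, g2.2, g3.1, g3.2, g4.1, g4.2]
  have hB : ∀ p ∈ S, |b p - b (0, 0)| ≤ 2 * η * n := by
    intro p hp
    rw [hS, Finset.mem_filter] at hp
    obtain ⟨-, -, -, -, -, -, -, -, d1, d2⟩ := hp.2
    unfold dv at d1 d2
    rw [abs_le] at d1 d2
    rw [hb, hb]
    simp only [L2]
    rw [abs_le]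
    constructor
    · linarith [d1.1, d2.1]
    · linarith [d1.2, d2.2]
  obtain ⟨T, hT, H⟩ := pigeon G L (2 * (cc κ₁ + cc κ₂) * n) (2 * η * n) (by positivity)
    (by positivity) S (fun p => a p - a (0, 0)) (fun p => b p - b (0, 0)) hA hB
  have key : ∀ p ∈ box, ind (¬Good Γ P₁ P₂ lam o R m L δ n (τ₁.1 p.1, τ₂.1 p.2)
      (τ₁.2.1, τ₂.2.2) (τ₁.2.2, τ₂.2.1)) ≤
      ind (¬GP Γ P₁ P₂ lam o n r D G R' η δ τ₁ τ₂ p.1 p.2) + ind (p ∈ T) := by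
    intro p hp
    refine (ind_mono ?_).trans (ind_or _ _)
    intro hg
    by_contra hcon
    rw [not_or, not_not] at hcon
    obtain ⟨hgp, hpT⟩ := hcon
    apply hg
    have hpS : p ∈ S := by
      rw [hS, Finset.mem_filter]
      exact ⟨hp, hgp⟩
    obtain ⟨q, hq1, hq2⟩ := H p hpS hpT
    obtain ⟨e1, e2, e3, e4⟩ := hbx p hp
    have hqS : ∀ i, q i ∈ box ∧ GP Γ P₁ P₂ lam o n r D G R' η δ τ₁ τ₂ (q i).1 (q i).2 := by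
      intro i
      have := (hq1 i).1
      rw [hS, Finset.mem_filter] at this
      exact this
    refine good_of_sites hK₁ hK₂ h1 h2 o hm hR τ₁ τ₂ hτ₁ hτ₂ p.1 p.2 (by omega) (by omega) q
      (fun i => ?_) (fun i => (hqS i).2) a b ha hb (fun i => ?_) hq2
    · obtain ⟨f1, f2, f3, f4⟩ := hbx (q i) (hqS i).1
      exact ⟨f1, f2, by omega⟩
    · obtain ⟨-, f1, f2⟩ := hq1 i
      have ea : a (q i) - a (0, 0) - (a p - a (0, 0)) = a (q i) - a (p.1, p.2) := by ring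
      have eb : b (q i) - b (0, 0) - (b p - b (0, 0)) = b (q i) - b (p.1, p.2) := by ring
      rw [ea] at f1
      rw [eb] at f2
      exact ⟨f1, f2⟩
  have hcount : ∑ p ∈ box, ind (p ∈ T) ≤ ENNReal.ofReal ((2 * (2 * (cc κ₁ + cc κ₂) * n) + 2) *
      (2 * (2 * η * n) + 2) * (L * (2 * G + 1) ^ 2)) := by
    have e : ∑ p ∈ box, ind (p ∈ T) = ∑ p ∈ box.filter (fun p => p ∈ T), (1 : ℝ≥0∞) := by
      rw [Finset.sum_filter]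
      refine Finset.sum_congr rfl fun p _ => ?_
      by_cases hp : p ∈ T
      · rw [ind_true hp, if_pos hp]
      · rw [ind_false hp, if_neg hp]
    rw [e]
    calc ∑ p ∈ box.filter (fun p => p ∈ T), (1 : ℝ≥0∞) ≤ ∑ p ∈ T, (1 : ℝ≥0∞) := by
          refine Finset.sum_le_sum_of_subset ?_
          intro p hp
          exact (Finset.mem_filter.1 hp).2
      _ = ENNReal.ofReal (T.card : ℝ) := by
          rw [Finset.sum_const, nsmul_eq_mul, mul_one, ENNReal.ofReal_natCast]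
      _ ≤ _ := ENNReal.ofReal_le_ofReal hT
  calc ∑ p ∈ box, ind (¬Good Γ P₁ P₂ lam o R m L δ n (τ₁.1 p.1, τ₂.1 p.2) (τ₁.2.1, τ₂.2.2)
        (τ₁.2.2, τ₂.2.1)) ≤
      ∑ p ∈ box, (ind (¬GP Γ P₁ P₂ lam o n r D G R' η δ τ₁ τ₂ p.1 p.2) + ind (p ∈ T)) :=
        Finset.sum_le_sum key
    _ = ∑ p ∈ box, ind (¬GP Γ P₁ P₂ lam o n r D G R' η δ τ₁ τ₂ p.1 p.2) +
        ∑ p ∈ box, ind (p ∈ T) := Finset.sum_add_distrib
    _ ≤ _ := add_le_add le_rfl hcount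

end Pool.Agent.FPP
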