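import Pool.Agent.FPP.Defs
import Pool.Agent.FPP.W4
import Pool.Agent.FPP.C1

open scoped ENNReal BigOperators
open MeasureTheory Filter Topology

namespace Pool.Agent.FPP

/-!
**[FPP-W6] Change of root.**
PROOF. `Sm_index`: put `K a b = Sm P lam n (fun τ => ind (τ.1 k = a) * (ind (τ.1 k' = b) * F τ))`. It is invariant under `(a, b) ↦ (g • a, g • b)` (`Sm_smul`, `hF`, `g • x = g • y ↔ x = y`). By `Sm_tsum`, `Sm_mul`: `∑' a, ∑' b, φ a * K a b = Sm (fun τ => φ (τ.1 k) * F τ)` (`tsum_eq_single`) and `∑' a, ∑' b, φ b * K a b = Sm (fun τ => φ (τ.1 k') * F τ)`; use `hφ.mtp`. `Sc_index`: the same with `Sc` (= `Sm` of `Sm`), `K ω ω' = Sc (ind ((τ₁.1 k, τ₂.1 l) = ω) * (ind ((τ₁.1 k', τ₂.1 l') = ω') * F τ₁ τ₂))` on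
`Ω₁ × Ω₂` and `hφ.isMass.mtp` (row C1). (Invariance of `K`: `Sm_smul` in each of the two variables: `Sc (fun τ₁ τ₂ => H (g • τ₁) (g • τ₂)) = Sc H`.)
-/

theorem w6_ind {T : Type} (x : T) (f : T → ℝ≥0∞) : ∑' b, ind (x = b) * f b = f x := by
  rw [tsum_eq_single x]
  · rw [ind_true rfl, one_mul]
  · intro b hb
    rw [ind_false fun h => hb h.symm, zero_mul]

theorem w6_left {T : Type} (x y : T) (φ : T → ℝ≥0∞) (c : ℝ≥0∞) :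
    ∑' a, ∑' b, φ a * (ind (x = a) * (ind (y = b) * c)) = φ x * c := by
  have h1 : ∀ a, ∑' b, φ a * (ind (x = a) * (ind (y = b) * c)) = ind (x = a) * (φ a * c) := by
    intro a
    rw [ENNReal.tsum_mul_left, ENNReal.tsum_mul_left, w6_ind y fun _ => c]
    ring
  rw [tsum_congr h1, w6_ind x fun a => φ a * c]

theorem w6_right {T : Type} (x y : T) (φ : T → ℝ≥0∞) (c : ℝ≥0∞) :
    ∑' a, ∑' b, φ b * (ind (x = a) * (ind (y = b) * c)) = φ y * c := by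
  have h1 : ∀ a, ∑' b, φ b * (ind (x = a) * (ind (y = b) * c)) = ind (x = a) * (φ y * c) := by
    intro a
    have h2 : ∀ b, φ b * (ind (x = a) * (ind (y = b) * c)) =
        ind (y = b) * (ind (x = a) * (φ b * c)) := fun b => by ring
    rw [tsum_congr h2, w6_ind y fun b => ind (x = a) * (φ b * c)]
  rw [tsum_congr h1, w6_ind x fun _ => φ y * c]

theorem w6_Sc_mul {Ω₁ Ω₂ : Type} (P₁ : Ω₁ → Ω₁ → ℝ≥0∞) (P₂ : Ω₂ → Ω₂ → ℝ≥0∞) (lam : ℝ≥0∞)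
    (n : ℕ) (c : ℝ≥0∞) (F : Tr Ω₁ → Tr Ω₂ → ℝ≥0∞) :
    Sc P₁ P₂ lam n (fun τ₁ τ₂ => c * F τ₁ τ₂) = c * Sc P₁ P₂ lam n F := by
  unfold Sc
  simp only [Sm_mul]

theorem w6_Sc_tsum {Ω₁ Ω₂ : Type} (P₁ : Ω₁ → Ω₁ → ℝ≥0∞) (P₂ : Ω₂ → Ω₂ → ℝ≥0∞) (lam : ℝ≥0∞)
    (n : ℕ) {ι : Type} (F : ι → Tr Ω₁ → Tr Ω₂ → ℝ≥0∞) :
    Sc P₁ P₂ lam n (fun τ₁ τ₂ => ∑' i, F i τ₁ τ₂) = ∑' i, Sc P₁ P₂ lam n (F i) := by
  unfold Sc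
  have h1 : ∀ τ₁, Sm P₂ lam n (fun τ₂ => ∑' i, F i τ₁ τ₂) =
      ∑' i, Sm P₂ lam n (fun τ₂ => F i τ₁ τ₂) :=
    fun τ₁ => Sm_tsum P₂ lam n fun i τ₂ => F i τ₁ τ₂
  rw [show (fun τ₁ => Sm P₂ lam n (fun τ₂ => ∑' i, F i τ₁ τ₂)) =
    fun τ₁ => ∑' i, Sm P₂ lam n (fun τ₂ => F i τ₁ τ₂) from funext h1]
  exact Sm_tsum P₁ lam n fun i τ₁ => Sm P₂ lam n fun τ₂ => F i τ₁ τ₂

theorem Sm_index {Γ : Type} [Group Γ] {Ω : Type} [MulAction Γ Ω] {P : Ω → Ω → ℝ≥0∞}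
    (hP : ∀ (g : Γ) (x y : Ω), P (g • x) (g • y) = P x y) {φ : Ω → ℝ≥0∞} (hφ : IsMass Γ φ)
    (lam : ℝ≥0∞) (n k k' : ℕ) (F : Tr Ω → ℝ≥0∞) (hF : ∀ (g : Γ) τ, F (g • τ) = F τ) :
    Sm P lam n (fun τ => φ (τ.1 k) * F τ) = Sm P lam n (fun τ => φ (τ.1 k') * F τ) := by
  have hinv : ∀ (g : Γ) (a b : Ω),
      Sm P lam n (fun τ => ind (τ.1 k = g • a) * (ind (τ.1 k' = g • b) * F τ)) =
        Sm P lam n (fun τ => ind (τ.1 k = a) * (ind (τ.1 k' = b) * F τ)) := by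
    intro g a b
    rw [← Sm_smul hP lam n
      (fun τ => ind (τ.1 k = g • a) * (ind (τ.1 k' = g • b) * F τ)) g]
    congr 1
    funext τ
    have h1 : ind ((g • τ).1 k = g • a) = ind (τ.1 k = a) :=
      ind_congr (show g • τ.1 k = g • a ↔ τ.1 k = a from smul_left_cancel_iff g)
    have h2 : ind ((g • τ).1 k' = g • b) = ind (τ.1 k' = b) :=
      ind_congr (show g • τ.1 k' = g • b ↔ τ.1 k' = b from smul_left_cancel_iff g)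
    rw [h1, h2, hF]
  have hm := hφ.mtp
    (fun a b => Sm P lam n (fun τ => ind (τ.1 k = a) * (ind (τ.1 k' = b) * F τ))) hinv
  simp only [← Sm_mul, ← Sm_tsum] at hm
  have h1 : (fun τ : Tr Ω => ∑' a, ∑' b, φ a * (ind (τ.1 k = a) * (ind (τ.1 k' = b) * F τ))) =
      fun τ => φ (τ.1 k) * F τ := funext fun τ => w6_left _ _ φ _
  have h2 : (fun τ : Tr Ω => ∑' a, ∑' b, φ b * (ind (τ.1 k = a) * (ind (τ.1 k' = b) * F τ))) =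
      fun τ => φ (τ.1 k') * F τ := funext fun τ => w6_right _ _ φ _
  rw [h1, h2] at hm
  exact hm

theorem Sc_index {Γ : Type} [Group Γ] {Ω₁ Ω₂ : Type} [MulAction Γ Ω₁] [MulAction Γ Ω₂]
    {P₁ : Ω₁ → Ω₁ → ℝ≥0∞} {P₂ : Ω₂ → Ω₂ → ℝ≥0∞}
    (hP₁ : ∀ (g : Γ) (x y : Ω₁), P₁ (g • x) (g • y) = P₁ x y)
    (hP₂ : ∀ (g : Γ) (x y : Ω₂), P₂ (g • x) (g • y) = P₂ x y) {φ : Ω₁ × Ω₂ → ℝ≥0∞}
    (hφ : IsWt Γ φ) (lam : ℝ≥0∞) (n k l k' l' : ℕ) (F : Tr Ω₁ → Tr Ω₂ → ℝ≥0∞)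
    (hF : ∀ (g : Γ) τ₁ τ₂, F (g • τ₁) (g • τ₂) = F τ₁ τ₂) :
    Sc P₁ P₂ lam n (fun τ₁ τ₂ => φ (τ₁.1 k, τ₂.1 l) * F τ₁ τ₂) =
      Sc P₁ P₂ lam n (fun τ₁ τ₂ => φ (τ₁.1 k', τ₂.1 l') * F τ₁ τ₂) := by
  have hsm : ∀ (H : Tr Ω₁ → Tr Ω₂ → ℝ≥0∞) (g : Γ),
      Sc P₁ P₂ lam n (fun τ₁ τ₂ => H (g • τ₁) (g • τ₂)) = Sc P₁ P₂ lam n H := by
    intro H g
    unfold Sc
    have h1 : (fun τ₁ : Tr Ω₁ => Sm P₂ lam n (fun τ₂ => H (g • τ₁) (g • τ₂))) =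
        fun τ₁ => Sm P₂ lam n (fun τ₂ => H (g • τ₁) τ₂) :=
      funext fun τ₁ => Sm_smul hP₂ lam n (fun τ₂ => H (g • τ₁) τ₂) g
    rw [h1]
    exact Sm_smul hP₁ lam n (fun τ₁ => Sm P₂ lam n (fun τ₂ => H τ₁ τ₂)) g
  have hinv : ∀ (g : Γ) (ω ω' : Ω₁ × Ω₂),
      Sc P₁ P₂ lam n (fun τ₁ τ₂ => ind ((τ₁.1 k, τ₂.1 l) = g • ω) *
        (ind ((τ₁.1 k', τ₂.1 l') = g • ω') * F τ₁ τ₂)) =
      Sc P₁ P₂ lam n (fun τ₁ τ₂ => ind ((τ₁.1 k, τ₂.1 l) = ω) *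
        (ind ((τ₁.1 k', τ₂.1 l') = ω') * F τ₁ τ₂)) := by
    intro g ω ω'
    rw [← hsm (fun τ₁ τ₂ => ind ((τ₁.1 k, τ₂.1 l) = g • ω) *
        (ind ((τ₁.1 k', τ₂.1 l') = g • ω') * F τ₁ τ₂)) g]
    congr 1
    funext τ₁ τ₂
    have h1 : ind (((g • τ₁).1 k, (g • τ₂).1 l) = g • ω) = ind ((τ₁.1 k, τ₂.1 l) = ω) :=
      ind_congr (show g • (τ₁.1 k, τ₂.1 l) = g • ω ↔ (τ₁.1 k, τ₂.1 l) = ω from
        smul_left_cancel_iff g)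
    have h2 : ind (((g • τ₁).1 k', (g • τ₂).1 l') = g • ω') = ind ((τ₁.1 k', τ₂.1 l') = ω') :=
      ind_congr (show g • (τ₁.1 k', τ₂.1 l') = g • ω' ↔ (τ₁.1 k', τ₂.1 l') = ω' from
        smul_left_cancel_iff g)
    rw [h1, h2, hF]
  have hm := hφ.isMass.mtp
    (fun ω ω' => Sc P₁ P₂ lam n (fun τ₁ τ₂ => ind ((τ₁.1 k, τ₂.1 l) = ω) *
        (ind ((τ₁.1 k', τ₂.1 l') = ω') * F τ₁ τ₂))) hinv
  simp only [← w6_Sc_mul, ← w6_Sc_tsum] at hm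
  have h1 : (fun (τ₁ : Tr Ω₁) (τ₂ : Tr Ω₂) => ∑' ω, ∑' ω', φ ω *
      (ind ((τ₁.1 k, τ₂.1 l) = ω) * (ind ((τ₁.1 k', τ₂.1 l') = ω') * F τ₁ τ₂))) =
      fun τ₁ τ₂ => φ (τ₁.1 k, τ₂.1 l) * F τ₁ τ₂ :=
    funext fun τ₁ => funext fun τ₂ => w6_left _ _ φ _
  have h2 : (fun (τ₁ : Tr Ω₁) (τ₂ : Tr Ω₂) => ∑' ω, ∑' ω', φ ω' *
      (ind ((τ₁.1 k, τ₂.1 l) = ω) * (ind ((τ₁.1 k', τ₂.1 l') = ω') * F τ₁ τ₂))) =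
      fun τ₁ τ₂ => φ (τ₁.1 k', τ₂.1 l') * F τ₁ τ₂ :=
    funext fun τ₁ => funext fun τ₂ => w6_right _ _ φ _
  rw [h1, h2] at hm
  exact hm

end Pool.Agent.FPP
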