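import Pool.Agent.FPP.Defs
import Pool.Agent.FPP.K2
import Pool.Agent.FPP.K4
import Pool.Agent.FPP.K7

open scoped ENNReal BigOperators
open MeasureTheory Filter Topology

namespace Pool.Agent.FPP

/-!
**[FPP-K8] Decay of the affinity along the walk.**
PROOF. Put `F a z = ∑' b, pw P k a b * (gg P lam a z ^ (1/2) * gg P lam b z ^ (1/2))`; it is invariant (`pw_inv`, `gg_inv`, reindexing). The left side is `∑' a, ∑' z, φ a * F a z = ∑' a, ∑' z, φ z * F a z` (`hφ.mtp`) `= ∑' z, φ z * ∑' a, ∑' b, f a * pw P k a b * f b` with `f a = gg P lam a z ^ (1/2)`, and by `hK.gap` the inner sum is at most `ρ ^ k * ∑' a, f a ^ 2 = ρ ^ k * ∑' a, gg P lam a z = ρ ^ k` (`gg_symm`, `gg_sum`).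
-/

private theorem K8_sq (a : ℝ≥0∞) : (a ^ (1 / 2 : ℝ)) ^ 2 = a := by
  rw [← ENNReal.rpow_natCast, ← ENNReal.rpow_mul]
  norm_num

theorem hh_decay {Γ : Type} [Group Γ] {Ω : Type} [MulAction Γ Ω] {P : Ω → Ω → ℝ≥0∞} {κ ρ : ℝ≥0∞} {φ : Ω → ℝ≥0∞} (hK : IsKern Γ P κ ρ) (hφ : IsMass Γ φ) {lam : ℝ≥0∞}
    (hlam : lam < 1) (k : ℕ) :
    ∑' a, ∑' b, φ a * (pw P k a b * hh P lam a b) ≤ ρ ^ k * ∑' a, φ a := by
  set s : Ω → Ω → ℝ≥0∞ := fun x z => gg P lam x z ^ (1 / 2 : ℝ) with hs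
  set F : Ω → Ω → ℝ≥0∞ := fun a z => ∑' b, pw P k a b * (s a z * s b z) with hF
  have hsinv : ∀ (g : Γ) (x y : Ω), s (g • x) (g • y) = s x y := by
    intro g x y
    simp only [hs]
    rw [gg_inv hK.inv]
  have hFinv : ∀ (g : Γ) (x y : Ω), F (g • x) (g • y) = F x y := by
    intro g x y
    simp only [hF]
    rw [← (MulAction.toPerm g : Equiv.Perm Ω).tsum_eq]
    refine tsum_congr fun b => ?_
    rw [MulAction.toPerm_apply, pw_inv hK.inv, hsinv, hsinv]
  have h1 : ∀ a, ∑' b, φ a * (pw P k a b * hh P lam a b) = ∑' z, φ a * F a z := by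
    intro a
    rw [ENNReal.tsum_mul_left, ENNReal.tsum_mul_left]
    congr 1
    have : ∀ b, pw P k a b * hh P lam a b = ∑' z, pw P k a b * (s a z * s b z) := by
      intro b
      rw [ENNReal.tsum_mul_left]
      rfl
    simp_rw [this]
    rw [ENNReal.tsum_comm]
  have h2 : ∀ z, ∑' a, F a z ≤ ρ ^ k := by
    intro z
    have hg := hK.gap k (fun a => s a z)
    have e1 : ∑' a, F a z = ∑' x, ∑' y, s x z * pw P k x y * s y z := by
      refine tsum_congr fun a => tsum_congr fun b => ?_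
      ring
    have e2 : ∑' x, (s x z) ^ 2 = 1 := by
      have : ∀ x, (s x z) ^ 2 = gg P lam z x := by
        intro x
        simp only [hs]
        rw [K8_sq, gg_symm hK.symm]
      simp_rw [this]
      exact gg_sum hK.sum_one hlam z
    rw [e1]
    refine hg.trans ?_
    rw [e2, mul_one]
  calc ∑' a, ∑' b, φ a * (pw P k a b * hh P lam a b)
      = ∑' a, ∑' z, φ a * F a z := tsum_congr h1
    _ = ∑' a, ∑' z, φ z * F a z := hφ.mtp F hFinv
    _ = ∑' z, ∑' a, φ z * F a z := ENNReal.tsum_comm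
    _ = ∑' z, φ z * ∑' a, F a z := tsum_congr fun z => ENNReal.tsum_mul_left
    _ ≤ ∑' z, φ z * ρ ^ k := ENNReal.tsum_le_tsum fun z => mul_le_mul_right (h2 z) _
    _ = ρ ^ k * ∑' a, φ a := by rw [ENNReal.tsum_mul_right, mul_comm]

end Pool.Agent.FPP
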