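import Pool.Agent.FPP.Defs
import Pool.Agent.FPP.K2
import Pool.Agent.FPP.K5
import Pool.Agent.FPP.W5
import Pool.Agent.FPP.W6

open scoped ENNReal BigOperators
open MeasureTheory Filter Topology

namespace Pool.Agent.FPP

/-!
**[FPP-W7] Laws seen from the root.**
PROOF. By `Sm_index` we may take the root index `k = s` in the first two statements and `k = t` in the third one (the functions are invariant: `(g • τ).1 s = g • τ.1 s` etc.). Then apply `Sm_marg` with `f a b u v` replaced by `φ a * f a b`, `φ a * f a b u`, `φ b * f a b v` and carry out the free sums: `∑' v, mulK (pw P s) (gg P lam) a v = 1` (`mulK_gg_sum`), similarly for `u`.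
-/

theorem Sm_pair {Γ : Type} [Group Γ] {Ω : Type} [MulAction Γ Ω] {P : Ω → Ω → ℝ≥0∞} {κ ρ : ℝ≥0∞} {φ : Ω → ℝ≥0∞} (hK : IsKern Γ P κ ρ) (hφ : IsMass Γ φ) {lam : ℝ≥0∞}
    (hlam : lam < 1) {n s t : ℕ} (hst : s ≤ t) (htn : t ≤ n) (k : ℕ) (f : Ω → Ω → ℝ≥0∞)
    (hf : ∀ (g : Γ) a b, f (g • a) (g • b) = f a b) :
    Sm P lam n (fun τ => φ (τ.1 k) * f (τ.1 s) (τ.1 t)) =
      ∑' a, ∑' b, φ a * (pw P (t - s) a b * f a b) := by
  rw [Sm_index hK.inv hφ lam n k s (fun τ => f (τ.1 s) (τ.1 t)) (fun g τ => hf g (τ.1 s) (τ.1 t)),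
    Sm_marg hK.symm lam hst htn (fun a b _ _ => φ a * f a b)]
  refine tsum_congr fun a => tsum_congr fun b => ?_
  have e1 : ∀ u, ∑' v, pw P (t - s) a b *
        (mulK (pw P (n - t)) (gg P lam) b u * (mulK (pw P s) (gg P lam) a v * (φ a * f a b))) =
      pw P (t - s) a b * (mulK (pw P (n - t)) (gg P lam) b u * (φ a * f a b)) := by
    intro u
    rw [ENNReal.tsum_mul_left, ENNReal.tsum_mul_left, ENNReal.tsum_mul_right, mulK_gg_sum hK.sum_one hlam, one_mul]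
  simp only [e1]
  rw [ENNReal.tsum_mul_left, ENNReal.tsum_mul_right, mulK_gg_sum hK.sum_one hlam, one_mul]
  ring

theorem Sm_plus {Γ : Type} [Group Γ] {Ω : Type} [MulAction Γ Ω] {P : Ω → Ω → ℝ≥0∞} {κ ρ : ℝ≥0∞} {φ : Ω → ℝ≥0∞} (hK : IsKern Γ P κ ρ) (hφ : IsMass Γ φ) {lam : ℝ≥0∞}
    (hlam : lam < 1) {n s t : ℕ} (hst : s ≤ t) (htn : t ≤ n) (k : ℕ) (f : Ω → Ω → Ω → ℝ≥0∞)
    (hf : ∀ (g : Γ) a b u, f (g • a) (g • b) (g • u) = f a b u) :
    Sm P lam n (fun τ => φ (τ.1 k) * f (τ.1 s) (τ.1 t) τ.2.1) =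
      ∑' a, ∑' b, ∑' u, φ a * (pw P (t - s) a b *
        (mulK (pw P (n - t)) (gg P lam) b u * f a b u)) := by
  rw [Sm_index hK.inv hφ lam n k s (fun τ => f (τ.1 s) (τ.1 t) τ.2.1) (fun g τ => hf g (τ.1 s) (τ.1 t) τ.2.1),
    Sm_marg hK.symm lam hst htn (fun a b u _ => φ a * f a b u)]
  refine tsum_congr fun a => tsum_congr fun b => tsum_congr fun u => ?_
  rw [ENNReal.tsum_mul_left, ENNReal.tsum_mul_left, ENNReal.tsum_mul_right, mulK_gg_sum hK.sum_one hlam, one_mul]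
  ring

theorem Sm_minus {Γ : Type} [Group Γ] {Ω : Type} [MulAction Γ Ω] {P : Ω → Ω → ℝ≥0∞} {κ ρ : ℝ≥0∞} {φ : Ω → ℝ≥0∞} (hK : IsKern Γ P κ ρ) (hφ : IsMass Γ φ) {lam : ℝ≥0∞}
    (hlam : lam < 1) {n s t : ℕ} (hst : s ≤ t) (htn : t ≤ n) (k : ℕ) (f : Ω → Ω → Ω → ℝ≥0∞)
    (hf : ∀ (g : Γ) a b v, f (g • a) (g • b) (g • v) = f a b v) :
    Sm P lam n (fun τ => φ (τ.1 k) * f (τ.1 s) (τ.1 t) τ.2.2) =
      ∑' a, ∑' b, ∑' v, φ b * (pw P (t - s) a b *
        (mulK (pw P s) (gg P lam) a v * f a b v)) := by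
  rw [Sm_index hK.inv hφ lam n k t (fun τ => f (τ.1 s) (τ.1 t) τ.2.2) (fun g τ => hf g (τ.1 s) (τ.1 t) τ.2.2),
    Sm_marg hK.symm lam hst htn (fun a b _ v => φ b * f a b v)]
  refine tsum_congr fun a => tsum_congr fun b => ?_
  have e1 : ∀ u, ∑' v, pw P (t - s) a b *
        (mulK (pw P (n - t)) (gg P lam) b u * (mulK (pw P s) (gg P lam) a v * (φ b * f a b v))) =
      pw P (t - s) a b * (mulK (pw P (n - t)) (gg P lam) b u *
        ∑' v, mulK (pw P s) (gg P lam) a v * (φ b * f a b v)) := by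
    intro u
    rw [ENNReal.tsum_mul_left, ENNReal.tsum_mul_left]
  simp only [e1]
  rw [ENNReal.tsum_mul_left, ENNReal.tsum_mul_right, mulK_gg_sum hK.sum_one hlam, one_mul, ← ENNReal.tsum_mul_left]
  refine tsum_congr fun v => ?_
  ring

end Pool.Agent.FPP
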