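import Pool.Agent.FPP.Defs
import Pool.Agent.FPP.K4
import Pool.Agent.FPP.K5
import Pool.Agent.FPP.K8
import Pool.Agent.FPP.W4
import Pool.Agent.FPP.W7

open scoped ENNReal BigOperators
open MeasureTheory Filter Topology

namespace Pool.Agent.FPP

/-!
**[FPP-W8] Increments of the scores.**
PROOF. `bad_plus`. By `Sm_plus` with `s = t`, `t = t + r` and `f a b u = ind (ell P lam a u < ell P lam b u + R)` (invariant by `ell_inv` of K6 or `gg_inv`) the left side is `∑' a, ∑' b, ∑' u, φ a * (pw P r a b * (mulK (pw P (n - (t + r))) (gg P lam) b u * f a b u))`. Now `mulK (pw P j) (gg P lam) b u ≤ 2 * gg P lam b u` for `j ≤ n` (`gg_ge`, `lam ^ j ≥ lam ^ n ≥ 1/2`), and `ell a u < ell b u + R` means `gg b u < exp R * gg a u` (real values, both positive), so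
`gg b u * f a b u ≤ exp (R / 2) * (gg a u ^ (1/2) * gg b u ^ (1/2))`. Sum over `u`: `≤ 2 exp (R/2) hh P lam a b`; then `hh_decay` with `k = r`. `bad_minus` is symmetric: `Sm_minus` with the same indices, `f a b v = ind (ell P lam b v < ell P lam a v + R)`, root weight `φ b`, `mulK (pw P t) (gg P lam) a v ≤ 2 gg a v`, `gg a v * f ≤ exp (R/2) * (gg a v ^ (1/2) * gg b v ^ (1/2))`, and `∑' a, ∑' b, φ b * (pw P r a b * hh P lam a b)` is the left side of `hh_decay` after exchanging names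
(`pw_symm`, `hh_symm`, `ENNReal.tsum_comm`).
-/

private theorem w8_core {A B : ℝ≥0∞} (hA : A ≤ 1) (hB : B ≤ 1) (hAB : A = 0 → B = 0) {R : ℝ}
    (h : -Real.log A.toReal < -Real.log B.toReal + R) :
    B ≤ ENNReal.ofReal (Real.exp (R / 2)) * (A ^ (1 / 2 : ℝ) * B ^ (1 / 2 : ℝ)) := by
  by_cases hB0 : B = 0
  · rw [hB0]
    exact bot_le
  have hA0 : A ≠ 0 := fun h' => hB0 (hAB h')
  have hAt : A ≠ ⊤ := (lt_of_le_of_lt hA ENNReal.one_lt_top).ne
  have hBt : B ≠ ⊤ := (lt_of_le_of_lt hB ENNReal.one_lt_top).ne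
  have ha : 0 < A.toReal := ENNReal.toReal_pos hA0 hAt
  have hb : 0 < B.toReal := ENNReal.toReal_pos hB0 hBt
  have h1 : B.toReal ≤ Real.exp R * A.toReal := by
    have h2 : Real.log B.toReal ≤ R + Real.log A.toReal := by linarith
    have h3 := Real.exp_le_exp.2 h2
    rwa [Real.exp_add, Real.exp_log ha, Real.exp_log hb] at h3
  have h2 : B ≤ ENNReal.ofReal (Real.exp R) * A := by
    rw [← ENNReal.ofReal_toReal hBt, ← ENNReal.ofReal_toReal hAt,
      ← ENNReal.ofReal_mul (Real.exp_pos R).le]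
    exact ENNReal.ofReal_le_ofReal h1
  have h3 : B ^ (1 / 2 : ℝ) ≤ ENNReal.ofReal (Real.exp (R / 2)) * A ^ (1 / 2 : ℝ) := by
    have h4 : ENNReal.ofReal (Real.exp (R / 2)) = ENNReal.ofReal (Real.exp R) ^ (1 / 2 : ℝ) := by
      rw [ENNReal.ofReal_rpow_of_pos (Real.exp_pos R), ← Real.exp_mul]
      congr 2
      ring
    rw [h4, ← ENNReal.mul_rpow_of_nonneg _ _ (by norm_num : (0 : ℝ) ≤ 1 / 2)]
    exact ENNReal.rpow_le_rpow h2 (by norm_num)
  have h5 : B ^ (1 / 2 : ℝ) * B ^ (1 / 2 : ℝ) = B := by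
    rw [← ENNReal.rpow_add _ _ hB0 hBt]
    norm_num
  calc B = B ^ (1 / 2 : ℝ) * B ^ (1 / 2 : ℝ) := h5.symm
    _ ≤ ENNReal.ofReal (Real.exp (R / 2)) * A ^ (1 / 2 : ℝ) * B ^ (1 / 2 : ℝ) :=
        mul_le_mul' h3 le_rfl
    _ = ENNReal.ofReal (Real.exp (R / 2)) * (A ^ (1 / 2 : ℝ) * B ^ (1 / 2 : ℝ)) := by
        rw [mul_assoc]

private theorem w8_two {Ω : Type} (P : Ω → Ω → ℝ≥0∞) {lam : ℝ≥0∞} (hlam : lam < 1) {n j : ℕ}
    (h2 : 2⁻¹ ≤ lam ^ n) (hj : j ≤ n) (b u : Ω) :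
    mulK (pw P j) (gg P lam) b u ≤ 2 * gg P lam b u := by
  have h3 : 2⁻¹ ≤ lam ^ j := h2.trans (pow_le_pow_right_of_le_one' hlam.le hj)
  have h4 : 2⁻¹ * mulK (pw P j) (gg P lam) b u ≤ gg P lam b u :=
    (mul_le_mul' h3 le_rfl).trans (gg_ge P lam j b u)
  calc mulK (pw P j) (gg P lam) b u = 2 * (2⁻¹ * mulK (pw P j) (gg P lam) b u) := by
        rw [← mul_assoc, ENNReal.mul_inv_cancel two_ne_zero ENNReal.ofNat_ne_top, one_mul]
    _ ≤ 2 * gg P lam b u := mul_le_mul' le_rfl h4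

private theorem w8_pt {Γ : Type} [Group Γ] {Ω : Type} [MulAction Γ Ω] {P : Ω → Ω → ℝ≥0∞} {κ ρ : ℝ≥0∞}
    (hK : IsKern Γ P κ ρ) {lam : ℝ≥0∞} (hlam : lam < 1) {n r j : ℕ} (h2 : 2⁻¹ ≤ lam ^ n)
    (hr : r ≤ n) (hj : j ≤ n) (R : ℝ) (a b u : Ω) (hab : pw P r a b ≠ 0) :
    mulK (pw P j) (gg P lam) b u * ind (ell P lam a u < ell P lam b u + R) ≤
      2 * ENNReal.ofReal (Real.exp (R / 2)) *
        (gg P lam a u ^ (1 / 2 : ℝ) * gg P lam b u ^ (1 / 2 : ℝ)) := by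
  by_cases h : ell P lam a u < ell P lam b u + R
  · rw [ind_true h, mul_one, mul_assoc]
    refine (w8_two P hlam h2 hj b u).trans (mul_le_mul' le_rfl ?_)
    refine w8_core (gg_le_one hK.sum_one hlam a u) (gg_le_one hK.sum_one hlam b u) ?_ h
    intro h0
    by_cases hl : lam = 0
    · have hn : n = 0 := by
        by_contra hn
        rw [hl, zero_pow hn] at h2
        exact absurd (le_antisymm h2 bot_le) (ENNReal.inv_ne_zero.2 ENNReal.ofNat_ne_top)
      have hr0 : r = 0 := by omega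
      have h5 : a = b := by
        by_contra hne
        rw [hr0] at hab
        apply hab
        show oneK a b = 0
        unfold oneK
        exact if_neg hne
      rw [← h5]
      exact h0
    · exact absurd h0 (gg_pos hK hl hlam a u)
  · rw [ind_false h, mul_zero]
    exact bot_le

theorem bad_plus {Γ : Type} [Group Γ] {Ω : Type} [MulAction Γ Ω] {P : Ω → Ω → ℝ≥0∞} {κ ρ : ℝ≥0∞} {φ : Ω → ℝ≥0∞} (hK : IsKern Γ P κ ρ) (hφ : IsMass Γ φ) {lam : ℝ≥0∞}
    (hlam : lam < 1) {n t r : ℕ} (h2 : 2⁻¹ ≤ lam ^ n) (htr : t + r ≤ n) (k : ℕ) (R : ℝ) :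
    Sm P lam n (fun τ => φ (τ.1 k) *
        ind (ell P lam (τ.1 t) τ.2.1 < ell P lam (τ.1 (t + r)) τ.2.1 + R)) ≤
      2 * ENNReal.ofReal (Real.exp (R / 2)) * ρ ^ r * ∑' a, φ a := by
  have hell : ∀ (g : Γ) (x y : Ω), ell P lam (g • x) (g • y) = ell P lam x y := by
    intro g x y
    unfold ell
    rw [gg_inv hK.inv lam g x y]
  rw [Sm_plus hK hφ hlam (Nat.le_add_right t r) htr k
    (fun a b u => ind (ell P lam a u < ell P lam b u + R))
    (fun g a b u => by rw [hell, hell])]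
  rw [Nat.add_sub_cancel_left]
  set C : ℝ≥0∞ := 2 * ENNReal.ofReal (Real.exp (R / 2)) with hC
  calc ∑' a, ∑' b, ∑' u, φ a * (pw P r a b *
        (mulK (pw P (n - (t + r))) (gg P lam) b u * ind (ell P lam a u < ell P lam b u + R)))
      ≤ ∑' a, ∑' b, ∑' u, φ a * (pw P r a b *
        (C * (gg P lam a u ^ (1 / 2 : ℝ) * gg P lam b u ^ (1 / 2 : ℝ)))) := by
        refine ENNReal.tsum_le_tsum fun a => ENNReal.tsum_le_tsum fun b =>
          ENNReal.tsum_le_tsum fun u => mul_le_mul' le_rfl ?_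
        by_cases hab : pw P r a b = 0
        · rw [hab, zero_mul, zero_mul]
        · exact mul_le_mul' le_rfl
            (w8_pt hK hlam h2 (by omega) (by omega) R a b u hab)
    _ = C * ∑' a, ∑' b, φ a * (pw P r a b * hh P lam a b) := by
        rw [← ENNReal.tsum_mul_left]
        refine tsum_congr fun a => ?_
        rw [← ENNReal.tsum_mul_left]
        refine tsum_congr fun b => ?_
        unfold hh
        rw [ENNReal.tsum_mul_left, ENNReal.tsum_mul_left, ENNReal.tsum_mul_left]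
        rw [mul_left_comm (pw P r a b) C, mul_left_comm (φ a) C]
    _ ≤ C * (ρ ^ r * ∑' a, φ a) := mul_le_mul' le_rfl (hh_decay hK hφ hlam r)
    _ = C * ρ ^ r * ∑' a, φ a := (mul_assoc C (ρ ^ r) _).symm

theorem bad_minus {Γ : Type} [Group Γ] {Ω : Type} [MulAction Γ Ω] {P : Ω → Ω → ℝ≥0∞} {κ ρ : ℝ≥0∞} {φ : Ω → ℝ≥0∞} (hK : IsKern Γ P κ ρ) (hφ : IsMass Γ φ) {lam : ℝ≥0∞}
    (hlam : lam < 1) {n t r : ℕ} (h2 : 2⁻¹ ≤ lam ^ n) (htr : t + r ≤ n) (k : ℕ) (R : ℝ) :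
    Sm P lam n (fun τ => φ (τ.1 k) *
        ind (ell P lam (τ.1 (t + r)) τ.2.2 < ell P lam (τ.1 t) τ.2.2 + R)) ≤
      2 * ENNReal.ofReal (Real.exp (R / 2)) * ρ ^ r * ∑' a, φ a := by
  have hell : ∀ (g : Γ) (x y : Ω), ell P lam (g • x) (g • y) = ell P lam x y := by
    intro g x y
    unfold ell
    rw [gg_inv hK.inv lam g x y]
  rw [Sm_minus hK hφ hlam (Nat.le_add_right t r) htr k
    (fun a b v => ind (ell P lam b v < ell P lam a v + R))
    (fun g a b v => by rw [hell, hell])]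
  rw [Nat.add_sub_cancel_left]
  set C : ℝ≥0∞ := 2 * ENNReal.ofReal (Real.exp (R / 2)) with hC
  calc ∑' a, ∑' b, ∑' v, φ b * (pw P r a b *
        (mulK (pw P t) (gg P lam) a v * ind (ell P lam b v < ell P lam a v + R)))
      ≤ ∑' a, ∑' b, ∑' v, φ b * (pw P r b a *
        (C * (gg P lam b v ^ (1 / 2 : ℝ) * gg P lam a v ^ (1 / 2 : ℝ)))) := by
        refine ENNReal.tsum_le_tsum fun a => ENNReal.tsum_le_tsum fun b =>
          ENNReal.tsum_le_tsum fun v => mul_le_mul' le_rfl ?_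
        rw [pw_symm hK.symm r a b]
        by_cases hab : pw P r b a = 0
        · rw [hab, zero_mul, zero_mul]
        · exact mul_le_mul' le_rfl
            (w8_pt hK hlam h2 (by omega) (by omega) R b a v hab)
    _ = ∑' b, ∑' a, ∑' v, φ b * (pw P r b a *
        (C * (gg P lam b v ^ (1 / 2 : ℝ) * gg P lam a v ^ (1 / 2 : ℝ)))) := ENNReal.tsum_comm
    _ = C * ∑' a, ∑' b, φ a * (pw P r a b * hh P lam a b) := by
        rw [← ENNReal.tsum_mul_left]
        refine tsum_congr fun a => ?_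
        rw [← ENNReal.tsum_mul_left]
        refine tsum_congr fun b => ?_
        unfold hh
        rw [ENNReal.tsum_mul_left, ENNReal.tsum_mul_left, ENNReal.tsum_mul_left]
        rw [mul_left_comm (pw P r a b) C, mul_left_comm (φ a) C]
    _ ≤ C * (ρ ^ r * ∑' a, φ a) := mul_le_mul' le_rfl (hh_decay hK hφ hlam r)
    _ = C * ρ ^ r * ∑' a, φ a := (mul_assoc C (ρ ^ r) _).symm

end Pool.Agent.FPP
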