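import Pool.Agent.FPP.Defs
import Pool.Agent.FPP.K7
import Pool.Agent.FPP.K8
import Pool.Agent.FPP.W4
import Pool.Agent.FPP.W7

open scoped ENNReal BigOperators
open MeasureTheory Filter Topology

namespace Pool.Agent.FPP

/-!
**[FPP-W9] Affinity along the walk.**
PROOF. `δ * ind (∃ t' …) ≤ ∑ t' ∈ range (n + 1), (if t' + G ≤ t ∨ t + G ≤ t' then hh P lam (τ.1 t) (τ.1 t') else 0)` pointwise. Use `Sm_sum`, `Sm_mul`. For `t' ≥ t + G` : `Sm (φ (τ.1 k) * hh (τ.1 t) (τ.1 t')) = ∑' a, ∑' b, φ a * (pw P (t' - t) a b * hh a b) ≤ ρ ^ (t' - t) * W` (`Sm_pair`, `hh_decay`); for `t' + G ≤ t` the same with `s = t'`, `t` (and `hh_symm`). The sum over `t'` of `ρ ^ |t' - t|` over `|t' - t| ≥ G` is at most `2 * ∑' j, ρ ^ (G + j) = 2 * ρ ^ G * (1 - ρ)⁻¹` (`ENNReal.tsum_geometric`).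
-/

private theorem w9_geo (ρ : ℝ≥0∞) (G : ℕ) : ∑' j : ℕ, ρ ^ (G + j) = ρ ^ G * (1 - ρ)⁻¹ := by
  rw [← ENNReal.tsum_geometric, ← ENNReal.tsum_mul_left]
  exact tsum_congr fun j => pow_add ρ G j

private theorem w9_up (ρ : ℝ≥0∞) (G t n : ℕ) :
    ∑ t' ∈ Finset.range (n + 1), ind (t + G ≤ t') * ρ ^ (t' - t) ≤ ρ ^ G * (1 - ρ)⁻¹ := by
  rw [← w9_geo ρ G]
  refine (ENNReal.sum_le_tsum (Finset.range (n + 1))).trans ?_
  rw [← Summable.sum_add_tsum_nat_add' (f := fun t' : ℕ => ind (t + G ≤ t') * ρ ^ (t' - t))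
    (k := t + G) ENNReal.summable]
  have h1 : ∑ t' ∈ Finset.range (t + G), ind (t + G ≤ t') * ρ ^ (t' - t) = 0 := by
    refine Finset.sum_eq_zero fun i hi => ?_
    rw [ind_false (by have := Finset.mem_range.1 hi; omega), zero_mul]
  rw [h1, zero_add]
  refine ENNReal.tsum_le_tsum fun j => ?_
  have h2 : j + (t + G) - t = G + j := by omega
  rw [h2]
  calc ind (t + G ≤ j + (t + G)) * ρ ^ (G + j) ≤ 1 * ρ ^ (G + j) :=
        mul_le_mul' (ind_le_one _) le_rfl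
    _ = ρ ^ (G + j) := one_mul _

private theorem w9_down (ρ : ℝ≥0∞) (G t n : ℕ) :
    ∑ t' ∈ Finset.range (n + 1), ind (t' + G ≤ t) * ρ ^ (t - t') ≤ ρ ^ G * (1 - ρ)⁻¹ := by
  classical
  by_cases hG : G ≤ t
  swap
  · have h1 : ∑ t' ∈ Finset.range (n + 1), ind (t' + G ≤ t) * ρ ^ (t - t') = 0 := by
      refine Finset.sum_eq_zero fun i _ => ?_
      rw [ind_false (by omega), zero_mul]
    rw [h1]
    exact bot_le
  have h1 : ∑ t' ∈ Finset.range (n + 1), ind (t' + G ≤ t) * ρ ^ (t - t') ≤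
      ∑ t' ∈ Finset.range (t - G + 1), ρ ^ (t - t') := by
    have h2 : ∑ t' ∈ Finset.range (n + 1), ind (t' + G ≤ t) * ρ ^ (t - t') ≤
        ∑' t', ind (t' + G ≤ t) * ρ ^ (t - t') := ENNReal.sum_le_tsum _
    refine h2.trans ?_
    rw [tsum_eq_sum (s := Finset.range (t - G + 1))]
    · refine Finset.sum_le_sum fun i _ => ?_
      calc ind (i + G ≤ t) * ρ ^ (t - i) ≤ 1 * ρ ^ (t - i) :=
            mul_le_mul' (ind_le_one _) le_rfl
        _ = ρ ^ (t - i) := one_mul _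
    · intro b hb
      rw [ind_false (by
        intro h3
        exact hb (Finset.mem_range.2 (by omega))), zero_mul]
  refine h1.trans ?_
  rw [← Finset.sum_range_reflect, ← w9_geo ρ G]
  refine le_trans (le_of_eq ?_) (ENNReal.sum_le_tsum (Finset.range (t - G + 1)))
  refine Finset.sum_congr rfl fun j hj => ?_
  have h3 := Finset.mem_range.1 hj
  have h4 : t - (t - G + 1 - 1 - j) = G + j := by omega
  rw [h4]

theorem bad_hh {Γ : Type} [Group Γ] {Ω : Type} [MulAction Γ Ω] {P : Ω → Ω → ℝ≥0∞} {κ ρ : ℝ≥0∞} {φ : Ω → ℝ≥0∞} (hK : IsKern Γ P κ ρ) (hφ : IsMass Γ φ) {lam : ℝ≥0∞}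
    (hlam : lam < 1) {n t : ℕ} (htn : t ≤ n) (k G : ℕ) (δ : ℝ≥0∞) :
    δ * Sm P lam n (fun τ => φ (τ.1 k) *
        ind (∃ t' ≤ n, (t' + G ≤ t ∨ t + G ≤ t') ∧ δ < hh P lam (τ.1 t) (τ.1 t'))) ≤
      2 * (ρ ^ G * (1 - ρ)⁻¹) * ∑' a, φ a := by
  classical
  have hinv := hK.inv
  -- one term
  have hup : ∀ s t : ℕ, s ≤ t → t ≤ n →
      Sm P lam n (fun τ => φ (τ.1 k) * hh P lam (τ.1 s) (τ.1 t)) ≤ ρ ^ (t - s) * ∑' a, φ a := by
    intro s t hst htn
    rw [Sm_pair hK hφ hlam hst htn k (fun a b => hh P lam a b)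
      (fun g a b => hh_inv hinv lam g a b)]
    exact hh_decay hK hφ hlam (t - s)
  have hterm : ∀ t' ∈ Finset.range (n + 1),
      Sm P lam n (fun τ => ind (t' + G ≤ t) * (φ (τ.1 k) * hh P lam (τ.1 t') (τ.1 t)) +
        ind (t + G ≤ t') * (φ (τ.1 k) * hh P lam (τ.1 t) (τ.1 t'))) ≤
      (ind (t' + G ≤ t) * ρ ^ (t - t') + ind (t + G ≤ t') * ρ ^ (t' - t)) * ∑' a, φ a := by
    intro t' ht'
    have ht2 := Finset.mem_range.1 ht'
    rw [Sm_add, Sm_mul, Sm_mul, add_mul, mul_assoc, mul_assoc]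
    refine add_le_add ?_ ?_
    · by_cases h1 : t' + G ≤ t
      · exact mul_le_mul' le_rfl (hup t' t (by omega) htn)
      · rw [ind_false h1, zero_mul, zero_mul]
    · by_cases h1 : t + G ≤ t'
      · exact mul_le_mul' le_rfl (hup t t' (by omega) (by omega))
      · rw [ind_false h1, zero_mul, zero_mul]
  rw [← Sm_mul]
  calc Sm P lam n (fun τ => δ * (φ (τ.1 k) *
        ind (∃ t' ≤ n, (t' + G ≤ t ∨ t + G ≤ t') ∧ δ < hh P lam (τ.1 t) (τ.1 t'))))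
      ≤ Sm P lam n (fun τ => ∑ t' ∈ Finset.range (n + 1),
        (ind (t' + G ≤ t) * (φ (τ.1 k) * hh P lam (τ.1 t') (τ.1 t)) +
        ind (t + G ≤ t') * (φ (τ.1 k) * hh P lam (τ.1 t) (τ.1 t')))) := by
        refine Sm_mono P lam n _ _ fun τ _ => ?_
        by_cases hex : ∃ t' ≤ n, (t' + G ≤ t ∨ t + G ≤ t') ∧ δ < hh P lam (τ.1 t) (τ.1 t')
        · rw [ind_true hex, mul_one]
          obtain ⟨t', h1, h2, h3⟩ := hex
          refine le_trans ?_ (Finset.single_le_sum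
            (f := fun t' => ind (t' + G ≤ t) * (φ (τ.1 k) * hh P lam (τ.1 t') (τ.1 t)) +
              ind (t + G ≤ t') * (φ (τ.1 k) * hh P lam (τ.1 t) (τ.1 t')))
            (fun _ _ => bot_le) (Finset.mem_range.2 (show t' < n + 1 by omega)))
          rw [mul_comm δ]
          rcases h2 with h2 | h2
          · refine le_trans ?_ le_self_add
            rw [ind_true h2, one_mul, hh_symm P lam (τ.1 t') (τ.1 t)]
            exact mul_le_mul' le_rfl h3.le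
          · refine le_trans ?_ le_add_self
            rw [ind_true h2, one_mul]
            exact mul_le_mul' le_rfl h3.le
        · rw [ind_false hex, mul_zero, mul_zero]
          exact bot_le
    _ = ∑ t' ∈ Finset.range (n + 1), Sm P lam n (fun τ =>
        (ind (t' + G ≤ t) * (φ (τ.1 k) * hh P lam (τ.1 t') (τ.1 t)) +
        ind (t + G ≤ t') * (φ (τ.1 k) * hh P lam (τ.1 t) (τ.1 t')))) :=
        Sm_sum P lam n (Finset.range (n + 1)) (fun t' τ =>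
          (ind (t' + G ≤ t) * (φ (τ.1 k) * hh P lam (τ.1 t') (τ.1 t)) +
          ind (t + G ≤ t') * (φ (τ.1 k) * hh P lam (τ.1 t) (τ.1 t'))))
    _ ≤ ∑ t' ∈ Finset.range (n + 1),
        (ind (t' + G ≤ t) * ρ ^ (t - t') + ind (t + G ≤ t') * ρ ^ (t' - t)) * ∑' a, φ a :=
        Finset.sum_le_sum hterm
    _ = (∑ t' ∈ Finset.range (n + 1), ind (t' + G ≤ t) * ρ ^ (t - t') +
        ∑ t' ∈ Finset.range (n + 1), ind (t + G ≤ t') * ρ ^ (t' - t)) * ∑' a, φ a := by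
        rw [← Finset.sum_mul, Finset.sum_add_distrib]
    _ ≤ (ρ ^ G * (1 - ρ)⁻¹ + ρ ^ G * (1 - ρ)⁻¹) * ∑' a, φ a :=
        mul_le_mul' (add_le_add (w9_down ρ G t n) (w9_up ρ G t n)) le_rfl
    _ = 2 * (ρ ^ G * (1 - ρ)⁻¹) * ∑' a, φ a := by
        rw [← two_mul]

end Pool.Agent.FPP
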