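import Pool.Agent.FPP.Defs
import Pool.Agent.FPP.K4
import Pool.Agent.FPP.K6
import Pool.Agent.FPP.K7
import Pool.Agent.FPP.W6
import Pool.Agent.FPP.W8
import Pool.Agent.FPP.W9
import Pool.Agent.FPP.C1
import Pool.Agent.FPP.C3

open scoped ENNReal BigOperators
open MeasureTheory Filter Topology

namespace Pool.Agent.FPP

/-!
**[FPP-C9] Bad positions are rare.**
PROOF. `¬GP` is a disjunction of ten events (`not_and_or`, `ind_or`, `Sc_mono`, `Sc_add`), each has mass at most `ε`. By `Sc_index` the root may be moved (all events are invariant: `ell_inv`, `hh_inv`, `pw_inv`, and `∃ g, near … (g • o)` is invariant). (1)-(4): `Sc_fst` reduces to `Sm P₁ lam n (fun τ => mg1 φ (τ.1 0) * ind (…))` with `IsMass Γ (mg1 φ)`, and `bad_plus` at `t = k`, `bad_plus` at `t = k - r` (`k - r + r = k`), `bad_minus` at `t = k` and `t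 = k - r`; `mg1_sum`; hypothesis `hr`. (5), (6): root at `(k + r, l)`, `(k - r, l)`,
`Sc_root` with `f ω = φ ω * ind (¬∃ g, near P₁ P₂ D ω (g • o))`; hypothesis `hD`. (7): `Sc_fst`, `bad_hh` at `t = k` with this `G`, `δ` gives `δ * Sm (…) ≤ 2 * (ρ₁ ^ G * (1 - ρ₁)⁻¹) * W ≤ δ * ε`, cancel `δ` (`≠ 0`, `≠ ⊤`). (8): `Sc_snd` and `bad_hh` for the second factor. (9), (10): `ofReal (η * n) * ind (η * n < |dv|) ≤ ofReal |dv|`, so `ofReal (η * n) * Sm (…) ≤ ε * ofReal (η * n)` by `hd₁`, `hd₂`; cancel (`0 < η * n`).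
-/

private theorem ind_andC9 (p q : Prop) : ind (¬(p ∧ q)) ≤ ind (¬p) + ind (¬q) := by
  refine (ind_mono ?_).trans (ind_or _ _)
  tauto

private theorem stepC9 {Ω₁ Ω₂ : Type} (P₁ : Ω₁ → Ω₁ → ℝ≥0∞) (P₂ : Ω₂ → Ω₂ → ℝ≥0∞) (lam : ℝ≥0∞)
    (n : ℕ) (φ : Ω₁ × Ω₂ → ℝ≥0∞) (ε : ℝ≥0∞) (c : ℕ) {A B : Tr Ω₁ → Tr Ω₂ → Prop}
    (hA : Sc P₁ P₂ lam n (fun τ₁ τ₂ => φ (τ₁.1 0, τ₂.1 0) * ind (¬A τ₁ τ₂)) ≤ ε)
    (hB : Sc P₁ P₂ lam n (fun τ₁ τ₂ => φ (τ₁.1 0, τ₂.1 0) * ind (¬B τ₁ τ₂)) ≤ c * ε) :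
    Sc P₁ P₂ lam n (fun τ₁ τ₂ => φ (τ₁.1 0, τ₂.1 0) * ind (¬(A τ₁ τ₂ ∧ B τ₁ τ₂))) ≤
      ((c + 1 : ℕ) : ℝ≥0∞) * ε := by
  have h : Sc P₁ P₂ lam n (fun τ₁ τ₂ => φ (τ₁.1 0, τ₂.1 0) * ind (¬(A τ₁ τ₂ ∧ B τ₁ τ₂))) ≤
      Sc P₁ P₂ lam n (fun τ₁ τ₂ => φ (τ₁.1 0, τ₂.1 0) * ind (¬A τ₁ τ₂) +
        φ (τ₁.1 0, τ₂.1 0) * ind (¬B τ₁ τ₂)) := by
    apply Sc_mono
    intro τ₁ τ₂ _ _
    rw [← mul_add]
    exact mul_le_mul_right (ind_andC9 _ _) _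
  refine h.trans ?_
  rw [Sc_add]
  refine (add_le_add hA hB).trans (le_of_eq ?_)
  rw [Nat.cast_add, Nat.cast_one, add_mul, one_mul, add_comm]

theorem bad_prob {Γ : Type} [Group Γ] {Ω₁ Ω₂ : Type} [MulAction Γ Ω₁] [MulAction Γ Ω₂]
    {P₁ : Ω₁ → Ω₁ → ℝ≥0∞} {P₂ : Ω₂ → Ω₂ → ℝ≥0∞} {κ₁ ρ₁ κ₂ ρ₂ : ℝ≥0∞} (hK₁ : IsKern Γ P₁ κ₁ ρ₁)
    (hK₂ : IsKern Γ P₂ κ₂ ρ₂) {φ : Ω₁ × Ω₂ → ℝ≥0∞} (hφ : IsWt Γ φ) {lam : ℝ≥0∞}
    (h1 : 2⁻¹ ≤ lam) (h2 : lam < 1) (o : Ω₁ × Ω₂) {n r D G : ℕ} {R' η : ℝ} {δ ε : ℝ≥0∞}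
    (hn : 2⁻¹ ≤ lam ^ n) (hn0 : 0 < n) (hη : 0 < η) (hδ : δ ≠ 0) (hδ' : δ ≠ ⊤)
    (hr : 2 * ENNReal.ofReal (Real.exp (R' / 2)) * ρ₁ ^ r * ∑' ω, φ ω ≤ ε)
    (hD : ∑' ω, φ ω * ind (¬∃ g : Γ, near P₁ P₂ D ω (g • o)) ≤ ε)
    (hG₁ : 2 * (ρ₁ ^ G * (1 - ρ₁)⁻¹) * ∑' ω, φ ω ≤ δ * ε)
    (hG₂ : 2 * (ρ₂ ^ G * (1 - ρ₂)⁻¹) * ∑' ω, φ ω ≤ δ * ε)
    (hd₁ : ∀ t ≤ n, Sm P₁ lam n (fun τ => mg1 φ (τ.1 0) * ENNReal.ofReal |dv P₁ lam τ t|) ≤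
      ε * ENNReal.ofReal (η * n))
    (hd₂ : ∀ t ≤ n, Sm P₂ lam n (fun τ => mg2 φ (τ.1 0) * ENNReal.ofReal |dv P₂ lam τ t|) ≤
      ε * ENNReal.ofReal (η * n))
    {k l : ℕ} (hk : r ≤ k) (hk' : k + r ≤ n) (hl : l ≤ n) :
    Sc P₁ P₂ lam n (fun τ₁ τ₂ => φ (τ₁.1 0, τ₂.1 0) *
      ind (¬GP Γ P₁ P₂ lam o n r D G R' η δ τ₁ τ₂ k l)) ≤ 10 * ε := by
  have hm1 : IsMass Γ (mg1 φ) := hφ.mg1_isMass
  have hm2 : IsMass Γ (mg2 φ) := hφ.mg2_isMass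
  have hkn : k ≤ n := by omega
  have red1 : ∀ A : Tr Ω₁ → Prop, Sm P₁ lam n (fun τ => mg1 φ (τ.1 0) * ind (¬A τ)) ≤ ε →
      Sc P₁ P₂ lam n (fun τ₁ τ₂ => φ (τ₁.1 0, τ₂.1 0) * ind (¬A τ₁)) ≤ ε := by
    intro A hA
    rw [Sc_fst P₁ hK₂.symm hK₂.sum_one h2 (Nat.zero_le n) 0 φ (fun τ => ind (¬A τ))]
    exact hA
  have red2 : ∀ A : Tr Ω₂ → Prop, Sm P₂ lam n (fun τ => mg2 φ (τ.1 0) * ind (¬A τ)) ≤ ε →
      Sc P₁ P₂ lam n (fun τ₁ τ₂ => φ (τ₁.1 0, τ₂.1 0) * ind (¬A τ₂)) ≤ ε := by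
    intro A hA
    rw [Sc_snd P₂ hK₁.symm hK₁.sum_one h2 (Nat.zero_le n) 0 φ (fun τ => ind (¬A τ))]
    exact hA
  have hplus : ∀ t, t + r ≤ n → Sm P₁ lam n (fun τ => mg1 φ (τ.1 0) *
      ind (¬(ell P₁ lam (τ.1 (t + r)) τ.2.1 + R' ≤ ell P₁ lam (τ.1 t) τ.2.1))) ≤ ε := by
    intro t ht
    have h := bad_plus hK₁ hm1 h2 hn ht 0 R'
    rw [mg1_sum] at h
    refine le_trans (le_of_eq ?_) (h.trans hr)
    congr 1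
    funext τ
    rw [ind_congr not_le]
  have hminus : ∀ t, t + r ≤ n → Sm P₁ lam n (fun τ => mg1 φ (τ.1 0) *
      ind (¬(ell P₁ lam (τ.1 t) τ.2.2 + R' ≤ ell P₁ lam (τ.1 (t + r)) τ.2.2))) ≤ ε := by
    intro t ht
    have h := bad_minus hK₁ hm1 h2 hn ht 0 R'
    rw [mg1_sum] at h
    refine le_trans (le_of_eq ?_) (h.trans hr)
    congr 1
    funext τ
    rw [ind_congr not_le]
  have hkr : k - r + r = k := Nat.sub_add_cancel hk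
  have b2 := hplus (k - r) (by omega)
  have b4 := hminus (k - r) (by omega)
  rw [hkr] at b2 b4
  have hroot : ∀ s ≤ n, Sc P₁ P₂ lam n (fun τ₁ τ₂ => φ (τ₁.1 0, τ₂.1 0) *
      ind (¬∃ g : Γ, near P₁ P₂ D (τ₁.1 s, τ₂.1 l) (g • o))) ≤ ε := by
    intro s hs
    have hinv : ∀ (g : Γ) (τ₁ : Tr Ω₁) (τ₂ : Tr Ω₂),
        ind (¬∃ h : Γ, near P₁ P₂ D ((g • τ₁).1 s, (g • τ₂).1 l) (h • o)) =
          ind (¬∃ h : Γ, near P₁ P₂ D (τ₁.1 s, τ₂.1 l) (h • o)) := by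
      intro g τ₁ τ₂
      apply ind_congr
      rw [not_iff_not]
      have e1 : (g • τ₁).1 s = g • τ₁.1 s := rfl
      have e2 : (g • τ₂).1 l = g • τ₂.1 l := rfl
      rw [e1, e2]
      constructor
      · rintro ⟨h, n1, n2⟩
        refine ⟨g⁻¹ * h, ?_, ?_⟩
        · have := pw_inv hK₁.inv D g (τ₁.1 s) ((g⁻¹ * h) • o.1)
          rw [smul_smul, mul_inv_cancel_left] at this
          exact fun h0 => n1 (this.trans h0)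
        · have := pw_inv hK₂.inv D g (τ₂.1 l) ((g⁻¹ * h) • o.2)
          rw [smul_smul, mul_inv_cancel_left] at this
          exact fun h0 => n2 (this.trans h0)
      · rintro ⟨h, n1, n2⟩
        refine ⟨g * h, ?_, ?_⟩
        · have := pw_inv hK₁.inv D g (τ₁.1 s) (h • o.1)
          rw [smul_smul] at this
          exact fun h0 => n1 (this.symm.trans h0)
        · have := pw_inv hK₂.inv D g (τ₂.1 l) (h • o.2)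
          rw [smul_smul] at this
          exact fun h0 => n2 (this.symm.trans h0)
    rw [Sc_index hK₁.inv hK₂.inv hφ lam n 0 0 s l
      (fun τ₁ τ₂ => ind (¬∃ g : Γ, near P₁ P₂ D (τ₁.1 s, τ₂.1 l) (g • o))) hinv]
    rw [Sc_root hK₁.symm hK₁.sum_one hK₂.symm hK₂.sum_one h2 hs hl
      (fun ω => φ ω * ind (¬∃ g : Γ, near P₁ P₂ D ω (g • o)))]
    exact hD
  have b7 : Sm P₁ lam n (fun τ => mg1 φ (τ.1 0) *
      ind (¬∀ k' ≤ n, (k' + G ≤ k ∨ k + G ≤ k') → hh P₁ lam (τ.1 k) (τ.1 k') ≤ δ)) ≤ ε := by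
    have h := bad_hh hK₁ hm1 h2 hkn 0 G δ
    rw [mg1_sum] at h
    have h' := h.trans hG₁
    rw [ENNReal.mul_le_mul_iff_right hδ hδ'] at h'
    refine le_trans (le_of_eq ?_) h'
    congr 1
    funext τ
    congr 1
    apply ind_congr
    push Not
    rfl
  have b8 : Sm P₂ lam n (fun τ => mg2 φ (τ.1 0) *
      ind (¬∀ l' ≤ n, (l' + G ≤ l ∨ l + G ≤ l') → hh P₂ lam (τ.1 l) (τ.1 l') ≤ δ)) ≤ ε := by
    have h := bad_hh hK₂ hm2 h2 hl 0 G δ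
    rw [mg2_sum] at h
    have h' := h.trans hG₂
    rw [ENNReal.mul_le_mul_iff_right hδ hδ'] at h'
    refine le_trans (le_of_eq ?_) h'
    congr 1
    funext τ
    congr 1
    apply ind_congr
    push Not
    rfl
  have hpos : 0 < η * n := mul_pos hη (by exact_mod_cast hn0)
  have hind : ∀ d : ℝ, ENNReal.ofReal (η * n) * ind (¬|d| ≤ η * n) ≤ ENNReal.ofReal |d| := by
    intro d
    by_cases hd : |d| ≤ η * n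
    · rw [ind_false (not_not.2 hd), mul_zero]
      exact bot_le
    · rw [ind_true hd, mul_one]
      exact ENNReal.ofReal_le_ofReal (not_le.1 hd).le
  have hne : ENNReal.ofReal (η * n) ≠ 0 := (ENNReal.ofReal_pos.2 hpos).ne'
  have b9 : Sm P₁ lam n (fun τ => mg1 φ (τ.1 0) * ind (¬|dv P₁ lam τ k| ≤ η * n)) ≤ ε := by
    rw [← ENNReal.mul_le_mul_iff_right hne ENNReal.ofReal_ne_top, ← Sm_mul,
      mul_comm (ENNReal.ofReal (η * n)) ε]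
    refine le_trans (Sm_mono _ _ _ _ _ fun τ _ => ?_) (hd₁ k hkn)
    rw [mul_left_comm]
    exact mul_le_mul_right (hind _) _
  have b10 : Sm P₂ lam n (fun τ => mg2 φ (τ.1 0) * ind (¬|dv P₂ lam τ l| ≤ η * n)) ≤ ε := by
    rw [← ENNReal.mul_le_mul_iff_right hne ENNReal.ofReal_ne_top, ← Sm_mul,
      mul_comm (ENNReal.ofReal (η * n)) ε]
    refine le_trans (Sm_mono _ _ _ _ _ fun τ _ => ?_) (hd₂ l hl)
    rw [mul_left_comm]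
    exact mul_le_mul_right (hind _) _
  have hten : (10 : ℝ≥0∞) * ε = ((9 + 1 : ℕ) : ℝ≥0∞) * ε := by norm_num
  rw [hten]
  unfold GP
  refine stepC9 P₁ P₂ lam n φ ε 9 (red1 _ (hplus k hk')) ?_
  refine stepC9 P₁ P₂ lam n φ ε 8 (red1 _ b2) ?_
  refine stepC9 P₁ P₂ lam n φ ε 7 (red1 _ (hminus k hk')) ?_
  refine stepC9 P₁ P₂ lam n φ ε 6 (red1 _ b4) ?_
  refine stepC9 P₁ P₂ lam n φ ε 5 (hroot (k + r) hk') ?_
  refine stepC9 P₁ P₂ lam n φ ε 4 (hroot (k - r) (by omega)) ?_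
  refine stepC9 P₁ P₂ lam n φ ε 3 (red1 _ b7) ?_
  refine stepC9 P₁ P₂ lam n φ ε 2 (red2 _ b8) ?_
  refine stepC9 P₁ P₂ lam n φ ε 1 (red1 _ b9) ?_
  rw [Nat.cast_one, one_mul]
  exact red2 _ b10

end Pool.Agent.FPP
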