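import Pool.Agent.FPP.Defs
import Pool.Agent.FPP.K6
import Pool.Agent.FPP.K7
import Pool.Agent.FPP.C1
import Pool.Agent.FPP.C3
import Pool.Agent.FPP.C4
import Pool.Agent.FPP.C8
import Pool.Agent.FPP.C9
import Pool.Agent.FPP.W6

open scoped ENNReal BigOperators
open MeasureTheory Filter Topology

namespace Pool.Agent.FPP

private theorem Good_smul {Γ : Type} [Group Γ] {Ω₁ Ω₂ : Type} [MulAction Γ Ω₁] [MulAction Γ Ω₂]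
    {P₁ : Ω₁ → Ω₁ → ℝ≥0∞} {P₂ : Ω₂ → Ω₂ → ℝ≥0∞}
    (i₁ : ∀ (g : Γ) (x y : Ω₁), P₁ (g • x) (g • y) = P₁ x y)
    (i₂ : ∀ (g : Γ) (x y : Ω₂), P₂ (g • x) (g • y) = P₂ x y)
    {lam : ℝ≥0∞} {o : Ω₁ × Ω₂} {R : ℝ} {m L : ℕ} {δ : ℝ≥0∞} {K : ℕ} {ω ωi ωj : Ω₁ × Ω₂} (g : Γ)
    (h : Good Γ P₁ P₂ lam o R m L δ K ω ωi ωj) :
    Good Γ P₁ P₂ lam o R m L δ K (g • ω) (g • ωi) (g • ωj) := by
  have hn : ∀ (q : ℕ) (a b : Ω₁ × Ω₂), near P₁ P₂ q a b → near P₁ P₂ q (g • a) (g • b) := by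
    intro q a b hab
    refine ⟨?_, ?_⟩
    · have := pw_inv i₁ q g a.1 b.1
      rw [Prod.smul_fst, Prod.smul_fst, this]
      exact hab.1
    · have := pw_inv i₂ q g a.2 b.2
      rw [Prod.smul_snd, Prod.smul_snd, this]
      exact hab.2
  have hL : ∀ a b : Ω₁ × Ω₂, L2 P₁ P₂ lam (g • a) (g • b) = L2 P₁ P₂ lam a b := by
    intro a b
    unfold L2
    rw [Prod.smul_fst, Prod.smul_fst, Prod.smul_snd, Prod.smul_snd, ell_inv i₁, ell_inv i₂]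
  obtain ⟨y, u, v, h1, h2, h3, h4, h5⟩ := h
  refine ⟨fun n => g • y n, fun n => g * u n, fun n => g * v n, ?_, ?_, ?_, ?_, ?_⟩
  · intro n
    obtain ⟨a, b, c⟩ := h1 n
    refine ⟨hn _ _ _ a, ?_, ?_⟩
    · rw [mul_smul]
      exact hn _ _ _ b
    · rw [mul_smul]
      exact hn _ _ _ c
  · intro n
    rw [hL, hL, hL, hL]
    exact h2 n
  · intro n
    rw [mul_smul, hL, hL, hL, hL]
    exact h3 n
  · intro n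
    rw [mul_smul, hL, hL, hL, hL]
    exact h4 n
  · intro n n' hnn
    rw [Prod.smul_fst, Prod.smul_fst, Prod.smul_snd, Prod.smul_snd, hh_inv i₁, hh_inv i₂]
    exact h5 n n' hnn

private theorem Good_smul_iff {Γ : Type} [Group Γ] {Ω₁ Ω₂ : Type} [MulAction Γ Ω₁]
    [MulAction Γ Ω₂] {P₁ : Ω₁ → Ω₁ → ℝ≥0∞} {P₂ : Ω₂ → Ω₂ → ℝ≥0∞}
    (i₁ : ∀ (g : Γ) (x y : Ω₁), P₁ (g • x) (g • y) = P₁ x y)
    (i₂ : ∀ (g : Γ) (x y : Ω₂), P₂ (g • x) (g • y) = P₂ x y)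
    {lam : ℝ≥0∞} {o : Ω₁ × Ω₂} {R : ℝ} {m L : ℕ} {δ : ℝ≥0∞} {K : ℕ} {ω ωi ωj : Ω₁ × Ω₂} (g : Γ) :
    Good Γ P₁ P₂ lam o R m L δ K (g • ω) (g • ωi) (g • ωj) ↔
      Good Γ P₁ P₂ lam o R m L δ K ω ωi ωj := by
  refine ⟨fun h => ?_, Good_smul i₁ i₂ g⟩
  have := Good_smul i₁ i₂ g⁻¹ h
  rwa [inv_smul_smul, inv_smul_smul, inv_smul_smul] at this

private theorem g2_sum_ten {Ω₁ Ω₂ : Type} {P₁ : Ω₁ → Ω₁ → ℝ≥0∞} {P₂ : Ω₂ → Ω₂ → ℝ≥0∞}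
    (h₁ : ∀ x, ∑' y, P₁ x y = 1) (h₂ : ∀ x, ∑' y, P₂ x y = 1) {lam : ℝ≥0∞} (hlam : lam < 1)
    (ω : Ω₁ × Ω₂) : ∑' ω', g2 P₁ P₂ lam ω ω' = 1 := by
  rw [ENNReal.tsum_prod']
  unfold g2
  simp only [ENNReal.tsum_mul_left, gg_sum h₂ hlam, mul_one]
  exact gg_sum h₁ hlam _

theorem sites_step {Γ : Type} [Group Γ] {Ω₁ Ω₂ : Type} [MulAction Γ Ω₁] [MulAction Γ Ω₂]
    {P₁ : Ω₁ → Ω₁ → ℝ≥0∞} {P₂ : Ω₂ → Ω₂ → ℝ≥0∞} {κ₁ ρ₁ κ₂ ρ₂ : ℝ≥0∞} (hK₁ : IsKern Γ P₁ κ₁ ρ₁)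
    (hK₂ : IsKern Γ P₂ κ₂ ρ₂) {φ : Ω₁ × Ω₂ → ℝ≥0∞} (hφ : IsWt Γ φ) {lam : ℝ≥0∞}
    (h1 : 2⁻¹ ≤ lam) (h2 : lam < 1) (o : Ω₁ × Ω₂) {n r D G L m : ℕ} {R R' η : ℝ} {δ ε : ℝ≥0∞}
    (hn : 2⁻¹ ≤ lam ^ n) (hn0 : 0 < n) (hrn : 2 * r ≤ n) (hη : 0 < η) (hδ : δ ≠ 0) (hδ' : δ ≠ ⊤)
    (hm : r + D ≤ m) (hR : R + 2 * (D * cc κ₁ + D * cc κ₂) ≤ 2 * R')
    (hr : 2 * ENNReal.ofReal (Real.exp (R' / 2)) * ρ₁ ^ r * ∑' ω, φ ω ≤ ε)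
    (hD : ∑' ω, φ ω * ind (¬∃ g : Γ, near P₁ P₂ D ω (g • o)) ≤ ε)
    (hG₁ : 2 * (ρ₁ ^ G * (1 - ρ₁)⁻¹) * ∑' ω, φ ω ≤ δ * ε)
    (hG₂ : 2 * (ρ₂ ^ G * (1 - ρ₂)⁻¹) * ∑' ω, φ ω ≤ δ * ε)
    (hd₁ : ∀ t ≤ n, Sm P₁ lam n (fun τ => mg1 φ (τ.1 0) * ENNReal.ofReal |dv P₁ lam τ t|) ≤
      ε * ENNReal.ofReal (η * n))
    (hd₂ : ∀ t ≤ n, Sm P₂ lam n (fun τ => mg2 φ (τ.1 0) * ENNReal.ofReal |dv P₂ lam τ t|) ≤
      ε * ENNReal.ofReal (η * n))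
    (hbox : (∑' ω, φ ω) * ENNReal.ofReal ((2 * (2 * (cc κ₁ + cc κ₂) * n) + 2) *
      (2 * (2 * η * n) + 2) * (L * (2 * G + 1) ^ 2)) ≤ ε * (n - 2 * r + 1 : ℕ) ^ 2)
    (hlamW : ∑' ω, φ ω ≤ lam ^ (2 * n) * (∑' ω, φ ω) + ε) :
    ∑' ω, ∑' ωi, ∑' ωj, φ ω * (g2 P₁ P₂ lam ω ωi * g2 P₁ P₂ lam ω ωj *
      ind (¬Good Γ P₁ P₂ lam o R m L δ n ω ωi ωj)) ≤ 12 * ε := by
  classical
  set W := ∑' ω, φ ω with hW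
  have hWt : W ≠ ⊤ := hφ.fin
  set box := Finset.Icc r (n - r) ×ˢ Finset.Icc r (n - r) with hbx
  have hcard : ((box.card : ℕ) : ℝ≥0∞) = (n - 2 * r + 1 : ℕ) ^ 2 := by
    rw [hbx, Finset.card_product, Nat.card_Icc]
    have : n - r + 1 - r = n - 2 * r + 1 := by omega
    rw [this]
    push_cast
    ring
  have hne : box.Nonempty := by
    refine ⟨(r, r), ?_⟩
    rw [hbx, Finset.mem_product, Finset.mem_Icc]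
    have hr' : r ≤ n - r := by omega
    exact ⟨⟨le_refl _, hr'⟩, ⟨le_refl _, hr'⟩⟩
  set Cst : ℝ≥0∞ := ENNReal.ofReal ((2 * (2 * (cc κ₁ + cc κ₂) * n) + 2) *
      (2 * (2 * η * n) + 2) * (L * (2 * G + 1) ^ 2)) with hCst
  set f : ℕ × ℕ → ℝ≥0∞ := fun p => Sc P₁ P₂ lam n (fun τ₁ τ₂ => φ (τ₁.1 0, τ₂.1 0) *
    ind (¬Good Γ P₁ P₂ lam o R m L δ n (τ₁.1 p.1, τ₂.1 p.2) (τ₁.2.1, τ₂.2.2)
      (τ₁.2.2, τ₂.2.1))) with hf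
  have s1 : ∑ p ∈ box, f p ≤ ∑ p ∈ box, 11 * ε := by
    calc ∑ p ∈ box, f p = Sc P₁ P₂ lam n (fun τ₁ τ₂ => ∑ p ∈ box, φ (τ₁.1 0, τ₂.1 0) *
          ind (¬Good Γ P₁ P₂ lam o R m L δ n (τ₁.1 p.1, τ₂.1 p.2) (τ₁.2.1, τ₂.2.2)
            (τ₁.2.2, τ₂.2.1))) := by rw [Sc_sum]
      _ ≤ Sc P₁ P₂ lam n (fun τ₁ τ₂ => (∑ p ∈ box, φ (τ₁.1 0, τ₂.1 0) *
          ind (¬GP Γ P₁ P₂ lam o n r D G R' η δ τ₁ τ₂ p.1 p.2)) +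
            Cst * φ (τ₁.1 0, τ₂.1 0)) := by
          refine Sc_mono _ _ _ _ _ _ fun τ₁ τ₂ ht₁ ht₂ => ?_
          rw [← Finset.mul_sum, ← Finset.mul_sum, mul_comm Cst, ← mul_add]
          exact mul_le_mul_right (bad_count hK₁ hK₂ h1 h2 o hη.le hm hR τ₁ τ₂ ht₁ ht₂) _
      _ = (∑ p ∈ box, Sc P₁ P₂ lam n (fun τ₁ τ₂ => φ (τ₁.1 0, τ₂.1 0) *
          ind (¬GP Γ P₁ P₂ lam o n r D G R' η δ τ₁ τ₂ p.1 p.2))) + Cst * W := by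
          rw [Sc_add, Sc_sum, Sc_mul]
          congr 2
          exact Sc_root hK₁.symm hK₁.sum_one hK₂.symm hK₂.sum_one h2 (Nat.zero_le n)
            (Nat.zero_le n) φ
      _ ≤ (∑ _p ∈ box, 10 * ε) + ε * (n - 2 * r + 1 : ℕ) ^ 2 := by
          refine add_le_add (Finset.sum_le_sum fun p hp => ?_) ?_
          · rw [hbx, Finset.mem_product, Finset.mem_Icc, Finset.mem_Icc] at hp
            exact bad_prob hK₁ hK₂ hφ h1 h2 o hn hn0 hη hδ hδ' hr hD hG₁ hG₂ hd₁ hd₂ hp.1.1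
              (by omega) (by omega)
          · rw [mul_comm Cst]
            exact hbox
      _ = ∑ p ∈ box, 11 * ε := by
          rw [Finset.sum_const, Finset.sum_const, nsmul_eq_mul, nsmul_eq_mul, ← hcard]
          ring
  obtain ⟨p, hp, hfp⟩ : ∃ p ∈ box, f p ≤ 11 * ε := by
    by_contra hcon
    push Not at hcon
    have := ENNReal.sum_lt_sum_of_nonempty hne hcon
    exact absurd s1 (not_le.2 this)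
  obtain ⟨k, l⟩ := p
  rw [hbx, Finset.mem_product, Finset.mem_Icc, Finset.mem_Icc] at hp
  simp only at hp
  have hkn : k ≤ n := by omega
  have hln : l ≤ n := by omega
  have hX : Sc P₁ P₂ lam n (fun τ₁ τ₂ => φ (τ₁.1 k, τ₂.1 l) *
      ind (¬Good Γ P₁ P₂ lam o R m L δ n (τ₁.1 k, τ₂.1 l) (τ₁.2.1, τ₂.2.2)
        (τ₁.2.2, τ₂.2.1))) ≤ 11 * ε := by
    have e := Sc_index hK₁.inv hK₂.inv hφ lam n 0 0 k l (fun τ₁ τ₂ =>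
      ind (¬Good Γ P₁ P₂ lam o R m L δ n (τ₁.1 k, τ₂.1 l) (τ₁.2.1, τ₂.2.2)
        (τ₁.2.2, τ₂.2.1))) (fun g τ₁ τ₂ => by
          refine ind_congr (not_congr ?_)
          exact Good_smul_iff hK₁.inv hK₂.inv (ω := (τ₁.1 k, τ₂.1 l))
            (ωi := (τ₁.2.1, τ₂.2.2)) (ωj := (τ₁.2.2, τ₂.2.1)) g)
    rw [← e]
    exact hfp
  have hsplit : Sc P₁ P₂ lam n (fun τ₁ τ₂ => φ (τ₁.1 k, τ₂.1 l) *
      ind (¬Good Γ P₁ P₂ lam o R m L δ n (τ₁.1 k, τ₂.1 l) (τ₁.2.1, τ₂.2.2)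
        (τ₁.2.2, τ₂.2.1))) + Sc P₁ P₂ lam n (fun τ₁ τ₂ => φ (τ₁.1 k, τ₂.1 l) *
      ind (Good Γ P₁ P₂ lam o R m L δ n (τ₁.1 k, τ₂.1 l) (τ₁.2.1, τ₂.2.2)
        (τ₁.2.2, τ₂.2.1))) = W := by
    rw [← Sc_add]
    simp only [← mul_add, ind_not, mul_one]
    exact Sc_root hK₁.symm hK₁.sum_one hK₂.symm hK₂.sum_one h2 hkn hln φ
  have hdom := Sc_dom hK₁.symm hK₂.symm h2 hkn hln φ
    (fun ω ωi ωj => ind (Good Γ P₁ P₂ lam o R m L δ n ω ωi ωj))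
  set B' := ∑' ω, ∑' ωi, ∑' ωj, φ ω * (g2 P₁ P₂ lam ω ωi * g2 P₁ P₂ lam ω ωj *
      ind (Good Γ P₁ P₂ lam o R m L δ n ω ωi ωj)) with hB'
  set B := ∑' ω, ∑' ωi, ∑' ωj, φ ω * (g2 P₁ P₂ lam ω ωi * g2 P₁ P₂ lam ω ωj *
      ind (¬Good Γ P₁ P₂ lam o R m L δ n ω ωi ωj)) with hB
  have hBB : B + B' = W := by
    rw [hB, hB', ← ENNReal.tsum_add, hW]
    refine tsum_congr fun ω => ?_
    rw [← ENNReal.tsum_add]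
    have : ∀ ωi, (∑' ωj, φ ω * (g2 P₁ P₂ lam ω ωi * g2 P₁ P₂ lam ω ωj *
        ind (¬Good Γ P₁ P₂ lam o R m L δ n ω ωi ωj))) +
        (∑' ωj, φ ω * (g2 P₁ P₂ lam ω ωi * g2 P₁ P₂ lam ω ωj *
        ind (Good Γ P₁ P₂ lam o R m L δ n ω ωi ωj))) = φ ω * g2 P₁ P₂ lam ω ωi := by
      intro ωi
      rw [← ENNReal.tsum_add]
      simp only [← mul_add, ind_not, mul_one]
      rw [ENNReal.tsum_mul_left, ENNReal.tsum_mul_left,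
        g2_sum_ten hK₁.sum_one hK₂.sum_one h2, mul_one]
    rw [tsum_congr this, ENNReal.tsum_mul_left, g2_sum_ten hK₁.sum_one hK₂.sum_one h2, mul_one]
  have hB't : B' ≠ ⊤ := ne_top_of_le_ne_top hWt (hBB ▸ le_add_self)
  have key : W ≤ B' + 12 * ε := by
    calc W ≤ lam ^ (2 * n) * W + ε := hlamW
      _ ≤ (B' + 11 * ε) + ε := by
          refine add_le_add ?_ le_rfl
          nth_rewrite 1 [← hsplit]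
          rw [mul_add, add_comm]
          refine add_le_add hdom ?_
          calc lam ^ (2 * n) * _ ≤ 1 * (11 * ε) :=
                mul_le_mul' (pow_le_one₀ bot_le h2.le) hX
            _ = 11 * ε := one_mul _
      _ = B' + 12 * ε := by ring
  have : B + B' ≤ 12 * ε + B' := by
    rw [hBB, add_comm (12 * ε)]
    exact key
  exact (ENNReal.add_le_add_iff_right hB't).1 this

end Pool.Agent.FPP
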