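import Pool.Agent.FPP.Defs
import Pool.Agent.FPP.K3

open scoped ENNReal BigOperators
open MeasureTheory Filter Topology

namespace Pool.Agent.FPP

/-!
**[FPP-C5] Most of the mass is near the orbit.**
PROOF. Every `ω` satisfies `near P₁ P₂ D ω o` for some `D` (`hK₁.conn`, `hK₂.conn` and `pw_mono` to the maximum of the two times), and `o = (1 : Γ) • o`. There is a finite set `s` of points with `∑' ω ∉ s, φ ω ≤ ε` (`ENNReal.tendsto_tsum_compl_atTop_zero`, or `ENNReal.exists_finset…`); take `D` to be the maximum over `ω ∈ s`. For larger `D` the indicators only decrease (`pw_mono`). So `φ ω * ind (…) ≤ φ ω * ind (ω ∉ s)`.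
-/

theorem exists_D {Γ : Type} [Group Γ] {Ω₁ Ω₂ : Type} [MulAction Γ Ω₁] [MulAction Γ Ω₂]
    {P₁ : Ω₁ → Ω₁ → ℝ≥0∞} {P₂ : Ω₂ → Ω₂ → ℝ≥0∞} {κ₁ ρ₁ κ₂ ρ₂ : ℝ≥0∞} (hK₁ : IsKern Γ P₁ κ₁ ρ₁)
    (hK₂ : IsKern Γ P₂ κ₂ ρ₂) {φ : Ω₁ × Ω₂ → ℝ≥0∞} (hφ : ∑' ω, φ ω ≠ ⊤) (o : Ω₁ × Ω₂)
    {ε : ℝ≥0∞} (hε : ε ≠ 0) :
    ∃ D : ℕ, ∑' ω, φ ω * ind (¬∃ g : Γ, near P₁ P₂ D ω (g • o)) ≤ ε := by
  classical
  have hD : ∀ ω : Ω₁ × Ω₂, ∃ D : ℕ, near P₁ P₂ D ω o := by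
    intro ω
    obtain ⟨k, hk⟩ := hK₁.conn ω.1 o.1
    obtain ⟨l, hl⟩ := hK₂.conn ω.2 o.2
    exact ⟨max k l, pw_mono hK₁ (le_max_left _ _) hk, pw_mono hK₂ (le_max_right _ _) hl⟩
  choose Dω hDω using hD
  have h1 := ENNReal.tendsto_tsum_compl_atTop_zero hφ
  have h2 : ∀ᶠ s : Finset (Ω₁ × Ω₂) in atTop, ∑' b : {x // x ∉ s}, φ b < ε :=
    h1.eventually_lt_const (pos_iff_ne_zero.2 hε)
  obtain ⟨s, hs⟩ := h2.exists
  refine ⟨s.sup Dω, ?_⟩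
  have h3 : ∑' b : {x // x ∉ s}, φ b = ∑' ω, Set.indicator {x | x ∉ s} φ ω :=
    tsum_subtype {x | x ∉ s} φ
  refine le_trans ?_ hs.le
  rw [h3]
  refine ENNReal.tsum_le_tsum fun ω => ?_
  by_cases hω : ω ∈ s
  · have h4 : ∃ g : Γ, near P₁ P₂ (s.sup Dω) ω (g • o) := by
      refine ⟨1, ?_⟩
      rw [one_smul]
      have hle : Dω ω ≤ s.sup Dω := Finset.le_sup hω
      exact ⟨pw_mono hK₁ hle (hDω ω).1, pw_mono hK₂ hle (hDω ω).2⟩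
    rw [ind_false (by simpa using h4)]
    simp
  · rw [Set.indicator_of_mem (by exact hω)]
    calc φ ω * ind (¬∃ g : Γ, near P₁ P₂ (s.sup Dω) ω (g • o)) ≤ φ ω * 1 := by
          gcongr
          exact ind_le_one _
      _ = φ ω := mul_one _

end Pool.Agent.FPP
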