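import Pool.Agent.FPP.Defs
import Pool.Agent.FPP.K2
import Pool.Agent.FPP.K3
import Pool.Agent.FPP.K6

open scoped ENNReal BigOperators
open MeasureTheory Filter Topology

namespace Pool.Agent.FPP

/-!
**[FPP-K9] Entropy: finiteness and subadditivity.**
PROOF. `nlog_mul`: `- log (a b) = - log a - log b` for `a, b ∈ (0, 1]`. `HK_le`: if `pw P k x y ≠ 0` then `κ ^ k ≤ pw P k x y ≤ 1`, so `nlog (pw P k x y) ≤ ofReal (k * cc κ)` (`- log κ ≤ cc κ`); sum with `pw_sum`. `HK_sub`: `pw P (m + n) x y = ∑' z, pw P m x z * pw P n z y` (`pw_add`), and for each `z` with nonzero term `pw P (m + n) x y ≥ pw P m x z * pw P n z y`, so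
`nlog (pw P (m + n) x y) ≤ nlog (pw P m x z) + nlog (pw P n z y)` (`nlog` is antitone on `(0, 1]`). Hence `HK (m + n) ≤ ∑' x, φ x * ∑' z, pw P m x z * nlog (pw P m x z) * ∑' y, pw P n z y + ∑' x, φ x * ∑' z, pw P m x z * G z`, `G z = ∑' y, pw P n z y * nlog (pw P n z y)`. The first part is `HK m` (`pw_sum`). In the second, `F x z = pw P m x z * G z` is invariant and `hφ.mtp` gives
`∑' z, φ z * G z * ∑' x, pw P m x z = HK n` (`pw_symm`, `pw_sum`).
-/

theorem k9_toReal_pos {p : ℝ≥0∞} (h0 : p ≠ 0) (h1 : p ≤ 1) : 0 < p.toReal :=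
  ENNReal.toReal_pos h0 (ne_top_of_le_ne_top ENNReal.one_ne_top h1)

theorem k9_toReal_le_one {p : ℝ≥0∞} (h1 : p ≤ 1) : p.toReal ≤ 1 := by
  have := ENNReal.toReal_mono ENNReal.one_ne_top h1
  simpa using this

theorem k9_neg_log_nonneg {p : ℝ≥0∞} (h1 : p ≤ 1) : 0 ≤ -Real.log p.toReal := by
  rw [neg_nonneg]
  exact Real.log_nonpos ENNReal.toReal_nonneg (k9_toReal_le_one h1)

theorem nlog_mul {a b : ℝ≥0∞} (ha : a ≠ 0) (ha1 : a ≤ 1) (hb : b ≠ 0) (hb1 : b ≤ 1) :
    nlog (a * b) = nlog a + nlog b := by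
  unfold nlog
  rw [ENNReal.toReal_mul, Real.log_mul (k9_toReal_pos ha ha1).ne' (k9_toReal_pos hb hb1).ne',
    neg_add, ENNReal.ofReal_add (k9_neg_log_nonneg ha1) (k9_neg_log_nonneg hb1)]

theorem nlog_anti {a b : ℝ≥0∞} (ha : a ≠ 0) (hab : a ≤ b) (hb : b ≤ 1) : nlog b ≤ nlog a := by
  unfold nlog
  apply ENNReal.ofReal_le_ofReal
  rw [neg_le_neg_iff]
  exact Real.log_le_log (k9_toReal_pos ha (hab.trans hb))
    (ENNReal.toReal_mono (ne_top_of_le_ne_top ENNReal.one_ne_top hb) hab)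

theorem HK_le {Γ : Type} [Group Γ] {Ω : Type} [MulAction Γ Ω] {P : Ω → Ω → ℝ≥0∞} {κ ρ : ℝ≥0∞} (φ : Ω → ℝ≥0∞) (hK : IsKern Γ P κ ρ) (k : ℕ) :
    HK φ P k ≤ (∑' x, φ x) * ENNReal.ofReal (k * cc κ) := by
  unfold HK
  rw [← ENNReal.tsum_mul_right]
  apply ENNReal.tsum_le_tsum
  intro x
  rw [ENNReal.tsum_mul_left]
  refine mul_le_mul' le_rfl ?_
  have hκ0 := k9_toReal_pos hK.κ_pos hK.κ_le
  have hcc : -Real.log κ.toReal ≤ cc κ := by
    unfold cc
    rw [Real.log_div (by norm_num) hκ0.ne']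
    have : 0 ≤ Real.log 2 := Real.log_nonneg (by norm_num)
    linarith
  have key : ∀ y, pw P k x y * nlog (pw P k x y) ≤ pw P k x y * ENNReal.ofReal (k * cc κ) := by
    intro y
    by_cases h : pw P k x y = 0
    · simp [h]
    refine mul_le_mul' le_rfl ?_
    refine (nlog_anti (pow_ne_zero _ hK.κ_pos) (pw_low hK k x y h)
      (pw_le_one hK.sum_one k x y)).trans ?_
    unfold nlog
    apply ENNReal.ofReal_le_ofReal
    rw [ENNReal.toReal_pow, Real.log_pow, ← mul_neg]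
    exact mul_le_mul_of_nonneg_left hcc (Nat.cast_nonneg k)
  calc ∑' y, pw P k x y * nlog (pw P k x y)
      ≤ ∑' y, pw P k x y * ENNReal.ofReal (k * cc κ) := ENNReal.tsum_le_tsum key
    _ = ENNReal.ofReal (k * cc κ) := by
        rw [ENNReal.tsum_mul_right, pw_sum hK.sum_one, one_mul]

theorem k9_HK {Ω : Type} (φ : Ω → ℝ≥0∞) (P : Ω → Ω → ℝ≥0∞) (k : ℕ) :
    HK φ P k = ∑' x, φ x * ∑' y, pw P k x y * nlog (pw P k x y) := by
  unfold HK
  apply tsum_congr
  intro x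
  rw [ENNReal.tsum_mul_left]

/-- a function of the end point -/
theorem k9_root {Γ : Type} [Group Γ] {Ω : Type} [MulAction Γ Ω] {P : Ω → Ω → ℝ≥0∞} {κ ρ : ℝ≥0∞}
    {φ : Ω → ℝ≥0∞} (hK : IsKern Γ P κ ρ) (hφ : IsMass Γ φ) (m : ℕ) (f : Ω → ℝ≥0∞)
    (hf : ∀ (g : Γ) x, f (g • x) = f x) :
    ∑' x, φ x * ∑' y, pw P m x y * f y = ∑' x, φ x * f x := by
  have h := hφ.mtp (fun x y => pw P m x y * f y) (fun g x y => by rw [pw_inv hK.inv, hf])
  have e1 : ∑' x, φ x * ∑' y, pw P m x y * f y = ∑' x, ∑' y, φ x * (pw P m x y * f y) := by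
    apply tsum_congr
    intro x
    rw [ENNReal.tsum_mul_left]
  rw [e1, h, ENNReal.tsum_comm]
  apply tsum_congr
  intro y
  rw [ENNReal.tsum_mul_left, ENNReal.tsum_mul_right]
  simp only [pw_symm hK.symm m _ y]
  rw [pw_sum hK.sum_one, one_mul]

theorem HK_sub {Γ : Type} [Group Γ] {Ω : Type} [MulAction Γ Ω] {P : Ω → Ω → ℝ≥0∞} {κ ρ : ℝ≥0∞} {φ : Ω → ℝ≥0∞} (hK : IsKern Γ P κ ρ) (hφ : IsMass Γ φ) (m n : ℕ) :
    HK φ P (m + n) ≤ HK φ P m + HK φ P n := by
  have e1 : HK φ P n = ∑' x, φ x * ∑' y, pw P m x y *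
      ∑' z, pw P n y z * nlog (pw P n y z) := by
    rw [k9_HK, k9_root hK hφ m (fun y => ∑' z, pw P n y z * nlog (pw P n y z))]
    intro a y
    rw [← (MulAction.toPerm a).tsum_eq]
    apply tsum_congr
    intro z
    rw [MulAction.toPerm_apply, pw_inv hK.inv]
  rw [e1, k9_HK, k9_HK, ← ENNReal.tsum_add]
  apply ENNReal.tsum_le_tsum
  intro x
  rw [← mul_add]
  refine mul_le_mul' le_rfl ?_
  rw [← ENNReal.tsum_add]
  have hadd : ∀ x z, pw P (m + n) x z = ∑' y, pw P m x y * pw P n y z := by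
    intro x z
    rw [pw_add]
    rfl
  have h2 : ∀ z, pw P (m + n) x z * nlog (pw P (m + n) x z) ≤
      ∑' y, pw P m x y * (pw P n y z * (nlog (pw P m x y) + nlog (pw P n y z))) := by
    intro z
    calc pw P (m + n) x z * nlog (pw P (m + n) x z)
        = ∑' y, pw P m x y * pw P n y z * nlog (pw P (m + n) x z) := by
          rw [ENNReal.tsum_mul_right, ← hadd]
      _ ≤ _ := by
          apply ENNReal.tsum_le_tsum
          intro y
          by_cases ha : pw P m x y = 0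
          · simp [ha]
          by_cases hb : pw P n y z = 0
          · simp [hb]
          rw [← mul_assoc]
          refine mul_le_mul' le_rfl ?_
          rw [← nlog_mul ha (pw_le_one hK.sum_one _ _ _) hb (pw_le_one hK.sum_one _ _ _)]
          apply nlog_anti (mul_ne_zero ha hb) _ (pw_le_one hK.sum_one _ _ _)
          rw [hadd]
          exact ENNReal.le_tsum (f := fun y => pw P m x y * pw P n y z) y
  calc ∑' z, pw P (m + n) x z * nlog (pw P (m + n) x z)
      ≤ ∑' z, ∑' y, pw P m x y * (pw P n y z * (nlog (pw P m x y) + nlog (pw P n y z))) :=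
        ENNReal.tsum_le_tsum h2
    _ = ∑' y, ∑' z, pw P m x y * (pw P n y z * (nlog (pw P m x y) + nlog (pw P n y z))) :=
        ENNReal.tsum_comm
    _ = ∑' y, (pw P m x y * nlog (pw P m x y) +
          pw P m x y * ∑' z, pw P n y z * nlog (pw P n y z)) := by
        apply tsum_congr
        intro y
        rw [ENNReal.tsum_mul_left, ← mul_add]
        congr 1
        simp only [mul_add]
        rw [ENNReal.tsum_add, ENNReal.tsum_mul_right, pw_sum hK.sum_one, one_mul]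

end Pool.Agent.FPP
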