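import Pool.Agent.FPP.Defs
import Pool.Agent.FPP.K9

open scoped ENNReal BigOperators
open MeasureTheory Filter Topology

namespace Pool.Agent.FPP

/-!
**[FPP-K10] The entropy rate.**
PROOF. `u k = (HK φ P k).toReal` is finite (`HK_le`, `hφ.fin`) and subadditive (`HK_sub`), nonnegative: `Subadditive u`. `h = Subadditive.lim` (`= inf u n / n`): `Subadditive.lim_le_div`, `Subadditive.tendsto_lim` (bounded below by `0`). `HK φ P 0 = 0` (`pw P 0 = oneK`, `nlog 1 = 0`, or from `HK_le` with `k = 0`). Last part: choose `K` with `u k / k ≤ h + η` for `k ≥ K` and then `N` with `u k ≤ η * N` for all `k < K`; for `k ≤ n`, `k ≥ K`: `u k ≤ h k + η k ≤ h k + η n`.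
-/

theorem k10_fek (u : ℕ → ℝ) (hsub : Subadditive u) (h0 : ∀ n, 0 ≤ u n) (C : ℝ) (hC0 : 0 ≤ C)
    (hC : ∀ n : ℕ, u n ≤ C * n) :
    ∃ h : ℝ, 0 ≤ h ∧ (∀ n : ℕ, h * n ≤ u n) ∧
      ∀ δ : ℝ, 0 < δ → ∃ n0 : ℕ, ∀ n : ℕ, n0 ≤ n → ∀ k : ℕ, k ≤ n → u k - h * k ≤ δ * n := by
  have hbdd : BddBelow (Set.range fun n : ℕ => u n / n) := by
    refine ⟨0, ?_⟩
    rintro _ ⟨n, rfl⟩
    exact div_nonneg (h0 n) (Nat.cast_nonneg n)
  have hlim := hsub.tendsto_lim hbdd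
  have hh : 0 ≤ hsub.lim := ge_of_tendsto' hlim fun n => div_nonneg (h0 n) (Nat.cast_nonneg n)
  refine ⟨hsub.lim, hh, ?_, ?_⟩
  · intro n
    rcases Nat.eq_zero_or_pos n with rfl | hn
    · simpa using h0 0
    have := hsub.lim_le_div hbdd hn.ne'
    rwa [le_div_iff₀ (Nat.cast_pos.2 hn)] at this
  · intro δ hδ
    have h1 : ∀ᶠ n : ℕ in atTop, u n / n < hsub.lim + δ :=
      hlim.eventually_lt_const (by linarith)
    obtain ⟨n1, hn1⟩ := eventually_atTop.1 h1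
    obtain ⟨n2, hn2⟩ := exists_nat_ge (C * (n1 + 1) / δ)
    refine ⟨max n1 n2, fun n hn k hk => ?_⟩
    have hkn : (k : ℝ) ≤ n := Nat.cast_le.2 hk
    have hk0 : (0 : ℝ) ≤ k := Nat.cast_nonneg k
    by_cases hkn1 : n1 + 1 ≤ k
    · have h2 := hn1 k (by omega)
      have hkpos : (0 : ℝ) < k := Nat.cast_pos.2 (by omega)
      rw [div_lt_iff₀ hkpos] at h2
      have : δ * k ≤ δ * n := mul_le_mul_of_nonneg_left hkn hδ.le
      linarith
    · push Not at hkn1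
      have h3 : (k : ℝ) ≤ n1 + 1 := by exact_mod_cast hkn1.le
      have h4 : u k ≤ C * (n1 + 1) := (hC k).trans (mul_le_mul_of_nonneg_left h3 hC0)
      have h5 : C * (n1 + 1) ≤ δ * n := by
        have : (n2 : ℝ) ≤ n := Nat.cast_le.2 ((le_max_right _ _).trans hn)
        rw [div_le_iff₀ hδ] at hn2
        calc C * (n1 + 1) ≤ n2 * δ := hn2
          _ ≤ n * δ := mul_le_mul_of_nonneg_right this hδ.le
          _ = δ * n := mul_comm _ _
      have h6 : 0 ≤ hsub.lim * k := mul_nonneg hh hk0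
      linarith

theorem entropy_rate {Γ : Type} [Group Γ] {Ω : Type} [MulAction Γ Ω] {P : Ω → Ω → ℝ≥0∞} {κ ρ : ℝ≥0∞} {φ : Ω → ℝ≥0∞} (hK : IsKern Γ P κ ρ) (hφ : IsMass Γ φ) :
    ∃ h : ℝ, 0 ≤ h ∧ (∀ k : ℕ, h * k ≤ (HK φ P k).toReal) ∧
      ∀ η : ℝ, 0 < η → ∃ N : ℕ, ∀ n ≥ N, ∀ k ≤ n, (HK φ P k).toReal ≤ h * k + η * n := by
  have hfin : ∀ k, HK φ P k ≠ ⊤ := fun k =>
    ne_top_of_le_ne_top (ENNReal.mul_ne_top hφ.fin ENNReal.ofReal_ne_top) (HK_le φ hK k)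
  have hsub : Subadditive (fun k => (HK φ P k).toReal) := by
    intro m n
    have h := ENNReal.toReal_mono (ENNReal.add_ne_top.2 ⟨hfin m, hfin n⟩) (HK_sub hK hφ m n)
    rwa [ENNReal.toReal_add (hfin m) (hfin n)] at h
  have hcc := cc_nonneg hK
  obtain ⟨h, h0, h1, h2⟩ := k10_fek (fun k => (HK φ P k).toReal) hsub
    (fun _ => ENNReal.toReal_nonneg) ((∑' x, φ x).toReal * cc κ)
    (mul_nonneg ENNReal.toReal_nonneg hcc) (by
      intro n
      have h := ENNReal.toReal_mono (ENNReal.mul_ne_top hφ.fin ENNReal.ofReal_ne_top)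
        (HK_le φ hK n)
      rw [ENNReal.toReal_mul, ENNReal.toReal_ofReal (by positivity)] at h
      calc (HK φ P n).toReal ≤ (∑' x, φ x).toReal * (n * cc κ) := h
        _ = (∑' x, φ x).toReal * cc κ * n := by ring)
  refine ⟨h, h0, h1, fun η hη => ?_⟩
  obtain ⟨N, hN⟩ := h2 η hη
  refine ⟨N, fun n hn k hk => ?_⟩
  have := hN n hn k hk
  linarith

end Pool.Agent.FPP
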