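import Pool.Agent.FPP.Defs
import Pool.Agent.FPP.K2
import Pool.Agent.FPP.K3
import Pool.Agent.FPP.K4

open scoped ENNReal BigOperators
open MeasureTheory Filter Topology

namespace Pool.Agent.FPP

/-!
**[FPP-K11] Gibbs inequality.**
PROOF. Fix `x`. `p y = pw P k x y` is a probability with finite support `s` (`pw_fin`, `pw_sum`), `q y = gg P lam x y > 0` with sum `1` (`gg_sum`, `gg_pos`). In the reals `∑ y ∈ s, p y * (log (q y) - log (p y)) ≤ ∑ y ∈ s, p y * (q y / p y - 1) = ∑ y ∈ s, q y - 1 ≤ 0` (`Real.log_le_sub_one_of_pos`). So `∑ p (- log p) ≤ ∑ p (- log q)`; both sides are sums of nonnegative terms, translate to `ℝ≥0∞` (`ENNReal.ofReal_sum_of_nonneg`, `tsum_eq_sum`).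
-/

theorem k11_toReal_pos {p : ℝ≥0∞} (h0 : p ≠ 0) (h1 : p ≤ 1) : 0 < p.toReal :=
  ENNReal.toReal_pos h0 (ne_top_of_le_ne_top ENNReal.one_ne_top h1)

theorem k11_toReal {p : ℝ≥0∞} (h1 : p ≤ 1) : (nlog p).toReal = -Real.log p.toReal := by
  unfold nlog
  apply ENNReal.toReal_ofReal
  rw [neg_nonneg]
  apply Real.log_nonpos ENNReal.toReal_nonneg
  have := ENNReal.toReal_mono ENNReal.one_ne_top h1
  simpa using this

theorem k11_gibbs {p q : ℝ≥0∞} (hp1 : p ≤ 1) (hq1 : q ≤ 1) (h : q = 0 → p = 0) :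
    p * nlog p + p ≤ p * nlog q + q := by
  by_cases hp : p = 0
  · simp [hp]
  have hq : q ≠ 0 := fun h' => hp (h h')
  have hpt : p ≠ ⊤ := ne_top_of_le_ne_top ENNReal.one_ne_top hp1
  have hqt : q ≠ ⊤ := ne_top_of_le_ne_top ENNReal.one_ne_top hq1
  have ha := k11_toReal_pos hp hp1
  have hb := k11_toReal_pos hq hq1
  have hn : ∀ t : ℝ≥0∞, nlog t ≠ ⊤ := fun t => ENNReal.ofReal_ne_top
  rw [← ENNReal.toReal_le_toReal
    (ENNReal.add_ne_top.2 ⟨ENNReal.mul_ne_top hpt (hn _), hpt⟩)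
    (ENNReal.add_ne_top.2 ⟨ENNReal.mul_ne_top hpt (hn _), hqt⟩),
    ENNReal.toReal_add (ENNReal.mul_ne_top hpt (hn _)) hpt,
    ENNReal.toReal_add (ENNReal.mul_ne_top hpt (hn _)) hqt,
    ENNReal.toReal_mul, ENNReal.toReal_mul, k11_toReal hp1, k11_toReal hq1]
  have h1 := Real.log_le_sub_one_of_pos (div_pos hb ha)
  rw [Real.log_div hb.ne' ha.ne'] at h1
  have h2 : p.toReal * (Real.log q.toReal - Real.log p.toReal) ≤
      p.toReal * (q.toReal / p.toReal - 1) := mul_le_mul_of_nonneg_left h1 ha.le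
  rw [mul_sub p.toReal (q.toReal / p.toReal) 1, mul_div_cancel₀ _ ha.ne'] at h2
  linarith

theorem HK_le_EE {Γ : Type} [Group Γ] {Ω : Type} [MulAction Γ Ω] {P : Ω → Ω → ℝ≥0∞} {κ ρ : ℝ≥0∞} (φ : Ω → ℝ≥0∞) (hK : IsKern Γ P κ ρ) {lam : ℝ≥0∞} (h0 : lam ≠ 0)
    (h : lam < 1) (k : ℕ) : HK φ P k ≤ EE φ P lam k := by
  unfold HK EE
  apply ENNReal.tsum_le_tsum
  intro x
  rw [ENNReal.tsum_mul_left, ENNReal.tsum_mul_left]
  refine mul_le_mul' le_rfl ?_
  have h1 : ∑' y, (pw P k x y * nlog (pw P k x y) + pw P k x y) ≤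
      ∑' y, (pw P k x y * nlog (gg P lam x y) + gg P lam x y) := by
    apply ENNReal.tsum_le_tsum
    intro y
    apply k11_gibbs (pw_le_one hK.sum_one k x y) (gg_le_one hK.sum_one h x y)
    intro h'
    exact absurd h' (gg_pos hK h0 h x y)
  rw [ENNReal.tsum_add, ENNReal.tsum_add, pw_sum hK.sum_one, gg_sum hK.sum_one h] at h1
  exact (ENNReal.add_le_add_iff_right ENNReal.one_ne_top).1 h1

end Pool.Agent.FPP
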