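import Pool.Agent.FPP.Defs
import Pool.Agent.FPP.K4
import Pool.Agent.FPP.K5
import Pool.Agent.FPP.K6
import Pool.Agent.FPP.K9
import Pool.Agent.FPP.K11

open scoped ENNReal BigOperators
open MeasureTheory Filter Topology

namespace Pool.Agent.FPP

/-!
**[FPP-K12] The means `EE` and `LL`.**
PROOF. `EE_le`: `ell_le`, `nlog (gg P lam x y) = ofReal (ell P lam x y)` by definition, `pw_sum`. `LL_eq`: `mulK_pw_gg` and interchanging sums (`ENNReal.tsum_mul_left`, `ENNReal.tsum_mul_right`, `ENNReal.tsum_comm`). `LL_step`: `mulK_gg_step`. `LL_ne_top`: by `LL_eq`, `EE_le` it is at most `W * ∑' j, (1 - lam) * lam ^ j * ofReal (a + (k + j) * c)`, a convergent series (`summable_pow_mul_geometric_of_norm_lt_one` or `tsum_coe_mul_geometric_of_norm_lt_one`).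
`LL_zero_ge`: `LL 0 = ∑' j, (1 - lam) * lam ^ j * EE j ≥ ∑' j, (1 - lam) * lam ^ j * ofReal (h * j)` (`HK_le_EE`, hypothesis, `ENNReal.ofReal_le_iff_le_toReal`), and with `r = lam.toReal` the last sum is `ofReal (∑' j, (1 - r) r ^ j h j) = ofReal (h r / (1 - r))` (`tsum_coe_mul_geometric_of_norm_lt_one`).
-/

theorem EE_le {Γ : Type} [Group Γ] {Ω : Type} [MulAction Γ Ω] {P : Ω → Ω → ℝ≥0∞} {κ ρ : ℝ≥0∞} (φ : Ω → ℝ≥0∞) (hK : IsKern Γ P κ ρ) {lam : ℝ≥0∞} (h1 : 2⁻¹ ≤ lam)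
    (h2 : lam < 1) (k : ℕ) :
    EE φ P lam k ≤ (∑' x, φ x) * ENNReal.ofReal (-Real.log (1 - lam.toReal) + k * cc κ) := by
  unfold EE
  rw [← ENNReal.tsum_mul_right]
  apply ENNReal.tsum_le_tsum
  intro x
  rw [ENNReal.tsum_mul_left]
  refine mul_le_mul' le_rfl ?_
  have key : ∀ y, pw P k x y * nlog (gg P lam x y) ≤
      pw P k x y * ENNReal.ofReal (-Real.log (1 - lam.toReal) + k * cc κ) := by
    intro y
    by_cases h : pw P k x y = 0
    · simp [h]
    refine mul_le_mul' le_rfl ?_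
    exact ENNReal.ofReal_le_ofReal (ell_le hK h1 h2 h)
  calc ∑' y, pw P k x y * nlog (gg P lam x y)
      ≤ ∑' y, pw P k x y * ENNReal.ofReal (-Real.log (1 - lam.toReal) + k * cc κ) :=
        ENNReal.tsum_le_tsum key
    _ = ENNReal.ofReal (-Real.log (1 - lam.toReal) + k * cc κ) := by
        rw [ENNReal.tsum_mul_right, pw_sum hK.sum_one, one_mul]

theorem LL_eq {Ω : Type} (φ : Ω → ℝ≥0∞) (P : Ω → Ω → ℝ≥0∞) (lam : ℝ≥0∞) (k : ℕ) :
    LL φ P lam k = ∑' j : ℕ, (1 - lam) * lam ^ j * EE φ P lam (k + j) := by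
  unfold LL EE
  simp only [mulK_pw_gg, ← ENNReal.tsum_mul_left, ← ENNReal.tsum_mul_right]
  rw [ENNReal.tsum_comm (f := fun (j : ℕ) (x : Ω) => ∑' y : Ω,
    (1 - lam) * lam ^ j * (φ x * (pw P (k + j) x y * nlog (gg P lam x y))))]
  apply tsum_congr
  intro x
  rw [ENNReal.tsum_comm]
  apply tsum_congr
  intro j
  apply tsum_congr
  intro z
  ring

theorem LL_step {Ω : Type} (φ : Ω → ℝ≥0∞) (P : Ω → Ω → ℝ≥0∞) (lam : ℝ≥0∞) (k : ℕ) :
    LL φ P lam k = (1 - lam) * EE φ P lam k + lam * LL φ P lam (k + 1) := by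
  unfold LL EE
  rw [← ENNReal.tsum_mul_left, ← ENNReal.tsum_mul_left, ← ENNReal.tsum_add]
  apply tsum_congr
  intro x
  rw [← ENNReal.tsum_mul_left, ← ENNReal.tsum_mul_left, ← ENNReal.tsum_add]
  apply tsum_congr
  intro y
  rw [mulK_gg_step]
  ring

theorem k12_lt {lam : ℝ≥0∞} (h : lam < 1) : lam.toReal < 1 := by
  have := (ENNReal.toReal_lt_toReal (ne_top_of_lt h) ENNReal.one_ne_top).2 h
  simpa using this

theorem LL_ne_top {Γ : Type} [Group Γ] {Ω : Type} [MulAction Γ Ω] {P : Ω → Ω → ℝ≥0∞} {κ ρ : ℝ≥0∞} {φ : Ω → ℝ≥0∞} (hφ : ∑' x, φ x ≠ ⊤) (hK : IsKern Γ P κ ρ) {lam : ℝ≥0∞}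
    (h1 : 2⁻¹ ≤ lam) (h2 : lam < 1) (k : ℕ) : LL φ P lam k ≠ ⊤ := by
  have hcc := cc_nonneg hK
  have hr1 := k12_lt h2
  have hr0 : 0 ≤ lam.toReal := ENNReal.toReal_nonneg
  have hlog : 0 ≤ -Real.log (1 - lam.toReal) := by
    rw [neg_nonneg]
    exact Real.log_nonpos (by linarith) (by linarith)
  have hle : LL φ P lam k ≤ (∑' x, φ x) *
      ∑' j : ℕ, ENNReal.ofReal (lam.toReal ^ j *
        (-Real.log (1 - lam.toReal) + ((k + j : ℕ) : ℝ) * cc κ)) := by
    rw [LL_eq, ← ENNReal.tsum_mul_left]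
    apply ENNReal.tsum_le_tsum
    intro j
    calc (1 - lam) * lam ^ j * EE φ P lam (k + j)
        ≤ 1 * lam ^ j * ((∑' x, φ x) * ENNReal.ofReal
          (-Real.log (1 - lam.toReal) + ((k + j : ℕ) : ℝ) * cc κ)) :=
          mul_le_mul' (mul_le_mul' tsub_le_self le_rfl) (EE_le φ hK h1 h2 (k + j))
      _ = (∑' x, φ x) * (lam ^ j * ENNReal.ofReal
          (-Real.log (1 - lam.toReal) + ((k + j : ℕ) : ℝ) * cc κ)) := by ring
      _ = _ := by
          congr 1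
          rw [ENNReal.ofReal_mul (pow_nonneg hr0 j), ENNReal.ofReal_pow hr0,
            ENNReal.ofReal_toReal (ne_top_of_lt h2)]
  refine ne_top_of_le_ne_top (ENNReal.mul_ne_top hφ ?_) hle
  apply Summable.tsum_ofReal_ne_top
  have hnorm : ‖lam.toReal‖ < 1 := by rwa [Real.norm_eq_abs, abs_of_nonneg hr0]
  have s1 := (summable_geometric_of_norm_lt_one hnorm).mul_left
    (-Real.log (1 - lam.toReal) + k * cc κ)
  have s2 := (summable_pow_mul_geometric_of_norm_lt_one 1 hnorm).mul_left (cc κ)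
  refine (s1.add s2).congr fun j => ?_
  push_cast
  ring

theorem LL_zero_ge {Γ : Type} [Group Γ] {Ω : Type} [MulAction Γ Ω] {P : Ω → Ω → ℝ≥0∞} {κ ρ : ℝ≥0∞} {φ : Ω → ℝ≥0∞} (hφ : ∑' x, φ x ≠ ⊤) (hK : IsKern Γ P κ ρ) {lam : ℝ≥0∞}
    (h1 : 2⁻¹ ≤ lam) (h2 : lam < 1) {h : ℝ} (h0 : 0 ≤ h)
    (hh : ∀ k : ℕ, h * k ≤ (HK φ P k).toReal) :
    h * lam.toReal / (1 - lam.toReal) ≤ (LL φ P lam 0).toReal := by
  have hr1 := k12_lt h2
  have hr0 : 0 ≤ lam.toReal := ENNReal.toReal_nonneg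
  have h1r : 0 < 1 - lam.toReal := by linarith
  have hl0 : lam ≠ 0 := by
    intro h'
    rw [h'] at h1
    simp at h1
  have hnorm : ‖lam.toReal‖ < 1 := by rwa [Real.norm_eq_abs, abs_of_nonneg hr0]
  have hle : ENNReal.ofReal (h * lam.toReal / (1 - lam.toReal)) ≤ LL φ P lam 0 := by
    have e1 : h * lam.toReal / (1 - lam.toReal) =
        ∑' j : ℕ, (1 - lam.toReal) * h * ((j : ℝ) * lam.toReal ^ j) := by
      rw [tsum_mul_left, tsum_coe_mul_geometric_of_norm_lt_one hnorm]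
      field_simp
    have hsumm : Summable fun j : ℕ => (1 - lam.toReal) * h * ((j : ℝ) * lam.toReal ^ j) := by
      have s2 := (summable_pow_mul_geometric_of_norm_lt_one 1 hnorm).mul_left
        ((1 - lam.toReal) * h)
      refine s2.congr fun j => ?_
      rw [pow_one]
    rw [e1, ENNReal.ofReal_tsum_of_nonneg (fun j => by positivity) hsumm, LL_eq]
    apply ENNReal.tsum_le_tsum
    intro j
    rw [Nat.zero_add]
    have e2 : (1 - lam) * lam ^ j = ENNReal.ofReal ((1 - lam.toReal) * lam.toReal ^ j) := by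
      rw [ENNReal.ofReal_mul h1r.le, ENNReal.ofReal_pow hr0,
        ENNReal.ofReal_toReal (ne_top_of_lt h2), ENNReal.ofReal_sub _ hr0,
        ENNReal.ofReal_one, ENNReal.ofReal_toReal (ne_top_of_lt h2)]
    have e3 : ENNReal.ofReal (h * j) ≤ EE φ P lam j := by
      refine le_trans ?_ (HK_le_EE φ hK hl0 h2 j)
      exact (ENNReal.ofReal_le_ofReal (hh j)).trans ENNReal.ofReal_toReal_le
    calc ENNReal.ofReal ((1 - lam.toReal) * h * ((j : ℝ) * lam.toReal ^ j))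
        = ENNReal.ofReal ((1 - lam.toReal) * lam.toReal ^ j) * ENNReal.ofReal (h * j) := by
          rw [← ENNReal.ofReal_mul (by positivity)]
          congr 1
          ring
      _ ≤ (1 - lam) * lam ^ j * EE φ P lam j := by
          rw [e2]
          exact mul_le_mul' le_rfl e3
  have := ENNReal.toReal_mono (LL_ne_top hφ hK h1 h2 0) hle
  rwa [ENNReal.toReal_ofReal (by positivity)] at this

end Pool.Agent.FPP
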