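import Pool.Agent.FPP.Defs

open scoped ENNReal BigOperators
open MeasureTheory Filter Topology

namespace Pool.Agent.FPP

/-!
**[FPP-K13] Real sequences.**
PROOF. From the recursion `l (m + 1) - l m = (1 - r) / r * (l m - a m)` (`r > 0`). Also `l (j + 1) ≥ r * l (j + 1) = l j - (1 - r) * a j`, so `l m ≥ l 0 - (1 - r) * ∑ j < m, a j ≥ l 0 - ∑ j < m, a j`, and `(1 - r) / r * (l m - a m) ≥ (1 - r) / r * (h r / (1 - r) - ∑ j ≤ m, a j) ≥ h - 2 (1 - r) (n + 1) W (- log (1 - r) + n c)` for `m < n`, `r ≥ 1/2` (note `- log (1 - r) ≥ 0`). Summing at most `n` increments: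
`l m' - l m ≥ h (m' - m) - n * 2 (1 - r) (n + 1) W (- log (1 - r) + n c)`. The error tends to `0` as `r → 1` (`x log x → 0` as `x → 0+`: `Real.continuous_mul_log`, or `Real.tendsto_log_mul_rpow_nhdsGT_zero`), so it is `≤ ε` for `r ≥ r₀`.
-/

theorem real_growth (W c h : ℝ) (hW : 0 ≤ W) (hc : 0 ≤ c) (hh : 0 ≤ h) (n : ℕ) (ε : ℝ)
    (hε : 0 < ε) : ∃ r₀ : ℝ, 1 / 2 ≤ r₀ ∧ r₀ < 1 ∧ ∀ r, r₀ ≤ r → r < 1 → ∀ a l : ℕ → ℝ,
      (∀ m, 0 ≤ a m) → (∀ m, a m ≤ W * (-Real.log (1 - r) + m * c)) →
      (∀ m, l m = (1 - r) * a m + r * l (m + 1)) → h * r / (1 - r) ≤ l 0 → (∀ m, 0 ≤ l m) →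
      ∀ m m' : ℕ, m ≤ m' → m' ≤ n → h * ((m' : ℝ) - m) - ε ≤ l m' - l m := by
  have hn0 : (0 : ℝ) ≤ n := Nat.cast_nonneg n
  -- the error term as a function of `t = 1 - r`
  have hcont : Continuous (fun t : ℝ => n * (2 * (n + 1) * W * (n * c * t - t * Real.log t))) := by
    have := Real.continuous_mul_log
    fun_prop
  have hzero : (n : ℝ) * (2 * (n + 1) * W * (n * c * 0 - 0 * Real.log 0)) = 0 := by
    simp
  have hev : ∀ᶠ t : ℝ in 𝓝 0, n * (2 * (n + 1) * W * (n * c * t - t * Real.log t)) < ε := by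
    have := hcont.tendsto 0
    rw [hzero] at this
    exact this.eventually_lt_const hε
  obtain ⟨δ, hδ, hball⟩ := Metric.eventually_nhds_iff.1 hev
  refine ⟨max (1 / 2) (1 - δ / 2), le_max_left _ _, max_lt (by norm_num) (by linarith), ?_⟩
  intro r hr hr1 a l ha0 ha hrec hl0 hl m m' hmm' hm'n
  have hr2 : 1 / 2 ≤ r := (le_max_left _ _).trans hr
  have hr0 : 0 < r := by linarith
  have h1r : 0 < 1 - r := by linarith
  have herr : n * (2 * (n + 1) * W * (n * c * (1 - r) - (1 - r) * Real.log (1 - r))) < ε := by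
    apply hball
    rw [Real.dist_eq, sub_zero, abs_of_pos h1r]
    have := (le_max_right (1 / 2 : ℝ) (1 - δ / 2)).trans hr
    linarith
  have hlog : 0 ≤ -Real.log (1 - r) := by
    rw [neg_nonneg]
    exact Real.log_nonpos h1r.le (by linarith)
  set B : ℝ := W * (-Real.log (1 - r) + n * c) with hB
  have hB0 : 0 ≤ B := by positivity
  have haB : ∀ j, j ≤ n → a j ≤ B := by
    intro j hj
    refine (ha j).trans ?_
    have h1 : (j : ℝ) * c ≤ n * c := mul_le_mul_of_nonneg_right (Nat.cast_le.2 hj) hc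
    exact mul_le_mul_of_nonneg_left (by linarith) hW
  -- lower bound of `l`
  have hlow : ∀ j, j ≤ n → l 0 - j * B ≤ l j := by
    intro j
    induction j with
    | zero => intro _; simp
    | succ j ih =>
      intro hj
      have h1 := ih (by omega)
      have h2 := hrec j
      have h3 := haB j (by omega)
      have h4 : r * l (j + 1) ≤ l (j + 1) := by
        have := mul_le_mul_of_nonneg_right hr1.le (hl (j + 1))
        linarith
      have h5 : (1 - r) * a j ≤ B := by
        calc (1 - r) * a j ≤ 1 * a j := mul_le_mul_of_nonneg_right (by linarith) (ha0 j)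
          _ = a j := one_mul _
          _ ≤ B := h3
      push_cast
      linarith
  have hinc : ∀ j, j < n → h - 2 * (1 - r) * ((n + 1) * B) ≤ l (j + 1) - l j := by
    intro j hj
    have h1 := hlow j hj.le
    have h2 := hrec j
    have h3 := haB j hj.le
    have hjn : (j : ℝ) + 1 ≤ n := by exact_mod_cast hj
    -- `r * (l (j+1) - l j) = (1 - r) * (l j - a j)`
    have h4 : r * (l (j + 1) - l j) = (1 - r) * (l j - a j) := by linarith
    have h5 : l 0 - (n + 1) * B ≤ l j - a j := by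
      have : ((j : ℝ) + 1) * B ≤ (n + 1) * B := mul_le_mul_of_nonneg_right (by linarith) hB0
      linarith
    have h6 : (1 - r) * (l 0 - (n + 1) * B) ≤ r * (l (j + 1) - l j) := by
      rw [h4]
      exact mul_le_mul_of_nonneg_left h5 h1r.le
    have h7 : h * r ≤ (1 - r) * l 0 := by
      rw [div_le_iff₀ h1r] at hl0
      linarith
    have h8 : h * r - (1 - r) * ((n + 1) * B) ≤ r * (l (j + 1) - l j) := by
      have : (1 - r) * (l 0 - (n + 1) * B) = (1 - r) * l 0 - (1 - r) * ((n + 1) * B) := by ring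
      linarith
    have hX : 0 ≤ (1 - r) * ((n + 1) * B) := by positivity
    -- divide by `r`
    have h9 : r * (h - 2 * (1 - r) * ((n + 1) * B)) ≤ r * (l (j + 1) - l j) := by
      refine le_trans ?_ h8
      nlinarith
    exact le_of_mul_le_mul_left h9 hr0
  have hsum : ∀ k, m + k ≤ n →
      k * (h - 2 * (1 - r) * ((n + 1) * B)) ≤ l (m + k) - l m := by
    intro k
    induction k with
    | zero => intro _; simp
    | succ k ih =>
      intro hk
      have h1 := ih (by omega)
      have h2 := hinc (m + k) (by omega)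
      push_cast
      rw [← add_assoc]
      linarith
  obtain ⟨k, rfl⟩ := Nat.exists_eq_add_of_le hmm'
  have h1 := hsum k hm'n
  have hkn : (k : ℝ) ≤ n := Nat.cast_le.2 (by omega)
  have hX : 0 ≤ 2 * (1 - r) * ((n + 1) * B) := by positivity
  have h2 : (k : ℝ) * (2 * (1 - r) * ((n + 1) * B)) ≤ n * (2 * (1 - r) * ((n + 1) * B)) :=
    mul_le_mul_of_nonneg_right hkn hX
  have h3 : n * (2 * (1 - r) * ((n + 1) * B)) =
      n * (2 * (n + 1) * W * (n * c * (1 - r) - (1 - r) * Real.log (1 - r))) := by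
    rw [hB]; ring
  push_cast
  have h4 : (k : ℝ) * (h - 2 * (1 - r) * ((n + 1) * B)) =
      h * k - k * (2 * (1 - r) * ((n + 1) * B)) := by ring
  rw [h4] at h1
  have h5 : h * ((m : ℝ) + k - m) = h * k := by ring
  linarith

end Pool.Agent.FPP
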