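import Pool.Agent.FPP.Defs
import Pool.Agent.FPP.K6
import Pool.Agent.FPP.K12
import Pool.Agent.FPP.K13

open scoped ENNReal BigOperators
open MeasureTheory Filter Topology

namespace Pool.Agent.FPP

/-!
**[FPP-K14] Growth of `LL`.**
PROOF. `real_growth` with `W = (∑' x, φ x).toReal`, `c = cc κ` (`cc_nonneg`), `lam₀ = ENNReal.ofReal r₀`, `r = lam.toReal`, `a m = (EE φ P lam m).toReal`, `l m = (LL φ P lam m).toReal`. The recursion is `LL_step` (finite terms: `LL_ne_top`, `EE_le`), the bound on `a` is `EE_le`, the bound on `l 0` is `LL_zero_ge`.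
-/

theorem LL_growth {Γ : Type} [Group Γ] {Ω : Type} [MulAction Γ Ω] {P : Ω → Ω → ℝ≥0∞} {κ ρ : ℝ≥0∞} {φ : Ω → ℝ≥0∞} (hK : IsKern Γ P κ ρ) (hφ : IsMass Γ φ) {h : ℝ} (h0 : 0 ≤ h)
    (hh : ∀ k : ℕ, h * k ≤ (HK φ P k).toReal) (n : ℕ) (ε : ℝ) (hε : 0 < ε) :
    ∃ lam₀ : ℝ≥0∞, 2⁻¹ ≤ lam₀ ∧ lam₀ < 1 ∧ ∀ lam, lam₀ ≤ lam → lam < 1 →
      ∀ m m' : ℕ, m ≤ m' → m' ≤ n →
        h * ((m' : ℝ) - m) - ε ≤ (LL φ P lam m').toReal - (LL φ P lam m).toReal := by
  have hcc := cc_nonneg hK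
  obtain ⟨r₀, hr0, hr1, hr⟩ := real_growth (∑' x, φ x).toReal (cc κ) h ENNReal.toReal_nonneg hcc
    h0 n ε hε
  refine ⟨ENNReal.ofReal r₀, ?_, ?_, ?_⟩
  · have : (2⁻¹ : ℝ≥0∞) = ENNReal.ofReal (1 / 2) := by
      rw [one_div, ENNReal.ofReal_inv_of_pos (by norm_num), ENNReal.ofReal_ofNat]
    rw [this]
    exact ENNReal.ofReal_le_ofReal hr0
  · rw [ENNReal.ofReal_lt_one]; exact hr1
  · intro lam hlam hlam1 m m' hmm' hm'n
    have hlt : lam ≠ ⊤ := ne_top_of_lt hlam1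
    have h2 : 2⁻¹ ≤ lam := by
      refine le_trans ?_ hlam
      have : (2⁻¹ : ℝ≥0∞) = ENNReal.ofReal (1 / 2) := by
        rw [one_div, ENNReal.ofReal_inv_of_pos (by norm_num), ENNReal.ofReal_ofNat]
      rw [this]
      exact ENNReal.ofReal_le_ofReal hr0
    have hrl : r₀ ≤ lam.toReal := by
      have := ENNReal.toReal_mono hlt hlam
      rwa [ENNReal.toReal_ofReal (by linarith)] at this
    have hrl1 := k12_lt hlam1
    have hlog : 0 ≤ -Real.log (1 - lam.toReal) := by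
      rw [neg_nonneg]
      exact Real.log_nonpos (by linarith) (by linarith [ENNReal.toReal_nonneg (a := lam)])
    have hEfin : ∀ k, EE φ P lam k ≠ ⊤ := fun k =>
      ne_top_of_le_ne_top (ENNReal.mul_ne_top hφ.fin ENNReal.ofReal_ne_top)
        (EE_le φ hK h2 hlam1 k)
    have hLfin : ∀ k, LL φ P lam k ≠ ⊤ := LL_ne_top hφ.fin hK h2 hlam1
    apply hr lam.toReal hrl hrl1 (fun k => (EE φ P lam k).toReal)
      (fun k => (LL φ P lam k).toReal) (fun _ => ENNReal.toReal_nonneg) _ _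
      (LL_zero_ge hφ.fin hK h2 hlam1 h0 hh) (fun _ => ENNReal.toReal_nonneg) m m' hmm' hm'n
    · intro k
      have h3 := ENNReal.toReal_mono (ENNReal.mul_ne_top hφ.fin ENNReal.ofReal_ne_top)
        (EE_le φ hK h2 hlam1 k)
      rwa [ENNReal.toReal_mul, ENNReal.toReal_ofReal (by positivity)] at h3
    · intro k
      have h3 := congrArg ENNReal.toReal (LL_step φ P lam k)
      rw [ENNReal.toReal_add
        (ENNReal.mul_ne_top (ENNReal.sub_ne_top ENNReal.one_ne_top) (hEfin k))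
        (ENNReal.mul_ne_top hlt (hLfin (k + 1))), ENNReal.toReal_mul, ENNReal.toReal_mul,
        ENNReal.toReal_sub_of_le hlam1.le ENNReal.one_ne_top, ENNReal.toReal_one] at h3
      exact h3

end Pool.Agent.FPP
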