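import Pool.Agent.FPP.Defs
import Pool.Agent.FPP.K4
import Pool.Agent.FPP.K5
import Pool.Agent.FPP.K6
import Pool.Agent.FPP.K9
import Pool.Agent.FPP.W4
import Pool.Agent.FPP.W7

open scoped ENNReal BigOperators
open MeasureTheory Filter Topology

namespace Pool.Agent.FPP

/-!
**[FPP-W10a] Deviation and entropy, one time.**
PROOF. Fix `τ = (x, u, v)` with allowed steps and put `q = pw P t (x 0) (x t) ≠ 0` (`tr_near`), `A = t * (- log lam.toReal) + (- log q.toReal) ≥ 0`. Since `gg P lam (x 0) u ≥ lam ^ t * q * gg P lam (x t) u` (`gg_ge`, `ENNReal.le_tsum`), `ell (x 0) u ≤ A + ell (x t) u`; since `gg P lam (x t) v ≥ lam ^ t * q * gg P lam (x 0) v` (`pw_symm`), `ell (x t) v ≤ A + ell (x 0) v`. With `r₁ = A + ell (x t) u - ell (x 0) u ≥ 0` and `r₂ = A + ell (x 0) v - ell (x t) v ≥ 0` we have `dv P lam τ t = r₁ - r₂`, so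
`|dv P lam τ t| ≤ r₁ + r₂`, that is `|dv| + ell (x 0) u + ell (x t) v ≤ 2 A + ell (x t) u + ell (x 0) v`. All terms are nonnegative (`ell_nonneg`): apply `ENNReal.ofReal` and `Sm_mono`, `Sm_add`, `Sm_mul`. The expectations: `Sm (φ (τ.1 k) * ofReal (ell (τ.1 s) τ.2.1)) = LL φ P lam (n - s)` by `Sm_plus` with `s = t`, `pw P 0 = oneK`; `Sm (φ (τ.1 k) * ofReal (ell (τ.1 s) τ.2.2)) = LL φ P lam s` by `Sm_minus`; `Sm (φ (τ.1 k) * nlog (pw P t (τ.1 0) (τ.1 t))) = HK φ P t` and `Sm (φ (τ.1 k)) = W`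
by `Sm_pair`.
-/

theorem w10a_one {Ω : Type} (P : Ω → Ω → ℝ≥0∞) (a : Ω) (f : Ω → ℝ≥0∞) :
    ∑' b, pw P 0 a b * f b = f a := by
  classical
  rw [tsum_eq_single a]
  · simp [pw, oneK]
  · intro b hb
    simp [pw, oneK, Ne.symm hb]

theorem w10a_one' {Ω : Type} (P : Ω → Ω → ℝ≥0∞) (b : Ω) (f : Ω → ℝ≥0∞) :
    ∑' a, pw P 0 a b * f a = f b := by
  classical
  rw [tsum_eq_single b]
  · simp [pw, oneK]
  · intro a ha
    simp [pw, oneK, ha]

/-- the law of the first end point seen from the position at time `s` -/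
theorem w10a_plus {Γ : Type} [Group Γ] {Ω : Type} [MulAction Γ Ω] {P : Ω → Ω → ℝ≥0∞}
    {κ ρ : ℝ≥0∞} {φ : Ω → ℝ≥0∞} (hK : IsKern Γ P κ ρ) (hφ : IsMass Γ φ) {lam : ℝ≥0∞}
    (h2 : lam < 1) {n s : ℕ} (hsn : s ≤ n) (k : ℕ) :
    Sm P lam n (fun τ => φ (τ.1 k) * nlog (gg P lam (τ.1 s) τ.2.1)) = LL φ P lam (n - s) := by
  rw [Sm_plus hK hφ h2 (le_refl s) hsn k (fun _ b u => nlog (gg P lam b u))
    (fun g a b u => by rw [gg_inv hK.inv])]
  unfold LL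
  apply tsum_congr
  intro a
  rw [Nat.sub_self]
  have e : ∀ b, ∑' u, φ a * (pw P 0 a b * (mulK (pw P (n - s)) (gg P lam) b u *
      nlog (gg P lam b u))) =
      pw P 0 a b * (φ a * ∑' u, mulK (pw P (n - s)) (gg P lam) b u * nlog (gg P lam b u)) := by
    intro b
    rw [ENNReal.tsum_mul_left, ENNReal.tsum_mul_left]
    ring
  simp only [e]
  rw [w10a_one P a (fun b => φ a * ∑' u, mulK (pw P (n - s)) (gg P lam) b u *
    nlog (gg P lam b u)), ENNReal.tsum_mul_left]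

/-- the law of the second end point seen from the position at time `s` -/
theorem w10a_minus {Γ : Type} [Group Γ] {Ω : Type} [MulAction Γ Ω] {P : Ω → Ω → ℝ≥0∞}
    {κ ρ : ℝ≥0∞} {φ : Ω → ℝ≥0∞} (hK : IsKern Γ P κ ρ) (hφ : IsMass Γ φ) {lam : ℝ≥0∞}
    (h2 : lam < 1) {n s : ℕ} (hsn : s ≤ n) (k : ℕ) :
    Sm P lam n (fun τ => φ (τ.1 k) * nlog (gg P lam (τ.1 s) τ.2.2)) = LL φ P lam s := by
  rw [Sm_minus hK hφ h2 (le_refl s) hsn k (fun a _ v => nlog (gg P lam a v))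
    (fun g a b u => by rw [gg_inv hK.inv])]
  unfold LL
  rw [ENNReal.tsum_comm]
  apply tsum_congr
  intro b
  rw [Nat.sub_self]
  have e : ∀ a, ∑' v, φ b * (pw P 0 a b * (mulK (pw P s) (gg P lam) a v *
      nlog (gg P lam a v))) =
      pw P 0 a b * (φ b * ∑' v, mulK (pw P s) (gg P lam) a v * nlog (gg P lam a v)) := by
    intro a
    rw [ENNReal.tsum_mul_left, ENNReal.tsum_mul_left]
    ring
  simp only [e]
  rw [w10a_one' P b (fun a => φ b * ∑' v, mulK (pw P s) (gg P lam) a v *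
    nlog (gg P lam a v)), ENNReal.tsum_mul_left]

theorem w10a_HK {Γ : Type} [Group Γ] {Ω : Type} [MulAction Γ Ω] {P : Ω → Ω → ℝ≥0∞}
    {κ ρ : ℝ≥0∞} {φ : Ω → ℝ≥0∞} (hK : IsKern Γ P κ ρ) (hφ : IsMass Γ φ) {lam : ℝ≥0∞}
    (h2 : lam < 1) {n t : ℕ} (htn : t ≤ n) (k : ℕ) :
    Sm P lam n (fun τ => φ (τ.1 k) * nlog (pw P t (τ.1 0) (τ.1 t))) = HK φ P t := by
  rw [Sm_pair hK hφ h2 (Nat.zero_le t) htn k (fun a b => nlog (pw P t a b))
    (fun g a b => by rw [pw_inv hK.inv])]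
  rfl

theorem w10a_const {Γ : Type} [Group Γ] {Ω : Type} [MulAction Γ Ω] {P : Ω → Ω → ℝ≥0∞}
    {κ ρ : ℝ≥0∞} {φ : Ω → ℝ≥0∞} (hK : IsKern Γ P κ ρ) (hφ : IsMass Γ φ) {lam : ℝ≥0∞}
    (h2 : lam < 1) (n k : ℕ) (c : ℝ≥0∞) :
    Sm P lam n (fun τ => φ (τ.1 k) * c) = (∑' a, φ a) * c := by
  rw [Sm_pair hK hφ h2 (le_refl 0) (Nat.zero_le n) k (fun _ _ => c) (fun _ _ _ => rfl)]
  rw [← ENNReal.tsum_mul_right]
  apply tsum_congr
  intro a
  rw [ENNReal.tsum_mul_left, Nat.sub_self, w10a_one P a (fun _ => c)]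

/-- the pointwise inequality -/
theorem w10a_point {Γ : Type} [Group Γ] {Ω : Type} [MulAction Γ Ω] {P : Ω → Ω → ℝ≥0∞}
    {κ ρ : ℝ≥0∞} (hK : IsKern Γ P κ ρ) {lam : ℝ≥0∞} (h0 : lam ≠ 0) (h2 : lam < 1) (t : ℕ)
    (x y u v : Ω) (hq : pw P t x y ≠ 0) :
    ENNReal.ofReal |ell P lam y u + ell P lam y v - ell P lam x u - ell P lam x v| +
      nlog (gg P lam x u) + nlog (gg P lam y v) ≤
    2 * (ENNReal.ofReal (t * -Real.log lam.toReal) + nlog (pw P t x y)) +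
      nlog (gg P lam y u) + nlog (gg P lam x v) := by
  have hlk : lam ^ t ≠ 0 := pow_ne_zero _ h0
  have hlk1 : lam ^ t ≤ 1 := pow_le_one' h2.le t
  have hq1 : pw P t x y ≤ 1 := pw_le_one hK.sum_one t x y
  have hge : ∀ x y z : Ω, lam ^ t * pw P t x y * gg P lam y z ≤ gg P lam x z := by
    intro x y z
    refine le_trans ?_ (gg_ge P lam t x z)
    rw [mul_assoc]
    refine mul_le_mul' le_rfl ?_
    exact ENNReal.le_tsum (f := fun y => pw P t x y * gg P lam y z) y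
  have i1 : lam ^ t * pw P t x y * gg P lam y u ≤ gg P lam x u := hge x y u
  have i2 : lam ^ t * pw P t x y * gg P lam x u ≤ gg P lam y u := by
    have := hge y x u
    rwa [pw_symm hK.symm t y x] at this
  have i3 : lam ^ t * pw P t x y * gg P lam x v ≤ gg P lam y v := by
    have := hge y x v
    rwa [pw_symm hK.symm t y x] at this
  have i4 : lam ^ t * pw P t x y * gg P lam y v ≤ gg P lam x v := hge x y v
  have hM0 : lam ^ t * pw P t x y ≠ 0 := mul_ne_zero hlk hq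
  have hM1 : lam ^ t * pw P t x y ≤ 1 := mul_le_one' hlk1 hq1
  have gp : ∀ x y : Ω, gg P lam x y ≠ 0 := gg_pos hK h0 h2
  have g1 : ∀ x y : Ω, gg P lam x y ≤ 1 := gg_le_one hK.sum_one h2
  have lr : ∀ p : ℝ≥0∞, p ≤ 1 → (nlog p).toReal = -Real.log p.toReal := by
    intro p hp
    unfold nlog
    exact ENNReal.toReal_ofReal (k9_neg_log_nonneg hp)
  set M : ℝ := -Real.log (lam ^ t * pw P t x y).toReal with hMdef
  have hM : 0 ≤ M := k9_neg_log_nonneg hM1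
  have key : ∀ p q : ℝ≥0∞, p ≠ 0 → p ≤ 1 → q ≤ 1 → lam ^ t * pw P t x y * p ≤ q →
      -Real.log q.toReal ≤ M + -Real.log p.toReal := by
    intro p q hp hp1 hq1' hpq
    have h3 := nlog_anti (mul_ne_zero hM0 hp) hpq hq1'
    rw [nlog_mul hM0 hM1 hp hp1] at h3
    have hn : ∀ p : ℝ≥0∞, nlog p ≠ ⊤ := fun p => ENNReal.ofReal_ne_top
    have h4 := ENNReal.toReal_mono
      (ENNReal.add_ne_top.2 ⟨hn (lam ^ t * pw P t x y), hn p⟩) h3
    rw [ENNReal.toReal_add (hn (lam ^ t * pw P t x y)) (hn p), lr q hq1',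
      lr p hp1, lr _ hM1] at h4
    exact h4
  have j1 := key _ _ (gp y u) (g1 y u) (g1 x u) i1
  have j2 := key _ _ (gp x u) (g1 x u) (g1 y u) i2
  have j3 := key _ _ (gp x v) (g1 x v) (g1 y v) i3
  have j4 := key _ _ (gp y v) (g1 y v) (g1 x v) i4
  have habs : |ell P lam y u + ell P lam y v - ell P lam x u - ell P lam x v| +
      ell P lam x u + ell P lam y v ≤ 2 * M + ell P lam y u + ell P lam x v := by
    unfold ell
    rcases abs_cases (-Real.log (gg P lam y u).toReal + -Real.log (gg P lam y v).toReal -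
      -Real.log (gg P lam x u).toReal - -Real.log (gg P lam x v).toReal) with ⟨h, _⟩ | ⟨h, _⟩
    · rw [h]; linarith
    · rw [h]; linarith
  have n1 : ∀ p q : Ω, 0 ≤ ell P lam p q := fun p q => ell_nonneg hK.sum_one h2 p q
  have hnl : ∀ p q : Ω, nlog (gg P lam p q) = ENNReal.ofReal (ell P lam p q) := fun _ _ => rfl
  have hM' : ENNReal.ofReal (t * -Real.log lam.toReal) + nlog (pw P t x y) =
      ENNReal.ofReal M := by
    have e1 : ENNReal.ofReal (t * -Real.log lam.toReal) = nlog (lam ^ t) := by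
      unfold nlog
      rw [ENNReal.toReal_pow, Real.log_pow, mul_neg]
    rw [e1, ← nlog_mul hlk hlk1 hq hq1]
    rfl
  rw [hM', hnl, hnl, hnl, hnl, ← ENNReal.ofReal_add (abs_nonneg _) (n1 _ _),
    ← ENNReal.ofReal_add (add_nonneg (abs_nonneg _) (n1 _ _)) (n1 _ _),
    ← ENNReal.ofReal_ofNat 2, ← ENNReal.ofReal_mul (by norm_num),
    ← ENNReal.ofReal_add (by positivity) (n1 _ _),
    ← ENNReal.ofReal_add (add_nonneg (by positivity) (n1 _ _)) (n1 _ _)]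
  exact ENNReal.ofReal_le_ofReal habs

theorem dev_step {Γ : Type} [Group Γ] {Ω : Type} [MulAction Γ Ω] {P : Ω → Ω → ℝ≥0∞} {κ ρ : ℝ≥0∞} {φ : Ω → ℝ≥0∞} (hK : IsKern Γ P κ ρ) (hφ : IsMass Γ φ) {lam : ℝ≥0∞}
    (h1 : 2⁻¹ ≤ lam) (h2 : lam < 1) {n t : ℕ} (htn : t ≤ n) (k : ℕ) :
    Sm P lam n (fun τ => φ (τ.1 k) * ENNReal.ofReal |dv P lam τ t|) + LL φ P lam n +
        LL φ P lam t ≤
      2 * ((∑' a, φ a) * ENNReal.ofReal (t * -Real.log lam.toReal) + HK φ P t) +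
        LL φ P lam (n - t) + LL φ P lam 0 := by
  have h0 : lam ≠ 0 := by
    intro h'
    rw [h'] at h1
    simp at h1
  have hmono := Sm_mono P lam n
    (fun τ => φ (τ.1 k) * ENNReal.ofReal |dv P lam τ t| +
      φ (τ.1 k) * nlog (gg P lam (τ.1 0) τ.2.1) + φ (τ.1 k) * nlog (gg P lam (τ.1 t) τ.2.2))
    (fun τ => 2 * (φ (τ.1 k) * ENNReal.ofReal (t * -Real.log lam.toReal) +
      φ (τ.1 k) * nlog (pw P t (τ.1 0) (τ.1 t))) +
      φ (τ.1 k) * nlog (gg P lam (τ.1 t) τ.2.1) + φ (τ.1 k) * nlog (gg P lam (τ.1 0) τ.2.2))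
    (by
      intro τ hτ
      have hq : pw P t (τ.1 0) (τ.1 t) ≠ 0 := by
        have := tr_near hτ (Nat.zero_le t) htn
        rwa [Nat.sub_zero] at this
      have hp := w10a_point hK h0 h2 t (τ.1 0) (τ.1 t) τ.2.1 τ.2.2 hq
      have hp' := mul_le_mul' (le_refl (φ (τ.1 k))) hp
      unfold dv
      calc φ (τ.1 k) * ENNReal.ofReal |ell P lam (τ.1 t) τ.2.1 + ell P lam (τ.1 t) τ.2.2 -
              ell P lam (τ.1 0) τ.2.1 - ell P lam (τ.1 0) τ.2.2| +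
            φ (τ.1 k) * nlog (gg P lam (τ.1 0) τ.2.1) +
            φ (τ.1 k) * nlog (gg P lam (τ.1 t) τ.2.2)
          = φ (τ.1 k) * (ENNReal.ofReal |ell P lam (τ.1 t) τ.2.1 + ell P lam (τ.1 t) τ.2.2 -
              ell P lam (τ.1 0) τ.2.1 - ell P lam (τ.1 0) τ.2.2| +
            nlog (gg P lam (τ.1 0) τ.2.1) + nlog (gg P lam (τ.1 t) τ.2.2)) := by ring
        _ ≤ _ := hp'
        _ = _ := by ring)
  rw [Sm_add P lam n (fun τ => φ (τ.1 k) * ENNReal.ofReal |dv P lam τ t| +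
      φ (τ.1 k) * nlog (gg P lam (τ.1 0) τ.2.1))
      (fun τ => φ (τ.1 k) * nlog (gg P lam (τ.1 t) τ.2.2)),
    Sm_add P lam n (fun τ => φ (τ.1 k) * ENNReal.ofReal |dv P lam τ t|)
      (fun τ => φ (τ.1 k) * nlog (gg P lam (τ.1 0) τ.2.1)),
    Sm_add P lam n (fun τ => 2 * (φ (τ.1 k) * ENNReal.ofReal (t * -Real.log lam.toReal) +
      φ (τ.1 k) * nlog (pw P t (τ.1 0) (τ.1 t))) +
      φ (τ.1 k) * nlog (gg P lam (τ.1 t) τ.2.1))
      (fun τ => φ (τ.1 k) * nlog (gg P lam (τ.1 0) τ.2.2)),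
    Sm_add P lam n (fun τ => 2 * (φ (τ.1 k) * ENNReal.ofReal (t * -Real.log lam.toReal) +
      φ (τ.1 k) * nlog (pw P t (τ.1 0) (τ.1 t))))
      (fun τ => φ (τ.1 k) * nlog (gg P lam (τ.1 t) τ.2.1)),
    Sm_mul P lam n 2 (fun τ => φ (τ.1 k) * ENNReal.ofReal (t * -Real.log lam.toReal) +
      φ (τ.1 k) * nlog (pw P t (τ.1 0) (τ.1 t))),
    Sm_add P lam n (fun τ => φ (τ.1 k) * ENNReal.ofReal (t * -Real.log lam.toReal))
      (fun τ => φ (τ.1 k) * nlog (pw P t (τ.1 0) (τ.1 t))),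
    w10a_plus hK hφ h2 (Nat.zero_le n), w10a_minus hK hφ h2 htn, w10a_plus hK hφ h2 htn,
    w10a_minus hK hφ h2 (Nat.zero_le n), w10a_HK hK hφ h2 htn, w10a_const hK hφ h2,
    Nat.sub_zero] at hmono
  exact hmono

end Pool.Agent.FPP
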