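import Pool.Agent.FPP.Defs
import Pool.Agent.FPP.K9
import Pool.Agent.FPP.K10
import Pool.Agent.FPP.K12
import Pool.Agent.FPP.K14
import Pool.Agent.FPP.W10a

open scoped ENNReal BigOperators
open MeasureTheory Filter Topology

namespace Pool.Agent.FPP

/-!
**[FPP-W10] Sublinear deviation.**
PROOF. Let `h` be the entropy rate (`entropy_rate`), `N ≥ 1` for `η / 8`. For `n ≥ N` take `lam₀` from `LL_growth` with `ε = η n / 8`, increased so that also `2 W n (- log lam) ≤ η n / 8` for `lam₀ ≤ lam < 1` (`log` is continuous at `1`). For `t ≤ n`, `dev_step` in the reals (all terms are finite: `LL_ne_top`, `HK_le`) gives `Sm (…) ≤ 2 W t (- log lam) + 2 HK t - (LL n - LL (n - t)) - (LL t - LL 0) ≤ η n / 8 + 2 (h t + η n / 8) - (h t - η n / 8) - (h t - η n / 8) ≤ η n`.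
-/

theorem deviation {Γ : Type} [Group Γ] {Ω : Type} [MulAction Γ Ω] {P : Ω → Ω → ℝ≥0∞} {κ ρ : ℝ≥0∞} {φ : Ω → ℝ≥0∞} (hK : IsKern Γ P κ ρ) (hφ : IsMass Γ φ) (η : ℝ)
    (hη : 0 < η) : ∃ N : ℕ, ∀ n ≥ N, ∃ lam₀ : ℝ≥0∞, 2⁻¹ ≤ lam₀ ∧ lam₀ < 1 ∧
      ∀ lam, lam₀ ≤ lam → lam < 1 → ∀ t ≤ n, ∀ k : ℕ,
        Sm P lam n (fun τ => φ (τ.1 k) * ENNReal.ofReal |dv P lam τ t|) ≤
          ENNReal.ofReal (η * n) := by
  obtain ⟨h, h0, hlow, hup⟩ := entropy_rate hK hφ
  obtain ⟨N, hN⟩ := hup (η / 8) (by positivity)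
  refine ⟨max N 1, fun n hn => ?_⟩
  have hnN : N ≤ n := (le_max_left _ _).trans hn
  have hn1 : 1 ≤ n := (le_max_right _ _).trans hn
  have hnpos : (0 : ℝ) < n := Nat.cast_pos.2 hn1
  obtain ⟨l1, hl1, hl1', hgrow⟩ := LL_growth hK hφ h0 hlow n (η * n / 8) (by positivity)
  set W : ℝ := (∑' x, φ x).toReal with hWdef
  have hW : 0 ≤ W := ENNReal.toReal_nonneg
  -- the logarithm is small near `1`
  obtain ⟨r, hr0, hr1, hr⟩ : ∃ r : ℝ, 0 < r ∧ r < 1 ∧ ∀ s, r ≤ s → s < 1 →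
      2 * W * n * (-Real.log s) ≤ η * n / 8 := by
    have hcont : ContinuousAt (fun s : ℝ => 2 * W * n * (-Real.log s)) 1 :=
      continuousAt_const.mul (Real.continuousAt_log one_ne_zero).neg
    have hev : ∀ᶠ s : ℝ in 𝓝 1, 2 * W * n * (-Real.log s) < η * n / 8 := by
      have hval : 2 * W * n * (-Real.log 1) < η * n / 8 := by
        rw [Real.log_one, neg_zero, mul_zero]
        positivity
      exact hcont.eventually_lt_const hval
    obtain ⟨δ, hδ, hball⟩ := Metric.eventually_nhds_iff.1 hev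
    refine ⟨max (1 / 2) (1 - δ / 2), by positivity, max_lt (by norm_num) (by linarith), ?_⟩
    intro s hs hs1
    apply le_of_lt
    apply hball
    have := (le_max_right (1 / 2 : ℝ) (1 - δ / 2)).trans hs
    rw [Real.dist_eq, abs_sub_comm, abs_of_pos (by linarith)]
    linarith
  refine ⟨max l1 (ENNReal.ofReal r), hl1.trans (le_max_left _ _),
    max_lt hl1' (ENNReal.ofReal_lt_one.2 hr1), ?_⟩
  intro lam hlam hlam1 t ht k
  have hl1le : l1 ≤ lam := (le_max_left _ _).trans hlam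
  have h2 : 2⁻¹ ≤ lam := hl1.trans hl1le
  have hlt : lam ≠ ⊤ := ne_top_of_lt hlam1
  have hrlam : r ≤ lam.toReal := by
    have := ENNReal.toReal_mono hlt ((le_max_right _ _).trans hlam)
    rwa [ENNReal.toReal_ofReal hr0.le] at this
  have hlamR1 : lam.toReal < 1 := k12_lt hlam1
  have hlog0 : 0 ≤ -Real.log lam.toReal := by
    rw [neg_nonneg]
    exact Real.log_nonpos ENNReal.toReal_nonneg hlamR1.le
  have hLfin : ∀ k, LL φ P lam k ≠ ⊤ := LL_ne_top hφ.fin hK h2 hlam1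
  have hHfin : HK φ P t ≠ ⊤ :=
    ne_top_of_le_ne_top (ENNReal.mul_ne_top hφ.fin ENNReal.ofReal_ne_top) (HK_le φ hK t)
  have hstep := dev_step hK hφ h2 hlam1 ht k
  set S := Sm P lam n (fun τ => φ (τ.1 k) * ENNReal.ofReal |dv P lam τ t|) with hS
  have hWf : (∑' a, φ a) * ENNReal.ofReal (t * -Real.log lam.toReal) ≠ ⊤ :=
    ENNReal.mul_ne_top hφ.fin ENNReal.ofReal_ne_top
  have hR1 : 2 * ((∑' a, φ a) * ENNReal.ofReal (t * -Real.log lam.toReal) + HK φ P t) ≠ ⊤ :=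
    ENNReal.mul_ne_top ENNReal.ofNat_ne_top (ENNReal.add_ne_top.2 ⟨hWf, hHfin⟩)
  have hRfin : 2 * ((∑' a, φ a) * ENNReal.ofReal (t * -Real.log lam.toReal) + HK φ P t) +
      LL φ P lam (n - t) + LL φ P lam 0 ≠ ⊤ :=
    ENNReal.add_ne_top.2 ⟨ENNReal.add_ne_top.2 ⟨hR1, hLfin _⟩, hLfin _⟩
  have hLHSfin := ne_top_of_le_ne_top hRfin hstep
  have hSfin : S ≠ ⊤ := by
    have h3 := (ENNReal.add_ne_top.1 hLHSfin).1
    exact (ENNReal.add_ne_top.1 h3).1
  have hreal := ENNReal.toReal_mono hRfin hstep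
  rw [ENNReal.toReal_add (ENNReal.add_ne_top.2 ⟨hSfin, hLfin n⟩) (hLfin t),
    ENNReal.toReal_add hSfin (hLfin n),
    ENNReal.toReal_add (ENNReal.add_ne_top.2 ⟨hR1, hLfin _⟩) (hLfin 0),
    ENNReal.toReal_add hR1 (hLfin _), ENNReal.toReal_mul, ENNReal.toReal_ofNat,
    ENNReal.toReal_add hWf hHfin, ENNReal.toReal_mul,
    ENNReal.toReal_ofReal (by positivity)] at hreal
  have hg1 := hgrow lam hl1le hlam1 (n - t) n (Nat.sub_le _ _) (le_refl n)
  have hg2 := hgrow lam hl1le hlam1 0 t (Nat.zero_le _) ht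
  rw [Nat.cast_sub ht] at hg1
  have hH := hN n hnN t ht
  have htn : (t : ℝ) ≤ n := Nat.cast_le.2 ht
  have hsmall : 2 * (W * (t * -Real.log lam.toReal)) ≤ η * n / 8 := by
    refine le_trans ?_ (hr lam.toReal hrlam hlamR1)
    have := mul_le_mul_of_nonneg_right htn hlog0
    have h3 := mul_le_mul_of_nonneg_left this hW
    calc 2 * (W * (t * -Real.log lam.toReal)) ≤ 2 * (W * (n * -Real.log lam.toReal)) := by
          linarith
      _ = 2 * W * n * (-Real.log lam.toReal) := by ring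
  rw [← ENNReal.ofReal_toReal hSfin]
  apply ENNReal.ofReal_le_ofReal
  push_cast at hg2
  nlinarith [hreal, hg1, hg2, hH, hsmall, hnpos, hη]

end Pool.Agent.FPP
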