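import Pool.Agent.FPP.Defs
import Pool.Agent.FPP.K6
import Pool.Agent.FPP.W10
import Pool.Agent.FPP.C1
import Pool.Agent.FPP.C5
import Pool.Agent.FPP.C10

open scoped ENNReal BigOperators
open MeasureTheory Filter Topology

namespace Pool.Agent.FPP

/-!
**[FPP-C11] Sites exist for most pairs of nuclei.**
PROOF. Let `W = ∑' ω, φ ω < ⊤`, `e = min (ε / 12) 1` (so `e ≠ 0`, `e ≠ ⊤`). If `W = 0` everything is `0` (`φ = 0`), so let `W ≠ 0`. Choose in this order: `D` (`exists_D` for `e`); `R' = (|R| + 2 (D cc κ₁ + D cc κ₂)) / 2`; `r` with `2 * ofReal (exp (R' / 2)) * ρ₁ ^ r * W ≤ e` (`ENNReal.tendsto_pow_atTop_nhds_zero_of_lt_one`); `m = r + D`. Now let `L`, `δ ≠ 0` be given; we may replace `δ` by `min δ 1` (`Good` is monotone in `δ`), so `δ ≠ ⊤`. Choose `G` with `2 * (ρ_i ^ G * (1 - ρ_i)⁻¹) * W ≤ δ * e` for `i = 1, 2`; `η > 0` so small that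
`W.toReal * (4 (cc κ₁ + cc κ₂) + 2) * (8 η) * (L (2 G + 1) ^ 2) ≤ e.toReal / 8`; `n₀` such that the two theorems `deviation` (for `mg1 φ`, `mg2 φ`, with `η * e.toReal` in place of `η`) apply for `n ≥ n₀`; `n ≥ max n₀ 1`, `n ≥ 4 r`, and so large that `hbox` holds: the left side is at most `W * (4 (cc κ₁ + cc κ₂) n + 2) (4 η n + 2) M ≤ W (4 c + 2) n * (8 η n) * M` once `4 η n ≥ 2`, and the right side is at least `e * n ^ 2 / 4`. Finally `lam < 1` larger than the `lam₀` of the two deviation theorems, with `lam ^ n ≥ 1/2` and `W ≤ lam ^ (2 n) W + e` (continuity of powers at `1`), and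
`sites_step` with `ε := e` and `K = n`. (`deviation` with `k = 0`; `ENNReal.ofReal (η * e.toReal * n) = e * ENNReal.ofReal (η * n)`.)
-/

theorem c11_pow {ρ c e : ℝ≥0∞} (hρ : ρ < 1) (hc : c ≠ ⊤) (he : e ≠ 0) :
    ∃ N : ℕ, ∀ r ≥ N, c * ρ ^ r ≤ e := by
  have h1 : Tendsto (fun n : ℕ => c * ρ ^ n) atTop (𝓝 (c * 0)) :=
    ENNReal.Tendsto.const_mul (ENNReal.tendsto_pow_atTop_nhds_zero_of_lt_one hρ) (Or.inr hc)
  rw [mul_zero] at h1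
  have h2 := h1.eventually (gt_mem_nhds (pos_iff_ne_zero.2 he))
  obtain ⟨N, hN⟩ := eventually_atTop.1 h2
  exact ⟨N, fun r hr => (hN r hr).le⟩

theorem c11_real {w c M er η : ℝ} (n r : ℕ) (hw : 0 ≤ w) (hc : 0 ≤ c) (hM : 0 ≤ M) (her : 0 ≤ er)
    (hη : 0 < η) (hηs : 8 * η * (w * (4 * c + 2) * M) ≤ er / 8) (hn1 : (1 : ℝ) ≤ n)
    (hn4 : 4 * r ≤ n) (hn : 1 ≤ 2 * η * n) :
    w * ((2 * (2 * c * n) + 2) * (2 * (2 * η * n) + 2) * M) ≤ er * ((n - 2 * r + 1 : ℕ) : ℝ) ^ 2 := by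
  have h1 : 2 * (2 * c * n) + 2 ≤ (4 * c + 2) * n := by nlinarith
  have h2 : 2 * (2 * η * n) + 2 ≤ 8 * η * n := by nlinarith
  have h3 : (n : ℝ) / 2 ≤ ((n - 2 * r + 1 : ℕ) : ℝ) := by
    have h4 : n ≤ 2 * (n - 2 * r + 1) := by omega
    have h5 : (n : ℝ) ≤ 2 * ((n - 2 * r + 1 : ℕ) : ℝ) := by exact_mod_cast h4
    linarith
  have hn0 : (0 : ℝ) ≤ n := by linarith
  have h6 : (2 * (2 * c * n) + 2) * (2 * (2 * η * n) + 2) ≤ ((4 * c + 2) * n) * (8 * η * n) := by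
    apply mul_le_mul h1 h2
    · positivity
    · positivity
  have h7 : w * ((2 * (2 * c * n) + 2) * (2 * (2 * η * n) + 2) * M) ≤
      w * (((4 * c + 2) * n) * (8 * η * n) * M) := by
    apply mul_le_mul_of_nonneg_left _ hw
    exact mul_le_mul_of_nonneg_right h6 hM
  have h8 : w * (((4 * c + 2) * n) * (8 * η * n) * M) =
      (8 * η * (w * (4 * c + 2) * M)) * (n : ℝ) ^ 2 := by ring
  have h9 : (8 * η * (w * (4 * c + 2) * M)) * (n : ℝ) ^ 2 ≤ er / 8 * (n : ℝ) ^ 2 :=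
    mul_le_mul_of_nonneg_right hηs (by positivity)
  have h10 : ((n : ℝ) / 2) ^ 2 ≤ ((n - 2 * r + 1 : ℕ) : ℝ) ^ 2 :=
    pow_le_pow_left₀ (by positivity) h3 2
  have h11 : er * ((n : ℝ) / 2) ^ 2 ≤ er * ((n - 2 * r + 1 : ℕ) : ℝ) ^ 2 :=
    mul_le_mul_of_nonneg_left h10 her
  have h12 : er / 8 * (n : ℝ) ^ 2 ≤ er * ((n : ℝ) / 2) ^ 2 := by
    have : 0 ≤ er * (n : ℝ) ^ 2 := by positivity
    linarith
  linarith

/-- powers near `1` -/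
theorem c11_lam (n : ℕ) (hn : 0 < n) {W e : ℝ≥0∞} (hW : W ≠ ⊤) (he : e ≠ 0) (he' : e ≠ ⊤) :
    ∃ l : ℝ≥0∞, l < 1 ∧ 2⁻¹ ≤ l ^ n ∧ W ≤ l ^ (2 * n) * W + e := by
  have hw : 0 ≤ W.toReal := ENNReal.toReal_nonneg
  have her : 0 < e.toReal := ENNReal.toReal_pos he he'
  have hn' : (0 : ℝ) < n := by exact_mod_cast hn
  have hn1 : (1 : ℝ) ≤ n := by exact_mod_cast hn
  obtain ⟨s, hs0, hs1, hs2⟩ : ∃ s : ℝ, 0 < s ∧ 2 * n * s ≤ 1 ∧ 2 * n * s * W.toReal ≤ e.toReal := by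
    refine ⟨min (1 / (2 * (n : ℝ))) (e.toReal / (2 * (n : ℝ) * (W.toReal + 1))), ?_, ?_, ?_⟩
    · exact lt_min (by positivity) (by positivity)
    · calc 2 * (n : ℝ) * min (1 / (2 * (n : ℝ))) (e.toReal / (2 * (n : ℝ) * (W.toReal + 1)))
          ≤ 2 * (n : ℝ) * (1 / (2 * (n : ℝ))) :=
            mul_le_mul_of_nonneg_left (min_le_left _ _) (by positivity)
        _ = 1 := by field_simp
    · calc 2 * (n : ℝ) * min (1 / (2 * (n : ℝ))) (e.toReal / (2 * (n : ℝ) * (W.toReal + 1))) *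
            W.toReal
          ≤ 2 * (n : ℝ) * (e.toReal / (2 * (n : ℝ) * (W.toReal + 1))) * W.toReal := by
            apply mul_le_mul_of_nonneg_right _ hw
            exact mul_le_mul_of_nonneg_left (min_le_right _ _) (by positivity)
        _ = e.toReal * (W.toReal / (W.toReal + 1)) := by field_simp
        _ ≤ e.toReal * 1 := by
            apply mul_le_mul_of_nonneg_left _ her.le
            rw [div_le_one (by positivity)]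
            linarith
        _ = e.toReal := mul_one _
  have hs3 : s ≤ 1 := by nlinarith
  have hb : ∀ k : ℕ, 1 - (k : ℝ) * s ≤ (1 - s) ^ k := by
    intro k
    have h := one_add_mul_le_pow (a := -s) (by linarith) k
    have e1 : (1 : ℝ) + -s = 1 - s := by ring
    rw [e1] at h
    linarith
  have h1s : (0 : ℝ) ≤ 1 - s := by linarith
  refine ⟨ENNReal.ofReal (1 - s), ?_, ?_, ?_⟩
  · rw [ENNReal.ofReal_lt_one]
    linarith
  · rw [← ENNReal.ofReal_pow h1s]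
    have h2 : (2⁻¹ : ℝ≥0∞) = ENNReal.ofReal (1 / 2) := by
      rw [one_div, ENNReal.ofReal_inv_of_pos (by norm_num)]
      norm_num
    rw [h2]
    apply ENNReal.ofReal_le_ofReal
    have h3 := hb n
    nlinarith
  · rw [← ENNReal.ofReal_pow h1s, ← ENNReal.ofReal_toReal hW, ← ENNReal.ofReal_toReal he',
      ← ENNReal.ofReal_mul (pow_nonneg h1s _),
      ← ENNReal.ofReal_add (mul_nonneg (pow_nonneg h1s _) hw) her.le]
    apply ENNReal.ofReal_le_ofReal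
    have h3 := hb (2 * n)
    push_cast at h3
    have h4 : (1 - 2 * n * s) * W.toReal ≤ (1 - s) ^ (2 * n) * W.toReal :=
      mul_le_mul_of_nonneg_right h3 hw
    nlinarith

theorem sites {Γ : Type} [Group Γ] {Ω₁ Ω₂ : Type} [MulAction Γ Ω₁] [MulAction Γ Ω₂]
    {P₁ : Ω₁ → Ω₁ → ℝ≥0∞} {P₂ : Ω₂ → Ω₂ → ℝ≥0∞} {κ₁ ρ₁ κ₂ ρ₂ : ℝ≥0∞} (hK₁ : IsKern Γ P₁ κ₁ ρ₁)
    (hK₂ : IsKern Γ P₂ κ₂ ρ₂) {φ : Ω₁ × Ω₂ → ℝ≥0∞} (hφ : IsWt Γ φ) (o : Ω₁ × Ω₂) (R : ℝ)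
    {ε : ℝ≥0∞} (hε : ε ≠ 0) :
    ∃ m : ℕ, ∀ (L : ℕ) (δ : ℝ≥0∞), δ ≠ 0 → ∃ (lam : ℝ≥0∞) (K : ℕ), 2⁻¹ ≤ lam ∧ lam < 1 ∧
      ∑' ω, ∑' ωi, ∑' ωj, φ ω * (g2 P₁ P₂ lam ω ωi * g2 P₁ P₂ lam ω ωj *
        ind (¬Good Γ P₁ P₂ lam o R m L δ K ω ωi ωj)) ≤ ε := by
  set W : ℝ≥0∞ := ∑' ω, φ ω with hWdef
  have hWt : W ≠ ⊤ := hφ.fin
  obtain ⟨e, he0, he1, he12⟩ : ∃ e : ℝ≥0∞, e ≠ 0 ∧ e ≤ 1 ∧ 12 * e ≤ ε := by
    refine ⟨min (ε / 12) 1, ?_, min_le_right _ _, ?_⟩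
    · exact (lt_min (ENNReal.div_pos hε (by norm_num)) zero_lt_one).ne'
    · exact (mul_le_mul_right (min_le_left _ _) 12).trans ENNReal.mul_div_le
  have het : e ≠ ⊤ := ne_top_of_le_ne_top ENNReal.one_ne_top he1
  obtain ⟨D, hD⟩ := exists_D hK₁ hK₂ hφ.fin o he0
  have hc₁ := cc_nonneg hK₁
  have hc₂ := cc_nonneg hK₂
  obtain ⟨R', hR'⟩ : ∃ R' : ℝ, R + 2 * (D * cc κ₁ + D * cc κ₂) ≤ 2 * R' := by
    refine ⟨(R + 2 * (D * cc κ₁ + D * cc κ₂)) / 2, le_of_eq ?_⟩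
    ring
  have hct : 2 * ENNReal.ofReal (Real.exp (R' / 2)) * W ≠ ⊤ :=
    ENNReal.mul_ne_top (ENNReal.mul_ne_top (by norm_num) ENNReal.ofReal_ne_top) hWt
  obtain ⟨r, hr⟩ := c11_pow hK₁.ρ_lt hct he0
  have hr' : 2 * ENNReal.ofReal (Real.exp (R' / 2)) * ρ₁ ^ r * W ≤ e := by
    have h := hr r le_rfl
    calc 2 * ENNReal.ofReal (Real.exp (R' / 2)) * ρ₁ ^ r * W =
        2 * ENNReal.ofReal (Real.exp (R' / 2)) * W * ρ₁ ^ r := by ring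
      _ ≤ e := h
  refine ⟨r + D, fun L δ hδ => ?_⟩
  obtain ⟨δ', hδ0, hδt, hδδ⟩ : ∃ δ' : ℝ≥0∞, δ' ≠ 0 ∧ δ' ≠ ⊤ ∧ δ' ≤ δ := by
    refine ⟨min δ 1, ?_, ?_, min_le_left _ _⟩
    · exact (lt_min (pos_iff_ne_zero.2 hδ) zero_lt_one).ne'
    · exact ne_top_of_le_ne_top ENNReal.one_ne_top (min_le_right _ _)
  have hGe : ∀ ρ : ℝ≥0∞, ρ < 1 → ∃ N : ℕ, ∀ G ≥ N, 2 * (ρ ^ G * (1 - ρ)⁻¹) * W ≤ δ' * e := by
    intro ρ hρ
    have h1 : (1 - ρ)⁻¹ ≠ ⊤ := by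
      rw [Ne, ENNReal.inv_eq_top, tsub_eq_zero_iff_le, not_le]
      exact hρ
    have h2 : 2 * (1 - ρ)⁻¹ * W ≠ ⊤ := ENNReal.mul_ne_top (ENNReal.mul_ne_top (by norm_num) h1) hWt
    obtain ⟨N, hN⟩ := c11_pow hρ h2 (mul_ne_zero hδ0 he0)
    refine ⟨N, fun G hG => ?_⟩
    calc 2 * (ρ ^ G * (1 - ρ)⁻¹) * W = 2 * (1 - ρ)⁻¹ * W * ρ ^ G := by ring
      _ ≤ δ' * e := hN G hG
  obtain ⟨G₁, hG₁⟩ := hGe ρ₁ hK₁.ρ_lt
  obtain ⟨G₂, hG₂⟩ := hGe ρ₂ hK₂.ρ_lt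
  set G : ℕ := max G₁ G₂ with hG
  set M : ℝ := (L : ℝ) * (2 * (G : ℝ) + 1) ^ 2 with hM
  have hM0 : 0 ≤ M := by positivity
  have hw : 0 ≤ W.toReal := ENNReal.toReal_nonneg
  have her : 0 < e.toReal := ENNReal.toReal_pos he0 het
  have hq0 : 0 ≤ W.toReal * (4 * (cc κ₁ + cc κ₂) + 2) * M := by positivity
  obtain ⟨η, hη, hηs⟩ : ∃ η : ℝ, 0 < η ∧
      8 * η * (W.toReal * (4 * (cc κ₁ + cc κ₂) + 2) * M) ≤ e.toReal / 8 := by
    refine ⟨e.toReal / (64 * (W.toReal * (4 * (cc κ₁ + cc κ₂) + 2) * M + 1)), by positivity, ?_⟩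
    set q := W.toReal * (4 * (cc κ₁ + cc κ₂) + 2) * M with hq
    calc 8 * (e.toReal / (64 * (q + 1))) * q = e.toReal / 8 * (q / (q + 1)) := by
          field_simp
          ring
      _ ≤ e.toReal / 8 * 1 := by
          apply mul_le_mul_of_nonneg_left _ (by positivity)
          rw [div_le_one (by positivity)]
          linarith
      _ = e.toReal / 8 := mul_one _
  obtain ⟨N₁, hN₁⟩ := deviation hK₁ hφ.mg1_isMass (η * e.toReal) (mul_pos hη her)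
  obtain ⟨N₂, hN₂⟩ := deviation hK₂ hφ.mg2_isMass (η * e.toReal) (mul_pos hη her)
  obtain ⟨N₃, hN₃⟩ := exists_nat_ge (1 / (2 * η))
  set n : ℕ := N₁ + N₂ + N₃ + 4 * r + 1 with hn
  obtain ⟨lam₁, ha₁, hb₁, hd₁⟩ := hN₁ n (by omega)
  obtain ⟨lam₂, ha₂, hb₂, hd₂⟩ := hN₂ n (by omega)
  obtain ⟨lam₃, hb₃, hp₃, hq₃⟩ := c11_lam n (by omega) hWt he0 het
  set lam : ℝ≥0∞ := max lam₁ (max lam₂ lam₃) with hlam
  have hl1 : lam₁ ≤ lam := le_max_left _ _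
  have hl2 : lam₂ ≤ lam := (le_max_left _ _).trans (le_max_right _ _)
  have hl3 : lam₃ ≤ lam := (le_max_right _ _).trans (le_max_right _ _)
  have hlt : lam < 1 := max_lt hb₁ (max_lt hb₂ hb₃)
  have hhalf : 2⁻¹ ≤ lam := ha₁.trans hl1
  refine ⟨lam, n, hhalf, hlt, ?_⟩
  have hofe : ∀ x : ℝ, ENNReal.ofReal (η * e.toReal * x) = e * ENNReal.ofReal (η * x) := by
    intro x
    rw [show η * e.toReal * x = e.toReal * (η * x) by ring, ENNReal.ofReal_mul her.le,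
      ENNReal.ofReal_toReal het]
  have hn1 : (1 : ℝ) ≤ (n : ℝ) := by
    have : 1 ≤ n := by omega
    exact_mod_cast this
  have hnη : 1 ≤ 2 * η * (n : ℝ) := by
    have h1 : (N₃ : ℝ) ≤ (n : ℝ) := by
      have : N₃ ≤ n := by omega
      exact_mod_cast this
    have h2 : 1 / (2 * η) ≤ (n : ℝ) := hN₃.trans h1
    rw [div_le_iff₀ (by positivity)] at h2
    linarith
  have hbox : W * ENNReal.ofReal ((2 * (2 * (cc κ₁ + cc κ₂) * n) + 2) *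
      (2 * (2 * η * n) + 2) * (L * (2 * G + 1) ^ 2)) ≤ e * (n - 2 * r + 1 : ℕ) ^ 2 := by
    have h1 := c11_real (w := W.toReal) (c := cc κ₁ + cc κ₂) (M := M) (er := e.toReal) (η := η)
      n r hw (by positivity) hM0 her.le hη hηs hn1 (by omega) hnη
    have h2 : W * ENNReal.ofReal ((2 * (2 * (cc κ₁ + cc κ₂) * n) + 2) *
        (2 * (2 * η * n) + 2) * (L * (2 * G + 1) ^ 2)) =
        ENNReal.ofReal (W.toReal * ((2 * (2 * (cc κ₁ + cc κ₂) * n) + 2) *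
        (2 * (2 * η * n) + 2) * M)) := by
      rw [ENNReal.ofReal_mul hw, ENNReal.ofReal_toReal hWt]
    have h3 : e * (n - 2 * r + 1 : ℕ) ^ 2 =
        ENNReal.ofReal (e.toReal * ((n - 2 * r + 1 : ℕ) : ℝ) ^ 2) := by
      rw [ENNReal.ofReal_mul her.le, ENNReal.ofReal_toReal het, ENNReal.ofReal_pow (by positivity),
        ENNReal.ofReal_natCast]
    rw [h2, h3]
    exact ENNReal.ofReal_le_ofReal h1
  have hlamW : W ≤ lam ^ (2 * n) * W + e :=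
    hq₃.trans (add_le_add_left (mul_le_mul_left (pow_le_pow_left₀ bot_le hl3 _) _) _)
  have hmain := sites_step hK₁ hK₂ hφ hhalf hlt o (n := n) (r := r) (D := D) (G := G) (L := L)
    (m := r + D) (R := R) (R' := R') (η := η) (δ := δ') (ε := e)
    (hp₃.trans (pow_le_pow_left₀ bot_le hl3 _)) (by omega) (by omega) hη hδ0 hδt le_rfl hR'
    hr' hD (hG₁ G (le_max_left _ _)) (hG₂ G (le_max_right _ _))
    (fun t ht => by
      have h := hd₁ lam hl1 hlt t ht 0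
      rw [hofe] at h
      exact h)
    (fun t ht => by
      have h := hd₂ lam hl2 hlt t ht 0
      rw [hofe] at h
      exact h)
    hbox hlamW
  refine le_trans ?_ (hmain.trans he12)
  refine ENNReal.tsum_le_tsum fun ω => ENNReal.tsum_le_tsum fun ωi => ENNReal.tsum_le_tsum fun ωj => ?_
  refine mul_le_mul_right (mul_le_mul_right (ind_mono ?_) _) _
  rintro h ⟨y, u, v, g1, g2, g3, g4, g5⟩
  exact h ⟨y, u, v, g1, g2, g3, g4, fun k k' hk => (g5 k k' hk).trans hδδ⟩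

end Pool.Agent.FPP
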