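import Pool.Agent.FPP.Defs

open scoped ENNReal BigOperators
open MeasureTheory Filter Topology

namespace Pool.Agent.FPP

/-!
**[FPP-C2] Weights exist.**
PROOF. For every orbit `c : MulAction.orbitRel.Quotient Γ Ω` choose a representative `r c ∈ F` (possible by `hF`: a translate of any representative). Put `φ ω = (Nat.card (stabilizer Γ ω))⁻¹` if `ω = r ⟦ω⟧` and `0` otherwise. For `x` in the orbit of `r = r ⟦x⟧`, `{g | g • x = r}` is in bijection with `stabilizer Γ r` (a coset: `g ↦ g * g₀⁻¹`), so `∑' g, φ (g • x) = Nat.card (stabilizer Γ r) * (Nat.card (stabilizer Γ r))⁻¹ = 1` (a finite nonempty set). `∑' ω, φ ω ≤ ∑' ω : F, (Nat.card …)⁻¹ ≠ ⊤` since the support is contained in `F`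
(`tsum_subtype`, `ENNReal.tsum_le_tsum`). If `Ω` is nonempty take `o = r ⟦ω⟧`.
-/

theorem exists_wt {Γ : Type} [Group Γ] {Ω : Type} [MulAction Γ Ω]
    (hst : ∀ ω : Ω, Finite (MulAction.stabilizer Γ ω)) (F : Set Ω)
    (hF : ∀ ω : Ω, ∃ g : Γ, g • ω ∈ F)
    (hfin : ∑' ω : F, (Nat.card (MulAction.stabilizer Γ (ω : Ω)) : ℝ≥0∞)⁻¹ ≠ ⊤) :
    ∃ φ : Ω → ℝ≥0∞, IsWt Γ φ ∧ (Nonempty Ω → ∃ o, φ o ≠ 0) := by
  classical
  have hrep : ∀ c : MulAction.orbitRel.Quotient Γ Ω, ∃ r : Ω, r ∈ F ∧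
      (Quotient.mk'' r : MulAction.orbitRel.Quotient Γ Ω) = c := by
    intro c
    induction c using Quotient.inductionOn' with
    | h ω =>
      obtain ⟨g, hg⟩ := hF ω
      refine ⟨g • ω, hg, Quotient.sound' ?_⟩
      exact MulAction.mem_orbit ω g
  choose r hrF hrc using hrep
  obtain ⟨N, hN⟩ : ∃ N : Ω → ℝ≥0∞,
      N = fun ω => (Nat.card (MulAction.stabilizer Γ ω) : ℝ≥0∞)⁻¹ := ⟨_, rfl⟩
  obtain ⟨q, hq⟩ : ∃ q : Ω → MulAction.orbitRel.Quotient Γ Ω,
      q = fun ω => Quotient.mk'' ω := ⟨_, rfl⟩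
  have hNne : ∀ ω, N ω ≠ 0 := by
    intro ω
    rw [hN]
    exact ENNReal.inv_ne_zero.2 (ENNReal.natCast_ne_top _)
  have hqq : ∀ (g : Γ) (x : Ω), q (g • x) = q x := by
    intro g x
    rw [hq]
    exact Quotient.sound' (MulAction.mem_orbit x g)
  have hqr : ∀ x, q (r (q x)) = q x := by
    intro x
    have := hrc (q x)
    rw [hq] at this ⊢
    exact this
  refine ⟨fun ω => if ω = r (q ω) then N ω else 0, ⟨?_, ?_⟩, ?_⟩
  · refine ne_top_of_le_ne_top hfin ?_
    have h1 : ∑' ω : F, (Nat.card (MulAction.stabilizer Γ (ω : Ω)) : ℝ≥0∞)⁻¹ =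
        ∑' ω, F.indicator N ω := by
      rw [← tsum_subtype F N, hN]
    rw [h1]
    refine ENNReal.tsum_le_tsum fun ω => ?_
    by_cases h : ω = r (q ω)
    · have hF' : ω ∈ F := h ▸ hrF (q ω)
      simp only [if_pos h, Set.indicator_of_mem hF', le_refl]
    · simp only [if_neg h, zero_le]
  · intro x
    obtain ⟨s, hs⟩ : ∃ s, s = r (q x) := ⟨_, rfl⟩
    have hsx : q s = q x := by rw [hs, hqr]
    obtain ⟨g0, hg0⟩ : ∃ g0 : Γ, g0 • x = s := by
      rw [hq] at hsx
      have h2 : MulAction.orbitRel Γ Ω s x := Quotient.exact' hsx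
      exact h2
    have h3 : ∀ g : Γ, (if g • x = r (q (g • x)) then N (g • x) else 0) =
        (if g • x = s then N s else 0) := by
      intro g
      rw [hqq, ← hs]
      by_cases h : g • x = s
      · rw [if_pos h, if_pos h, h]
      · rw [if_neg h, if_neg h]
    rw [tsum_congr h3]
    rw [← Equiv.tsum_eq (Equiv.mulRight g0) (fun g : Γ => if g • x = s then N s else 0)]
    have h4 : ∀ g : Γ, (if (Equiv.mulRight g0) g • x = s then N s else 0) =
        ((MulAction.stabilizer Γ s : Subgroup Γ) : Set Γ).indicator (fun _ => N s) g := by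
      intro g
      rw [Equiv.coe_mulRight, mul_smul, hg0]
      by_cases h : g • s = s
      · rw [if_pos h, Set.indicator_of_mem]
        exact h
      · rw [if_neg h, Set.indicator_of_notMem]
        exact h
    rw [tsum_congr h4, ← tsum_subtype]
    have : Finite (MulAction.stabilizer Γ s) := hst s
    have h5 : ∑' _ : ((MulAction.stabilizer Γ s : Subgroup Γ) : Set Γ), N s =
        (Nat.card (MulAction.stabilizer Γ s) : ℝ≥0∞) * N s := by
      rw [ENNReal.tsum_const]
      congr 1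
      have h6 : ENat.card ((MulAction.stabilizer Γ s : Subgroup Γ) : Set Γ) =
          (Nat.card (MulAction.stabilizer Γ s) : ℕ∞) := by
        exact ENat.card_eq_coe_natCard (MulAction.stabilizer Γ s)
      rw [h6]
      rfl
    rw [h5, hN]
    refine ENNReal.mul_inv_cancel ?_ (ENNReal.natCast_ne_top _)
    exact_mod_cast (Nat.card_pos (α := MulAction.stabilizer Γ s)).ne'
  · rintro ⟨ω⟩
    refine ⟨r (q ω), ?_⟩
    have h7 : r (q ω) = r (q (r (q ω))) := by rw [hqr]
    show (if r (q ω) = r (q (r (q ω))) then N (r (q ω)) else 0) ≠ 0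
    rw [if_pos h7]
    exact hNne _

end Pool.Agent.FPP
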