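import Mathlib

/-!
Project FPP: fixed price 1 for groups acting on products of two nonamenable graphs.
Definitions shared by all files.
-/

open scoped ENNReal BigOperators

namespace Pool.Agent.FPP

open Classical in
/-- indicator of a proposition -/
noncomputable def ind (p : Prop) : ℝ≥0∞ := if p then 1 else 0

theorem ind_true {p : Prop} (h : p) : ind p = 1 := by
  unfold ind
  exact if_pos h

theorem ind_false {p : Prop} (h : ¬p) : ind p = 0 := by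
  unfold ind
  exact if_neg h

theorem ind_le_one (p : Prop) : ind p ≤ 1 := by
  by_cases h : p
  · rw [ind_true h]
  · rw [ind_false h]
    exact zero_le_one

theorem ind_mono {p q : Prop} (h : p → q) : ind p ≤ ind q := by
  by_cases hp : p
  · rw [ind_true hp, ind_true (h hp)]
  · rw [ind_false hp]
    exact bot_le

theorem ind_congr {p q : Prop} (h : p ↔ q) : ind p = ind q :=
  le_antisymm (ind_mono h.1) (ind_mono h.2)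

theorem ind_or (p q : Prop) : ind (p ∨ q) ≤ ind p + ind q := by
  by_cases hp : p
  · rw [ind_true hp]
    exact (ind_le_one _).trans le_self_add
  · by_cases hq : q
    · rw [ind_true hq]
      exact (ind_le_one _).trans le_add_self
    · rw [ind_false (by tauto)]
      exact bot_le

theorem ind_not (p : Prop) : ind (¬p) + ind p = 1 := by
  by_cases hp : p
  · rw [ind_true hp, ind_false (by tauto), zero_add]
  · rw [ind_false hp, ind_true hp, add_zero]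

/-! ### Kernels -/

/-- composition of kernels -/
noncomputable def mulK {Ω : Type} (P Q : Ω → Ω → ℝ≥0∞) (x z : Ω) : ℝ≥0∞ := ∑' y, P x y * Q y z

open Classical in
/-- the identity kernel -/
noncomputable def oneK {Ω : Type} (x y : Ω) : ℝ≥0∞ := if x = y then 1 else 0

/-- powers of a kernel -/
noncomputable def pw {Ω : Type} (P : Ω → Ω → ℝ≥0∞) : ℕ → Ω → Ω → ℝ≥0∞
  | 0 => oneK
  | k + 1 => mulK P (pw P k)

/-- the kernel of the walk killed at rate `1 - lam`: `(1 - lam) ∑ lam ^ k P ^ k` -/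
noncomputable def gg {Ω : Type} (P : Ω → Ω → ℝ≥0∞) (lam : ℝ≥0∞) (x y : Ω) : ℝ≥0∞ :=
  ∑' k : ℕ, (1 - lam) * lam ^ k * pw P k x y

/-- minus the logarithm of `gg` -/
noncomputable def ell {Ω : Type} (P : Ω → Ω → ℝ≥0∞) (lam : ℝ≥0∞) (x y : Ω) : ℝ :=
  -Real.log (gg P lam x y).toReal

/-- the affinity of the laws `gg P lam x` and `gg P lam y` -/
noncomputable def hh {Ω : Type} (P : Ω → Ω → ℝ≥0∞) (lam : ℝ≥0∞) (x y : Ω) : ℝ≥0∞ :=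
  ∑' z, gg P lam x z ^ (1 / 2 : ℝ) * gg P lam y z ^ (1 / 2 : ℝ)

/-- An invariant symmetric lazy Markov kernel with finite range, entries bounded below,
connected, with spectral gap. -/
structure IsKern (Γ : Type) [Group Γ] {Ω : Type} [MulAction Γ Ω] (P : Ω → Ω → ℝ≥0∞)
    (κ ρ : ℝ≥0∞) : Prop where
  symm : ∀ x y, P x y = P y x
  inv : ∀ (g : Γ) (x y : Ω), P (g • x) (g • y) = P x y
  sum_one : ∀ x, ∑' y, P x y = 1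
  fin : ∀ x, {y | P x y ≠ 0}.Finite
  κ_pos : κ ≠ 0
  κ_le : κ ≤ 1
  low : ∀ x y, P x y ≠ 0 → κ ≤ P x y
  lazy : ∀ x, P x x ≠ 0
  conn : ∀ x y, ∃ n, pw P n x y ≠ 0
  ρ_lt : ρ < 1
  gap : ∀ (k : ℕ) (f : Ω → ℝ≥0∞),
    ∑' x, ∑' y, f x * pw P k x y * f y ≤ ρ ^ k * ∑' x, f x ^ 2

/-- the Harnack constant -/
noncomputable def cc (κ : ℝ≥0∞) : ℝ := Real.log (2 / κ.toReal)

/-! ### Weights -/

/-- a root measure: finite, with the mass transport principle -/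
structure IsMass (Γ : Type) [Group Γ] {Ω : Type} [MulAction Γ Ω] (φ : Ω → ℝ≥0∞) : Prop where
  fin : ∑' x, φ x ≠ ⊤
  mtp : ∀ F : Ω → Ω → ℝ≥0∞, (∀ (g : Γ) (x y : Ω), F (g • x) (g • y) = F x y) →
    ∑' x, ∑' y, φ x * F x y = ∑' x, ∑' y, φ y * F x y

/-- a finite weight whose translates sum up to 1 -/
structure IsWt (Γ : Type) [Group Γ] {Ω : Type} [MulAction Γ Ω] (φ : Ω → ℝ≥0∞) : Prop where
  fin : ∑' x, φ x ≠ ⊤
  one : ∀ x, ∑' g : Γ, φ (g • x) = 1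

/-- first marginal -/
noncomputable def mg1 {Ω₁ Ω₂ : Type} (φ : Ω₁ × Ω₂ → ℝ≥0∞) (a : Ω₁) : ℝ≥0∞ := ∑' b, φ (a, b)

/-- second marginal -/
noncomputable def mg2 {Ω₁ Ω₂ : Type} (φ : Ω₁ × Ω₂ → ℝ≥0∞) (b : Ω₂) : ℝ≥0∞ := ∑' a, φ (a, b)

/-! ### Entropy -/

/-- minus the logarithm, cut to `[0, ∞)` -/
noncomputable def nlog (t : ℝ≥0∞) : ℝ≥0∞ := ENNReal.ofReal (-Real.log t.toReal)

/-- entropy of `k` steps -/
noncomputable def HK {Ω : Type} (φ : Ω → ℝ≥0∞) (P : Ω → Ω → ℝ≥0∞) (k : ℕ) : ℝ≥0∞ :=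
  ∑' x, ∑' y, φ x * (pw P k x y * nlog (pw P k x y))

/-- mean of `-log gg` after `k` steps -/
noncomputable def EE {Ω : Type} (φ : Ω → ℝ≥0∞) (P : Ω → Ω → ℝ≥0∞) (lam : ℝ≥0∞) (k : ℕ) : ℝ≥0∞ :=
  ∑' x, ∑' y, φ x * (pw P k x y * nlog (gg P lam x y))

/-- mean of `-log gg` at the end of the killed walk started after `k` steps -/
noncomputable def LL {Ω : Type} (φ : Ω → ℝ≥0∞) (P : Ω → Ω → ℝ≥0∞) (lam : ℝ≥0∞) (k : ℕ) : ℝ≥0∞ :=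
  ∑' x, ∑' y, φ x * (mulK (pw P k) (gg P lam) x y * nlog (gg P lam x y))

/-! ### Trajectories -/

/-- put `a` in front of a sequence -/
def cns {Ω : Type} (a : Ω) (x : ℕ → Ω) : ℕ → Ω
  | 0 => a
  | k + 1 => x k

/-- expectation of a function of the trajectory of `n` steps of `P` from `a` (the trajectory is
constant after time `n`) -/
noncomputable def Ex {Ω : Type} (P : Ω → Ω → ℝ≥0∞) : ℕ → ((ℕ → Ω) → ℝ≥0∞) → Ω → ℝ≥0∞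
  | 0, F, a => F (fun _ => a)
  | n + 1, F, a => ∑' b, P a b * Ex P n (fun x => F (cns a x)) b

/-- a trajectory `τ.1` with two end points: `τ.2.1` (from the last position) and `τ.2.2` (from
the position at time 0) -/
abbrev Tr (Ω : Type) : Type := (ℕ → Ω) × Ω × Ω

/-- sum over all trajectories with `n` steps and two end points -/
noncomputable def Sm {Ω : Type} (P : Ω → Ω → ℝ≥0∞) (lam : ℝ≥0∞) (n : ℕ) (F : Tr Ω → ℝ≥0∞) :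
    ℝ≥0∞ :=
  ∑' a, Ex P n (fun x => ∑' u, ∑' v, gg P lam (x n) u * gg P lam (x 0) v * F (x, u, v)) a

/-- the steps of the trajectory are allowed -/
def TrOk {Ω : Type} (P : Ω → Ω → ℝ≥0∞) (n : ℕ) (τ : Tr Ω) : Prop :=
  ∀ t < n, P (τ.1 t) (τ.1 (t + 1)) ≠ 0

/-- deviation of the sum of the two scores between time `0` and time `t` -/
noncomputable def dv {Ω : Type} (P : Ω → Ω → ℝ≥0∞) (lam : ℝ≥0∞) (τ : Tr Ω) (t : ℕ) : ℝ :=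
  ell P lam (τ.1 t) τ.2.1 + ell P lam (τ.1 t) τ.2.2 - ell P lam (τ.1 0) τ.2.1 -
    ell P lam (τ.1 0) τ.2.2

/-- sum over pairs of trajectories -/
noncomputable def Sc {Ω₁ Ω₂ : Type} (P₁ : Ω₁ → Ω₁ → ℝ≥0∞) (P₂ : Ω₂ → Ω₂ → ℝ≥0∞) (lam : ℝ≥0∞)
    (n : ℕ) (F : Tr Ω₁ → Tr Ω₂ → ℝ≥0∞) : ℝ≥0∞ :=
  Sm P₁ lam n (fun τ₁ => Sm P₂ lam n (fun τ₂ => F τ₁ τ₂))

/-! ### The product -/

/-- the product kernel -/
noncomputable def g2 {Ω₁ Ω₂ : Type} (P₁ : Ω₁ → Ω₁ → ℝ≥0∞) (P₂ : Ω₂ → Ω₂ → ℝ≥0∞) (lam : ℝ≥0∞)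
    (ω ω' : Ω₁ × Ω₂) : ℝ≥0∞ :=
  gg P₁ lam ω.1 ω'.1 * gg P₂ lam ω.2 ω'.2

/-- minus the logarithm of `g2` -/
noncomputable def L2 {Ω₁ Ω₂ : Type} (P₁ : Ω₁ → Ω₁ → ℝ≥0∞) (P₂ : Ω₂ → Ω₂ → ℝ≥0∞) (lam : ℝ≥0∞)
    (ω ω' : Ω₁ × Ω₂) : ℝ :=
  ell P₁ lam ω.1 ω'.1 + ell P₂ lam ω.2 ω'.2

/-- `ω'` can be reached from `ω` by `m` steps in each factor -/
def near {Ω₁ Ω₂ : Type} (P₁ : Ω₁ → Ω₁ → ℝ≥0∞) (P₂ : Ω₂ → Ω₂ → ℝ≥0∞) (m : ℕ)
    (ω ω' : Ω₁ × Ω₂) : Prop :=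
  pw P₁ m ω.1 ω'.1 ≠ 0 ∧ pw P₂ m ω.2 ω'.2 ≠ 0

/-- the pair `ωi, ωj` is good at `ω`: there are `L` sites with small mutual affinity -/
def Good (Γ : Type) [Group Γ] {Ω₁ Ω₂ : Type} [MulAction Γ Ω₁] [MulAction Γ Ω₂]
    (P₁ : Ω₁ → Ω₁ → ℝ≥0∞) (P₂ : Ω₂ → Ω₂ → ℝ≥0∞) (lam : ℝ≥0∞) (o : Ω₁ × Ω₂) (R : ℝ) (m L : ℕ)
    (δ : ℝ≥0∞) (K : ℕ) (ω ωi ωj : Ω₁ × Ω₂) : Prop :=
  ∃ (y : Fin L → Ω₁ × Ω₂) (u v : Fin L → Γ),
    (∀ n, near P₁ P₂ K ω (y n) ∧ near P₁ P₂ m (y n) (u n • o) ∧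
      near P₁ P₂ m (y n) (v n • o)) ∧
    (∀ n, |L2 P₁ P₂ lam (y n) ωi - L2 P₁ P₂ lam ω ωi| ≤ 1 ∧
      |L2 P₁ P₂ lam (y n) ωj - L2 P₁ P₂ lam ω ωj| ≤ 1) ∧
    (∀ n, L2 P₁ P₂ lam (y n) ωj - L2 P₁ P₂ lam (y n) ωi + R ≤
      L2 P₁ P₂ lam (u n • o) ωj - L2 P₁ P₂ lam (u n • o) ωi) ∧
    (∀ n, L2 P₁ P₂ lam (v n • o) ωj - L2 P₁ P₂ lam (v n • o) ωi ≤
      L2 P₁ P₂ lam (y n) ωj - L2 P₁ P₂ lam (y n) ωi - R) ∧
    ∀ n n', n ≠ n' → hh P₁ lam (y n).1 (y n').1 * hh P₂ lam (y n).2 (y n').2 ≤ δ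

/-- the position `(k, l)` of a pair of trajectories is a good position -/
def GP (Γ : Type) [Group Γ] {Ω₁ Ω₂ : Type} [MulAction Γ Ω₁] [MulAction Γ Ω₂]
    (P₁ : Ω₁ → Ω₁ → ℝ≥0∞) (P₂ : Ω₂ → Ω₂ → ℝ≥0∞) (lam : ℝ≥0∞) (o : Ω₁ × Ω₂) (n r D G : ℕ)
    (R η : ℝ) (δ : ℝ≥0∞) (τ₁ : Tr Ω₁) (τ₂ : Tr Ω₂) (k l : ℕ) : Prop :=
  (ell P₁ lam (τ₁.1 (k + r)) τ₁.2.1 + R ≤ ell P₁ lam (τ₁.1 k) τ₁.2.1) ∧
  (ell P₁ lam (τ₁.1 k) τ₁.2.1 + R ≤ ell P₁ lam (τ₁.1 (k - r)) τ₁.2.1) ∧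
  (ell P₁ lam (τ₁.1 k) τ₁.2.2 + R ≤ ell P₁ lam (τ₁.1 (k + r)) τ₁.2.2) ∧
  (ell P₁ lam (τ₁.1 (k - r)) τ₁.2.2 + R ≤ ell P₁ lam (τ₁.1 k) τ₁.2.2) ∧
  (∃ g : Γ, near P₁ P₂ D (τ₁.1 (k + r), τ₂.1 l) (g • o)) ∧
  (∃ g : Γ, near P₁ P₂ D (τ₁.1 (k - r), τ₂.1 l) (g • o)) ∧
  (∀ k' ≤ n, (k' + G ≤ k ∨ k + G ≤ k') → hh P₁ lam (τ₁.1 k) (τ₁.1 k') ≤ δ) ∧
  (∀ l' ≤ n, (l' + G ≤ l ∨ l + G ≤ l') → hh P₂ lam (τ₂.1 l) (τ₂.1 l') ≤ δ) ∧
  |dv P₁ lam τ₁ k| ≤ η * n ∧ |dv P₂ lam τ₂ l| ≤ η * n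

/-! ### The race on the group -/

/-- a race kernel on a group: positive, total mass between `z₀` and `z₁`, Harnack inequality with
constant `exp c` for translations by the elements of `S` -/
structure IsRate {Γ : Type} [Group Γ] (k : Γ → ℝ) (z₀ z₁ c : ℝ) (S : Finset Γ) : Prop where
  pos : ∀ γ, 0 < k γ
  summ : Summable k
  lo : z₀ ≤ ∑' γ, k γ
  hi : ∑' γ, k γ ≤ z₁
  har : ∀ s ∈ S, ∀ γ, k (s⁻¹ * γ) ≤ Real.exp c * k γ ∧ k γ ≤ Real.exp c * k (s⁻¹ * γ)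

/-- the site `(u, v)` separates the nuclei `q` and `q'`: near `u` the nucleus `q` beats `q'`, near
`v` the nucleus `q'` beats `q` -/
def Site {Γ : Type} [Group Γ] (k : Γ → ℝ) (S' : Finset Γ) (C R : ℝ) (K : Finset Γ)
    (q q' u v : Γ) : Prop :=
  u ∈ K ∧ v ∈ K ∧ v⁻¹ * u ∈ S' ∧
  k q ≤ Real.exp C * k (u⁻¹ * q) ∧ k q' ≤ Real.exp C * k (v⁻¹ * q') ∧
  Real.exp R * (k (u⁻¹ * q') * k q) ≤ k (u⁻¹ * q) * k q' ∧
  Real.exp R * (k (v⁻¹ * q) * k q') ≤ k (v⁻¹ * q') * k q ∧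
  ∀ γ, k (v⁻¹ * γ) ≤ Real.exp C * k (u⁻¹ * γ)

/-- the pair `q, q'` of nuclei is good: there are `L` sites with small mutual affinity -/
def GoodG {Γ : Type} [Group Γ] (k : Γ → ℝ) (S' : Finset Γ) (C R δ : ℝ) (L : ℕ) (K : Finset Γ)
    (q q' : Γ) : Prop :=
  ∃ u v : Fin L → Γ, (∀ n, Site k S' C R K q q' (u n) (v n)) ∧
    ∀ n n', n ≠ n' → ∑' γ, min (k ((u n)⁻¹ * γ)) (k ((u n')⁻¹ * γ)) ≤ δ

/-- race kernels for which most pairs of nuclei are good -/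
def RaceProp (Γ : Type) [Group Γ] (S : Finset Γ) : Prop :=
  ∃ z₀ z₁ c : ℝ, 0 < z₀ ∧ 0 ≤ c ∧ ∀ R ε : ℝ, 0 < ε → ∃ (C : ℝ) (S' : Finset Γ), 0 ≤ C ∧
    ∀ (L : ℕ) (δ : ℝ), 0 < δ → ∃ (k : Γ → ℝ) (K : Finset Γ), IsRate k z₀ z₁ c S ∧
      ∀ W : Finset Γ, (open Classical in
        ∑ q ∈ W, ∑ q' ∈ W, if GoodG k S' C R δ L K q q' then 0 else k q * k q') ≤ ε

/-! ### Finite range rules -/

/-- labels: two real numbers -/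
abbrev Lb : Type := ℝ × ℝ

/-- Finite range rules on iid labels with law `ν` which give a random graph on `Γ` of expected
out-degree at most `1 + ε`, such that `1` and `s` are connected up to a local event of
probability at most `ε`. -/
def RuleProp (Γ : Type) [Group Γ] (S : Finset Γ) (ν : MeasureTheory.Measure Lb) : Prop :=
  ∀ ε : ℝ≥0∞, ε ≠ 0 → ∃ (V : Finset Γ) (J : Type) (_ : Fintype J) (t : J → Γ)
    (U : J → Set (V → Lb)) (B : Γ → Set (V → Lb)),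
    (∀ i, MeasurableSet (U i)) ∧
    ∑ i, (MeasureTheory.Measure.pi fun _ : V => ν) (U i) ≤ 1 + ε ∧
    ∀ s ∈ S, MeasurableSet (B s) ∧ (MeasureTheory.Measure.pi fun _ : V => ν) (B s) ≤ ε ∧
      ∀ l : Γ → Lb, (fun v : V => l v) ∉ B s →
        Relation.EqvGen (fun a b => ∃ i, b = a * t i ∧ (fun v : V => l (a * v)) ∈ U i) 1 s

/-- `w` is the winner of the race in the window `W` with labels `E` (ties are decided by `e`) -/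
def Win {Γ : Type} (k : Γ → ℝ) (W : Finset Γ) (e : Γ → ℕ) (E : Γ → ℝ) (w : Γ) : Prop :=
  w ∈ W ∧ ∀ w' ∈ W, w' ≠ w → E w / k w < E w' / k w' ∨ (E w / k w = E w' / k w' ∧ e w < e w')

/-- extend a family of labels by zero -/
noncomputable def xt {Γ : Type} (V : Finset Γ) (l : V → Lb) (γ : Γ) : Lb :=
  open Classical in if h : γ ∈ V then l ⟨γ, h⟩ else (0, 0)

/-- a law on the real line with exponential tail: `ν [t, ∞) = exp (-t)` for `t ≥ 0` -/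
structure IsExp (ν : MeasureTheory.Measure ℝ) : Prop where
  prob : MeasureTheory.IsProbabilityMeasure ν
  tail : ∀ t : ℝ, 0 ≤ t → ν (Set.Ici t) = ENNReal.ofReal (Real.exp (-t))

end Pool.Agent.FPP
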