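import Mathlib

/-!
Project FPP: nonamenable graphs and their lazy walk.
-/

open scoped ENNReal BigOperators

namespace Pool.Agent.FPP

/-- A connected graph of bounded degree with positive Cheeger constant: every finite set `A` of
vertices has at least `h * |A|` edges that leave it. -/
structure NonamGraph {V : Type} (G : SimpleGraph V) : Prop where
  conn : G.Connected
  deg : ∃ D : ℕ, ∀ x, (G.neighborSet x).Finite ∧ (G.neighborSet x).ncard ≤ D
  cheeger : ∃ h : ℝ, 0 < h ∧ ∀ A : Finset V,
    h * A.card ≤ ({e : V × V | e.1 ∈ A ∧ e.2 ∉ A ∧ G.Adj e.1 e.2}.ncard : ℝ)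

open Classical in
/-- the lazy walk: each neighbour with probability `1 / (2 D)` -/
noncomputable def gk {V : Type} (G : SimpleGraph V) (D : ℕ) (x y : V) : ℝ≥0∞ :=
  if x = y then 1 - ((G.neighborSet x).ncard : ℝ≥0∞) * (2 * D : ℝ≥0∞)⁻¹
  else if G.Adj x y then (2 * D : ℝ≥0∞)⁻¹ else 0

end Pool.Agent.FPP
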