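import Pool.Agent.FPP.Defs
import Pool.Agent.FPP.GDefs
import Pool.Agent.FPP.K1
import Pool.Agent.FPP.K3

open scoped ENNReal BigOperators
open MeasureTheory Filter Topology

namespace Pool.Agent.FPP

/-!
**[FPP-G1] The lazy walk on a graph.**
PROOF. `D ≥ 1`, `deg x ≤ D`, so `deg x * (2 D)⁻¹ ≤ 1/2` and `gk x x ≥ 1/2 ≥ (2 D)⁻¹`. `sum_one`: the support is `{x} ∪ neighborSet x` (finite); `1 - deg * (2 D)⁻¹ + deg * (2 D)⁻¹ = 1`. `inv`: `g • ·` maps the neighbours of `x` bijectively to the neighbours of `g • x`. `conn`: induction along a walk (`G.Connected.preconnected x y`, `SimpleGraph.Walk.rec`) with `pw_trans`, `pw_one`; `pw P 0 x x = 1`.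
-/

theorem gk_symm {V : Type} (G : SimpleGraph V) (D : ℕ) (x y : V) : gk G D x y = gk G D y x := by
  unfold gk
  by_cases h : x = y
  · subst h
    rfl
  · rw [if_neg h, if_neg (Ne.symm h)]
    by_cases h2 : G.Adj x y
    · rw [if_pos h2, if_pos h2.symm]
    · rw [if_neg h2, if_neg (fun h3 => h2 h3.symm)]

theorem gk_inv {Γ : Type} [Group Γ] {V : Type} [MulAction Γ V] (G : SimpleGraph V) (D : ℕ)
    (ha : ∀ (g : Γ) (x y : V), G.Adj (g • x) (g • y) ↔ G.Adj x y) (g : Γ) (x y : V) :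
    gk G D (g • x) (g • y) = gk G D x y := by
  have hn : (G.neighborSet (g • x)).ncard = (G.neighborSet x).ncard := by
    have e : G.neighborSet (g • x) = (fun z => g • z) '' G.neighborSet x := by
      ext z
      constructor
      · intro hz
        refine ⟨g⁻¹ • z, ?_, smul_inv_smul g z⟩
        have h1 : G.Adj (g • x) (g • (g⁻¹ • z)) := by
          rw [smul_inv_smul]
          exact hz
        exact (ha g x _).1 h1
      · rintro ⟨w, hw, rfl⟩
        exact (ha g x w).2 hw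
    rw [e]
    exact Set.ncard_image_of_injective _ (MulAction.injective g)
  unfold gk
  by_cases h : x = y
  · subst h
    rw [if_pos rfl, if_pos rfl, hn]
  · rw [if_neg h, if_neg (fun h2 => h (smul_left_cancel g h2))]
    by_cases h2 : G.Adj x y
    · rw [if_pos h2, if_pos ((ha g x y).2 h2)]
    · rw [if_neg h2, if_neg (fun h3 => h2 ((ha g x y).1 h3))]

theorem g1_two_ne_top (D : ℕ) : (2 * D : ℝ≥0∞) ≠ ⊤ :=
  ENNReal.mul_ne_top (by norm_num) (ENNReal.natCast_ne_top D)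

theorem g1_two_ne_zero {D : ℕ} (hD : 1 ≤ D) : (2 * D : ℝ≥0∞) ≠ 0 := by
  have : (D : ℝ≥0∞) ≠ 0 := by
    simp only [ne_eq, Nat.cast_eq_zero]
    omega
  exact mul_ne_zero (by norm_num) this

theorem g1_sum_le {V : Type} (G : SimpleGraph V) {D : ℕ} (hD : 1 ≤ D)
    (h : ∀ x, (G.neighborSet x).Finite ∧ (G.neighborSet x).ncard ≤ D) (x : V) :
    (2 * D : ℝ≥0∞)⁻¹ + ((G.neighborSet x).ncard : ℝ≥0∞) * (2 * D : ℝ≥0∞)⁻¹ ≤ 1 := by
  have h1 : (1 : ℝ≥0∞) + ((G.neighborSet x).ncard : ℝ≥0∞) ≤ 2 * D := by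
    have h2 : 1 + (G.neighborSet x).ncard ≤ 2 * D := by
      have := (h x).2
      omega
    exact_mod_cast h2
  calc (2 * D : ℝ≥0∞)⁻¹ + ((G.neighborSet x).ncard : ℝ≥0∞) * (2 * D : ℝ≥0∞)⁻¹
      = (1 + ((G.neighborSet x).ncard : ℝ≥0∞)) * (2 * D : ℝ≥0∞)⁻¹ := by rw [add_mul, one_mul]
    _ ≤ (2 * D) * (2 * D : ℝ≥0∞)⁻¹ := mul_le_mul_left h1 _
    _ = 1 := ENNReal.mul_inv_cancel (g1_two_ne_zero hD) (g1_two_ne_top D)

theorem g1_diag {V : Type} (G : SimpleGraph V) {D : ℕ} (hD : 1 ≤ D)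
    (h : ∀ x, (G.neighborSet x).Finite ∧ (G.neighborSet x).ncard ≤ D) (x : V) :
    (2 * D : ℝ≥0∞)⁻¹ ≤ gk G D x x := by
  unfold gk
  rw [if_pos rfl]
  refine ENNReal.le_sub_of_add_le_right ?_ (g1_sum_le G hD h x)
  exact ENNReal.mul_ne_top (ENNReal.natCast_ne_top _) (ENNReal.inv_ne_top.2 (g1_two_ne_zero hD))

theorem gk_sum {V : Type} (G : SimpleGraph V) {D : ℕ} (hD : 1 ≤ D)
    (h : ∀ x, (G.neighborSet x).Finite ∧ (G.neighborSet x).ncard ≤ D) (x : V) :
    ∑' y, gk G D x y = 1 := by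
  classical
  have hfin := (h x).1
  have hx : x ∉ hfin.toFinset := by
    rw [Set.Finite.mem_toFinset]
    exact G.irrefl
  rw [tsum_eq_sum (s := insert x hfin.toFinset), Finset.sum_insert hx]
  · have e : ∀ y ∈ hfin.toFinset, gk G D x y = (2 * D : ℝ≥0∞)⁻¹ := by
      intro y hy
      have hy' : G.Adj x y := by
        rw [Set.Finite.mem_toFinset] at hy
        exact hy
      unfold gk
      rw [if_neg hy'.ne, if_pos hy']
    rw [Finset.sum_congr rfl e, Finset.sum_const, ← Set.ncard_eq_toFinset_card _ hfin, nsmul_eq_mul]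
    unfold gk
    rw [if_pos rfl]
    refine tsub_add_cancel_of_le ?_
    exact le_trans le_add_self (g1_sum_le G hD h x)
  · intro y hy
    rw [Finset.mem_insert, Set.Finite.mem_toFinset] at hy
    push Not at hy
    unfold gk
    rw [if_neg (Ne.symm hy.1)]
    exact if_neg hy.2

theorem gk_fin {V : Type} (G : SimpleGraph V) (D : ℕ)
    (h : ∀ x, (G.neighborSet x).Finite ∧ (G.neighborSet x).ncard ≤ D) (x : V) :
    {y | gk G D x y ≠ 0}.Finite := by
  refine ((h x).1.insert x).subset ?_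
  intro y hy
  by_contra h2
  rw [Set.mem_insert_iff] at h2
  push Not at h2
  refine hy ?_
  unfold gk
  rw [if_neg (Ne.symm h2.1)]
  exact if_neg h2.2

theorem gk_low {V : Type} (G : SimpleGraph V) {D : ℕ} (hD : 1 ≤ D)
    (h : ∀ x, (G.neighborSet x).Finite ∧ (G.neighborSet x).ncard ≤ D) (x y : V)
    (hxy : gk G D x y ≠ 0) : (2 * D : ℝ≥0∞)⁻¹ ≤ gk G D x y := by
  by_cases h1 : x = y
  · subst h1
    exact g1_diag G hD h x
  · unfold gk at hxy ⊢
    rw [if_neg h1] at hxy ⊢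
    by_cases h2 : G.Adj x y
    · rw [if_pos h2]
    · rw [if_neg h2] at hxy
      exact absurd rfl hxy

theorem gk_lazy {V : Type} (G : SimpleGraph V) {D : ℕ} (hD : 1 ≤ D)
    (h : ∀ x, (G.neighborSet x).Finite ∧ (G.neighborSet x).ncard ≤ D) (x : V) :
    gk G D x x ≠ 0 := by
  have h1 := g1_diag G hD h x
  have h2 : (2 * D : ℝ≥0∞)⁻¹ ≠ 0 := ENNReal.inv_ne_zero.2 (g1_two_ne_top D)
  intro h3
  rw [h3] at h1
  exact h2 (le_antisymm h1 bot_le)

theorem gk_conn {V : Type} (G : SimpleGraph V) {D : ℕ} (hD : 1 ≤ D)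
    (h : ∀ x, (G.neighborSet x).Finite ∧ (G.neighborSet x).ncard ≤ D) (hc : G.Connected)
    (x y : V) : ∃ n, pw (gk G D) n x y ≠ 0 := by
  obtain ⟨w⟩ := hc.preconnected x y
  induction w with
  | nil =>
    refine ⟨0, ?_⟩
    show oneK _ _ ≠ 0
    unfold oneK
    rw [if_pos rfl]
    exact one_ne_zero
  | cons hadj _ ih =>
    obtain ⟨n, hn⟩ := ih
    refine ⟨1 + n, pw_trans ?_ hn⟩
    rw [pw_one]
    unfold gk
    rw [if_neg hadj.ne, if_pos hadj]
    exact ENNReal.inv_ne_zero.2 (g1_two_ne_top D)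

end Pool.Agent.FPP
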