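import Pool.Agent.FPP.Defs
import Pool.Agent.FPP.GDefs

open scoped ENNReal BigOperators
open MeasureTheory Filter Topology

namespace Pool.Agent.FPP

/-!
**[FPP-G2a] The coarea inequality.**
PROOF. Layer cake: for `t ≥ 0` let `A_t = {x ∈ s | t < f x ^ 2}` (a finset, `f = 0` outside `s`). `∑ x ∈ s, f x ^ 2 = ∫ t in 0..∞, card A_t`, and for each `t` the hypothesis gives `h * card A_t ≤ #{(x, y) | Adj x y, f y ^ 2 ≤ t < f x ^ 2}`; integrating, `h * ∑ f ^ 2 ≤ ∑_{(x,y) ∈ E} max (f x ^ 2 - f y ^ 2) 0` with `E` the (finite) set of pairs `x ∈ s`, `Adj x y`. Or without integrals: induction on the number of distinct values of `f` (subtract the smallest positive value of `f ^ 2` on the support). The right side is the sum over the ordered pairs.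
-/

theorem g2a_gen {V : Type} (N : V → Finset V) {h : ℝ}
    (hc : ∀ A : Finset V, ∀ _ : DecidablePred (· ∉ A), h * A.card ≤ ∑ x ∈ A, (((N x).filter (· ∉ A)).card : ℝ))
    (s : Finset V) :
    ∀ (k : ℕ) (g : V → ℝ), (∀ x, 0 ≤ g x) → (∀ x, x ∉ s → g x = 0) →
      (∀ _ : DecidablePred (fun x => 0 < g x), (s.filter (fun x => 0 < g x)).card = k) →
      h * ∑ x ∈ s, g x ≤ ∑ x ∈ s, ∑ y ∈ N x, max (g x - g y) 0 := by
  classical
  intro k
  induction k using Nat.strong_induction_on with
  | _ k ih =>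
    intro g hg hs hk
    set A := s.filter (fun x => 0 < g x) with hA
    have hmem : ∀ x, x ∈ A ↔ 0 < g x := by
      intro x
      rw [hA, Finset.mem_filter]
      constructor
      · exact fun hx => hx.2
      · intro hx
        refine ⟨?_, hx⟩
        by_contra hxs
        rw [hs x hxs] at hx
        exact lt_irrefl _ hx
    have hzero : ∀ x, x ∉ A → g x = 0 := fun x hx => le_antisymm (not_lt.1 fun h => hx ((hmem x).2 h)) (hg x)
    have hAs : A ⊆ s := Finset.filter_subset _ _
    have hRA : ∀ g' : V → ℝ, (∀ x, 0 ≤ g' x) → (∀ x, x ∉ A → g' x = 0) →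
        ∑ x ∈ s, ∑ y ∈ N x, max (g' x - g' y) 0 = ∑ x ∈ A, ∑ y ∈ N x, max (g' x - g' y) 0 := by
      intro g' hg' hz
      symm
      refine Finset.sum_subset hAs fun x _ hxA => Finset.sum_eq_zero fun y _ => ?_
      rw [hz x hxA]
      exact max_eq_right (by linarith [hg' y])
    have hLA : ∀ g' : V → ℝ, (∀ x, x ∉ A → g' x = 0) → ∑ x ∈ s, g' x = ∑ x ∈ A, g' x := by
      intro g' hz
      symm
      exact Finset.sum_subset hAs fun x _ hxA => hz x hxA
    rcases A.eq_empty_or_nonempty with hE | hne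
    · rw [hRA g hg hzero, hLA g hzero, hE, Finset.sum_empty, Finset.sum_empty, mul_zero]
    · obtain ⟨x0, hx0, hmin⟩ := Finset.exists_min_image A g hne
      set m := g x0 with hm
      have hmpos : 0 < m := (hmem x0).1 hx0
      set g' : V → ℝ := fun x => if x ∈ A then g x - m else 0 with hg'
      have hg'0 : ∀ x, 0 ≤ g' x := by
        intro x
        simp only [hg']
        split_ifs with hx
        · linarith [hmin x hx]
        · exact le_rfl
      have hz' : ∀ x, x ∉ A → g' x = 0 := fun x hx => by simp only [hg', if_neg hx]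
      have hz's : ∀ x, x ∉ s → g' x = 0 := fun x hx => hz' x fun h => hx (hAs h)
      have hcard : (s.filter (fun x => 0 < g' x)).card < k := by
        rw [← hk (fun _ => inferInstance)]
        refine Finset.card_lt_card ?_
        rw [Finset.ssubset_iff_of_subset]
        · refine ⟨x0, hx0, ?_⟩
          rw [Finset.mem_filter]
          rintro ⟨_, h2⟩
          simp only [hg', if_pos hx0] at h2
          linarith
        · intro x hx
          rw [Finset.mem_filter] at hx
          by_contra hxA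
          have hxA' : x ∉ A := hxA
          rw [hz' x hxA'] at hx
          exact lt_irrefl _ hx.2
      have hI := ih _ hcard g' hg'0 hz's (fun _ => by congr)
      rw [hRA g' hg'0 hz', hLA g' hz'] at hI
      rw [hRA g hg hzero, hLA g hzero]
      have e1 : ∑ x ∈ A, g x = ∑ x ∈ A, g' x + m * A.card := by
        have : ∑ x ∈ A, g' x = ∑ x ∈ A, (g x - m) := Finset.sum_congr rfl fun x hx => by simp only [hg', if_pos hx]
        rw [this, Finset.sum_sub_distrib, Finset.sum_const, nsmul_eq_mul]
        ring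
      have e2 : ∑ x ∈ A, ∑ y ∈ N x, max (g x - g y) 0 =
          ∑ x ∈ A, ∑ y ∈ N x, max (g' x - g' y) 0 + m * ∑ x ∈ A, (((N x).filter (· ∉ A)).card : ℝ) := by
        rw [Finset.mul_sum, ← Finset.sum_add_distrib]
        refine Finset.sum_congr rfl fun x hx => ?_
        have e3 : ∀ y ∈ N x, max (g x - g y) 0 = max (g' x - g' y) 0 + (if y ∉ A then m else 0) := by
          intro y _
          by_cases hy : y ∈ A
          · rw [if_neg (by simpa using hy)]
            simp only [hg', if_pos hx, if_pos hy, add_zero]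
            congr 1
            ring
          · rw [if_pos hy, hzero y hy]
            simp only [hg', if_pos hx, if_neg hy, sub_zero]
            rw [max_eq_left (hg x), max_eq_left (by linarith [hmin x hx])]
            ring
        rw [Finset.sum_congr rfl e3, Finset.sum_add_distrib, ← Finset.sum_filter, Finset.sum_const, nsmul_eq_mul]
        ring
      rw [e1, e2, mul_add]
      have h4 := hc A (fun _ => inferInstance)
      have h5 : h * (m * A.card) ≤ m * ∑ x ∈ A, (((N x).filter (· ∉ A)).card : ℝ) := by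
        have := mul_le_mul_of_nonneg_left h4 hmpos.le
        linarith
      linarith

theorem coarea {V : Type} (G : SimpleGraph V) {D : ℕ}
    (hd : ∀ x, (G.neighborSet x).Finite ∧ (G.neighborSet x).ncard ≤ D) {h : ℝ} (hh : 0 < h)
    (hc : ∀ A : Finset V,
      h * A.card ≤ ({e : V × V | e.1 ∈ A ∧ e.2 ∉ A ∧ G.Adj e.1 e.2}.ncard : ℝ))
    (s : Finset V) (f : V → ℝ) (hf : ∀ x, 0 ≤ f x) (hs : ∀ x, x ∉ s → f x = 0) :
    h * ∑ x ∈ s, f x ^ 2 ≤ ∑ x ∈ s, ∑ᶠ y ∈ G.neighborSet x, max (f x ^ 2 - f y ^ 2) 0 := by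
  classical
  have e : ∀ x, ∑ᶠ y ∈ G.neighborSet x, max (f x ^ 2 - f y ^ 2) 0 =
      ∑ y ∈ (hd x).1.toFinset, max (f x ^ 2 - f y ^ 2) 0 := fun x => finsum_mem_eq_finite_toFinset_sum _ (hd x).1
  simp only [e]
  refine g2a_gen (fun x => (hd x).1.toFinset) ?_ s (s.filter (fun x => 0 < f x ^ 2)).card (fun x => f x ^ 2)
    (fun x => sq_nonneg _) (fun x hx => by rw [hs x hx]; ring) (fun _ => by congr)
  intro A hdec
  refine (hc A).trans ?_
  have h1 : {e : V × V | e.1 ∈ A ∧ e.2 ∉ A ∧ G.Adj e.1 e.2} ⊆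
      ((A.biUnion fun x => (((hd x).1.toFinset.filter (· ∉ A)).image fun y => (x, y)) : Finset (V × V)) :
        Set (V × V)) := by
    rintro ⟨x, y⟩ ⟨hx, hy, hxy⟩
    rw [Finset.mem_coe, Finset.mem_biUnion]
    refine ⟨x, hx, Finset.mem_image.2 ⟨y, Finset.mem_filter.2 ⟨?_, hy⟩, rfl⟩⟩
    rw [Set.Finite.mem_toFinset]
    exact hxy
  have h2 := Set.ncard_le_ncard h1 (Finset.finite_toSet _)
  rw [Set.ncard_coe_finset] at h2
  have h3 : (A.biUnion fun x => (((hd x).1.toFinset.filter (· ∉ A)).image fun y => (x, y))).card ≤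
      ∑ x ∈ A, ((hd x).1.toFinset.filter (· ∉ A)).card :=
    Finset.card_biUnion_le.trans (Finset.sum_le_sum fun x _ => Finset.card_image_le)
  have h4 := h2.trans h3
  exact_mod_cast h4

end Pool.Agent.FPP
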