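import Pool.Agent.FPP.Defs
import Pool.Agent.FPP.GDefs
import Pool.Agent.FPP.G1
import Pool.Agent.FPP.G2a

open scoped ENNReal BigOperators
open MeasureTheory Filter Topology

namespace Pool.Agent.FPP

/-!
**[FPP-G2] Cheeger inequality.**
PROOF. First let `f` be real, `≥ 0`, with finite support `s`. Write `N = ∑ f x ^ 2`. All sums over ordered adjacent pairs `(x, y)` with `x ∈ s` or `y ∈ s` (a finite set `E`, symmetric). `coarea`: `2 h N ≤ ∑_E |f x ^ 2 - f y ^ 2| ≤ (∑_E (f x - f y) ^ 2) ^ (1/2) * (∑_E (f x + f y) ^ 2) ^ (1/2)` (Cauchy-Schwarz), and `∑_E (f x + f y) ^ 2 ≤ 2 ∑_E (f x ^ 2 + f y ^ 2) ≤ 4 D N`. So `∑_E (f x - f y) ^ 2 ≥ h ^ 2 N / D`. Now `∑ x, ∑ y, f x * gk x y * f y = N - (1 / (4 D)) * ∑_E (f x - f y) ^ 2 ≤ (1 - h ^ 2 / (4 D ^ 2)) N`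
(expand `(f x - f y) ^ 2`, `∑ y, gk x y = 1`). Let `ρ = ofReal (1 - h' ^ 2 / (4 D ^ 2))` with `h' = min h D` (so `3/4 ≤` the real number `< 1`). For `f : V → ℝ≥0∞`: if `f x = ⊤` for some `x` the right side is `⊤` (`ρ ≠ 0`); otherwise the left side is the supremum over finite sets `s` of the value for `f * 1_s` (`ENNReal.tsum_eq_iSup_sum`; for a nonnegative double sum: the partial sums over `s × s`), each at most `ρ * ∑ x ∈ s, f x ^ 2`.
-/

open Classical in
/-- real form of the kernel -/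
noncomputable def g2p {V : Type} (G : SimpleGraph V) (D : ℕ) (x y : V) : ℝ :=
  if x = y then 1 - ((G.neighborSet x).ncard : ℝ) * (2 * D : ℝ)⁻¹
  else if G.Adj x y then (2 * D : ℝ)⁻¹ else 0

theorem g2_ofReal {V : Type} (G : SimpleGraph V) {D : ℕ} (hD : 1 ≤ D) (x y : V) :
    gk G D x y = ENNReal.ofReal (g2p G D x y) := by
  have hD' : (0 : ℝ) < 2 * D := by
    have : (1 : ℝ) ≤ D := by exact_mod_cast hD
    linarith
  have e : ENNReal.ofReal ((2 * D : ℝ)⁻¹) = (2 * D : ℝ≥0∞)⁻¹ := by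
    rw [ENNReal.ofReal_inv_of_pos hD', ENNReal.ofReal_mul (by norm_num)]
    simp
  unfold gk g2p
  by_cases hxy : x = y
  · rw [if_pos hxy, if_pos hxy, ENNReal.ofReal_sub _ (by positivity),
      ENNReal.ofReal_mul (by positivity), e]
    simp
  · rw [if_neg hxy, if_neg hxy]
    by_cases ha : G.Adj x y
    · rw [if_pos ha, if_pos ha, e]
    · rw [if_neg ha, if_neg ha, ENNReal.ofReal_zero]

theorem g2p_nonneg {V : Type} (G : SimpleGraph V) {D : ℕ} (hD : 1 ≤ D)
    (hd : ∀ x, (G.neighborSet x).Finite ∧ (G.neighborSet x).ncard ≤ D) (x y : V) :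
    0 ≤ g2p G D x y := by
  have hD' : (1 : ℝ) ≤ D := by exact_mod_cast hD
  have hD2 : (0 : ℝ) < 2 * D := by linarith
  unfold g2p
  split_ifs
  · have h1 : ((G.neighborSet x).ncard : ℝ) ≤ D := by exact_mod_cast (hd x).2
    have : ((G.neighborSet x).ncard : ℝ) * (2 * D : ℝ)⁻¹ ≤ 1 := by
      rw [← div_eq_mul_inv, div_le_one hD2]
      linarith
    linarith
  · positivity
  · exact le_rfl

theorem g2_ptw {A B t : ℝ} (hA : 0 ≤ A) (hB : 0 ≤ B) (ht : 0 < t) :
    2 * t * max (A ^ 2 - B ^ 2) 0 ≤ (if B < A then (A - B) ^ 2 else 0) + 4 * t ^ 2 * A ^ 2 := by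
  by_cases h : B < A
  · rw [if_pos h, max_eq_left (by nlinarith)]
    have h1 : 2 * t * (A ^ 2 - B ^ 2) ≤ 2 * (A - B) * (2 * t * A) := by
      have : (A + B) ≤ 2 * A := by linarith
      have h2 : 0 ≤ 2 * t * (A - B) := by
        apply mul_nonneg (by positivity); linarith
      nlinarith [mul_le_mul_of_nonneg_left this h2]
    nlinarith [sq_nonneg ((A - B) - 2 * t * A)]
  · rw [if_neg h, max_eq_right (by nlinarith)]
    simp only [mul_zero, zero_add]
    positivity

open Classical in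
theorem g2_real {V : Type} (G : SimpleGraph V) {D : ℕ} (hD : 1 ≤ D)
    (hd : ∀ x, (G.neighborSet x).Finite ∧ (G.neighborSet x).ncard ≤ D) {h : ℝ} (hh : 0 < h)
    (hc : ∀ A : Finset V,
      h * A.card ≤ ({e : V × V | e.1 ∈ A ∧ e.2 ∉ A ∧ G.Adj e.1 e.2}.ncard : ℝ))
    (s : Finset V) (f : V → ℝ) (hf : ∀ x, 0 ≤ f x) (hs : ∀ x, x ∉ s → f x = 0) :
    ∑ x ∈ s, ∑ y ∈ s, f x * g2p G D x y * f y ≤ (1 - h ^ 2 / (8 * D ^ 2)) * ∑ x ∈ s, f x ^ 2 := by
  have hD1 : (1 : ℝ) ≤ D := by exact_mod_cast hD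
  have hD0 : (0 : ℝ) < D := by linarith
  set U : Finset V := s ∪ s.biUnion (fun x => (hd x).1.toFinset) with hU
  have hsU : s ⊆ U := Finset.subset_union_left
  have hNU : ∀ x ∈ s, ∀ y, G.Adj x y → y ∈ U := by
    intro x hx y hxy
    rw [hU, Finset.mem_union, Finset.mem_biUnion]
    right
    exact ⟨x, hx, by simpa using hxy⟩
  set a : V → V → ℝ := fun x y => if G.Adj x y then 1 else 0 with ha
  have hasymm : ∀ x y, a x y = a y x := by
    intro x y; simp only [ha, G.adj_comm x y]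
  have ha0 : ∀ x y, 0 ≤ a x y := by
    intro x y; simp only [ha]; split_ifs <;> norm_num
  have haxx : ∀ x, a x x = 0 := by intro x; simp [ha]
  have hfs : ∀ x ∈ s, ∀ F : V → ℝ, ∑ᶠ y ∈ G.neighborSet x, F y = ∑ y ∈ U, a x y * F y := by
    intro x hx F
    rw [finsum_mem_eq_finite_toFinset_sum _ (hd x).1]
    have : (hd x).1.toFinset = U.filter (fun y => G.Adj x y) := by
      ext y
      simp only [Set.Finite.mem_toFinset, SimpleGraph.mem_neighborSet, Finset.mem_filter]
      exact ⟨fun h => ⟨hNU x hx y h, h⟩, fun h => h.2⟩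
    rw [this, Finset.sum_filter]
    refine Finset.sum_congr rfl fun y _ => ?_
    simp only [ha]
    split_ifs <;> simp
  have hdeg : ∀ x ∈ s, ((G.neighborSet x).ncard : ℝ) = ∑ y ∈ U, a x y := by
    intro x hx
    rw [Set.ncard_eq_toFinset_card _ (hd x).1]
    have : (hd x).1.toFinset = U.filter (fun y => G.Adj x y) := by
      ext y
      simp only [Set.Finite.mem_toFinset, SimpleGraph.mem_neighborSet, Finset.mem_filter]
      exact ⟨fun h => ⟨hNU x hx y h, h⟩, fun h => h.2⟩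
    rw [this, Finset.card_filter]
    push_cast
    rfl
  set N : ℝ := ∑ x ∈ s, f x ^ 2 with hN
  have hN0 : 0 ≤ N := Finset.sum_nonneg fun x _ => sq_nonneg _
  -- sums over `U`
  set S1 : ℝ := ∑ x ∈ U, ∑ y ∈ U, a x y * (f x ^ 2 - f x * f y) with hS1
  set S2 : ℝ := ∑ x ∈ U, ∑ y ∈ U, a x y * (if f y < f x then (f x - f y) ^ 2 else 0) with hS2
  have hS12 : S1 + S1 = S2 + S2 := by
    have e1 : S1 = ∑ x ∈ U, ∑ y ∈ U, a x y * (f y ^ 2 - f x * f y) := by
      rw [hS1, Finset.sum_comm]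
      refine Finset.sum_congr rfl fun x _ => Finset.sum_congr rfl fun y _ => ?_
      rw [hasymm y x]; ring
    have e2 : S2 = ∑ x ∈ U, ∑ y ∈ U, a x y * (if f x < f y then (f x - f y) ^ 2 else 0) := by
      rw [hS2, Finset.sum_comm]
      refine Finset.sum_congr rfl fun x _ => Finset.sum_congr rfl fun y _ => ?_
      rw [hasymm y x]
      congr 1
      split_ifs <;> ring
    calc S1 + S1 = ∑ x ∈ U, ∑ y ∈ U, a x y * (f x - f y) ^ 2 := by
          nth_rw 2 [e1]
          rw [hS1, ← Finset.sum_add_distrib]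
          refine Finset.sum_congr rfl fun x _ => ?_
          rw [← Finset.sum_add_distrib]
          refine Finset.sum_congr rfl fun y _ => ?_
          ring
      _ = S2 + S2 := by
          nth_rw 2 [e2]
          rw [hS2, ← Finset.sum_add_distrib]
          refine Finset.sum_congr rfl fun x _ => ?_
          rw [← Finset.sum_add_distrib]
          refine Finset.sum_congr rfl fun y _ => ?_
          rw [← mul_add]
          congr 1
          rcases lt_trichotomy (f x) (f y) with h1 | h1 | h1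
          · rw [if_neg (not_lt.2 h1.le), if_pos h1, zero_add]
          · rw [h1]; simp
          · rw [if_pos h1, if_neg (not_lt.2 h1.le), add_zero]
  have hS1s : S1 = ∑ x ∈ s, ∑ y ∈ U, a x y * (f x ^ 2 - f x * f y) := by
    rw [hS1]
    symm
    refine Finset.sum_subset hsU fun x _ hx => ?_
    refine Finset.sum_eq_zero fun y _ => ?_
    rw [hs x hx]; ring
  -- coarea
  have hco := coarea G hd hh hc s f hf hs
  have hco' : h * N ≤ ∑ x ∈ s, ∑ y ∈ U, a x y * max (f x ^ 2 - f y ^ 2) 0 := by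
    refine hco.trans (le_of_eq ?_)
    exact Finset.sum_congr rfl fun x hx => hfs x hx _
  set t : ℝ := h / (4 * D) with ht
  have ht0 : 0 < t := by positivity
  have hmain : 2 * t * (h * N) ≤ S2 + 4 * t ^ 2 * (D * N) := by
    calc 2 * t * (h * N)
        ≤ 2 * t * ∑ x ∈ s, ∑ y ∈ U, a x y * max (f x ^ 2 - f y ^ 2) 0 := by gcongr
      _ = ∑ x ∈ s, ∑ y ∈ U, a x y * (2 * t * max (f x ^ 2 - f y ^ 2) 0) := by
          rw [Finset.mul_sum]
          refine Finset.sum_congr rfl fun x _ => ?_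
          rw [Finset.mul_sum]
          refine Finset.sum_congr rfl fun y _ => ?_
          ring
      _ ≤ ∑ x ∈ s, ∑ y ∈ U, a x y *
            ((if f y < f x then (f x - f y) ^ 2 else 0) + 4 * t ^ 2 * f x ^ 2) := by
          refine Finset.sum_le_sum fun x _ => Finset.sum_le_sum fun y _ => ?_
          exact mul_le_mul_of_nonneg_left (g2_ptw (hf x) (hf y) ht0) (ha0 x y)
      _ = ∑ x ∈ s, ∑ y ∈ U, a x y * (if f y < f x then (f x - f y) ^ 2 else 0) +
            ∑ x ∈ s, 4 * t ^ 2 * ((∑ y ∈ U, a x y) * f x ^ 2) := by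
          rw [← Finset.sum_add_distrib]
          refine Finset.sum_congr rfl fun x _ => ?_
          rw [Finset.sum_mul, Finset.mul_sum, ← Finset.sum_add_distrib]
          refine Finset.sum_congr rfl fun y _ => ?_
          ring
      _ ≤ S2 + 4 * t ^ 2 * (D * N) := by
          apply add_le_add
          · rw [hS2]
            refine Finset.sum_le_sum_of_subset_of_nonneg hsU fun x _ _ => ?_
            refine Finset.sum_nonneg fun y _ => mul_nonneg (ha0 x y) ?_
            split_ifs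
            · positivity
            · exact le_rfl
          · rw [← Finset.mul_sum]
            refine mul_le_mul_of_nonneg_left ?_ (by positivity)
            rw [hN, Finset.mul_sum]
            refine Finset.sum_le_sum fun x hx => ?_
            refine mul_le_mul_of_nonneg_right ?_ (sq_nonneg _)
            rw [← hdeg x hx]
            exact_mod_cast (hd x).2
  have hS2lb : h ^ 2 / (4 * D) * N ≤ S2 := by
    have e1 : 2 * t * (h * N) = 2 * (h ^ 2 / (4 * D) * N) := by
      rw [ht]; field_simp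
    have e2 : 4 * t ^ 2 * (D * N) = h ^ 2 / (4 * D) * N := by
      rw [ht]; field_simp
    rw [e1, e2] at hmain
    linarith
  have hS1eq : S1 = S2 := by linarith
  -- the form
  have hform : ∑ x ∈ s, ∑ y ∈ s, f x * g2p G D x y * f y = N - (2 * D : ℝ)⁻¹ * S1 := by
    rw [hS1s, hN, Finset.mul_sum, ← Finset.sum_sub_distrib]
    refine Finset.sum_congr rfl fun x hx => ?_
    have e1 : ∑ y ∈ s, f x * g2p G D x y * f y = ∑ y ∈ U, f x * g2p G D x y * f y := by
      refine Finset.sum_subset hsU fun y _ hy => ?_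
      rw [hs y hy]; ring
    have e2 : ∀ y, f x * g2p G D x y * f y =
        (if x = y then f x ^ 2 * (1 - ((G.neighborSet x).ncard : ℝ) * (2 * D : ℝ)⁻¹) else 0) +
          (2 * D : ℝ)⁻¹ * (a x y * (f x * f y)) := by
      intro y
      unfold g2p
      by_cases hxy : x = y
      · subst hxy
        rw [if_pos rfl, if_pos rfl, haxx]; ring
      · rw [if_neg hxy, if_neg hxy]
        simp only [ha]
        split_ifs <;> ring
    rw [e1, Finset.sum_congr rfl fun y _ => e2 y, Finset.sum_add_distrib, Finset.sum_ite_eq,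
      if_pos (hsU hx), hdeg x hx]
    have e3 : ∑ y ∈ U, a x y * (f x ^ 2 - f x * f y) =
        (∑ y ∈ U, a x y) * f x ^ 2 - ∑ y ∈ U, a x y * (f x * f y) := by
      rw [Finset.sum_mul, ← Finset.sum_sub_distrib]
      refine Finset.sum_congr rfl fun y _ => ?_
      ring
    rw [e3, ← Finset.mul_sum]
    ring
  rw [hform, hS1eq]
  have : (2 * D : ℝ)⁻¹ * (h ^ 2 / (4 * D) * N) ≤ (2 * D : ℝ)⁻¹ * S2 := by
    gcongr
  have e4 : (2 * D : ℝ)⁻¹ * (h ^ 2 / (4 * D) * N) = h ^ 2 / (8 * D ^ 2) * N := by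
    field_simp; ring
  rw [e4] at this
  linarith

theorem gk_gap {V : Type} (G : SimpleGraph V) {D : ℕ} (hD : 1 ≤ D)
    (hd : ∀ x, (G.neighborSet x).Finite ∧ (G.neighborSet x).ncard ≤ D) {h : ℝ} (hh : 0 < h)
    (hc : ∀ A : Finset V,
      h * A.card ≤ ({e : V × V | e.1 ∈ A ∧ e.2 ∉ A ∧ G.Adj e.1 e.2}.ncard : ℝ)) :
    ∃ ρ : ℝ≥0∞, ρ ≠ 0 ∧ ρ < 1 ∧ ∀ f : V → ℝ≥0∞,
      ∑' x, ∑' y, f x * gk G D x y * f y ≤ ρ * ∑' x, f x ^ 2 := by
  classical
  have hD1 : (1 : ℝ) ≤ D := by exact_mod_cast hD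
  have hD0 : (0 : ℝ) < D := by linarith
  set h' : ℝ := min h D with hh'
  have hh'0 : 0 < h' := lt_min hh hD0
  have hc' : ∀ A : Finset V,
      h' * A.card ≤ ({e : V × V | e.1 ∈ A ∧ e.2 ∉ A ∧ G.Adj e.1 e.2}.ncard : ℝ) := by
    intro A
    exact (mul_le_mul_of_nonneg_right (min_le_left _ _) (Nat.cast_nonneg _)).trans (hc A)
  set r : ℝ := 1 - h' ^ 2 / (8 * D ^ 2) with hr
  have hr0 : 0 < r := by
    have h1 : h' ^ 2 ≤ D ^ 2 := by
      have : h' ≤ D := min_le_right _ _
      nlinarith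
    have h2 : h' ^ 2 / (8 * D ^ 2) < 1 := by
      rw [div_lt_one (by positivity)]
      nlinarith
    rw [hr]; linarith
  have hr1 : r < 1 := by
    have : 0 < h' ^ 2 / (8 * D ^ 2) := by positivity
    rw [hr]; linarith
  refine ⟨ENNReal.ofReal r, ?_, ?_, ?_⟩
  · exact (ENNReal.ofReal_pos.2 hr0).ne'
  · rw [ENNReal.ofReal_lt_one]; exact hr1
  intro f
  by_cases hft : ∃ x, f x = ⊤
  · obtain ⟨x, hx⟩ := hft
    have : ∑' x, f x ^ 2 = ⊤ := by
      refine ENNReal.tsum_eq_top_of_eq_top ⟨x, ?_⟩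
      rw [hx]; simp
    rw [this, ENNReal.mul_top (ENNReal.ofReal_pos.2 hr0).ne']
    exact le_top
  push Not at hft
  rw [ENNReal.tsum_eq_iSup_sum]
  refine iSup_le fun s => ?_
  set U : Finset V := s ∪ s.biUnion (fun x => (hd x).1.toFinset) with hU
  have hsU : s ⊆ U := Finset.subset_union_left
  have h1 : ∑ x ∈ s, ∑' y, f x * gk G D x y * f y ≤
      ∑ x ∈ U, ∑ y ∈ U, f x * gk G D x y * f y := by
    refine le_trans ?_ (Finset.sum_le_sum_of_subset hsU)
    refine Finset.sum_le_sum fun x hx => ?_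
    refine le_of_eq (tsum_eq_sum fun y hy => ?_)
    have hxy : x ≠ y := fun e => hy (by rw [← e]; exact hsU hx)
    have hadj : ¬ G.Adj x y := by
      intro e
      apply hy
      rw [hU, Finset.mem_union, Finset.mem_biUnion]
      right
      exact ⟨x, hx, by simpa using e⟩
    unfold gk
    rw [if_neg hxy, if_neg hadj]
    simp
  refine h1.trans ?_
  -- real version
  set g : V → ℝ := fun x => if x ∈ U then (f x).toReal else 0 with hg
  have hg0 : ∀ x, 0 ≤ g x := by
    intro x; rw [hg]; dsimp only; split_ifs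
    · exact ENNReal.toReal_nonneg
    · exact le_rfl
  have hgU : ∀ x, x ∉ U → g x = 0 := by
    intro x hx; rw [hg]; simp [hx]
  have hgf : ∀ x ∈ U, f x = ENNReal.ofReal (g x) := by
    intro x hx
    rw [hg]; simp only [hx, if_true]
    rw [ENNReal.ofReal_toReal (hft x)]
  have hreal := g2_real G hD hd hh'0 hc' U g hg0 hgU
  have e1 : ∑ x ∈ U, ∑ y ∈ U, f x * gk G D x y * f y =
      ENNReal.ofReal (∑ x ∈ U, ∑ y ∈ U, g x * g2p G D x y * g y) := by
    have hnn : ∀ x y, 0 ≤ g x * g2p G D x y * g y := fun x y =>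
      mul_nonneg (mul_nonneg (hg0 x) (g2p_nonneg G hD hd x y)) (hg0 y)
    rw [ENNReal.ofReal_sum_of_nonneg fun x _ => Finset.sum_nonneg fun y _ => hnn x y]
    refine Finset.sum_congr rfl fun x hx => ?_
    rw [ENNReal.ofReal_sum_of_nonneg fun y _ => hnn x y]
    refine Finset.sum_congr rfl fun y hy => ?_
    rw [ENNReal.ofReal_mul (mul_nonneg (hg0 x) (g2p_nonneg G hD hd x y)),
      ENNReal.ofReal_mul (hg0 x), ← hgf x hx, ← hgf y hy, ← g2_ofReal G hD x y]
  have e2 : ENNReal.ofReal r * ∑ x ∈ U, f x ^ 2 = ENNReal.ofReal (r * ∑ x ∈ U, g x ^ 2) := by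
    rw [ENNReal.ofReal_mul hr0.le, ENNReal.ofReal_sum_of_nonneg fun x _ => sq_nonneg _]
    congr 1
    refine Finset.sum_congr rfl fun x hx => ?_
    rw [ENNReal.ofReal_pow (hg0 x), ← hgf x hx]
  calc ∑ x ∈ U, ∑ y ∈ U, f x * gk G D x y * f y
      = ENNReal.ofReal (∑ x ∈ U, ∑ y ∈ U, g x * g2p G D x y * g y) := e1
    _ ≤ ENNReal.ofReal (r * ∑ x ∈ U, g x ^ 2) := ENNReal.ofReal_le_ofReal hreal
    _ = ENNReal.ofReal r * ∑ x ∈ U, f x ^ 2 := e2.symm
    _ ≤ ENNReal.ofReal r * ∑' x, f x ^ 2 := by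
        gcongr
        exact ENNReal.sum_le_tsum U

end Pool.Agent.FPP
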