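import Pool.Agent.FPP.Defs
import Pool.Agent.FPP.K1
import Pool.Agent.FPP.K2

open scoped ENNReal BigOperators
open MeasureTheory Filter Topology

namespace Pool.Agent.FPP

/-!
**[FPP-G3] Gap of the powers.**
PROOF. (i) Bilinear bound: `∑' x, ∑' y, f x * P x y * g y ≤ ρ * (∑' f ^ 2 + ∑' g ^ 2) / 2`. For real nonnegative `f, g` with finite support: `4 B(f, g) = B(f + g, f + g) - B(f - g, f - g)` and `- B(u, u) ≤ B(|u|, |u|) ≤ ρ ‖u‖ ^ 2` for `u = f - g`; so `4 B(f, g) ≤ ρ (‖f + g‖ ^ 2 + ‖f - g‖ ^ 2) = 2 ρ (‖f‖ ^ 2 + ‖g‖ ^ 2)`. Values `⊤` make the right side `⊤` (`ρ ≠ 0`), the general case by taking suprema over finite sets. (ii) `T f x = ∑' y, P x y * f y`. `‖T f‖ ^ 2 ≤ ‖f‖ ^ 2` (Jensen: `(T f x) ^ 2 ≤ ∑' y, P x y * f y ^ 2`, sum over `x` with `∑' x, P x y = 1`). If `‖f‖ < ∞`, (i) with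
`g = ρ⁻¹ * T f` gives `ρ⁻¹ ‖T f‖ ^ 2 ≤ ρ ‖f‖ ^ 2 / 2 + ρ⁻¹ ‖T f‖ ^ 2 / 2`, so `‖T f‖ ^ 2 ≤ ρ ^ 2 ‖f‖ ^ 2`. (iii) `∑' y, pw P k x y * f y = T^[k] f x`, `‖T^[k] f‖ ^ 2 ≤ ρ ^ (2 k) ‖f‖ ^ 2`. (iv) `∑' f * T^[k] f ≤ (ρ ^ k * ‖f‖ ^ 2 + (ρ ^ k)⁻¹ * ‖T^[k] f‖ ^ 2) / 2 ≤ ρ ^ k * ‖f‖ ^ 2` (`2 a b ≤ t a ^ 2 + t⁻¹ b ^ 2`). If `∑' f ^ 2 = ⊤` the right side is `⊤`.
-/

theorem g3_sub {a b : ℝ≥0∞} (ha : a ≠ ⊤) (hab : a ≤ b) :
    ∃ e, b = a + e ∧ (a - b) + (b - a) = e := by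
  obtain ⟨e, rfl⟩ := le_iff_exists_add.1 hab
  refine ⟨e, rfl, ?_⟩
  rw [tsub_eq_zero_of_le hab, zero_add, ENNReal.add_sub_cancel_left ha]

theorem g3_sub' {a b : ℝ≥0∞} (hb : b ≠ ⊤) (hab : b ≤ a) :
    ∃ e, a = b + e ∧ (a - b) + (b - a) = e := by
  obtain ⟨e, h1, h2⟩ := g3_sub hb hab
  exact ⟨e, h1, by rw [add_comm]; exact h2⟩

theorem g3_pt (a b c d : ℝ≥0∞) :
    2 * (a * d) + 2 * (b * c) ≤
      (a + b) * (c + d) + ((a - b) + (b - a)) * ((c - d) + (d - c)) := by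
  by_cases hab : a + b = ⊤
  · by_cases hcd : c + d = 0
    · have : c = 0 ∧ d = 0 := by simpa using hcd
      simp [this.1, this.2]
    · rw [hab, ENNReal.top_mul hcd]; simp
  by_cases hcd : c + d = ⊤
  · by_cases hab' : a + b = 0
    · have : a = 0 ∧ b = 0 := by simpa using hab'
      simp [this.1, this.2]
    · rw [hcd, ENNReal.mul_top hab']; simp
  have ha : a ≠ ⊤ := fun h => hab (by rw [h, top_add])
  have hb : b ≠ ⊤ := fun h => hab (by rw [h, add_top])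
  have hc : c ≠ ⊤ := fun h => hcd (by rw [h, top_add])
  have hd : d ≠ ⊤ := fun h => hcd (by rw [h, add_top])
  rcases le_total a b with h1 | h1 <;> rcases le_total c d with h2 | h2
  · obtain ⟨e, he, he'⟩ := g3_sub ha h1
    obtain ⟨g, hg, hg'⟩ := g3_sub hc h2
    rw [he', hg', he, hg]
    have : (a + (a + e)) * (c + (c + g)) + e * g =
        (2 * (a * (c + g)) + 2 * ((a + e) * c)) + 2 * (e * g) := by ring
    rw [this]
    exact le_self_add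
  · obtain ⟨e, he, he'⟩ := g3_sub ha h1
    obtain ⟨g, hg, hg'⟩ := g3_sub' hd h2
    rw [he', hg', he, hg]
    apply le_of_eq
    ring
  · obtain ⟨e, he, he'⟩ := g3_sub' hb h1
    obtain ⟨g, hg, hg'⟩ := g3_sub hc h2
    rw [he', hg', he, hg]
    apply le_of_eq
    ring
  · obtain ⟨e, he, he'⟩ := g3_sub' hb h1
    obtain ⟨g, hg, hg'⟩ := g3_sub' hd h2
    rw [he', hg', he, hg]
    have : (b + e + b) * (d + g + d) + e * g =
        (2 * ((b + e) * d) + 2 * (b * (d + g))) + 2 * (e * g) := by ring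
    rw [this]
    exact le_self_add

theorem g3_sq (a b : ℝ≥0∞) :
    (a + b) ^ 2 + ((a - b) + (b - a)) ^ 2 ≤ 2 * (a ^ 2 + b ^ 2) := by
  by_cases ha : a = ⊤
  · subst ha; simp
  by_cases hb : b = ⊤
  · subst hb; simp
  rcases le_total a b with h1 | h1
  · obtain ⟨e, he, he'⟩ := g3_sub ha h1
    rw [he', he]
    apply le_of_eq
    ring
  · obtain ⟨e, he, he'⟩ := g3_sub' hb h1
    rw [he', he]
    apply le_of_eq
    ring

theorem g3_bil {Ω : Type} {P : Ω → Ω → ℝ≥0∞} (hs : ∀ x y, P x y = P y x) {ρ : ℝ≥0∞}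
    (h : ∀ f : Ω → ℝ≥0∞, ∑' x, ∑' y, f x * P x y * f y ≤ ρ * ∑' x, f x ^ 2)
    (f g : Ω → ℝ≥0∞) :
    2 * ∑' x, ∑' y, f x * P x y * g y ≤ ρ * (∑' x, f x ^ 2 + ∑' x, g x ^ 2) := by
  have hsym : ∑' x, ∑' y, g x * P x y * f y = ∑' x, ∑' y, f x * P x y * g y := by
    rw [ENNReal.tsum_comm]
    refine tsum_congr fun x => tsum_congr fun y => ?_
    rw [hs y x]; ring
  have h4 : 2 * (2 * ∑' x, ∑' y, f x * P x y * g y) ≤
      2 * (ρ * (∑' x, f x ^ 2 + ∑' x, g x ^ 2)) := by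
    calc 2 * (2 * ∑' x, ∑' y, f x * P x y * g y)
        = 2 * ∑' x, ∑' y, f x * P x y * g y + 2 * ∑' x, ∑' y, g x * P x y * f y := by
          rw [hsym]; ring
      _ = ∑' x, ∑' y, (2 * (f x * g y) + 2 * (g x * f y)) * P x y := by
          rw [← ENNReal.tsum_mul_left, ← ENNReal.tsum_mul_left, ← ENNReal.tsum_add]
          refine tsum_congr fun x => ?_
          rw [← ENNReal.tsum_mul_left, ← ENNReal.tsum_mul_left, ← ENNReal.tsum_add]
          refine tsum_congr fun y => ?_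
          ring
      _ ≤ ∑' x, ∑' y, ((f x + g x) * P x y * (f y + g y) +
            ((f x - g x) + (g x - f x)) * P x y * ((f y - g y) + (g y - f y))) := by
          refine ENNReal.tsum_le_tsum fun x => ENNReal.tsum_le_tsum fun y => ?_
          calc (2 * (f x * g y) + 2 * (g x * f y)) * P x y
              ≤ ((f x + g x) * (f y + g y) +
                ((f x - g x) + (g x - f x)) * ((f y - g y) + (g y - f y))) * P x y :=
                mul_le_mul' (g3_pt (f x) (g x) (f y) (g y)) le_rfl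
            _ = _ := by ring
      _ = ∑' x, ∑' y, (f x + g x) * P x y * (f y + g y) +
            ∑' x, ∑' y, ((f x - g x) + (g x - f x)) * P x y * ((f y - g y) + (g y - f y)) := by
          rw [← ENNReal.tsum_add]
          refine tsum_congr fun x => ?_
          rw [← ENNReal.tsum_add]
      _ ≤ ρ * ∑' x, (f x + g x) ^ 2 + ρ * ∑' x, ((f x - g x) + (g x - f x)) ^ 2 :=
          add_le_add (h fun x => f x + g x) (h fun x => (f x - g x) + (g x - f x))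
      _ = ρ * ∑' x, ((f x + g x) ^ 2 + ((f x - g x) + (g x - f x)) ^ 2) := by
          rw [ENNReal.tsum_add, mul_add]
      _ ≤ ρ * ∑' x, 2 * (f x ^ 2 + g x ^ 2) := by
          gcongr with x
          exact g3_sq (f x) (g x)
      _ = 2 * (ρ * (∑' x, f x ^ 2 + ∑' x, g x ^ 2)) := by
          rw [ENNReal.tsum_mul_left, ENNReal.tsum_add]; ring
  exact (ENNReal.mul_le_mul_iff_right two_ne_zero ENNReal.ofNat_ne_top).1 h4

/-- `2 ∑ f g ≤ ∑ f² + ∑ g²` -/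
theorem g3_am {Ω : Type} (f g : Ω → ℝ≥0∞) :
    2 * ∑' x, f x * g x ≤ ∑' x, f x ^ 2 + ∑' x, g x ^ 2 := by
  rw [← ENNReal.tsum_mul_left, ← ENNReal.tsum_add]
  refine ENNReal.tsum_le_tsum fun x => ?_
  by_cases ha : f x = ⊤
  · rw [ha]; simp
  by_cases hb : g x = ⊤
  · rw [hb]; simp
  rcases le_total (f x) (g x) with h1 | h1
  · obtain ⟨e, he, -⟩ := g3_sub ha h1
    rw [he]
    have : f x ^ 2 + (f x + e) ^ 2 = 2 * (f x * (f x + e)) + e ^ 2 := by ring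
    rw [this]; exact le_self_add
  · obtain ⟨e, he, -⟩ := g3_sub hb h1
    rw [he]
    have : (g x + e) ^ 2 + g x ^ 2 = 2 * ((g x + e) * g x) + e ^ 2 := by ring
    rw [this]; exact le_self_add

/-- the operator norm bound -/
theorem g3_op {Ω : Type} {P : Ω → Ω → ℝ≥0∞} (hs : ∀ x y, P x y = P y x)
    (h1 : ∀ x, ∑' y, P x y = 1) {ρ : ℝ≥0∞} (hρ0 : ρ ≠ 0) (hρ1 : ρ < 1)
    (h : ∀ f : Ω → ℝ≥0∞, ∑' x, ∑' y, f x * P x y * f y ≤ ρ * ∑' x, f x ^ 2)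
    (f : Ω → ℝ≥0∞) (hf : ∑' x, f x ^ 2 ≠ ⊤) :
    ∑' x, (∑' y, P x y * f y) ^ 2 ≤ ρ ^ 2 * ∑' x, f x ^ 2 := by
  have hρt : ρ ≠ ⊤ := (hρ1.trans ENNReal.one_lt_top).ne
  -- values are finite
  have hfb : ∀ y, f y ≤ ∑' x, f x ^ 2 + 1 := by
    intro y
    rcases le_total (f y) 1 with h2 | h2
    · exact h2.trans le_add_self
    · calc f y = f y * 1 := (mul_one _).symm
        _ ≤ f y * f y := by gcongr
        _ = f y ^ 2 := (sq _).symm
        _ ≤ ∑' x, f x ^ 2 := ENNReal.le_tsum y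
        _ ≤ _ := le_self_add
  have hT : ∀ x, ∑' y, P x y * f y ≠ ⊤ := by
    intro x
    have : ∑' y, P x y * f y ≤ ∑' x, f x ^ 2 + 1 := by
      calc ∑' y, P x y * f y ≤ ∑' y, P x y * (∑' x, f x ^ 2 + 1) := by
            gcongr with y
            exact hfb y
        _ = ∑' x, f x ^ 2 + 1 := by rw [ENNReal.tsum_mul_right, h1, one_mul]
    exact (this.trans_lt (ENNReal.add_lt_top.2 ⟨hf.lt_top, ENNReal.one_lt_top⟩)).ne
  rw [ENNReal.tsum_eq_iSup_sum]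
  refine iSup_le fun s => ?_
  classical
  set g : Ω → ℝ≥0∞ := fun x => if x ∈ s then ∑' y, P x y * f y else 0 with hg
  have hgs : ∑' x, g x ^ 2 = ∑ x ∈ s, (∑' y, P x y * f y) ^ 2 := by
    rw [tsum_eq_sum (s := s)]
    · refine Finset.sum_congr rfl fun x hx => ?_
      rw [hg]; simp [hx]
    · intro x hx
      rw [hg]; simp [hx]
  rw [← hgs]
  have hgt : ∑' x, g x ^ 2 ≠ ⊤ := by
    rw [hgs]
    exact (ENNReal.sum_lt_top.2 fun x _ => ENNReal.pow_lt_top (hT x).lt_top).ne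
  have hgB : ∑' x, g x ^ 2 = ∑' x, ∑' y, g x * P x y * f y := by
    refine tsum_congr fun x => ?_
    have : ∑' y, g x * P x y * f y = g x * ∑' y, P x y * f y := by
      rw [← ENNReal.tsum_mul_left]
      refine tsum_congr fun y => by ring
    rw [this]
    by_cases hx : x ∈ s
    · rw [hg]; simp only [hx, if_true]; ring
    · rw [hg]; simp [hx]
  have key := g3_bil hs h (fun x => ρ⁻¹ * g x) f
  have e1 : ∑' x, ∑' y, ρ⁻¹ * g x * P x y * f y = ρ⁻¹ * ∑' x, g x ^ 2 := by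
    rw [hgB, ← ENNReal.tsum_mul_left]
    refine tsum_congr fun x => ?_
    rw [← ENNReal.tsum_mul_left]
    refine tsum_congr fun y => by ring
  have e2 : ∑' x, (ρ⁻¹ * g x) ^ 2 = ρ⁻¹ ^ 2 * ∑' x, g x ^ 2 := by
    rw [← ENNReal.tsum_mul_left]
    refine tsum_congr fun x => by ring
  simp only [e1, e2] at key
  have hinv : ρ * ρ⁻¹ = 1 := ENNReal.mul_inv_cancel hρ0 hρt
  have hit : ρ⁻¹ ≠ ⊤ := ENNReal.inv_ne_top.2 hρ0
  have k2 : ρ⁻¹ * ∑' x, g x ^ 2 + ρ⁻¹ * ∑' x, g x ^ 2 ≤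
      ρ⁻¹ * ∑' x, g x ^ 2 + ρ * ∑' x, f x ^ 2 := by
    calc ρ⁻¹ * ∑' x, g x ^ 2 + ρ⁻¹ * ∑' x, g x ^ 2 = 2 * (ρ⁻¹ * ∑' x, g x ^ 2) := by ring
      _ ≤ ρ * (ρ⁻¹ ^ 2 * ∑' x, g x ^ 2 + ∑' x, f x ^ 2) := key
      _ = (ρ * ρ⁻¹) * (ρ⁻¹ * ∑' x, g x ^ 2) + ρ * ∑' x, f x ^ 2 := by ring
      _ = _ := by rw [hinv, one_mul]
  have k3 : ρ⁻¹ * ∑' x, g x ^ 2 ≤ ρ * ∑' x, f x ^ 2 :=
    (ENNReal.add_le_add_iff_left (ENNReal.mul_ne_top hit hgt)).1 k2
  calc ∑' x, g x ^ 2 = ρ * (ρ⁻¹ * ∑' x, g x ^ 2) := by rw [← mul_assoc, hinv, one_mul]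
    _ ≤ ρ * (ρ * ∑' x, f x ^ 2) := by gcongr
    _ = _ := by ring

theorem gap_pow {Ω : Type} {P : Ω → Ω → ℝ≥0∞} (hs : ∀ x y, P x y = P y x)
    (h1 : ∀ x, ∑' y, P x y = 1) {ρ : ℝ≥0∞} (hρ0 : ρ ≠ 0) (hρ1 : ρ < 1)
    (h : ∀ f : Ω → ℝ≥0∞, ∑' x, ∑' y, f x * P x y * f y ≤ ρ * ∑' x, f x ^ 2) (k : ℕ)
    (f : Ω → ℝ≥0∞) : ∑' x, ∑' y, f x * pw P k x y * f y ≤ ρ ^ k * ∑' x, f x ^ 2 := by
  have hρt : ρ ≠ ⊤ := (hρ1.trans ENNReal.one_lt_top).ne
  by_cases hf : ∑' x, f x ^ 2 = ⊤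
  · rw [hf, ENNReal.mul_top (pow_ne_zero k hρ0)]; exact le_top
  have hk : ∀ k : ℕ, ∑' x, (∑' y, pw P k x y * f y) ^ 2 ≤ (ρ ^ k) ^ 2 * ∑' x, f x ^ 2 := by
    intro k
    induction k with
    | zero =>
      have : ∀ x, ∑' y, pw P 0 x y * f y = f x := by
        intro x
        rw [tsum_eq_single x]
        · simp [pw, oneK]
        · intro y hy
          simp [pw, oneK, hy.symm]
      simp only [this]
      simp
    | succ k ih =>
      have hfin : ∑' x, (∑' y, pw P k x y * f y) ^ 2 ≠ ⊤ :=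
        (ih.trans_lt (ENNReal.mul_lt_top (ENNReal.pow_lt_top (ENNReal.pow_lt_top hρt.lt_top))
          (lt_top_iff_ne_top.2 hf))).ne
      have e : ∀ x, ∑' y, pw P (k + 1) x y * f y = ∑' z, P x z * ∑' y, pw P k z y * f y := by
        intro x
        show ∑' y, mulK P (pw P k) x y * f y = _
        unfold mulK
        calc ∑' y, (∑' z, P x z * pw P k z y) * f y
            = ∑' y, ∑' z, P x z * pw P k z y * f y := by
              refine tsum_congr fun y => ?_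
              rw [ENNReal.tsum_mul_right]
          _ = ∑' z, ∑' y, P x z * pw P k z y * f y := ENNReal.tsum_comm
          _ = _ := by
              refine tsum_congr fun z => ?_
              rw [← ENNReal.tsum_mul_left]
              refine tsum_congr fun y => by ring
      calc ∑' x, (∑' y, pw P (k + 1) x y * f y) ^ 2
          = ∑' x, (∑' z, P x z * ∑' y, pw P k z y * f y) ^ 2 := by
            refine tsum_congr fun x => by rw [e x]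
        _ ≤ ρ ^ 2 * ∑' x, (∑' y, pw P k x y * f y) ^ 2 := g3_op hs h1 hρ0 hρ1 h _ hfin
        _ ≤ ρ ^ 2 * ((ρ ^ k) ^ 2 * ∑' x, f x ^ 2) := by gcongr
        _ = _ := by ring
  have hpt : ρ ^ k ≠ ⊤ := ENNReal.pow_ne_top hρt
  have hp0 : ρ ^ k ≠ 0 := pow_ne_zero k hρ0
  have e1 : ∑' x, ∑' y, f x * pw P k x y * f y = ∑' x, f x * ∑' y, pw P k x y * f y := by
    refine tsum_congr fun x => ?_
    rw [← ENNReal.tsum_mul_left]
    refine tsum_congr fun y => by ring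
  rw [e1]
  have key := g3_am (fun x => ρ ^ k * f x) (fun x => ∑' y, pw P k x y * f y)
  have e2 : ∑' x, ρ ^ k * f x * ∑' y, pw P k x y * f y =
      ρ ^ k * ∑' x, f x * ∑' y, pw P k x y * f y := by
    rw [← ENNReal.tsum_mul_left]
    refine tsum_congr fun x => by ring
  have e3 : ∑' x, (ρ ^ k * f x) ^ 2 = (ρ ^ k) ^ 2 * ∑' x, f x ^ 2 := by
    rw [← ENNReal.tsum_mul_left]
    refine tsum_congr fun x => by ring
  simp only [e2, e3] at key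
  have k2 : 2 * (ρ ^ k * ∑' x, f x * ∑' y, pw P k x y * f y) ≤
      2 * (ρ ^ k * (ρ ^ k * ∑' x, f x ^ 2)) := by
    calc 2 * (ρ ^ k * ∑' x, f x * ∑' y, pw P k x y * f y)
        ≤ (ρ ^ k) ^ 2 * ∑' x, f x ^ 2 + ∑' x, (∑' y, pw P k x y * f y) ^ 2 := key
      _ ≤ (ρ ^ k) ^ 2 * ∑' x, f x ^ 2 + (ρ ^ k) ^ 2 * ∑' x, f x ^ 2 := by
          gcongr
          exact hk k
      _ = _ := by ring
  have k3 := (ENNReal.mul_le_mul_iff_right two_ne_zero ENNReal.ofNat_ne_top).1 k2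
  exact (ENNReal.mul_le_mul_iff_right hp0 hpt).1 k3

end Pool.Agent.FPP
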