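import Pool.Agent.FPP.Defs
import Pool.Agent.FPP.GDefs
import Pool.Agent.FPP.G1
import Pool.Agent.FPP.G2
import Pool.Agent.FPP.G3

open scoped ENNReal BigOperators
open MeasureTheory Filter Topology

namespace Pool.Agent.FPP

/-!
**[FPP-G4] Kernels of nonamenable graphs.**
PROOF. Take `D ≥ 1` bounding all degrees (`max D 1`), `P = gk G D`, `κ = (2 D)⁻¹`, `ρ` from `gk_gap`; the fields of `IsKern` are G1, `gk_gap`, `gap_pow`. (`κ ≤ 1`, `κ ≠ 0`.) `infinite_vertices`: if `V` were finite take `A = univ`: `h * card V ≤ 0`, so `V` is empty, against connectedness.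
-/

theorem kern_of_graph {Γ : Type} [Group Γ] {V : Type} [MulAction Γ V] (G : SimpleGraph V)
    (hG : NonamGraph G) (ha : ∀ (g : Γ) (x y : V), G.Adj (g • x) (g • y) ↔ G.Adj x y) :
    ∃ (P : V → V → ℝ≥0∞) (κ ρ : ℝ≥0∞), IsKern Γ P κ ρ := by
  obtain ⟨D₀, hD₀⟩ := hG.deg
  obtain ⟨h, hh, hc⟩ := hG.cheeger
  set D : ℕ := max D₀ 1 with hD
  have hD1 : 1 ≤ D := le_max_right _ _
  have hd : ∀ x, (G.neighborSet x).Finite ∧ (G.neighborSet x).ncard ≤ D := fun x =>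
    ⟨(hD₀ x).1, (hD₀ x).2.trans (le_max_left _ _)⟩
  obtain ⟨ρ, hρ0, hρ1, hρ⟩ := gk_gap G hD1 hd hh hc
  have h2D : (1 : ℝ≥0∞) ≤ 2 * D := by
    have : (1 : ℝ≥0∞) ≤ (D : ℝ≥0∞) := by exact_mod_cast hD1
    calc (1 : ℝ≥0∞) = 1 * 1 := by ring
      _ ≤ 2 * D := by
        gcongr
        norm_num
  refine ⟨gk G D, (2 * D : ℝ≥0∞)⁻¹, ρ, ?_⟩
  refine ⟨gk_symm G D, gk_inv G D ha, gk_sum G hD1 hd, gk_fin G D hd, ?_, ?_,
    gk_low G hD1 hd, gk_lazy G hD1 hd, gk_conn G hD1 hd hG.conn, hρ1,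
    fun k f => gap_pow (gk_symm G D) (gk_sum G hD1 hd) hρ0 hρ1 hρ k f⟩
  · rw [Ne, ENNReal.inv_eq_zero]
    exact ENNReal.mul_ne_top (by norm_num) (ENNReal.natCast_ne_top D)
  · exact ENNReal.inv_le_one.2 h2D

theorem infinite_vertices {V : Type} (G : SimpleGraph V) (hG : NonamGraph G) : Infinite V := by
  obtain ⟨h, hh, hc⟩ := hG.cheeger
  by_contra hinf
  rw [not_infinite_iff_finite] at hinf
  have := Fintype.ofFinite V
  have := hG.conn.nonempty
  have h1 := hc Finset.univ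
  have h2 : {e : V × V | e.1 ∈ (Finset.univ : Finset V) ∧ e.2 ∉ (Finset.univ : Finset V) ∧
      G.Adj e.1 e.2} = ∅ := by
    ext e
    simp
  rw [h2, Set.ncard_empty] at h1
  have h3 : (0 : ℝ) < (Finset.univ : Finset V).card := by
    exact_mod_cast Finset.card_pos.2 Finset.univ_nonempty
  have h4 : 0 < h * ((Finset.univ : Finset V).card : ℝ) := mul_pos hh h3
  push_cast at h1
  linarith

end Pool.Agent.FPP
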