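import Pool.Agent.FPP.Defs
import Pool.Agent.FPP.K1
import Pool.Agent.FPP.K2
import Pool.Agent.FPP.K4

open scoped ENNReal BigOperators
open MeasureTheory Filter Topology

namespace Pool.Agent.FPP

/-!
**[FPP-I1] Lower bound for the total rate.**
PROOF. For an invariant symmetric stochastic kernel `Q` on `Ω = Ω₁ × Ω₂` (here `Q = pw P₁ k ⊗ pw P₂ l`): `1 ≤ W * ∑' γ : Γ, (mulK Q Q) o (γ • o)`. Indeed put `N x = ∑' γ : Γ, Q x (γ • o)`; `N` is invariant (reindex), and `N x = ∑' γ, Q o (γ • x)` (symmetry, invariance, `γ ↦ γ⁻¹`). (i) `∑' γ, mulK Q Q o (γ • o) = ∑' x, Q o x * N x`. (ii) For any `u : Ω → ℝ≥0∞` and invariant `N`: `∑' x, u x * N x = ∑' x, u x * N x * ∑' γ, φ (γ • x) = ∑' x, φ x * N x * ∑' γ, u (γ⁻¹ • x)`. With `u = Q o`: `= ∑' x, φ x * N x * N x`; with `u = Q o` and `N` replaced by `1`: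
`1 = ∑' x, Q o x = ∑' x, φ x * N x`. (iii) Cauchy-Schwarz: `1 = (∑' x, φ x * N x) ^ 2 ≤ (∑' x, φ x) * (∑' x, φ x * N x ^ 2)` (`ENNReal.inner_le_Lp_mul_Lq_tsum`-like; or elementary: `2 N ≤ t N ^ 2 + 1 / t` with `t = W`: `2 * 1 ≤ W * S + 1 / W * W`, so `1 ≤ W * S`, where `S = ∑' φ N²`, using `0 < W < ⊤`). Now `g2 P₁ P₂ lam o z ≥ ∑' k, ∑' l, (1 - lam)² lam ^ (2 k + 2 l) * pw P₁ (2 k) o.1 z.1 * pw P₂ (2 l) o.2 z.2` and `pw P (2 k) = mulK (pw P k) (pw P k)`, so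
`W * ∑' γ, g2 o (γ • o) ≥ ∑' k, ∑' l, (1 - lam)² lam ^ (2 (k + l)) = ((1 - lam) / (1 - lam²))² = (1 + lam)⁻² ≥ 1/4`.
-/

private theorem two_mul_le_i1 {W N : ℝ≥0∞} (h0 : W ≠ 0) (ht : W ≠ ⊤) :
    2 * N ≤ W * N ^ 2 + W⁻¹ := by
  by_cases hN : N = ⊤
  · subst hN
    have h3 : W * (⊤ : ℝ≥0∞) ^ 2 = ⊤ := by
      rw [ENNReal.top_pow (by norm_num), ENNReal.mul_top h0]
    rw [h3, top_add]
    exact le_top
  · lift N to NNReal using hN
    lift W to NNReal using ht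
    have h0' : W ≠ 0 := by
      rintro rfl
      exact h0 rfl
    rw [← ENNReal.coe_inv h0']
    norm_cast
    rw [← NNReal.coe_le_coe]
    push_cast
    have hw : (0:ℝ) < W := lt_of_le_of_ne W.2 (fun h => h0' (NNReal.coe_eq_zero.1 h.symm))
    have h4 : (W:ℝ) * (N:ℝ) ^ 2 + (W:ℝ)⁻¹ - 2 * N = (W:ℝ)⁻¹ * ((W:ℝ) * N - 1) ^ 2 := by
      field_simp
      ring
    have h5 : 0 ≤ (W:ℝ)⁻¹ * ((W:ℝ) * N - 1) ^ 2 := mul_nonneg (inv_nonneg.2 hw.le) (sq_nonneg _)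
    linarith

private theorem unfold_i1 {Γ Ω : Type} [Group Γ] [MulAction Γ Ω] {φ : Ω → ℝ≥0∞}
    (hφ : IsWt Γ φ) (u N : Ω → ℝ≥0∞) (hN : ∀ (g : Γ) (x : Ω), N (g • x) = N x) :
    ∑' x, u x * N x = ∑' x, φ x * N x * ∑' γ : Γ, u (γ⁻¹ • x) := by
  calc ∑' x, u x * N x = ∑' x, ∑' γ : Γ, u x * N x * φ (γ • x) := by
        refine tsum_congr fun x => ?_
        rw [ENNReal.tsum_mul_left, hφ.one x, mul_one]
    _ = ∑' γ : Γ, ∑' x, u x * N x * φ (γ • x) := ENNReal.tsum_comm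
    _ = ∑' γ : Γ, ∑' x, φ x * N x * u (γ⁻¹ • x) := by
        refine tsum_congr fun γ => ?_
        rw [← (MulAction.toPerm γ).tsum_eq (fun x => φ x * N x * u (γ⁻¹ • x))]
        refine tsum_congr fun x => ?_
        rw [MulAction.toPerm_apply, inv_smul_smul, hN]
        ring
    _ = ∑' x, ∑' γ : Γ, φ x * N x * u (γ⁻¹ • x) := ENNReal.tsum_comm
    _ = ∑' x, φ x * N x * ∑' γ : Γ, u (γ⁻¹ • x) := by
        refine tsum_congr fun x => ?_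
        rw [ENNReal.tsum_mul_left]

private theorem kernel_i1 {Γ Ω : Type} [Group Γ] [MulAction Γ Ω] {φ : Ω → ℝ≥0∞}
    (hφ : IsWt Γ φ) (Q : Ω → Ω → ℝ≥0∞) (hs : ∀ x y, Q x y = Q y x)
    (hi : ∀ (g : Γ) (x y : Ω), Q (g • x) (g • y) = Q x y) (h1 : ∀ x, ∑' y, Q x y = 1) (o : Ω) :
    1 ≤ (∑' ω, φ ω) * ∑' γ : Γ, mulK Q Q o (γ • o) := by
  have hW0 : (∑' ω, φ ω) ≠ 0 := by
    intro h
    rw [ENNReal.tsum_eq_zero] at h
    have h3 := hφ.one o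
    simp [h] at h3
  set N : Ω → ℝ≥0∞ := fun x => ∑' γ : Γ, Q x (γ • o) with hNdef
  have hN : ∀ (g : Γ) (x : Ω), N (g • x) = N x := by
    intro g x
    change ∑' γ : Γ, Q (g • x) (γ • o) = ∑' γ : Γ, Q x (γ • o)
    rw [← (Equiv.mulLeft g).tsum_eq (fun γ : Γ => Q (g • x) (γ • o))]
    refine tsum_congr fun γ => ?_
    rw [Equiv.coe_mulLeft, mul_smul, hi]
  have hN2 : ∀ x : Ω, ∑' γ : Γ, Q o (γ⁻¹ • x) = N x := by
    intro x
    refine tsum_congr fun γ => ?_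
    rw [← hi γ, smul_inv_smul, hs]
  have e1 : ∑' γ : Γ, mulK Q Q o (γ • o) = ∑' x, Q o x * N x := by
    unfold mulK
    rw [ENNReal.tsum_comm]
    refine tsum_congr fun x => ?_
    rw [ENNReal.tsum_mul_left]
  have e2 : ∑' x, Q o x * N x = ∑' x, φ x * N x * N x := by
    rw [unfold_i1 hφ (Q o) N hN]
    refine tsum_congr fun x => ?_
    rw [hN2]
  have e3 : (1 : ℝ≥0∞) = ∑' x, φ x * N x := by
    have h3 := unfold_i1 hφ (Q o) (fun _ => 1) (fun _ _ => rfl)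
    simp only [mul_one] at h3
    rw [h1] at h3
    rw [h3]
    refine tsum_congr fun x => ?_
    rw [hN2]
  set W : ℝ≥0∞ := ∑' ω, φ ω with hW
  set S : ℝ≥0∞ := ∑' x, φ x * N x * N x with hS
  have e4 : (2 : ℝ≥0∞) ≤ W * S + 1 := by
    calc (2 : ℝ≥0∞) = 2 * ∑' x, φ x * N x := by rw [← e3, mul_one]
      _ = ∑' x, φ x * (2 * N x) := by
          rw [← ENNReal.tsum_mul_left]
          refine tsum_congr fun x => ?_
          ring
      _ ≤ ∑' x, φ x * (W * N x ^ 2 + W⁻¹) :=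
          ENNReal.tsum_le_tsum fun x => mul_le_mul_right (two_mul_le_i1 hW0 hφ.fin) _
      _ = ∑' x, (W * (φ x * N x * N x) + W⁻¹ * φ x) := by
          refine tsum_congr fun x => ?_
          ring
      _ = W * S + W⁻¹ * W := by
          rw [ENNReal.tsum_add, ENNReal.tsum_mul_left, ENNReal.tsum_mul_left]
      _ = W * S + 1 := by rw [ENNReal.inv_mul_cancel hW0 hφ.fin]
  rw [e1, e2]
  have e5 : (1 : ℝ≥0∞) + 1 ≤ W * S + 1 := by
    have : (1 : ℝ≥0∞) + 1 = 2 := by norm_num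
    rw [this]
    exact e4
  exact (ENNReal.add_le_add_iff_right ENNReal.one_ne_top).1 e5

private theorem half_i1 {lam : ℝ≥0∞} (h : lam < 1) :
    1 ≤ 2 * ∑' k : ℕ, (1 - lam) * lam ^ (2 * k) := by
  have h1 := geo_sum h
  rw [← tsum_even_add_odd (f := fun k : ℕ => (1 - lam) * lam ^ k) ENNReal.summable
    ENNReal.summable] at h1
  refine h1.symm.le.trans ?_
  rw [two_mul]
  refine add_le_add le_rfl ?_
  refine ENNReal.tsum_le_tsum fun k => ?_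
  rw [pow_succ]
  calc (1 - lam) * (lam ^ (2 * k) * lam) ≤ (1 - lam) * (lam ^ (2 * k) * 1) := by
        gcongr
    _ = (1 - lam) * lam ^ (2 * k) := by rw [mul_one]

private theorem gg_ge_i1 {Ω : Type} (P : Ω → Ω → ℝ≥0∞) (lam : ℝ≥0∞) (x y : Ω) :
    ∑' k : ℕ, (1 - lam) * lam ^ (2 * k) * mulK (pw P k) (pw P k) x y ≤ gg P lam x y := by
  unfold gg
  have hinj : Function.Injective (fun k : ℕ => 2 * k) := by
    intro a b hab
    have : 2 * a = 2 * b := hab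
    omega
  refine le_trans (le_of_eq ?_) (ENNReal.tsum_comp_le_tsum_of_injective hinj
    (fun k : ℕ => (1 - lam) * lam ^ k * pw P k x y))
  refine tsum_congr fun k => ?_
  rw [two_mul k, pw_add]

theorem rate_lower {Γ : Type} [Group Γ] {Ω₁ Ω₂ : Type} [MulAction Γ Ω₁] [MulAction Γ Ω₂]
    {P₁ : Ω₁ → Ω₁ → ℝ≥0∞} {P₂ : Ω₂ → Ω₂ → ℝ≥0∞} {κ₁ ρ₁ κ₂ ρ₂ : ℝ≥0∞} (hK₁ : IsKern Γ P₁ κ₁ ρ₁)
    (hK₂ : IsKern Γ P₂ κ₂ ρ₂) {φ : Ω₁ × Ω₂ → ℝ≥0∞} (hφ : IsWt Γ φ) {lam : ℝ≥0∞}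
    (h2 : lam < 1) (o : Ω₁ × Ω₂) :
    1 ≤ 4 * (∑' ω, φ ω) * ∑' γ : Γ, g2 P₁ P₂ lam o (γ • o) := by
  set Q : ℕ → ℕ → Ω₁ × Ω₂ → Ω₁ × Ω₂ → ℝ≥0∞ :=
    fun k l ω ω' => pw P₁ k ω.1 ω'.1 * pw P₂ l ω.2 ω'.2 with hQ
  have hQk : ∀ k l, 1 ≤ (∑' ω, φ ω) * ∑' γ : Γ, mulK (Q k l) (Q k l) o (γ • o) := by
    intro k l
    refine kernel_i1 hφ (Q k l) ?_ ?_ ?_ o
    · intro x y
      change pw P₁ k x.1 y.1 * pw P₂ l x.2 y.2 = pw P₁ k y.1 x.1 * pw P₂ l y.2 x.2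
      rw [pw_symm hK₁.symm, pw_symm hK₂.symm]
    · intro g x y
      change pw P₁ k (g • x.1) (g • y.1) * pw P₂ l (g • x.2) (g • y.2) =
        pw P₁ k x.1 y.1 * pw P₂ l x.2 y.2
      rw [pw_inv hK₁.inv, pw_inv hK₂.inv]
    · intro x
      change ∑' y : Ω₁ × Ω₂, pw P₁ k x.1 y.1 * pw P₂ l x.2 y.2 = 1
      rw [ENNReal.tsum_prod']
      calc ∑' (a : Ω₁) (b : Ω₂), pw P₁ k x.1 a * pw P₂ l x.2 b = ∑' a : Ω₁, pw P₁ k x.1 a := by
            refine tsum_congr fun a => ?_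
            rw [ENNReal.tsum_mul_left, pw_sum hK₂.sum_one, mul_one]
        _ = 1 := pw_sum hK₁.sum_one k x.1
  have hQm : ∀ k l (z : Ω₁ × Ω₂), mulK (Q k l) (Q k l) o z =
      mulK (pw P₁ k) (pw P₁ k) o.1 z.1 * mulK (pw P₂ l) (pw P₂ l) o.2 z.2 := by
    intro k l z
    unfold mulK
    rw [ENNReal.tsum_prod', ← ENNReal.tsum_mul_right]
    refine tsum_congr fun a => ?_
    rw [← ENNReal.tsum_mul_left]
    refine tsum_congr fun b => ?_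
    change pw P₁ k o.1 a * pw P₂ l o.2 b * (pw P₁ k a z.1 * pw P₂ l b z.2) = _
    ring
  set G : ℝ≥0∞ := ∑' k : ℕ, (1 - lam) * lam ^ (2 * k) with hG
  have hg2 : ∀ z : Ω₁ × Ω₂, ∑' (k : ℕ) (l : ℕ), (1 - lam) * lam ^ (2 * k) *
      ((1 - lam) * lam ^ (2 * l)) * mulK (Q k l) (Q k l) o z ≤ g2 P₁ P₂ lam o z := by
    intro z
    unfold g2
    refine le_trans (le_of_eq ?_) (mul_le_mul' (gg_ge_i1 P₁ lam o.1 z.1)
      (gg_ge_i1 P₂ lam o.2 z.2))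
    rw [← ENNReal.tsum_mul_right]
    refine tsum_congr fun k => ?_
    rw [← ENNReal.tsum_mul_left]
    refine tsum_congr fun l => ?_
    rw [hQm]
    ring
  have hmain : G * G ≤ (∑' ω, φ ω) * ∑' γ : Γ, g2 P₁ P₂ lam o (γ • o) := by
    calc G * G = ∑' (k : ℕ) (l : ℕ), (1 - lam) * lam ^ (2 * k) *
          ((1 - lam) * lam ^ (2 * l)) := by
          rw [hG, ← ENNReal.tsum_mul_right]
          refine tsum_congr fun k => ?_
          rw [← ENNReal.tsum_mul_left]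
      _ ≤ ∑' (k : ℕ) (l : ℕ), (1 - lam) * lam ^ (2 * k) * ((1 - lam) * lam ^ (2 * l)) *
          ((∑' ω, φ ω) * ∑' γ : Γ, mulK (Q k l) (Q k l) o (γ • o)) := by
          refine ENNReal.tsum_le_tsum fun k => ENNReal.tsum_le_tsum fun l => ?_
          calc (1 - lam) * lam ^ (2 * k) * ((1 - lam) * lam ^ (2 * l))
              = (1 - lam) * lam ^ (2 * k) * ((1 - lam) * lam ^ (2 * l)) * 1 := by
                rw [mul_one]
            _ ≤ _ := mul_le_mul_right (hQk k l) _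
      _ = ∑' (k : ℕ) (l : ℕ), (∑' ω, φ ω) * ∑' γ : Γ, (1 - lam) * lam ^ (2 * k) *
          ((1 - lam) * lam ^ (2 * l)) * mulK (Q k l) (Q k l) o (γ • o) := by
          refine tsum_congr fun k => tsum_congr fun l => ?_
          rw [ENNReal.tsum_mul_left]
          ring
      _ = (∑' ω, φ ω) * ∑' γ : Γ, ∑' (k : ℕ) (l : ℕ), (1 - lam) * lam ^ (2 * k) *
          ((1 - lam) * lam ^ (2 * l)) * mulK (Q k l) (Q k l) o (γ • o) := by
          have e1 : ∀ k : ℕ, ∑' l : ℕ, (∑' ω, φ ω) * ∑' γ : Γ, (1 - lam) * lam ^ (2 * k) *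
              ((1 - lam) * lam ^ (2 * l)) * mulK (Q k l) (Q k l) o (γ • o) =
              (∑' ω, φ ω) * ∑' γ : Γ, ∑' l : ℕ, (1 - lam) * lam ^ (2 * k) *
              ((1 - lam) * lam ^ (2 * l)) * mulK (Q k l) (Q k l) o (γ • o) := by
            intro k
            rw [ENNReal.tsum_mul_left, ENNReal.tsum_comm]
          rw [tsum_congr e1, ENNReal.tsum_mul_left, ENNReal.tsum_comm]
      _ ≤ (∑' ω, φ ω) * ∑' γ : Γ, g2 P₁ P₂ lam o (γ • o) :=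
          mul_le_mul_right (ENNReal.tsum_le_tsum fun γ => hg2 (γ • o)) _
  have hhalf := half_i1 h2
  calc (1 : ℝ≥0∞) = 1 * 1 := (one_mul 1).symm
    _ ≤ (2 * G) * (2 * G) := mul_le_mul' hhalf hhalf
    _ = 4 * (G * G) := by ring
    _ ≤ 4 * ((∑' ω, φ ω) * ∑' γ : Γ, g2 P₁ P₂ lam o (γ • o)) := mul_le_mul_right hmain _
    _ = 4 * (∑' ω, φ ω) * ∑' γ : Γ, g2 P₁ P₂ lam o (γ • o) := by rw [mul_assoc]

end Pool.Agent.FPP
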