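import Pool.Agent.FPP.Defs
import Pool.Agent.FPP.K2
import Pool.Agent.FPP.K3
import Pool.Agent.FPP.K4

open scoped ENNReal BigOperators
open MeasureTheory Filter Topology

namespace Pool.Agent.FPP

/-!
**[FPP-I2] Orbit sums and finiteness.**
PROOF. `sum_orbit_le`: `∑' γ : Γ, f (γ • o) = ∑' ω, ∑' γ : {γ : Γ // γ • o = ω}, f ω` (`ENNReal.tsum_sigma'`-type rearrangement, or `Equiv.sigmaFiberEquiv`), and each fibre is empty or a coset of the stabiliser, so it has `Nat.card (stabilizer Γ o)` elements. `near_finite`: the set of `ω` with `near P₁ P₂ m o ω` is finite (`pw_fin`, product of two finite sets), and each fibre of `γ ↦ γ • o` is finite (a coset of a finite group). `sum_orbit_pair_le`: apply `sum_orbit_le` twice.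
-/

theorem sum_orbit_le {Γ : Type} [Group Γ] {Ω : Type} [MulAction Γ Ω] (o : Ω)
    [Finite (MulAction.stabilizer Γ o)] (f : Ω → ℝ≥0∞) :
    ∑' γ : Γ, f (γ • o) ≤ (Nat.card (MulAction.stabilizer Γ o) : ℝ≥0∞) * ∑' ω, f ω := by
  classical
  have e1 : ∀ γ : Γ, f (γ • o) = ∑' ω, if ω = γ • o then f ω else 0 := by
    intro γ
    rw [tsum_ite_eq]
  calc ∑' γ : Γ, f (γ • o) = ∑' γ : Γ, ∑' ω, (if ω = γ • o then f ω else 0) :=
        tsum_congr e1
    _ = ∑' ω, ∑' γ : Γ, (if ω = γ • o then f ω else 0) := ENNReal.tsum_comm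
    _ ≤ ∑' ω, (Nat.card (MulAction.stabilizer Γ o) : ℝ≥0∞) * f ω := by
        refine ENNReal.tsum_le_tsum fun ω => ?_
        by_cases h : ∃ γ₀ : Γ, ω = γ₀ • o
        · obtain ⟨γ₀, hγ₀⟩ := h
          have e2 : ∑' γ : Γ, (if ω = γ • o then f ω else 0) =
              ∑' s : Γ, (if ω = (γ₀ * s) • o then f ω else 0) :=
            ((Equiv.mulLeft γ₀).tsum_eq
              (fun γ : Γ => if ω = γ • o then f ω else 0)).symm
          have e3 : ∀ s : Γ, (if ω = (γ₀ * s) • o then f ω else 0) =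
              Set.indicator ((MulAction.stabilizer Γ o : Subgroup Γ) : Set Γ)
                (fun _ => f ω) s := by
            intro s
            rw [Set.indicator_apply]
            refine if_congr ?_ rfl rfl
            rw [SetLike.mem_coe, MulAction.mem_stabilizer_iff, hγ₀, mul_smul]
            constructor
            · intro h
              exact (smul_left_cancel γ₀ h).symm
            · intro h
              rw [h]
          rw [e2, tsum_congr e3, ← tsum_subtype]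
          rw [ENNReal.tsum_const]
          refine le_of_eq ?_
          congr 1
          have : Finite ((MulAction.stabilizer Γ o : Subgroup Γ) : Set Γ) :=
            (inferInstance : Finite (MulAction.stabilizer Γ o))
          rw [ENat.card_eq_coe_natCard]
          rfl
        · have e4 : ∀ γ : Γ, (if ω = γ • o then f ω else 0) = 0 := by
            intro γ
            rw [if_neg]
            intro h'
            exact h ⟨γ, h'⟩
          rw [tsum_congr e4, tsum_zero]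
          exact bot_le
    _ = (Nat.card (MulAction.stabilizer Γ o) : ℝ≥0∞) * ∑' ω, f ω := ENNReal.tsum_mul_left

theorem sum_orbit_pair_le {Γ : Type} [Group Γ] {Ω : Type} [MulAction Γ Ω] (o : Ω)
    [Finite (MulAction.stabilizer Γ o)] (f : Ω → Ω → ℝ≥0∞) :
    ∑' γ : Γ, ∑' γ' : Γ, f (γ • o) (γ' • o) ≤
      (Nat.card (MulAction.stabilizer Γ o) : ℝ≥0∞) ^ 2 * ∑' ω, ∑' ω', f ω ω' := by
  calc ∑' γ : Γ, ∑' γ' : Γ, f (γ • o) (γ' • o)
      ≤ ∑' γ : Γ, (Nat.card (MulAction.stabilizer Γ o) : ℝ≥0∞) * ∑' ω', f (γ • o) ω' :=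
        ENNReal.tsum_le_tsum fun γ => sum_orbit_le o (fun ω' => f (γ • o) ω')
    _ = (Nat.card (MulAction.stabilizer Γ o) : ℝ≥0∞) * ∑' γ : Γ, ∑' ω', f (γ • o) ω' :=
        ENNReal.tsum_mul_left
    _ ≤ (Nat.card (MulAction.stabilizer Γ o) : ℝ≥0∞) *
          ((Nat.card (MulAction.stabilizer Γ o) : ℝ≥0∞) * ∑' ω, ∑' ω', f ω ω') :=
        mul_le_mul_right (sum_orbit_le o (fun ω => ∑' ω', f ω ω')) _
    _ = (Nat.card (MulAction.stabilizer Γ o) : ℝ≥0∞) ^ 2 * ∑' ω, ∑' ω', f ω ω' := by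
        rw [pow_two, mul_assoc]

theorem near_finite {Γ : Type} [Group Γ] {Ω₁ Ω₂ : Type} [MulAction Γ Ω₁] [MulAction Γ Ω₂]
    {P₁ : Ω₁ → Ω₁ → ℝ≥0∞} {P₂ : Ω₂ → Ω₂ → ℝ≥0∞} {κ₁ ρ₁ κ₂ ρ₂ : ℝ≥0∞} (hK₁ : IsKern Γ P₁ κ₁ ρ₁)
    (hK₂ : IsKern Γ P₂ κ₂ ρ₂) (o : Ω₁ × Ω₂) [Finite (MulAction.stabilizer Γ o)] (m : ℕ) :
    {γ : Γ | near P₁ P₂ m o (γ • o)}.Finite := by
  have h1 : {ω : Ω₁ × Ω₂ | near P₁ P₂ m o ω}.Finite := by
    refine Set.Finite.subset ((pw_fin hK₁ m o.1).prod (pw_fin hK₂ m o.2)) ?_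
    intro ω hω
    exact ⟨hω.1, hω.2⟩
  refine Set.Finite.of_finite_fibers (fun γ : Γ => γ • o) (h1.subset ?_) ?_
  · rintro ω ⟨γ, hγ, rfl⟩
    exact hγ
  · intro ω hω
    obtain ⟨γ₀, hγ₀, hω₀⟩ := hω
    have h2 : (((MulAction.stabilizer Γ o : Subgroup Γ) : Set Γ)).Finite :=
      Set.toFinite _
    refine (h2.image (fun s => γ₀ * s)).subset ?_
    rintro γ ⟨_, hγ⟩
    refine ⟨γ₀⁻¹ * γ, ?_, by simp⟩
    rw [SetLike.mem_coe, MulAction.mem_stabilizer_iff, mul_smul]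
    have h3 : γ • o = γ₀ • o := by
      have : γ • o = ω := hγ
      rw [this]
      exact hω₀.symm
    rw [h3, inv_smul_smul]

end Pool.Agent.FPP
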