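import Pool.Agent.FPP.Defs
import Pool.Agent.FPP.K2
import Pool.Agent.FPP.K3
import Pool.Agent.FPP.K4
import Pool.Agent.FPP.K6

open scoped ENNReal BigOperators
open MeasureTheory Filter Topology

namespace Pool.Agent.FPP

/-!
**[FPP-I3] The product kernel.**
PROOF. `g2_pos`: `gg_pos` twice (`lam ≠ 0`). `g2_le_one`: `gg_le_one`. `g2_log`: `Real.log_mul`. `g2_sum`: `ENNReal.tsum_prod'`, `ENNReal.tsum_mul_left`, `gg_sum`. `L2_lip`: `ell_lip` in both factors. `g2_har`: exponentiate `L2_lip`. `near_symm`, `near_inv`, `near_trans`, `near_mono`: `pw_symm`, `pw_inv`, `pw_trans`, `pw_mono`. `exists_near`: `conn` in both factors and `pw_mono`.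
-/

theorem near_symm {Γ : Type} [Group Γ] {Ω₁ Ω₂ : Type} [MulAction Γ Ω₁] [MulAction Γ Ω₂]
    {P₁ : Ω₁ → Ω₁ → ℝ≥0∞} {P₂ : Ω₂ → Ω₂ → ℝ≥0∞} {κ₁ ρ₁ κ₂ ρ₂ : ℝ≥0∞} (hK₁ : IsKern Γ P₁ κ₁ ρ₁)
    (hK₂ : IsKern Γ P₂ κ₂ ρ₂) {m : ℕ} {x y : Ω₁ × Ω₂} (h : near P₁ P₂ m x y) :
    near P₁ P₂ m y x := by
  refine ⟨?_, ?_⟩
  · rw [pw_symm hK₁.symm]; exact h.1
  · rw [pw_symm hK₂.symm]; exact h.2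

theorem near_inv {Γ : Type} [Group Γ] {Ω₁ Ω₂ : Type} [MulAction Γ Ω₁] [MulAction Γ Ω₂]
    {P₁ : Ω₁ → Ω₁ → ℝ≥0∞} {P₂ : Ω₂ → Ω₂ → ℝ≥0∞} {κ₁ ρ₁ κ₂ ρ₂ : ℝ≥0∞} (hK₁ : IsKern Γ P₁ κ₁ ρ₁)
    (hK₂ : IsKern Γ P₂ κ₂ ρ₂) {m : ℕ} {x y : Ω₁ × Ω₂} (g : Γ) :
    near P₁ P₂ m (g • x) (g • y) ↔ near P₁ P₂ m x y := by
  have h1 := pw_inv hK₁.inv m g x.1 y.1
  have h2 := pw_inv hK₂.inv m g x.2 y.2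
  change (pw P₁ m (g • x.1) (g • y.1) ≠ 0 ∧ pw P₂ m (g • x.2) (g • y.2) ≠ 0) ↔
    (pw P₁ m x.1 y.1 ≠ 0 ∧ pw P₂ m x.2 y.2 ≠ 0)
  rw [h1, h2]

theorem near_trans {Ω₁ Ω₂ : Type} {P₁ : Ω₁ → Ω₁ → ℝ≥0∞} {P₂ : Ω₂ → Ω₂ → ℝ≥0∞} {m m' : ℕ}
    {x y z : Ω₁ × Ω₂} (h : near P₁ P₂ m x y) (h' : near P₁ P₂ m' y z) :
    near P₁ P₂ (m + m') x z := by
  exact ⟨pw_trans h.1 h'.1, pw_trans h.2 h'.2⟩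

theorem near_mono {Γ : Type} [Group Γ] {Ω₁ Ω₂ : Type} [MulAction Γ Ω₁] [MulAction Γ Ω₂]
    {P₁ : Ω₁ → Ω₁ → ℝ≥0∞} {P₂ : Ω₂ → Ω₂ → ℝ≥0∞} {κ₁ ρ₁ κ₂ ρ₂ : ℝ≥0∞} (hK₁ : IsKern Γ P₁ κ₁ ρ₁)
    (hK₂ : IsKern Γ P₂ κ₂ ρ₂) {m m' : ℕ} (hm : m ≤ m') {x y : Ω₁ × Ω₂}
    (h : near P₁ P₂ m x y) : near P₁ P₂ m' x y := by
  exact ⟨pw_mono hK₁ hm h.1, pw_mono hK₂ hm h.2⟩

theorem exists_near {Γ : Type} [Group Γ] {Ω₁ Ω₂ : Type} [MulAction Γ Ω₁] [MulAction Γ Ω₂]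
    {P₁ : Ω₁ → Ω₁ → ℝ≥0∞} {P₂ : Ω₂ → Ω₂ → ℝ≥0∞} {κ₁ ρ₁ κ₂ ρ₂ : ℝ≥0∞} (hK₁ : IsKern Γ P₁ κ₁ ρ₁)
    (hK₂ : IsKern Γ P₂ κ₂ ρ₂) (x y : Ω₁ × Ω₂) : ∃ m, near P₁ P₂ m x y := by
  obtain ⟨m1, h1⟩ := hK₁.conn x.1 y.1
  obtain ⟨m2, h2⟩ := hK₂.conn x.2 y.2
  exact ⟨max m1 m2, pw_mono hK₁ (le_max_left _ _) h1, pw_mono hK₂ (le_max_right _ _) h2⟩

theorem g2_inv {Γ : Type} [Group Γ] {Ω₁ Ω₂ : Type} [MulAction Γ Ω₁] [MulAction Γ Ω₂]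
    {P₁ : Ω₁ → Ω₁ → ℝ≥0∞} {P₂ : Ω₂ → Ω₂ → ℝ≥0∞} {κ₁ ρ₁ κ₂ ρ₂ : ℝ≥0∞} (hK₁ : IsKern Γ P₁ κ₁ ρ₁)
    (hK₂ : IsKern Γ P₂ κ₂ ρ₂) (lam : ℝ≥0∞) (g : Γ) (x y : Ω₁ × Ω₂) :
    g2 P₁ P₂ lam (g • x) (g • y) = g2 P₁ P₂ lam x y := by
  change gg P₁ lam (g • x.1) (g • y.1) * gg P₂ lam (g • x.2) (g • y.2) =
    gg P₁ lam x.1 y.1 * gg P₂ lam x.2 y.2
  rw [gg_inv hK₁.inv, gg_inv hK₂.inv]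

theorem g2_pos {Γ : Type} [Group Γ] {Ω₁ Ω₂ : Type} [MulAction Γ Ω₁] [MulAction Γ Ω₂]
    {P₁ : Ω₁ → Ω₁ → ℝ≥0∞} {P₂ : Ω₂ → Ω₂ → ℝ≥0∞} {κ₁ ρ₁ κ₂ ρ₂ : ℝ≥0∞} (hK₁ : IsKern Γ P₁ κ₁ ρ₁)
    (hK₂ : IsKern Γ P₂ κ₂ ρ₂) {lam : ℝ≥0∞} (h1 : 2⁻¹ ≤ lam) (h2 : lam < 1) (x y : Ω₁ × Ω₂) :
    0 < (g2 P₁ P₂ lam x y).toReal ∧ g2 P₁ P₂ lam x y ≤ 1 := by
  have h0 : lam ≠ 0 := by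
    rintro rfl
    simp at h1
  have a1 := gg_pos hK₁ h0 h2 x.1 y.1
  have a2 := gg_pos hK₂ h0 h2 x.2 y.2
  have b1 := gg_le_one hK₁.sum_one h2 x.1 y.1
  have b2 := gg_le_one hK₂.sum_one h2 x.2 y.2
  have hle : g2 P₁ P₂ lam x y ≤ 1 := by
    unfold g2
    calc gg P₁ lam x.1 y.1 * gg P₂ lam x.2 y.2 ≤ 1 * 1 := mul_le_mul' b1 b2
      _ = 1 := one_mul 1
  exact ⟨ENNReal.toReal_pos (mul_ne_zero a1 a2) (ne_top_of_le_ne_top ENNReal.one_ne_top hle), hle⟩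

theorem g2_sum {Γ : Type} [Group Γ] {Ω₁ Ω₂ : Type} [MulAction Γ Ω₁] [MulAction Γ Ω₂]
    {P₁ : Ω₁ → Ω₁ → ℝ≥0∞} {P₂ : Ω₂ → Ω₂ → ℝ≥0∞} {κ₁ ρ₁ κ₂ ρ₂ : ℝ≥0∞} (hK₁ : IsKern Γ P₁ κ₁ ρ₁)
    (hK₂ : IsKern Γ P₂ κ₂ ρ₂) {lam : ℝ≥0∞} (h2 : lam < 1) (x : Ω₁ × Ω₂) :
    ∑' y, g2 P₁ P₂ lam x y = 1 := by
  rw [ENNReal.tsum_prod']
  unfold g2
  simp only
  calc ∑' a, ∑' b, gg P₁ lam x.1 a * gg P₂ lam x.2 b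
      = ∑' a, gg P₁ lam x.1 a * 1 := by
        congr 1
        funext a
        rw [ENNReal.tsum_mul_left, gg_sum hK₂.sum_one h2]
    _ = 1 := by
        simp only [mul_one]
        exact gg_sum hK₁.sum_one h2 x.1

theorem g2_log {Γ : Type} [Group Γ] {Ω₁ Ω₂ : Type} [MulAction Γ Ω₁] [MulAction Γ Ω₂]
    {P₁ : Ω₁ → Ω₁ → ℝ≥0∞} {P₂ : Ω₂ → Ω₂ → ℝ≥0∞} {κ₁ ρ₁ κ₂ ρ₂ : ℝ≥0∞} (hK₁ : IsKern Γ P₁ κ₁ ρ₁)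
    (hK₂ : IsKern Γ P₂ κ₂ ρ₂) {lam : ℝ≥0∞} (h1 : 2⁻¹ ≤ lam) (h2 : lam < 1) (x y : Ω₁ × Ω₂) :
    Real.log (g2 P₁ P₂ lam x y).toReal = -L2 P₁ P₂ lam x y := by
  have h0 : lam ≠ 0 := by
    rintro rfl
    simp at h1
  have a1 := gg_pos hK₁ h0 h2 x.1 y.1
  have a2 := gg_pos hK₂ h0 h2 x.2 y.2
  have b1 := gg_le_one hK₁.sum_one h2 x.1 y.1
  have b2 := gg_le_one hK₂.sum_one h2 x.2 y.2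
  have c1 := ENNReal.toReal_pos a1 (ne_top_of_le_ne_top ENNReal.one_ne_top b1)
  have c2 := ENNReal.toReal_pos a2 (ne_top_of_le_ne_top ENNReal.one_ne_top b2)
  unfold g2 L2 ell
  rw [ENNReal.toReal_mul, Real.log_mul c1.ne' c2.ne']
  ring

theorem L2_lip {Γ : Type} [Group Γ] {Ω₁ Ω₂ : Type} [MulAction Γ Ω₁] [MulAction Γ Ω₂]
    {P₁ : Ω₁ → Ω₁ → ℝ≥0∞} {P₂ : Ω₂ → Ω₂ → ℝ≥0∞} {κ₁ ρ₁ κ₂ ρ₂ : ℝ≥0∞} (hK₁ : IsKern Γ P₁ κ₁ ρ₁)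
    (hK₂ : IsKern Γ P₂ κ₂ ρ₂) {lam : ℝ≥0∞} (h1 : 2⁻¹ ≤ lam) (h2 : lam < 1) {m : ℕ}
    {x y : Ω₁ × Ω₂} (h : near P₁ P₂ m x y) (z : Ω₁ × Ω₂) :
    |L2 P₁ P₂ lam x z - L2 P₁ P₂ lam y z| ≤ m * (cc κ₁ + cc κ₂) := by
  have a1 := ell_lip hK₁ h1 h2 h.1 z.1
  have a2 := ell_lip hK₂ h1 h2 h.2 z.2
  unfold L2
  calc |ell P₁ lam x.1 z.1 + ell P₂ lam x.2 z.2 - (ell P₁ lam y.1 z.1 + ell P₂ lam y.2 z.2)|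
      = |(ell P₁ lam x.1 z.1 - ell P₁ lam y.1 z.1) +
        (ell P₂ lam x.2 z.2 - ell P₂ lam y.2 z.2)| := by congr 1; ring
    _ ≤ |ell P₁ lam x.1 z.1 - ell P₁ lam y.1 z.1| +
        |ell P₂ lam x.2 z.2 - ell P₂ lam y.2 z.2| := abs_add_le _ _
    _ ≤ m * cc κ₁ + m * cc κ₂ := add_le_add a1 a2
    _ = m * (cc κ₁ + cc κ₂) := by ring

theorem g2_har {Γ : Type} [Group Γ] {Ω₁ Ω₂ : Type} [MulAction Γ Ω₁] [MulAction Γ Ω₂]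
    {P₁ : Ω₁ → Ω₁ → ℝ≥0∞} {P₂ : Ω₂ → Ω₂ → ℝ≥0∞} {κ₁ ρ₁ κ₂ ρ₂ : ℝ≥0∞} (hK₁ : IsKern Γ P₁ κ₁ ρ₁)
    (hK₂ : IsKern Γ P₂ κ₂ ρ₂) {lam : ℝ≥0∞} (h1 : 2⁻¹ ≤ lam) (h2 : lam < 1) {m : ℕ}
    {x y : Ω₁ × Ω₂} (h : near P₁ P₂ m x y) (z : Ω₁ × Ω₂) :
    (g2 P₁ P₂ lam x z).toReal ≤
      Real.exp (m * (cc κ₁ + cc κ₂)) * (g2 P₁ P₂ lam y z).toReal := by
  have a := L2_lip hK₁ hK₂ h1 h2 h z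
  have e1 := Real.exp_log (g2_pos hK₁ hK₂ h1 h2 x z).1
  have e2 := Real.exp_log (g2_pos hK₁ hK₂ h1 h2 y z).1
  rw [g2_log hK₁ hK₂ h1 h2] at e1 e2
  rw [← e1, ← e2, ← Real.exp_add]
  apply Real.exp_le_exp.2
  have := (abs_le.1 a).1
  linarith

end Pool.Agent.FPP
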