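import Pool.Agent.FPP.Defs
import Pool.Agent.FPP.K6
import Pool.Agent.FPP.I1
import Pool.Agent.FPP.I2
import Pool.Agent.FPP.I3

open scoped ENNReal BigOperators
open MeasureTheory Filter Topology

namespace Pool.Agent.FPP

/-!
**[FPP-I4] The rates.**
PROOF. `k γ = (g2 P₁ P₂ lam o (γ • o)).toReal > 0` (`g2_pos`). Summable with sum `≤ Nat.card (stabilizer Γ o)`: `sum_orbit_le`, `g2_sum`, `ENNReal.summable_toReal`, `ENNReal.tsum_toReal_eq`. Lower bound: `rate_lower` (the sum is finite, `∑' φ` is finite and nonzero). Harnack: `k (s⁻¹ * γ) = (g2 (s • o) (γ • o)).toReal` (`g2_inv`, `mul_smul`, `smul_inv_smul`) and `near P₁ P₂ m o (s • o)`: `g2_har` in both directions (`near_symm`).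
-/

theorem isRate {Γ : Type} [Group Γ] {Ω₁ Ω₂ : Type} [MulAction Γ Ω₁] [MulAction Γ Ω₂]
    {P₁ : Ω₁ → Ω₁ → ℝ≥0∞} {P₂ : Ω₂ → Ω₂ → ℝ≥0∞} {κ₁ ρ₁ κ₂ ρ₂ : ℝ≥0∞} (hK₁ : IsKern Γ P₁ κ₁ ρ₁)
    (hK₂ : IsKern Γ P₂ κ₂ ρ₂) {φ : Ω₁ × Ω₂ → ℝ≥0∞} (hφ : IsWt Γ φ) {lam : ℝ≥0∞}
    (h1 : 2⁻¹ ≤ lam) (h2 : lam < 1) (o : Ω₁ × Ω₂) [Finite (MulAction.stabilizer Γ o)]
    (S : Finset Γ) {m : ℕ} (hm : ∀ s ∈ S, near P₁ P₂ m o (s • o)) :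
    IsRate (fun γ : Γ => (g2 P₁ P₂ lam o (γ • o)).toReal) (1 / (4 * (∑' ω, φ ω).toReal))
      (Nat.card (MulAction.stabilizer Γ o)) (m * (cc κ₁ + cc κ₂)) S := by
  have hpos : ∀ γ : Γ, 0 < (g2 P₁ P₂ lam o (γ • o)).toReal := fun γ =>
    (g2_pos hK₁ hK₂ h1 h2 _ _).1
  have hle : ∑' γ : Γ, g2 P₁ P₂ lam o (γ • o) ≤
      (Nat.card (MulAction.stabilizer Γ o) : ℝ≥0∞) := by
    have h := sum_orbit_le (Γ := Γ) o (fun ω => g2 P₁ P₂ lam o ω)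
    rwa [g2_sum hK₁ hK₂ h2, mul_one] at h
  have hfin : ∑' γ : Γ, g2 P₁ P₂ lam o (γ • o) ≠ ⊤ :=
    ne_top_of_le_ne_top (ENNReal.natCast_ne_top _) hle
  have hsum : ∑' γ : Γ, (g2 P₁ P₂ lam o (γ • o)).toReal =
      (∑' γ : Γ, g2 P₁ P₂ lam o (γ • o)).toReal := by
    rw [ENNReal.tsum_toReal_eq]
    intro γ
    exact ENNReal.ne_top_of_tsum_ne_top hfin γ
  have hsm : ∀ (s γ : Γ), g2 P₁ P₂ lam o ((s⁻¹ * γ) • o) =
      g2 P₁ P₂ lam (s • o) (γ • o) := by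
    intro s γ
    rw [← g2_inv hK₁ hK₂ lam s o ((s⁻¹ * γ) • o), mul_smul, smul_inv_smul]
  refine ⟨hpos, ENNReal.summable_toReal hfin, ?_, ?_, ?_⟩
  · have hl := rate_lower hK₁ hK₂ hφ h2 o
    rw [hsum]
    have h3 : (1:ℝ) ≤ 4 * (∑' ω, φ ω).toReal *
        (∑' γ : Γ, g2 P₁ P₂ lam o (γ • o)).toReal := by
      have h4 := ENNReal.toReal_mono (b := 4 * (∑' ω, φ ω) *
        ∑' γ : Γ, g2 P₁ P₂ lam o (γ • o))
        (ENNReal.mul_ne_top (ENNReal.mul_ne_top (by norm_num) hφ.fin) hfin) hl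
      simpa using h4
    have h5 : 0 ≤ (∑' ω, φ ω).toReal := ENNReal.toReal_nonneg
    have h6 : 0 ≤ (∑' γ : Γ, g2 P₁ P₂ lam o (γ • o)).toReal := ENNReal.toReal_nonneg
    have h7 : 0 < 4 * (∑' ω, φ ω).toReal := by
      rcases h5.eq_or_lt with h8 | h8
      · rw [← h8] at h3
        norm_num at h3
      · linarith
    rw [div_le_iff₀ h7]
    linarith
  · rw [hsum]
    have h4 := ENNReal.toReal_mono (ENNReal.natCast_ne_top _) hle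
    simpa using h4
  · intro s hs γ
    have hn := hm s hs
    change (g2 P₁ P₂ lam o ((s⁻¹ * γ) • o)).toReal ≤
        Real.exp (m * (cc κ₁ + cc κ₂)) * (g2 P₁ P₂ lam o (γ • o)).toReal ∧
      (g2 P₁ P₂ lam o (γ • o)).toReal ≤
        Real.exp (m * (cc κ₁ + cc κ₂)) * (g2 P₁ P₂ lam o ((s⁻¹ * γ) • o)).toReal
    rw [hsm]
    exact ⟨g2_har hK₁ hK₂ h1 h2 (near_symm hK₁ hK₂ hn) _, g2_har hK₁ hK₂ h1 h2 hn _⟩

end Pool.Agent.FPP
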