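import Pool.Agent.FPP.Defs
import Pool.Agent.FPP.K6
import Pool.Agent.FPP.K7
import Pool.Agent.FPP.I2
import Pool.Agent.FPP.I3

open scoped ENNReal BigOperators
open MeasureTheory Filter Topology

namespace Pool.Agent.FPP

/-!
**[FPP-I5] Small affinity on the group.**
PROOF. `min a b ≤ √a √b`. So with `k γ = (g2 o (γ • o)).toReal`, `k (u⁻¹ * γ) = (g2 (u • o) (γ • o)).toReal` (`g2_inv`), `ofReal (min …) ≤ g2 (u • o) (γ • o) ^ (1/2) * g2 (u' • o) (γ • o) ^ (1/2) ≤ e ^ (C/2) e ^ (C/2) g2 y (γ • o) ^ (1/2) * g2 y' (γ • o) ^ (1/2)` with `C = m (cc κ₁ + cc κ₂)` (`g2_har` with `near_symm`). Sum over `γ` with `sum_orbit_le` and `f ω = g2 y ω ^ (1/2) * g2 y' ω ^ (1/2)`, whose total sum is `hh P₁ lam y.1 y'.1 * hh P₂ lam y.2 y'.2 ≤ δ'` (`ENNReal.mul_rpow_of_nonneg`,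
`ENNReal.tsum_prod'`, `ENNReal.tsum_mul_left`, `ENNReal.tsum_mul_right`). Pass to real sums: `ENNReal.ofReal_tsum_of_nonneg` (summable by comparison with a summable rate, or `tsum` of a non-summable real function is `0 ≤ δ`).
-/

theorem small_affinity {Γ : Type} [Group Γ] {Ω₁ Ω₂ : Type} [MulAction Γ Ω₁] [MulAction Γ Ω₂]
    {P₁ : Ω₁ → Ω₁ → ℝ≥0∞} {P₂ : Ω₂ → Ω₂ → ℝ≥0∞} {κ₁ ρ₁ κ₂ ρ₂ : ℝ≥0∞} (hK₁ : IsKern Γ P₁ κ₁ ρ₁)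
    (hK₂ : IsKern Γ P₂ κ₂ ρ₂) {lam : ℝ≥0∞} (h1 : 2⁻¹ ≤ lam) (h2 : lam < 1) (o : Ω₁ × Ω₂)
    [Finite (MulAction.stabilizer Γ o)] {m : ℕ} {y y' : Ω₁ × Ω₂} {u u' : Γ}
    (hu : near P₁ P₂ m y (u • o)) (hu' : near P₁ P₂ m y' (u' • o)) {δ' : ℝ≥0∞} {δ : ℝ}
    (hδ' : hh P₁ lam y.1 y'.1 * hh P₂ lam y.2 y'.2 ≤ δ') (hδ0 : 0 ≤ δ)
    (hδ : (Nat.card (MulAction.stabilizer Γ o) : ℝ≥0∞) *
      (ENNReal.ofReal (Real.exp (m * (cc κ₁ + cc κ₂))) * δ') ≤ ENNReal.ofReal δ) :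
    ∑' γ : Γ, min (g2 P₁ P₂ lam o ((u⁻¹ * γ) • o)).toReal
      (g2 P₁ P₂ lam o ((u'⁻¹ * γ) • o)).toReal ≤ δ := by
  set E : ℝ≥0∞ := ENNReal.ofReal (Real.exp (m * (cc κ₁ + cc κ₂))) with hE
  have hsm : ∀ (s γ : Γ), g2 P₁ P₂ lam o ((s⁻¹ * γ) • o) =
      g2 P₁ P₂ lam (s • o) (γ • o) := by
    intro s γ
    rw [← g2_inv hK₁ hK₂ lam s o ((s⁻¹ * γ) • o), mul_smul, smul_inv_smul]
  have hg : ∀ (x z : Ω₁ × Ω₂), g2 P₁ P₂ lam x z ≠ ⊤ := fun x z =>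
    ne_top_of_le_ne_top ENNReal.one_ne_top (g2_pos hK₁ hK₂ h1 h2 x z).2
  have hE' : ∀ {x y : Ω₁ × Ω₂}, near P₁ P₂ m x y → ∀ z, g2 P₁ P₂ lam y z ≤
      E * g2 P₁ P₂ lam x z := by
    intro x y hn z
    have h := g2_har hK₁ hK₂ h1 h2 (near_symm hK₁ hK₂ hn) z
    have h' := ENNReal.ofReal_le_ofReal h
    rw [ENNReal.ofReal_mul (Real.exp_nonneg _), ENNReal.ofReal_toReal (hg _ _),
      ENNReal.ofReal_toReal (hg _ _)] at h'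
    exact h'
  have hh0 : (0:ℝ) ≤ 1 / 2 := by norm_num
  have hmin : ∀ a b : ℝ≥0∞, min a b ≤ a ^ (1 / 2 : ℝ) * b ^ (1 / 2 : ℝ) := by
    intro a b
    have e1 : ∀ c : ℝ≥0∞, c = c ^ (1 / 2 : ℝ) * c ^ (1 / 2 : ℝ) := by
      intro c
      rw [← ENNReal.rpow_add_of_nonneg _ _ hh0 hh0]
      norm_num
    calc min a b = (min a b) ^ (1 / 2 : ℝ) * (min a b) ^ (1 / 2 : ℝ) := e1 _
      _ ≤ a ^ (1 / 2 : ℝ) * b ^ (1 / 2 : ℝ) :=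
        mul_le_mul' (ENNReal.rpow_le_rpow (min_le_left _ _) hh0)
          (ENNReal.rpow_le_rpow (min_le_right _ _) hh0)
  have hEE : E ^ (1 / 2 : ℝ) * E ^ (1 / 2 : ℝ) = E := by
    rw [← ENNReal.rpow_add_of_nonneg _ _ hh0 hh0]
    norm_num
  have hterm : ∀ γ : Γ, ENNReal.ofReal (min (g2 P₁ P₂ lam o ((u⁻¹ * γ) • o)).toReal
      (g2 P₁ P₂ lam o ((u'⁻¹ * γ) • o)).toReal) ≤
      E * (g2 P₁ P₂ lam y (γ • o) ^ (1 / 2 : ℝ) * g2 P₁ P₂ lam y' (γ • o) ^ (1 / 2 : ℝ)) := by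
    intro γ
    rw [hsm, hsm, ENNReal.ofReal_min, ENNReal.ofReal_toReal (hg _ _),
      ENNReal.ofReal_toReal (hg _ _)]
    calc min (g2 P₁ P₂ lam (u • o) (γ • o)) (g2 P₁ P₂ lam (u' • o) (γ • o))
        ≤ min (E * g2 P₁ P₂ lam y (γ • o)) (E * g2 P₁ P₂ lam y' (γ • o)) :=
          min_le_min (hE' hu _) (hE' hu' _)
      _ ≤ (E * g2 P₁ P₂ lam y (γ • o)) ^ (1 / 2 : ℝ) *
            (E * g2 P₁ P₂ lam y' (γ • o)) ^ (1 / 2 : ℝ) := hmin _ _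
      _ = (E ^ (1 / 2 : ℝ) * E ^ (1 / 2 : ℝ)) * (g2 P₁ P₂ lam y (γ • o) ^ (1 / 2 : ℝ) *
            g2 P₁ P₂ lam y' (γ • o) ^ (1 / 2 : ℝ)) := by
          rw [ENNReal.mul_rpow_of_nonneg _ _ hh0, ENNReal.mul_rpow_of_nonneg _ _ hh0]
          ring
      _ = E * (g2 P₁ P₂ lam y (γ • o) ^ (1 / 2 : ℝ) *
            g2 P₁ P₂ lam y' (γ • o) ^ (1 / 2 : ℝ)) := by rw [hEE]
  have hf : ∑' ω : Ω₁ × Ω₂, g2 P₁ P₂ lam y ω ^ (1 / 2 : ℝ) * g2 P₁ P₂ lam y' ω ^ (1 / 2 : ℝ) =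
      hh P₁ lam y.1 y'.1 * hh P₂ lam y.2 y'.2 := by
    unfold hh g2
    rw [ENNReal.tsum_prod', ← ENNReal.tsum_mul_right]
    refine tsum_congr fun a => ?_
    rw [← ENNReal.tsum_mul_left]
    refine tsum_congr fun b => ?_
    rw [ENNReal.mul_rpow_of_nonneg _ _ hh0, ENNReal.mul_rpow_of_nonneg _ _ hh0]
    ring
  have htot : ∑' γ : Γ, ENNReal.ofReal (min (g2 P₁ P₂ lam o ((u⁻¹ * γ) • o)).toReal
      (g2 P₁ P₂ lam o ((u'⁻¹ * γ) • o)).toReal) ≤ ENNReal.ofReal δ := by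
    calc ∑' γ : Γ, ENNReal.ofReal (min (g2 P₁ P₂ lam o ((u⁻¹ * γ) • o)).toReal
          (g2 P₁ P₂ lam o ((u'⁻¹ * γ) • o)).toReal)
        ≤ ∑' γ : Γ, E * (g2 P₁ P₂ lam y (γ • o) ^ (1 / 2 : ℝ) *
            g2 P₁ P₂ lam y' (γ • o) ^ (1 / 2 : ℝ)) := ENNReal.tsum_le_tsum hterm
      _ = E * ∑' γ : Γ, (g2 P₁ P₂ lam y (γ • o) ^ (1 / 2 : ℝ) *
            g2 P₁ P₂ lam y' (γ • o) ^ (1 / 2 : ℝ)) := ENNReal.tsum_mul_left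
      _ ≤ E * ((Nat.card (MulAction.stabilizer Γ o) : ℝ≥0∞) *
            ∑' ω : Ω₁ × Ω₂, g2 P₁ P₂ lam y ω ^ (1 / 2 : ℝ) *
              g2 P₁ P₂ lam y' ω ^ (1 / 2 : ℝ)) :=
          mul_le_mul_right (sum_orbit_le o (fun ω => g2 P₁ P₂ lam y ω ^ (1 / 2 : ℝ) *
            g2 P₁ P₂ lam y' ω ^ (1 / 2 : ℝ))) _
      _ ≤ E * ((Nat.card (MulAction.stabilizer Γ o) : ℝ≥0∞) * δ') := by
          rw [hf]
          gcongr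
      _ = (Nat.card (MulAction.stabilizer Γ o) : ℝ≥0∞) * (E * δ') := by ring
      _ ≤ ENNReal.ofReal δ := hδ
  have hnn : ∀ γ : Γ, 0 ≤ min (g2 P₁ P₂ lam o ((u⁻¹ * γ) • o)).toReal
      (g2 P₁ P₂ lam o ((u'⁻¹ * γ) • o)).toReal := fun γ =>
    le_min ENNReal.toReal_nonneg ENNReal.toReal_nonneg
  by_cases hs : Summable fun γ : Γ => min (g2 P₁ P₂ lam o ((u⁻¹ * γ) • o)).toReal
      (g2 P₁ P₂ lam o ((u'⁻¹ * γ) • o)).toReal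
  · rw [← ENNReal.ofReal_tsum_of_nonneg hnn hs] at htot
    exact (ENNReal.ofReal_le_ofReal_iff hδ0).1 htot
  · rw [tsum_eq_zero_of_not_summable hs]
    exact hδ0

end Pool.Agent.FPP
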