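import Pool.Agent.FPP.Defs
import Pool.Agent.FPP.K6
import Pool.Agent.FPP.I2
import Pool.Agent.FPP.I3
import Pool.Agent.FPP.I5

open scoped ENNReal BigOperators
open MeasureTheory Filter Topology

namespace Pool.Agent.FPP

/-!
**[FPP-I6] Good pairs of nuclei on the group.**
PROOF. Take `y`, `u`, `v` from `Good` (with `R + 2`). With `k γ = (g2 o (γ • o)).toReal`: `k (u⁻¹ * q) = (g2 (u • o) (q • o)).toReal`, logarithm `- L2 (u • o) (q • o)` (`g2_inv`, `g2_log`, `mul_smul`). (1) `near K o (y n)` and `near m (y n) (u n • o)` give `near (K + m) o (u n • o)`, so `u n ∈ K'` by `hK'`; the same for `v n`. `near (2 m) (v n • o) (u n • o)` (`near_symm`, `near_trans`), and by `near_inv` with `(v n)⁻¹`: `near (2 m) o (((v n)⁻¹ * u n) • o)`, so `(v n)⁻¹ * u n ∈ S'`.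
(2) `L2 (u n • o) (q • o) ≤ L2 (y n) (q • o) + m c ≤ L2 o (q • o) + 1 + m c ≤ L2 o (q • o) + C` (`c = cc κ₁ + cc κ₂`, `L2_lip`), which is `k q ≤ exp C * k ((u n)⁻¹ * q)` (take logarithms); the same for `v n`, `q'`. (3) `L2 (u n • o) (q' • o) - L2 (u n • o) (q • o) ≥ L2 (y n) (q' • o) - L2 (y n) (q • o) + R + 2 ≥ L2 o (q' • o) - L2 o (q • o) + R`, exponentiate. (4) the same for `v n`. (5) `k ((v n)⁻¹ * γ) = (g2 (v n • o) (γ • o)).toReal ≤ exp (2 m c) * …` (`g2_har`). (6) `small_affinity`.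
-/

theorem goodG_of_good {Γ : Type} [Group Γ] {Ω₁ Ω₂ : Type} [MulAction Γ Ω₁] [MulAction Γ Ω₂]
    {P₁ : Ω₁ → Ω₁ → ℝ≥0∞} {P₂ : Ω₂ → Ω₂ → ℝ≥0∞} {κ₁ ρ₁ κ₂ ρ₂ : ℝ≥0∞} (hK₁ : IsKern Γ P₁ κ₁ ρ₁)
    (hK₂ : IsKern Γ P₂ κ₂ ρ₂) {lam : ℝ≥0∞} (h1 : 2⁻¹ ≤ lam) (h2 : lam < 1) (o : Ω₁ × Ω₂)
    [Finite (MulAction.stabilizer Γ o)] {R C δ : ℝ} {m L K : ℕ} {δ' : ℝ≥0∞} (S' K' : Finset Γ)
    (hS' : ∀ γ : Γ, near P₁ P₂ (2 * m) o (γ • o) → γ ∈ S')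
    (hK' : ∀ γ : Γ, near P₁ P₂ (K + m) o (γ • o) → γ ∈ K')
    (hC : 2 * m * (cc κ₁ + cc κ₂) + 1 ≤ C) (hδ0 : 0 ≤ δ)
    (hδ : (Nat.card (MulAction.stabilizer Γ o) : ℝ≥0∞) *
      (ENNReal.ofReal (Real.exp (m * (cc κ₁ + cc κ₂))) * δ') ≤ ENNReal.ofReal δ)
    {q q' : Γ} (h : Good Γ P₁ P₂ lam o (R + 2) m L δ' K o (q • o) (q' • o)) :
    GoodG (fun γ : Γ => (g2 P₁ P₂ lam o (γ • o)).toReal) S' C R δ L K' q q' := by
  obtain ⟨y, u, v, hnear, hsc, hu, hv, haff⟩ := h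
  have hsm : ∀ (s γ : Γ), g2 P₁ P₂ lam o ((s⁻¹ * γ) • o) =
      g2 P₁ P₂ lam (s • o) (γ • o) := by
    intro s γ
    rw [← g2_inv hK₁ hK₂ lam s o ((s⁻¹ * γ) • o), mul_smul, smul_inv_smul]
  have hk : ∀ x z : Ω₁ × Ω₂, (g2 P₁ P₂ lam x z).toReal = Real.exp (-L2 P₁ P₂ lam x z) := by
    intro x z
    rw [← g2_log hK₁ hK₂ h1 h2, Real.exp_log (g2_pos hK₁ hK₂ h1 h2 x z).1]
  have hc : 0 ≤ cc κ₁ + cc κ₂ := add_nonneg (cc_nonneg hK₁) (cc_nonneg hK₂)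
  have hmc : 0 ≤ (m : ℝ) * (cc κ₁ + cc κ₂) := mul_nonneg (Nat.cast_nonneg _) hc
  have hC' : 2 * ((m : ℝ) * (cc κ₁ + cc κ₂)) + 1 ≤ C := by
    have : 2 * ((m : ℝ) * (cc κ₁ + cc κ₂)) = 2 * m * (cc κ₁ + cc κ₂) := by ring
    rw [this]
    exact hC
  refine ⟨u, v, fun n => ?_, fun n n' hnn => ?_⟩
  · obtain ⟨hKn, hnu, hnv⟩ := hnear n
    obtain ⟨hs1, hs2⟩ := hsc n
    have hun := hu n
    have hvn := hv n
    have lu := L2_lip hK₁ hK₂ h1 h2 hnu (q • o)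
    have lv := L2_lip hK₁ hK₂ h1 h2 hnv (q' • o)
    rw [abs_le] at lu lv hs1 hs2
    obtain ⟨a1, a2⟩ := hs1
    obtain ⟨b1, b2⟩ := hs2
    obtain ⟨c1, c2⟩ := lu
    obtain ⟨d1, d2⟩ := lv
    have huv : near P₁ P₂ (2 * m) (v n • o) (u n • o) := by
      rw [two_mul]
      exact near_trans (near_symm hK₁ hK₂ hnv) hnu
    refine ⟨?_, ?_, ?_, ?_, ?_, ?_, ?_, ?_⟩
    · exact hK' _ (near_trans hKn hnu)
    · exact hK' _ (near_trans hKn hnv)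
    · apply hS'
      rw [← near_inv hK₁ hK₂ (v n), mul_smul, smul_inv_smul]
      exact huv
    · change (g2 P₁ P₂ lam o (q • o)).toReal ≤
        Real.exp C * (g2 P₁ P₂ lam o (((u n)⁻¹ * q) • o)).toReal
      rw [hsm, hk, hk, ← Real.exp_add]
      apply Real.exp_le_exp.2
      linarith
    · change (g2 P₁ P₂ lam o (q' • o)).toReal ≤
        Real.exp C * (g2 P₁ P₂ lam o (((v n)⁻¹ * q') • o)).toReal
      rw [hsm, hk, hk, ← Real.exp_add]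
      apply Real.exp_le_exp.2
      linarith
    · change Real.exp R * ((g2 P₁ P₂ lam o (((u n)⁻¹ * q') • o)).toReal *
          (g2 P₁ P₂ lam o (q • o)).toReal) ≤
        (g2 P₁ P₂ lam o (((u n)⁻¹ * q) • o)).toReal * (g2 P₁ P₂ lam o (q' • o)).toReal
      rw [hsm, hsm, hk, hk, hk, hk, ← Real.exp_add, ← Real.exp_add, ← Real.exp_add]
      apply Real.exp_le_exp.2
      linarith
    · change Real.exp R * ((g2 P₁ P₂ lam o (((v n)⁻¹ * q) • o)).toReal *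
          (g2 P₁ P₂ lam o (q' • o)).toReal) ≤
        (g2 P₁ P₂ lam o (((v n)⁻¹ * q') • o)).toReal * (g2 P₁ P₂ lam o (q • o)).toReal
      rw [hsm, hsm, hk, hk, hk, hk, ← Real.exp_add, ← Real.exp_add, ← Real.exp_add]
      apply Real.exp_le_exp.2
      linarith
    · intro γ
      change (g2 P₁ P₂ lam o (((v n)⁻¹ * γ) • o)).toReal ≤
        Real.exp C * (g2 P₁ P₂ lam o (((u n)⁻¹ * γ) • o)).toReal
      rw [hsm, hsm]
      refine (g2_har hK₁ hK₂ h1 h2 huv (γ • o)).trans ?_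
      refine mul_le_mul_of_nonneg_right (Real.exp_le_exp.2 ?_) ENNReal.toReal_nonneg
      have : ((2 * m : ℕ) : ℝ) * (cc κ₁ + cc κ₂) = 2 * ((m : ℝ) * (cc κ₁ + cc κ₂)) := by
        push_cast
        ring
      rw [this]
      linarith
  · exact small_affinity hK₁ hK₂ h1 h2 o (hnear n).2.1 (hnear n').2.1
      (haff n n' hnn) hδ0 hδ

end Pool.Agent.FPP
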