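import Pool.Agent.FPP.Defs
import Pool.Agent.FPP.C1
import Pool.Agent.FPP.C11
import Pool.Agent.FPP.I2
import Pool.Agent.FPP.I3
import Pool.Agent.FPP.I4
import Pool.Agent.FPP.I6

open scoped ENNReal BigOperators
open MeasureTheory Filter Topology

namespace Pool.Agent.FPP

/-!
**[FPP-I7] Race kernels exist.**
PROOF. `N = Nat.card (stabilizer Γ o)` (`≥ 1`), `W = ∑' ω, φ ω` (finite, `≠ 0` since `φ o ≠ 0`), `z₀ = 1 / (4 W.toReal)`, `z₁ = N`, `c = m₀ * (cc κ₁ + cc κ₂)` where `m₀` is such that `near m₀ o (s • o)` for all `s ∈ S` (`exists_near`, `near_mono`, finite maximum). Given `R`, `ε > 0`, let `m` be from `sites` with `R + 2` and `ofReal ε * φ o / N ^ 2` (nonzero; `φ o ≠ ⊤`); `C = 2 m (cc κ₁ + cc κ₂) + 1`, `S'` the finite set `{γ | near (2 m) o (γ • o)}` (`near_finite`). Given `L`, `δ > 0`, let `δ'` be a positive number with `N * (ofReal (exp (m c)) * δ')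 ≤ ofReal δ`,
and `lam`, `K` from `sites`; `k γ = (g2 o (γ • o)).toReal` (`isRate`), `K' = {γ | near (K + m) o (γ • o)}`. For `W' : Finset Γ`: by `goodG_of_good` each summand is at most `(g2 o (q • o) * g2 o (q' • o) * ind (¬Good … o (q • o) (q' • o))).toReal`, so the sum is at most the `toReal` of `∑' q, ∑' q', f (q • o) (q' • o) ≤ N ^ 2 * ∑' ωi, ∑' ωj, f ωi ωj` (`sum_orbit_pair_le`), and `φ o * ∑' ωi, ∑' ωj, f ωi ωj ≤ ∑' ω, … ≤ ofReal ε * φ o / N ^ 2` (the term `ω = o`).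
-/

theorem i7_cc {κ : ℝ≥0∞} (h0 : κ ≠ 0) (h1 : κ ≤ 1) : 0 ≤ cc κ := by
  have ht : κ ≠ ⊤ := (h1.trans_lt ENNReal.one_lt_top).ne
  have hp : 0 < κ.toReal := ENNReal.toReal_pos h0 ht
  have hl : κ.toReal ≤ 1 := by
    have := ENNReal.toReal_mono ENNReal.one_ne_top h1
    simpa using this
  unfold cc
  refine Real.log_nonneg ?_
  rw [le_div_iff₀ hp]
  linarith

theorem raceProp {Γ : Type} [Group Γ] {Ω₁ Ω₂ : Type} [MulAction Γ Ω₁] [MulAction Γ Ω₂]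
    {P₁ : Ω₁ → Ω₁ → ℝ≥0∞} {P₂ : Ω₂ → Ω₂ → ℝ≥0∞} {κ₁ ρ₁ κ₂ ρ₂ : ℝ≥0∞} (hK₁ : IsKern Γ P₁ κ₁ ρ₁)
    (hK₂ : IsKern Γ P₂ κ₂ ρ₂) {φ : Ω₁ × Ω₂ → ℝ≥0∞} (hφ : IsWt Γ φ) (o : Ω₁ × Ω₂)
    (ho : φ o ≠ 0) (hst : Finite (MulAction.stabilizer Γ o)) (S : Finset Γ) :
    RaceProp Γ S := by
  classical
  have := hst
  set N : ℕ := Nat.card (MulAction.stabilizer Γ o) with hN
  have hN0 : 0 < N := Nat.card_pos
  have hN0' : ((N : ℕ) : ℝ≥0∞) ≠ 0 := by exact_mod_cast hN0.ne'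
  have hNt : ((N : ℕ) : ℝ≥0∞) ≠ ⊤ := ENNReal.natCast_ne_top N
  have hWt : ∑' ω, φ ω ≠ ⊤ := hφ.fin
  have hW0 : ∑' ω, φ ω ≠ 0 := fun h => ho (ENNReal.tsum_eq_zero.1 h o)
  have hφo : φ o ≠ ⊤ := ENNReal.ne_top_of_tsum_ne_top hWt o
  obtain ⟨m₀, hm₀⟩ : ∃ m₀ : ℕ, ∀ s ∈ S, near P₁ P₂ m₀ o (s • o) := by
    choose f hf using fun s : Γ => exists_near hK₁ hK₂ o (s • o)
    exact ⟨S.sup f, fun s hs => near_mono hK₁ hK₂ (Finset.le_sup hs) (hf s)⟩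
  have hcc : 0 ≤ cc κ₁ + cc κ₂ :=
    add_nonneg (i7_cc hK₁.κ_pos hK₁.κ_le) (i7_cc hK₂.κ_pos hK₂.κ_le)
  have hWr : 0 < (∑' ω, φ ω).toReal := ENNReal.toReal_pos hW0 hWt
  refine ⟨1 / (4 * (∑' ω, φ ω).toReal), N, m₀ * (cc κ₁ + cc κ₂), by positivity,
    by positivity, ?_⟩
  intro R ε hε
  have hε' : ENNReal.ofReal ε * φ o / (N : ℝ≥0∞) ^ 2 ≠ 0 := by
    refine ENNReal.div_ne_zero.2 ⟨mul_ne_zero (ENNReal.ofReal_pos.2 hε).ne' ho, ?_⟩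
    exact ENNReal.pow_ne_top hNt
  obtain ⟨m, hm⟩ := sites hK₁ hK₂ hφ o (R + 2) hε'
  refine ⟨2 * m * (cc κ₁ + cc κ₂) + 1, (near_finite hK₁ hK₂ o (2 * m)).toFinset,
    by positivity, ?_⟩
  intro L δ hδ
  set X : ℝ≥0∞ := (N : ℝ≥0∞) * ENNReal.ofReal (Real.exp (m * (cc κ₁ + cc κ₂))) with hX
  have hX0 : X ≠ 0 := mul_ne_zero hN0' (ENNReal.ofReal_pos.2 (Real.exp_pos _)).ne'
  have hXt : X ≠ ⊤ := ENNReal.mul_ne_top hNt ENNReal.ofReal_ne_top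
  obtain ⟨lam, K, h1, h2, hsum⟩ := hm L (ENNReal.ofReal δ / X)
    (ENNReal.div_ne_zero.2 ⟨(ENNReal.ofReal_pos.2 hδ).ne', hXt⟩)
  have hδX : (N : ℝ≥0∞) * (ENNReal.ofReal (Real.exp (m * (cc κ₁ + cc κ₂))) *
      (ENNReal.ofReal δ / X)) ≤ ENNReal.ofReal δ := by
    rw [← mul_assoc, ← hX]
    exact (ENNReal.mul_div_cancel hX0 hXt).le
  refine ⟨fun γ => (g2 P₁ P₂ lam o (γ • o)).toReal,
    (near_finite hK₁ hK₂ o (K + m)).toFinset, isRate hK₁ hK₂ hφ h1 h2 o S hm₀, ?_⟩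
  intro W'
  have hg1 : ∀ x y, g2 P₁ P₂ lam x y ≠ ⊤ := fun x y =>
    ((g2_pos hK₁ hK₂ h1 h2 x y).2.trans_lt ENNReal.one_lt_top).ne
  set f : Ω₁ × Ω₂ → Ω₁ × Ω₂ → ℝ≥0∞ := fun ωi ωj =>
    g2 P₁ P₂ lam o ωi * g2 P₁ P₂ lam o ωj *
      ind (¬Good Γ P₁ P₂ lam o (R + 2) m L (ENNReal.ofReal δ / X) K o ωi ωj) with hf
  have hgood : ∀ q q' : Γ, Good Γ P₁ P₂ lam o (R + 2) m L (ENNReal.ofReal δ / X) K o
      (q • o) (q' • o) →
      GoodG (fun γ : Γ => (g2 P₁ P₂ lam o (γ • o)).toReal)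
        (near_finite hK₁ hK₂ o (2 * m)).toFinset (2 * m * (cc κ₁ + cc κ₂) + 1) R δ L
        (near_finite hK₁ hK₂ o (K + m)).toFinset q q' := by
    intro q q' h
    refine goodG_of_good hK₁ hK₂ h1 h2 o _ _ (fun γ hγ => ?_) (fun γ hγ => ?_) le_rfl hδ.le
      hδX h
    · rw [Set.Finite.mem_toFinset]; exact hγ
    · rw [Set.Finite.mem_toFinset]; exact hγ
  -- the sum over all pairs
  have hfsum : ∑' ωi, ∑' ωj, f ωi ωj ≤ ENNReal.ofReal ε / (N : ℝ≥0∞) ^ 2 := by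
    have e1 : φ o * ∑' ωi, ∑' ωj, f ωi ωj ≤ ENNReal.ofReal ε * φ o / (N : ℝ≥0∞) ^ 2 := by
      refine le_trans ?_ hsum
      rw [← ENNReal.tsum_mul_left]
      calc ∑' ωi, φ o * ∑' ωj, f ωi ωj = ∑' ωi, ∑' ωj, φ o * (g2 P₁ P₂ lam o ωi *
            g2 P₁ P₂ lam o ωj *
            ind (¬Good Γ P₁ P₂ lam o (R + 2) m L (ENNReal.ofReal δ / X) K o ωi ωj)) := by
            refine tsum_congr fun ωi => ?_
            rw [← ENNReal.tsum_mul_left]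
        _ ≤ _ := ENNReal.le_tsum (f := fun ω => ∑' ωi, ∑' ωj, φ ω * (g2 P₁ P₂ lam ω ωi *
            g2 P₁ P₂ lam ω ωj *
            ind (¬Good Γ P₁ P₂ lam o (R + 2) m L (ENNReal.ofReal δ / X) K ω ωi ωj))) o
    have e2 : ENNReal.ofReal ε * φ o / (N : ℝ≥0∞) ^ 2 =
        φ o * (ENNReal.ofReal ε / (N : ℝ≥0∞) ^ 2) := by
      rw [div_eq_mul_inv, div_eq_mul_inv]; ring
    rw [e2] at e1
    exact (ENNReal.mul_le_mul_iff_right ho hφo).1 e1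
  have key : ENNReal.ofReal (∑ q ∈ W', ∑ q' ∈ W',
      if GoodG (fun γ : Γ => (g2 P₁ P₂ lam o (γ • o)).toReal)
        (near_finite hK₁ hK₂ o (2 * m)).toFinset (2 * m * (cc κ₁ + cc κ₂) + 1) R δ L
        (near_finite hK₁ hK₂ o (K + m)).toFinset q q' then 0
      else (g2 P₁ P₂ lam o (q • o)).toReal * (g2 P₁ P₂ lam o (q' • o)).toReal) ≤
      ENNReal.ofReal ε := by
    have hnn : ∀ q q' : Γ, 0 ≤ (if GoodG (fun γ : Γ => (g2 P₁ P₂ lam o (γ • o)).toReal)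
        (near_finite hK₁ hK₂ o (2 * m)).toFinset (2 * m * (cc κ₁ + cc κ₂) + 1) R δ L
        (near_finite hK₁ hK₂ o (K + m)).toFinset q q' then 0
      else (g2 P₁ P₂ lam o (q • o)).toReal * (g2 P₁ P₂ lam o (q' • o)).toReal) := by
      intro q q'
      split_ifs
      · exact le_rfl
      · exact mul_nonneg ENNReal.toReal_nonneg ENNReal.toReal_nonneg
    rw [ENNReal.ofReal_sum_of_nonneg fun q _ => Finset.sum_nonneg fun q' _ => hnn q q']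
    calc ∑ q ∈ W', ENNReal.ofReal (∑ q' ∈ W',
          if GoodG (fun γ : Γ => (g2 P₁ P₂ lam o (γ • o)).toReal)
            (near_finite hK₁ hK₂ o (2 * m)).toFinset (2 * m * (cc κ₁ + cc κ₂) + 1) R δ L
            (near_finite hK₁ hK₂ o (K + m)).toFinset q q' then 0
          else (g2 P₁ P₂ lam o (q • o)).toReal * (g2 P₁ P₂ lam o (q' • o)).toReal)
        ≤ ∑ q ∈ W', ∑ q' ∈ W', f (q • o) (q' • o) := by
          refine Finset.sum_le_sum fun q _ => ?_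
          rw [ENNReal.ofReal_sum_of_nonneg fun q' _ => hnn q q']
          refine Finset.sum_le_sum fun q' _ => ?_
          by_cases hg : GoodG (fun γ : Γ => (g2 P₁ P₂ lam o (γ • o)).toReal)
            (near_finite hK₁ hK₂ o (2 * m)).toFinset (2 * m * (cc κ₁ + cc κ₂) + 1) R δ L
            (near_finite hK₁ hK₂ o (K + m)).toFinset q q'
          · rw [if_pos hg, ENNReal.ofReal_zero]; exact bot_le
          · rw [if_neg hg, ENNReal.ofReal_mul ENNReal.toReal_nonneg,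
              ENNReal.ofReal_toReal (hg1 _ _), ENNReal.ofReal_toReal (hg1 _ _)]
            have : ind (¬Good Γ P₁ P₂ lam o (R + 2) m L (ENNReal.ofReal δ / X) K o
                (q • o) (q' • o)) = 1 := ind_true fun h => hg (hgood q q' h)
            rw [hf]
            dsimp only
            rw [this, mul_one]
      _ ≤ ∑ q ∈ W', ∑' q' : Γ, f (q • o) (q' • o) :=
          Finset.sum_le_sum fun q _ => ENNReal.sum_le_tsum W'
      _ ≤ ∑' q : Γ, ∑' q' : Γ, f (q • o) (q' • o) := ENNReal.sum_le_tsum W'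
      _ ≤ (N : ℝ≥0∞) ^ 2 * ∑' ω, ∑' ω', f ω ω' := sum_orbit_pair_le o f
      _ ≤ (N : ℝ≥0∞) ^ 2 * (ENNReal.ofReal ε / (N : ℝ≥0∞) ^ 2) := by gcongr
      _ ≤ ENNReal.ofReal ε :=
          (ENNReal.mul_div_cancel (pow_ne_zero 2 hN0') (ENNReal.pow_ne_top hNt)).le
  have := (ENNReal.ofReal_le_ofReal_iff hε.le).1 key
  convert this

end Pool.Agent.FPP
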