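import Pool.Agent.FPP.Defs

open scoped ENNReal BigOperators
open MeasureTheory Filter Topology

namespace Pool.Agent.FPP

/-!
**[FPP-R1] Exponential laws.**
PROOF. `exists`: `ProbabilityTheory.expMeasure 1` (its cdf is `1 - exp (-x)` for `x ≥ 0`), or the image of Lebesgue measure on `(0, 1]` under `u ↦ - log u` (the preimage of `Ici t` is `(0, exp (-t)]`). `Ioi`: `Ioi t = ⋃ n, Ici (t + 1 / (n + 1))`, increasing, continuity of measure; or `ν (Ici t) ≥ ν (Ioi t) ≥ ν (Ici (t + ε))`. `Iic`: complement of `Ioi`. `1 - exp (-x) ≤ x`.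
-/

theorem exists_isExp : ∃ ν : Measure ℝ, IsExp ν := by
  have hp : IsProbabilityMeasure (ProbabilityTheory.expMeasure 1) :=
    ProbabilityTheory.isProbabilityMeasure_expMeasure one_pos
  refine ⟨ProbabilityTheory.expMeasure 1, hp, ?_⟩
  intro t ht
  set ν := ProbabilityTheory.expMeasure 1 with hν
  have hcdf := ProbabilityTheory.cdf_expMeasure_eq one_pos t
  rw [ProbabilityTheory.cdf_eq_real, if_pos ht, one_mul] at hcdf
  have h1 : ν (Set.Ioi t) = ENNReal.ofReal (Real.exp (-t)) := by
    have h2 : ν.real (Set.Ioi t) = Real.exp (-t) := by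
      rw [← Set.compl_Iic, probReal_compl_eq_one_sub measurableSet_Iic, hcdf]
      ring
    rw [← h2, ofReal_measureReal]
  have h0 : ν {t} = 0 := by
    have h3 : ν ≪ volume := withDensity_absolutelyContinuous _ _
    exact h3 (by simp)
  refine le_antisymm ?_ ?_
  · rw [← h1]
    calc ν (Set.Ici t) ≤ ν (Set.Ioi t ∪ {t}) := by
          refine measure_mono fun x hx => ?_
          rcases (lt_or_eq_of_le (show t ≤ x from hx)) with h | h
          · exact Or.inl h
          · exact Or.inr h.symm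
      _ ≤ ν (Set.Ioi t) + ν {t} := measure_union_le _ _
      _ = ν (Set.Ioi t) := by rw [h0, add_zero]
  · rw [← h1]
    exact measure_mono Set.Ioi_subset_Ici_self

theorem IsExp.Ioi {ν : Measure ℝ} (h : IsExp ν) {t : ℝ} (ht : 0 ≤ t) :
    ν (Set.Ioi t) = ENNReal.ofReal (Real.exp (-t)) := by
  refine le_antisymm ?_ ?_
  · rw [← h.tail t ht]
    exact measure_mono Set.Ioi_subset_Ici_self
  · have h1 : Tendsto (fun n : ℕ => ENNReal.ofReal (Real.exp (-(t + 1 / ((n : ℝ) + 1))))) atTop
        (𝓝 (ENNReal.ofReal (Real.exp (-(t + 0))))) := by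
      refine (ENNReal.continuous_ofReal.tendsto _).comp ?_
      refine (Real.continuous_exp.tendsto _).comp ?_
      refine Tendsto.neg ?_
      exact tendsto_const_nhds.add tendsto_one_div_add_atTop_nhds_zero_nat
    rw [add_zero] at h1
    refine le_of_tendsto h1 (Eventually.of_forall fun n => ?_)
    have h2 : (0 : ℝ) < 1 / ((n : ℝ) + 1) := by positivity
    rw [← h.tail _ (by linarith)]
    refine measure_mono fun x hx => ?_
    have h3 : t + 1 / ((n : ℝ) + 1) ≤ x := hx
    exact (show t < x by linarith)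

theorem IsExp.Iic {ν : Measure ℝ} (h : IsExp ν) {t : ℝ} (ht : 0 ≤ t) :
    ν (Set.Iic t) = ENNReal.ofReal (1 - Real.exp (-t)) := by
  have hp := h.prob
  have h1 := h.Ioi ht
  have h2 : ν.real (Set.Ioi t) = Real.exp (-t) := by
    unfold Measure.real
    rw [h1, ENNReal.toReal_ofReal (Real.exp_pos _).le]
  have h3 : ν.real (Set.Iic t) = 1 - Real.exp (-t) := by
    rw [← h2, ← Set.compl_Ioi, probReal_compl_eq_one_sub measurableSet_Ioi]
  rw [← h3, ofReal_measureReal]

theorem IsExp.Iic_le {ν : Measure ℝ} (h : IsExp ν) {t : ℝ} (ht : 0 ≤ t) :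
    ν (Set.Iic t) ≤ ENNReal.ofReal t := by
  rw [h.Iic ht]
  refine ENNReal.ofReal_le_ofReal ?_
  have h1 := Real.add_one_le_exp (-t)
  linarith

end Pool.Agent.FPP
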