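import Pool.Agent.FPP.Defs

open scoped ENNReal BigOperators
open MeasureTheory Filter Topology

namespace Pool.Agent.FPP

/-!
**[FPP-R5] Winners.**
PROOF. `exists_win`: minimise `(E w / k w, e w)` over the nonempty finset `W` for the lexicographic order of `ℝ ×ₗ ℕ` (`Finset.exists_min_image`); for `w' ≠ w` in `W` injectivity of `e` excludes equality. `win_unique`: two winners would be strictly smaller than each other. `win_measurable`: finite intersection of sets given by inequalities between measurable functions of `l` (`xt V l γ` is a coordinate of `l` or the constant `0`).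
-/

theorem exists_win {Γ : Type} (k : Γ → ℝ) {W : Finset Γ} (hW : W.Nonempty) {e : Γ → ℕ}
    (he : Function.Injective e) (E : Γ → ℝ) : ∃ w, Win k W e E w := by
  obtain ⟨w, hw, hmin⟩ := Finset.exists_min_image W (fun w => toLex (E w / k w, e w)) hW
  refine ⟨w, hw, fun w' hw' hne => ?_⟩
  have h1 := hmin w' hw'
  rw [Prod.Lex.le_iff] at h1
  rcases h1 with h1 | ⟨h1, h2⟩
  · exact Or.inl h1
  · refine Or.inr ⟨h1, lt_of_le_of_ne h2 fun h3 => hne (he h3).symm⟩

theorem win_unique {Γ : Type} {k : Γ → ℝ} {W : Finset Γ} {e : Γ → ℕ} {E : Γ → ℝ} {w w' : Γ}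
    (h : Win k W e E w) (h' : Win k W e E w') : w = w' := by
  by_contra hne
  have h1 := h.2 w' h'.1 (Ne.symm hne)
  have h2 := h'.2 w h.1 hne
  rcases h1 with h1 | ⟨h1, h3⟩
  · rcases h2 with h2 | ⟨h2, h4⟩
    · exact lt_asymm h1 h2
    · exact h1.ne h2.symm
  · rcases h2 with h2 | ⟨h2, h4⟩
    · exact h2.ne h1.symm
    · exact lt_asymm h3 h4

theorem r5_xt {Γ : Type} (V : Finset Γ) (γ : Γ) :
    Measurable fun l : V → Lb => xt V l γ := by
  by_cases h : γ ∈ V
  · have e : (fun l : V → Lb => xt V l γ) = fun l => l ⟨γ, h⟩ := by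
      funext l
      unfold xt
      exact dif_pos h
    rw [e]
    exact measurable_pi_apply _
  · have e : (fun l : V → Lb => xt V l γ) = fun _ => (0, 0) := by
      funext l
      unfold xt
      exact dif_neg h
    rw [e]
    exact measurable_const

theorem win_measurable {Γ : Type} (k : Γ → ℝ) (W V : Finset Γ) (e : Γ → ℕ) (w : Γ) :
    MeasurableSet {l : V → Lb | Win k W e (fun γ => (xt V l γ).1) w} := by
  by_cases hw : w ∈ W
  · have e1 : {l : V → Lb | Win k W e (fun γ => (xt V l γ).1) w} = ⋂ w' ∈ W, {l : V → Lb | w' ≠ w →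
        ((xt V l w).1 / k w < (xt V l w').1 / k w' ∨
          ((xt V l w).1 / k w = (xt V l w').1 / k w' ∧ e w < e w'))} := by
      ext l
      simp only [Set.mem_ofPred_eq, Set.mem_iInter]
      exact ⟨fun h => h.2, fun h => ⟨hw, h⟩⟩
    rw [e1]
    refine Finset.measurableSet_biInter W fun w' _ => ?_
    have m1 : Measurable fun l : V → Lb => (xt V l w).1 / k w := (r5_xt V w).fst.div_const _
    have m2 : Measurable fun l : V → Lb => (xt V l w').1 / k w' := (r5_xt V w').fst.div_const _
    by_cases hne : w' ≠ w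
    · have e2 : {l : V → Lb | w' ≠ w → ((xt V l w).1 / k w < (xt V l w').1 / k w' ∨
          ((xt V l w).1 / k w = (xt V l w').1 / k w' ∧ e w < e w'))} =
          {l : V → Lb | (xt V l w).1 / k w < (xt V l w').1 / k w'} ∪
            ({l : V → Lb | (xt V l w).1 / k w = (xt V l w').1 / k w'} ∩ {l : V → Lb | e w < e w'}) := by
        ext l
        simp only [Set.mem_ofPred_eq, Set.mem_union, Set.mem_inter_iff]
        exact ⟨fun h => h hne, fun h _ => h⟩
      rw [e2]
      exact (measurableSet_lt m1 m2).union ((measurableSet_eq_fun m1 m2).inter (MeasurableSet.const _))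
    · have e2 : {l : V → Lb | w' ≠ w → ((xt V l w).1 / k w < (xt V l w').1 / k w' ∨
          ((xt V l w).1 / k w = (xt V l w').1 / k w' ∧ e w < e w'))} = Set.univ := by
        ext l
        simp only [Set.mem_ofPred_eq, Set.mem_univ, iff_true]
        exact fun h => absurd h hne
      rw [e2]
      exact MeasurableSet.univ
  · have e1 : {l : V → Lb | Win k W e (fun γ => (xt V l γ).1) w} = ∅ := by
      ext l
      simp only [Set.mem_ofPred_eq, Set.mem_empty_iff_false, iff_false]
      exact fun h => hw h.1
    rw [e1]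
    exact MeasurableSet.empty

theorem xt_measurable {Γ : Type} (V : Finset Γ) (γ : Γ) :
    Measurable fun l : V → Lb => xt V l γ := r5_xt V γ

end Pool.Agent.FPP
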