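import Pool.Agent.FPP.Defs
import Pool.Agent.FPP.R1

open scoped ENNReal BigOperators
open MeasureTheory Filter Topology

namespace Pool.Agent.FPP

/-!
**[FPP-R2] Probabilities of boxes.**
PROOF. `box_measure`: the set is `Set.pi Set.univ fun i => A i ×ˢ B i`; `Measure.pi_pi`, `Measure.prod_prod`. `all_gt`: `A i = Ioi (t i)` for `i ∈ s`, `univ` otherwise, `B i = univ`; `∏ exp (- t i) = exp (- ∑ t i)`. `le_one_label`, `two_labels`: boxes with one or two restricted coordinates (`IsExp.Iic_le`), `second_label`: the second coordinate of one label.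
-/

theorem box_measure {V : Type} [Fintype V] {ν : Measure ℝ} (hν : IsExp ν) (A B : V → Set ℝ)
    (hA : ∀ i, MeasurableSet (A i)) (hB : ∀ i, MeasurableSet (B i)) :
    (Measure.pi fun _ : V => ν.prod ν) {l | ∀ i, (l i).1 ∈ A i ∧ (l i).2 ∈ B i} =
      ∏ i, ν (A i) * ν (B i) := by
  have hp : IsProbabilityMeasure ν := hν.prob
  have h1 : {l : V → ℝ × ℝ | ∀ i, (l i).1 ∈ A i ∧ (l i).2 ∈ B i} =
      Set.pi Set.univ fun i => A i ×ˢ B i := by
    ext l
    simp [Set.mem_pi]
  rw [h1, Measure.pi_pi]
  refine Finset.prod_congr rfl fun i _ => ?_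
  rw [Measure.prod_prod]

theorem all_gt {V : Type} [Fintype V] {ν : Measure ℝ} (hν : IsExp ν) (s : Finset V) (t : V → ℝ)
    (ht : ∀ i ∈ s, 0 ≤ t i) :
    (Measure.pi fun _ : V => ν.prod ν) {l | ∀ i ∈ s, t i < (l i).1} =
      ENNReal.ofReal (Real.exp (-∑ i ∈ s, t i)) := by
  classical
  have hp : IsProbabilityMeasure ν := hν.prob
  have h1 : {l : V → ℝ × ℝ | ∀ i ∈ s, t i < (l i).1} =
      {l | ∀ i, (l i).1 ∈ (if i ∈ s then Set.Ioi (t i) else Set.univ) ∧
        (l i).2 ∈ (Set.univ : Set ℝ)} := by
    ext l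
    constructor
    · intro h i
      refine ⟨?_, Set.mem_univ _⟩
      by_cases hi : i ∈ s
      · rw [if_pos hi]
        exact h i hi
      · rw [if_neg hi]
        exact Set.mem_univ _
    · intro h i hi
      have h2 := (h i).1
      rw [if_pos hi] at h2
      exact h2
  rw [h1, box_measure hν (fun i => if i ∈ s then Set.Ioi (t i) else Set.univ) (fun _ => Set.univ)
    (fun i => by
      show MeasurableSet (if i ∈ s then Set.Ioi (t i) else Set.univ)
      split_ifs
      · exact measurableSet_Ioi
      · exact MeasurableSet.univ) fun _ => MeasurableSet.univ]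
  have h2 : ∀ i ∈ (Finset.univ : Finset V), ν (if i ∈ s then Set.Ioi (t i) else Set.univ) *
      ν (Set.univ : Set ℝ) = if i ∈ s then ENNReal.ofReal (Real.exp (-t i)) else 1 := by
    intro i _
    rw [measure_univ, mul_one]
    by_cases hi : i ∈ s
    · rw [if_pos hi, if_pos hi, hν.Ioi (ht i hi)]
    · rw [if_neg hi, if_neg hi, measure_univ]
  rw [Finset.prod_congr rfl h2, Finset.prod_ite_mem, Finset.univ_inter,
    ← ENNReal.ofReal_prod_of_nonneg fun i _ => (Real.exp_pos _).le, ← Real.exp_sum,
    Finset.sum_neg_distrib]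

theorem r2_one {V : Type} [Fintype V] {ν : Measure ℝ} (hν : IsExp ν) (i : V) (A B : Set ℝ)
    (hA : MeasurableSet A) (hB : MeasurableSet B) :
    (Measure.pi fun _ : V => ν.prod ν) {l | (l i).1 ∈ A ∧ (l i).2 ∈ B} = ν A * ν B := by
  classical
  have hp : IsProbabilityMeasure ν := hν.prob
  have h1 : {l : V → ℝ × ℝ | (l i).1 ∈ A ∧ (l i).2 ∈ B} =
      {l | ∀ k, (l k).1 ∈ (if k = i then A else Set.univ) ∧
        (l k).2 ∈ (if k = i then B else Set.univ)} := by
    ext l
    constructor
    · intro h k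
      by_cases hk : k = i
      · rw [if_pos hk, if_pos hk, hk]
        exact h
      · rw [if_neg hk, if_neg hk]
        exact ⟨Set.mem_univ _, Set.mem_univ _⟩
    · intro h
      have h2 := h i
      rw [if_pos rfl, if_pos rfl] at h2
      exact h2
  rw [h1, box_measure hν (fun k => if k = i then A else Set.univ)
    (fun k => if k = i then B else Set.univ)
    (fun k => by
      show MeasurableSet (if k = i then A else Set.univ)
      split_ifs
      · exact hA
      · exact MeasurableSet.univ)
    (fun k => by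
      show MeasurableSet (if k = i then B else Set.univ)
      split_ifs
      · exact hB
      · exact MeasurableSet.univ)]
  have h2 : ∀ k ∈ (Finset.univ : Finset V), ν (if k = i then A else Set.univ) *
      ν (if k = i then B else Set.univ) = if k = i then ν A * ν B else 1 := by
    intro k _
    by_cases hk : k = i
    · rw [if_pos hk, if_pos hk, if_pos hk]
    · rw [if_neg hk, if_neg hk, if_neg hk, measure_univ, mul_one]
  rw [Finset.prod_congr rfl h2, Finset.prod_ite_eq' Finset.univ i, if_pos (Finset.mem_univ i)]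

theorem r2_two {V : Type} [Fintype V] {ν : Measure ℝ} (hν : IsExp ν) {i j : V} (hij : i ≠ j)
    (A B : Set ℝ) (hA : MeasurableSet A) (hB : MeasurableSet B) :
    (Measure.pi fun _ : V => ν.prod ν) {l | (l i).1 ∈ A ∧ (l j).1 ∈ B} = ν A * ν B := by
  classical
  have hp : IsProbabilityMeasure ν := hν.prob
  have h1 : {l : V → ℝ × ℝ | (l i).1 ∈ A ∧ (l j).1 ∈ B} =
      {l | ∀ k, (l k).1 ∈ (if k = i then A else if k = j then B else Set.univ) ∧
        (l k).2 ∈ (Set.univ : Set ℝ)} := by
    ext l
    constructor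
    · intro h k
      refine ⟨?_, Set.mem_univ _⟩
      by_cases hk : k = i
      · rw [if_pos hk, hk]
        exact h.1
      · rw [if_neg hk]
        by_cases hk' : k = j
        · rw [if_pos hk', hk']
          exact h.2
        · rw [if_neg hk']
          exact Set.mem_univ _
    · intro h
      have h2 := (h i).1
      rw [if_pos rfl] at h2
      have h3 := (h j).1
      rw [if_neg hij.symm, if_pos rfl] at h3
      exact ⟨h2, h3⟩
  rw [h1, box_measure hν (fun k => if k = i then A else if k = j then B else Set.univ)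
    (fun _ => Set.univ)
    (fun k => by
      show MeasurableSet (if k = i then A else if k = j then B else Set.univ)
      split_ifs
      · exact hA
      · exact hB
      · exact MeasurableSet.univ)
    (fun _ => MeasurableSet.univ)]
  have h2 : ∀ k ∈ (Finset.univ : Finset V),
      ν (if k = i then A else if k = j then B else Set.univ) * ν (Set.univ : Set ℝ) =
      (if k = i then ν A else 1) * (if k = j then ν B else 1) := by
    intro k _
    rw [measure_univ, mul_one]
    by_cases hk : k = i
    · have hk' : ¬ k = j := fun h => hij (hk.symm.trans h)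
      rw [if_pos hk, if_pos hk, if_neg hk', mul_one]
    · rw [if_neg hk, if_neg hk, one_mul]
      by_cases hk' : k = j
      · rw [if_pos hk', if_pos hk']
      · rw [if_neg hk', if_neg hk', measure_univ]
  rw [Finset.prod_congr rfl h2, Finset.prod_mul_distrib, Finset.prod_ite_eq' Finset.univ i,
    Finset.prod_ite_eq' Finset.univ j, if_pos (Finset.mem_univ i), if_pos (Finset.mem_univ j)]

theorem le_one_label {V : Type} [Fintype V] {ν : Measure ℝ} (hν : IsExp ν) (i : V) {x : ℝ}
    (hx : 0 ≤ x) :
    (Measure.pi fun _ : V => ν.prod ν) {l | (l i).1 ≤ x} ≤ ENNReal.ofReal x := by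
  have hp : IsProbabilityMeasure ν := hν.prob
  have h1 : {l : V → ℝ × ℝ | (l i).1 ≤ x} =
      {l | (l i).1 ∈ Set.Iic x ∧ (l i).2 ∈ (Set.univ : Set ℝ)} := by
    ext l
    simp
  rw [h1, r2_one hν i _ _ measurableSet_Iic MeasurableSet.univ, measure_univ, mul_one]
  exact hν.Iic_le hx

theorem two_labels {V : Type} [Fintype V] {ν : Measure ℝ} (hν : IsExp ν) {i j : V} (hij : i ≠ j)
    {x y : ℝ} (hx : 0 ≤ x) (hy : 0 ≤ y) :
    (Measure.pi fun _ : V => ν.prod ν) {l | (l i).1 ≤ x ∧ (l j).1 ≤ y} ≤
      ENNReal.ofReal (x * y) := by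
  have h1 : {l : V → ℝ × ℝ | (l i).1 ≤ x ∧ (l j).1 ≤ y} =
      {l | (l i).1 ∈ Set.Iic x ∧ (l j).1 ∈ Set.Iic y} := rfl
  rw [h1, r2_two hν hij _ _ measurableSet_Iic measurableSet_Iic, ENNReal.ofReal_mul hx]
  exact mul_le_mul' (hν.Iic_le hx) (hν.Iic_le hy)

theorem second_label {V : Type} [Fintype V] {ν : Measure ℝ} (hν : IsExp ν) (i : V) {x : ℝ}
    (hx : 0 ≤ x) :
    (Measure.pi fun _ : V => ν.prod ν) {l | (l i).2 ≤ x} ≤ ENNReal.ofReal x := by
  have hp : IsProbabilityMeasure ν := hν.prob
  have h1 : {l : V → ℝ × ℝ | (l i).2 ≤ x} =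
      {l | (l i).1 ∈ (Set.univ : Set ℝ) ∧ (l i).2 ∈ Set.Iic x} := by
    ext l
    simp
  rw [h1, r2_one hν i _ _ MeasurableSet.univ measurableSet_Iic, measure_univ, one_mul]
  exact hν.Iic_le hx

end Pool.Agent.FPP
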