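import Pool.Agent.FPP.Defs
import Pool.Agent.FPP.R1
import Pool.Agent.FPP.R2
import Pool.Agent.FPP.R5

open scoped ENNReal BigOperators
open MeasureTheory Filter Topology

namespace Pool.Agent.FPP

/-!
**[FPP-R6] Cost of the rule.**
PROOF. The events in the first sum are pairwise disjoint (`win_unique`) measurable (`win_measurable`) sets of a probability space (`hν.prob`), so the first sum is at most `1` (`tsum_measure_le_measure_univ` or `measure_biUnion_finset`, `prob_le_one`). The second sum has `S'.card` equal terms, each at most `ofReal τ` (`second_label` at the point `1 ∈ V`, `xt V l 1 = l ⟨1, h1⟩`).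
-/

theorem rule_cost {Γ : Type} [Group Γ] {ν : Measure ℝ} (hν : IsExp ν) (k : Γ → ℝ)
    (W V S' : Finset Γ) (h1 : (1 : Γ) ∈ V) (e : Γ → ℕ) {τ : ℝ} (hτ : 0 ≤ τ) :
    ∑ w ∈ W, (Measure.pi fun _ : V => ν.prod ν)
        {l : V → Lb | Win k W e (fun γ => (xt V l γ).1) w} +
      ∑ _t ∈ S', (Measure.pi fun _ : V => ν.prod ν) {l : V → Lb | (xt V l 1).2 ≤ τ} ≤
      1 + S'.card * ENNReal.ofReal τ := by
  classical
  have := hν.prob
  refine add_le_add ?_ ?_
  · have hdis : Set.PairwiseDisjoint (↑W : Set Γ)
        (fun w => {l : V → Lb | Win k W e (fun γ => (xt V l γ).1) w}) := by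
      intro w _ w' _ hww
      refine Set.disjoint_left.2 ?_
      intro l hl hl'
      rw [Set.mem_ofPred_eq] at hl hl'
      exact hww (win_unique hl hl')
    rw [← measure_biUnion_finset hdis (fun w _ => win_measurable k W V e w)]
    exact prob_le_one
  · have h2 : ∀ t ∈ S', (Measure.pi fun _ : V => ν.prod ν) {l : V → Lb | (xt V l 1).2 ≤ τ} ≤
        ENNReal.ofReal τ := by
      intro t _
      have h3 : {l : V → Lb | (xt V l 1).2 ≤ τ} = {l : V → Lb | (l (⟨1, h1⟩ : V)).2 ≤ τ} := by
        ext l
        simp [xt, h1]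
      rw [h3]
      exact second_label hν (⟨1, h1⟩ : V) hτ
    refine (Finset.sum_le_sum h2).trans ?_
    rw [Finset.sum_const, nsmul_eq_mul]

end Pool.Agent.FPP
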