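import Pool.Agent.FPP.Defs

open scoped ENNReal BigOperators
open MeasureTheory Filter Topology

namespace Pool.Agent.FPP

/-!
**[FPP-R7] A site makes the two cells touch.**
PROOF. Write `Ei = E q`, `Ej = E q'`. At `u`: for `w ∈ W`, `w ≠ u⁻¹ * q`: if `u * w = q'`, i.e. `w = u⁻¹ * q'`: `Ei / k (u⁻¹ q) < Ej / k (u⁻¹ q')` because `exp R * (k (u⁻¹ q') * k q) ≤ k (u⁻¹ q) * k q'`, `Ei * k q' ≤ Ej * k q` (`hle`), `Ei > 0`, `exp R > 1`. Otherwise `u * w ≠ q, q'`, `E (u * w) > T * exp C * k w` (`hN` with `γ = u * w`), so `E (u * w) / k w > T * exp C ≥ T ≥ exp C * (Ei / k q) ≥ Ei / k (u⁻¹ q)`, where `T = exp C * M`, `Ei ≤ M * k q`. At `v`: for `w = v⁻¹ * q`: `exp R * (k (v⁻¹ q) * k q') ≤ k (v⁻¹ q') * k q` and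
`Ej * k q ≤ exp (2 c) * (Ei * k q')` (`hge`), so `Ej * k (v⁻¹ q) ≤ exp (2 c - R) * Ei * k (v⁻¹ q') < Ei * k (v⁻¹ q')`. For other `w`: `E (v * w) > T * exp C * k (u⁻¹ * (v * w)) ≥ T * k (v⁻¹ * (v * w)) = T * k w` by the last condition of `Site`, and `Ej / k (v⁻¹ q') ≤ exp C * Ej / k q' ≤ exp C * M = T`. (`div_lt_div_iff₀`, `div_le_iff₀`.) Both winners are strict.
-/

theorem site_win {Γ : Type} [Group Γ] {k : Γ → ℝ} (hk : ∀ γ, 0 < k γ) {S' K W : Finset Γ}
    {C R M c : ℝ} (hC : 0 ≤ C) (hR : 2 * c < R) (hc : 0 ≤ c) (hM : 0 < M) (e : Γ → ℕ) (E : Γ → ℝ)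
    {q q' u v : Γ} (hS : Site k S' C R K q q' u v) (hq : 0 < E q) (hq' : 0 < E q')
    (hqM : E q ≤ M * k q) (hqM' : E q' ≤ M * k q') (hle : E q * k q' ≤ E q' * k q)
    (hge : E q' * k q ≤ Real.exp (2 * c) * (E q * k q')) (hu : u⁻¹ * q ∈ W) (hv : v⁻¹ * q' ∈ W)
    (hN : ∀ γ, (u⁻¹ * γ ∈ W ∨ v⁻¹ * γ ∈ W) → γ ≠ q → γ ≠ q' →
      Real.exp C * M * Real.exp C * k (u⁻¹ * γ) < E γ) :
    Win k W e (fun γ => E (u * γ)) (u⁻¹ * q) ∧ Win k W e (fun γ => E (v * γ)) (v⁻¹ * q') := by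
  obtain ⟨-, -, -, hkq, hkq', hRu, hRv, hvu⟩ := hS
  have hR0 : 0 < R := by linarith
  have hexpR : 1 < Real.exp R := Real.one_lt_exp_iff.2 hR0
  have hexpC : 1 ≤ Real.exp C := Real.one_le_exp hC
  have hkuq := hk (u⁻¹ * q)
  have hkuq' := hk (u⁻¹ * q')
  have hkvq := hk (v⁻¹ * q)
  have hkvq' := hk (v⁻¹ * q')
  have hq0 := hk q
  have hq0' := hk q'
  refine ⟨⟨hu, fun w hw hwne => Or.inl ?_⟩, ⟨hv, fun w hw hwne => Or.inl ?_⟩⟩
  · -- at u
    show E (u * (u⁻¹ * q)) / k (u⁻¹ * q) < E (u * w) / k w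
    rw [mul_inv_cancel_left]
    by_cases hw' : u * w = q'
    · have hwe : w = u⁻¹ * q' := by rw [← hw', inv_mul_cancel_left]
      rw [hw', hwe, div_lt_div_iff₀ hkuq hkuq']
      -- E q * k (u⁻¹ q') < E q' * k (u⁻¹ q)
      have h1 : k (u⁻¹ * q') * k q < k (u⁻¹ * q) * k q' := by
        have h0 : 0 < k (u⁻¹ * q') * k q := mul_pos hkuq' hq0
        nlinarith
      -- multiply by E q and use hle
      have h2 : E q * k (u⁻¹ * q') * k q < E q' * k (u⁻¹ * q) * k q := by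
        calc E q * k (u⁻¹ * q') * k q = E q * (k (u⁻¹ * q') * k q) := by ring
          _ < E q * (k (u⁻¹ * q) * k q') := by gcongr
          _ = (E q * k q') * k (u⁻¹ * q) := by ring
          _ ≤ (E q' * k q) * k (u⁻¹ * q) := by gcongr
          _ = E q' * k (u⁻¹ * q) * k q := by ring
      exact lt_of_mul_lt_mul_right h2 hq0.le
    · have hwq : u * w ≠ q := by
        intro h
        exact hwne (by rw [← h, inv_mul_cancel_left])
      have h1 := hN (u * w) (Or.inl (by rwa [inv_mul_cancel_left])) hwq hw'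
      rw [inv_mul_cancel_left] at h1
      have hkw := hk w
      rw [div_lt_div_iff₀ hkuq hkw]
      calc E q * k w ≤ (M * k q) * k w := by gcongr
        _ ≤ (M * (Real.exp C * k (u⁻¹ * q))) * k w := by gcongr
        _ = (Real.exp C * M * 1 * k w) * k (u⁻¹ * q) := by ring
        _ ≤ (Real.exp C * M * Real.exp C * k w) * k (u⁻¹ * q) := by gcongr
        _ < E (u * w) * k (u⁻¹ * q) := by gcongr
  · -- at v
    show E (v * (v⁻¹ * q')) / k (v⁻¹ * q') < E (v * w) / k w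
    rw [mul_inv_cancel_left]
    by_cases hw' : v * w = q
    · have hwe : w = v⁻¹ * q := by rw [← hw', inv_mul_cancel_left]
      rw [hw', hwe, div_lt_div_iff₀ hkvq' hkvq]
      -- E q' * k (v⁻¹ q) < E q * k (v⁻¹ q')
      have h0 : 0 < k (v⁻¹ * q) * k q' := mul_pos hkvq hq0'
      have h1 : Real.exp (2 * c) * (k (v⁻¹ * q) * k q') < k (v⁻¹ * q') * k q := by
        refine lt_of_lt_of_le ?_ hRv
        have : Real.exp (2 * c) < Real.exp R := Real.exp_lt_exp.2 hR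
        gcongr
      have h2 : E q' * k (v⁻¹ * q) * k q < E q * k (v⁻¹ * q') * k q := by
        calc E q' * k (v⁻¹ * q) * k q = (E q' * k q) * k (v⁻¹ * q) := by ring
          _ ≤ (Real.exp (2 * c) * (E q * k q')) * k (v⁻¹ * q) := by gcongr
          _ = E q * (Real.exp (2 * c) * (k (v⁻¹ * q) * k q')) := by ring
          _ < E q * (k (v⁻¹ * q') * k q) := by gcongr
          _ = E q * k (v⁻¹ * q') * k q := by ring
      exact lt_of_mul_lt_mul_right h2 hq0.le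
    · have hwq : v * w ≠ q' := by
        intro h
        exact hwne (by rw [← h, inv_mul_cancel_left])
      have h1 := hN (v * w) (Or.inr (by rwa [inv_mul_cancel_left])) hw' hwq
      have h3 := hvu (v * w)
      rw [inv_mul_cancel_left] at h3
      have hkw := hk w
      rw [div_lt_div_iff₀ hkvq' hkw]
      calc E q' * k w ≤ (M * k q') * k w := by gcongr
        _ ≤ (M * (Real.exp C * k (v⁻¹ * q'))) * k w := by gcongr
        _ = (Real.exp C * M * k w) * k (v⁻¹ * q') := by ring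
        _ ≤ (Real.exp C * M * (Real.exp C * k (u⁻¹ * (v * w)))) * k (v⁻¹ * q') := by gcongr
        _ = (Real.exp C * M * Real.exp C * k (u⁻¹ * (v * w))) * k (v⁻¹ * q') := by ring
        _ < E (v * w) * k (v⁻¹ * q') := by gcongr

end Pool.Agent.FPP
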