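import Pool.Agent.FPP.Defs
import Pool.Agent.FPP.R5
import Pool.Agent.FPP.R7

open scoped ENNReal BigOperators
open MeasureTheory Filter Topology

namespace Pool.Agent.FPP

/-!
**[FPP-R8] Connection of `1` and `s`.**
PROOF. Let `adj a b` be the relation in the conclusion. `W` is nonempty (`hA1`). Let `w` be the winner at `1`: `Win k W e (fun γ => E (1 * γ)) w` (`exists_win`), `q = w`; by `hA1` and minimality `E q ≤ M * k q`, so `q ∈ W₁` by `hA2`. Let `w'` be the winner at `s`, `q' = s * w'`. Since `q ∈ W₁`, `s⁻¹ * q ∈ W`, and `E q' / k (s⁻¹ q') ≤ E q / k (s⁻¹ q) ≤ exp c * E q / k q ≤ exp c * M`; so `q' ∈ W₁` by `hA3`. If `q = q'`: `adj 1 q`, `adj s q'`. If `q ≠ q'`: `E q' ≤ exp c * M * k (s⁻¹ q') ≤ exp (2 c) * M * k q'`, `E q ≤ M * k q`; both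
positive by `hA0`. `q' ∈ W₁ ⊆ W` gives `E q * k q' ≤ E q' * k q` (`q` wins at `1`), and `q` loses at `s`: `E q' * k (s⁻¹ q) ≤ E q * k (s⁻¹ q')`, so `E q' * k q ≤ exp (2 c) * (E q * k q')`. By `hC` there is a site `u, v`; `site_win` with `M := exp (2 c) * M` says that `q` wins at `u` and `q'` wins at `v` (`u * (u⁻¹ * q) = q`). So `1 - q - u - v - q' - s` is a path: `adj 1 q`, `adj u q`, `adj v u` (`u = v * (v⁻¹ * u)`, `v⁻¹ * u ∈ S'`, second label `≤ τ`), `adj v q'`, `adj s q'`.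
-/

theorem r8_win_le {Γ : Type} {k : Γ → ℝ} (hk : ∀ γ, 0 < k γ) {W : Finset Γ} {e : Γ → ℕ}
    {E : Γ → ℝ} {w w' : Γ} (h : Win k W e E w) (hw' : w' ∈ W) : E w * k w' ≤ E w' * k w := by
  by_cases hww : w' = w
  · rw [hww]
  have h0 := h.2 w' hw' hww
  have h1 : E w / k w ≤ E w' / k w' := by
    rcases h0 with h2 | h2
    · exact h2.le
    · exact h2.1.le
  rwa [div_le_div_iff₀ (hk w) (hk w')] at h1

theorem connect {Γ : Type} [Group Γ] {k : Γ → ℝ} (hk : ∀ γ, 0 < k γ) {S' K W W₁ : Finset Γ}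
    {C R M c τ : ℝ} (hC0 : 0 ≤ C) (hR : 2 * c < R) (hc : 0 ≤ c) (hM : 0 < M) {e : Γ → ℕ}
    (he : Function.Injective e) (l : Γ → Lb) {s : Γ}
    (hs : ∀ γ, k (s⁻¹ * γ) ≤ Real.exp c * k γ ∧ k γ ≤ Real.exp c * k (s⁻¹ * γ))
    (hW₁ : W₁ ⊆ W) (hW₁s : ∀ w ∈ W₁, s⁻¹ * w ∈ W) (hW₁K : ∀ u ∈ K, ∀ w ∈ W₁, u⁻¹ * w ∈ W)
    (hA0 : ∀ γ ∈ W₁, 0 < (l γ).1) (hA1 : ∃ γ ∈ W, (l γ).1 ≤ M * k γ)
    (hA2 : ∀ γ ∈ W, (l γ).1 ≤ M * k γ → γ ∈ W₁)
    (hA3 : ∀ w ∈ W, (l (s * w)).1 ≤ Real.exp c * M * k w → s * w ∈ W₁)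
    (hC : ∀ q ∈ W₁, ∀ q' ∈ W₁, q ≠ q' → (l q).1 ≤ Real.exp (2 * c) * M * k q →
      (l q').1 ≤ Real.exp (2 * c) * M * k q' → ∃ u v, Site k S' C R K q q' u v ∧
        (∀ γ, (u⁻¹ * γ ∈ W ∨ v⁻¹ * γ ∈ W) → γ ≠ q → γ ≠ q' →
          Real.exp C * (Real.exp (2 * c) * M) * Real.exp C * k (u⁻¹ * γ) < (l γ).1) ∧
        (l v).2 ≤ τ) :
    Relation.EqvGen (fun a b => (∃ w, Win k W e (fun γ => (l (a * γ)).1) w ∧ b = a * w) ∨
      (∃ t ∈ S', (l a).2 ≤ τ ∧ b = a * t)) 1 s := by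
  obtain ⟨γ0, hγ0, hγ0M⟩ := hA1
  have hW : W.Nonempty := ⟨γ0, hγ0⟩
  have hexp : 0 < Real.exp c := Real.exp_pos c
  have hexp2 : Real.exp (2 * c) = Real.exp c * Real.exp c := by
    rw [← Real.exp_add]
    congr 1
    ring
  obtain ⟨q, hq⟩ := exists_win k hW he (fun γ => (l (1 * γ)).1)
  have hq1 : Win k W e (fun γ => (l γ).1) q := by simpa only [one_mul] using hq
  have hqM : (l q).1 ≤ M * k q := by
    have h1 := r8_win_le hk hq1 hγ0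
    have h2 : (l γ0).1 * k q ≤ M * k γ0 * k q := mul_le_mul_of_nonneg_right hγ0M (hk q).le
    have h3 : (l q).1 * k γ0 ≤ (M * k q) * k γ0 := by
      calc (l q).1 * k γ0 ≤ (l γ0).1 * k q := h1
        _ ≤ M * k γ0 * k q := h2
        _ = (M * k q) * k γ0 := by ring
    exact le_of_mul_le_mul_right h3 (hk γ0)
  have hqW₁ : q ∈ W₁ := hA2 q hq1.1 hqM
  have hq0 := hA0 q hqW₁
  obtain ⟨w, hw⟩ := exists_win k hW he (fun γ => (l (s * γ)).1)
  have h4 : (l (s * w)).1 * k (s⁻¹ * q) ≤ (l q).1 * k w := by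
    have h5 := r8_win_le hk hw (hW₁s q hqW₁)
    simpa only [mul_inv_cancel_left] using h5
  have h6 : (l (s * w)).1 ≤ Real.exp c * M * k w := by
    have h7 : (l q).1 * k w ≤ M * k q * k w := mul_le_mul_of_nonneg_right hqM (hk w).le
    have h8 : M * k q * k w ≤ M * (Real.exp c * k (s⁻¹ * q)) * k w :=
      mul_le_mul_of_nonneg_right (mul_le_mul_of_nonneg_left (hs q).2 hM.le) (hk w).le
    have h9 : (l (s * w)).1 * k (s⁻¹ * q) ≤ (Real.exp c * M * k w) * k (s⁻¹ * q) := by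
      calc (l (s * w)).1 * k (s⁻¹ * q) ≤ (l q).1 * k w := h4
        _ ≤ M * k q * k w := h7
        _ ≤ M * (Real.exp c * k (s⁻¹ * q)) * k w := h8
        _ = _ := by ring
    exact le_of_mul_le_mul_right h9 (hk _)
  have hqW₁' : s * w ∈ W₁ := hA3 w hw.1 h6
  have hq0' := hA0 _ hqW₁'
  have r1 : (∃ w, Win k W e (fun γ => (l (1 * γ)).1) w ∧ q = 1 * w) := ⟨q, hq, (one_mul q).symm⟩
  have r2 : (∃ w', Win k W e (fun γ => (l (s * γ)).1) w' ∧ s * w = s * w') := ⟨w, hw, rfl⟩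
  by_cases hqq : q = s * w
  · rw [← hqq] at r2
    exact Relation.EqvGen.trans _ q _ (Relation.EqvGen.rel _ _ (Or.inl r1))
      (Relation.EqvGen.symm _ _ (Relation.EqvGen.rel _ _ (Or.inl r2)))
  obtain ⟨q', hq'⟩ : ∃ q', q' = s * w := ⟨_, rfl⟩
  rw [← hq'] at r2 hqq hqW₁' hq0' h4 h6
  have hkw : k w ≤ Real.exp c * k q' := by
    have := (hs q').1
    rw [hq', inv_mul_cancel_left] at this
    rwa [hq']
  have hqM' : (l q').1 ≤ Real.exp (2 * c) * M * k q' := by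
    calc (l q').1 ≤ Real.exp c * M * k w := h6
      _ ≤ Real.exp c * M * (Real.exp c * k q') := mul_le_mul_of_nonneg_left hkw (by positivity)
      _ = _ := by
        rw [hexp2]
        ring
  have hone : 1 ≤ Real.exp (2 * c) := Real.one_le_exp (by linarith)
  have hqM2 : (l q).1 ≤ Real.exp (2 * c) * M * k q := by
    have : 0 ≤ M * k q := mul_nonneg hM.le (hk q).le
    calc (l q).1 ≤ M * k q := hqM
      _ ≤ Real.exp (2 * c) * (M * k q) := le_mul_of_one_le_left this hone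
      _ = _ := by ring
  have hle : (l q).1 * k q' ≤ (l q').1 * k q := r8_win_le hk hq1 (hW₁ hqW₁')
  have hge : (l q').1 * k q ≤ Real.exp (2 * c) * ((l q).1 * k q') := by
    calc (l q').1 * k q ≤ (l q').1 * (Real.exp c * k (s⁻¹ * q)) :=
          mul_le_mul_of_nonneg_left (hs q).2 hq0'.le
      _ = Real.exp c * ((l q').1 * k (s⁻¹ * q)) := by ring
      _ ≤ Real.exp c * ((l q).1 * k w) := mul_le_mul_of_nonneg_left h4 hexp.le
      _ ≤ Real.exp c * ((l q).1 * (Real.exp c * k q')) :=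
          mul_le_mul_of_nonneg_left (mul_le_mul_of_nonneg_left hkw hq0.le) hexp.le
      _ = _ := by
        rw [hexp2]
        ring
  obtain ⟨u, v, hS, hN, hτ⟩ := hC q hqW₁ q' hqW₁' hqq hqM2 hqM'
  obtain ⟨hu, hv⟩ := site_win hk hC0 hR hc (mul_pos (Real.exp_pos (2 * c)) hM) e
    (fun γ => (l γ).1) hS hq0 hq0' hqM2 hqM' hle hge (hW₁K u hS.1 q hqW₁)
    (hW₁K v hS.2.1 q' hqW₁') hN
  have a1 := Relation.EqvGen.rel (r := fun a b =>
      (∃ w, Win k W e (fun γ => (l (a * γ)).1) w ∧ b = a * w) ∨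
      (∃ t ∈ S', (l a).2 ≤ τ ∧ b = a * t)) 1 q (Or.inl r1)
  have a2 := Relation.EqvGen.rel (r := fun a b =>
      (∃ w, Win k W e (fun γ => (l (a * γ)).1) w ∧ b = a * w) ∨
      (∃ t ∈ S', (l a).2 ≤ τ ∧ b = a * t)) u q
      (Or.inl ⟨u⁻¹ * q, hu, (mul_inv_cancel_left u q).symm⟩)
  have a3 := Relation.EqvGen.rel (r := fun a b =>
      (∃ w, Win k W e (fun γ => (l (a * γ)).1) w ∧ b = a * w) ∨
      (∃ t ∈ S', (l a).2 ≤ τ ∧ b = a * t)) v u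
      (Or.inr ⟨v⁻¹ * u, hS.2.2.1, hτ, (mul_inv_cancel_left v u).symm⟩)
  have a4 := Relation.EqvGen.rel (r := fun a b =>
      (∃ w, Win k W e (fun γ => (l (a * γ)).1) w ∧ b = a * w) ∨
      (∃ t ∈ S', (l a).2 ≤ τ ∧ b = a * t)) v q'
      (Or.inl ⟨v⁻¹ * q', hv, (mul_inv_cancel_left v q').symm⟩)
  have a5 := Relation.EqvGen.rel (r := fun a b =>
      (∃ w, Win k W e (fun γ => (l (a * γ)).1) w ∧ b = a * w) ∨
      (∃ t ∈ S', (l a).2 ≤ τ ∧ b = a * t)) s q' (Or.inl r2)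
  exact a1.trans _ _ _ ((a2.symm _ _).trans _ _ _ ((a3.symm _ _).trans _ _ _
    (a4.trans _ _ _ (a5.symm _ _))))

end Pool.Agent.FPP
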