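import Pool.Agent.FPP.Defs

open scoped ENNReal BigOperators
open MeasureTheory Filter Topology

namespace Pool.Agent.FPP

/-!
**[FPP-R3] Second moment method.**
PROOF. Let `s = ∑ n, a n > 0` and `N x = ∑ n, indicator (A n) 1 x` (real). `∫ x in F, (N x - s) ^ 2 ∂μ = ∑ n, ∑ n', μ (F ∩ A n ∩ A n') - 2 s ∑ n, μ (F ∩ A n) + s ^ 2 μ F ≤ (∑ n, f a n + ∑ n ≠ n', f K a n a n') - 2 s f s + s ^ 2 f ≤ f (s + (K - 1) s ^ 2)` (real values of the measures; for `n = n'` the set is `F ∩ A n`; `∑ n ≠ n', a n a n' ≤ s ^ 2`, `K ≥ 1`). On `F \ ⋃ n, A n` the integrand is `s ^ 2`, so `s ^ 2 μ (F \ ⋃ n, A n) ≤ f (s + (K - 1) s ^ 2)`; divide by `s ^ 2`.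
-/

theorem second_moment {X : Type} [MeasurableSpace X] (μ : Measure X) [IsProbabilityMeasure μ]
    (F : Set X) (hF : MeasurableSet F) {L : ℕ} (hL : 0 < L) (A : Fin L → Set X)
    (hA : ∀ n, MeasurableSet (A n)) (f K : ℝ) (hf : 0 ≤ f) (hK : 1 ≤ K)
    (h0 : μ F = ENNReal.ofReal f) (a : Fin L → ℝ) (ha : ∀ n, 0 < a n)
    (h1 : ∀ n, μ (F ∩ A n) = ENNReal.ofReal (f * a n))
    (h2 : ∀ n n', n ≠ n' → μ (F ∩ A n ∩ A n') ≤ ENNReal.ofReal (f * (K * (a n * a n')))) :
    μ (F \ ⋃ n, A n) ≤ ENNReal.ofReal (f * (1 / (∑ n, a n) + (K - 1))) := by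
  classical
  obtain ⟨s, hs⟩ : ∃ s, s = ∑ n, a n := ⟨_, rfl⟩
  have hspos : 0 < s := by
    rw [hs]
    have : Nonempty (Fin L) := ⟨⟨0, hL⟩⟩
    exact Finset.sum_pos (fun n _ => ha n) Finset.univ_nonempty
  rw [← hs]
  set ρ := μ.restrict F with hρ
  -- real measures
  have r0 : ρ.real Set.univ = f := by
    rw [measureReal_def, hρ, Measure.restrict_apply_univ, h0, ENNReal.toReal_ofReal hf]
  have r1 : ∀ n, ρ.real (A n) = f * a n := by
    intro n
    rw [measureReal_def, hρ, Measure.restrict_apply (hA n), Set.inter_comm, h1,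
      ENNReal.toReal_ofReal (mul_nonneg hf (ha n).le)]
  have r2 : ∀ n n', n ≠ n' → ρ.real (A n ∩ A n') ≤ f * (K * (a n * a n')) := by
    intro n n' h
    have hnn : 0 ≤ f * (K * (a n * a n')) :=
      mul_nonneg hf (mul_nonneg (by linarith) (mul_nonneg (ha n).le (ha n').le))
    rw [measureReal_def, hρ, Measure.restrict_apply ((hA n).inter (hA n')), Set.inter_comm, ← Set.inter_assoc]
    exact ENNReal.toReal_le_of_le_ofReal hnn (h2 n n' h)
  -- the square
  set g : X → ℝ := fun x => ((∑ n, (A n).indicator (fun _ => (1 : ℝ)) x) - s) ^ 2 with hg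
  have hexp : ∀ x, g x = (∑ n, ∑ n', (A n ∩ A n').indicator (fun _ => (1 : ℝ)) x) -
      2 * s * (∑ n, (A n).indicator (fun _ => (1 : ℝ)) x) + s ^ 2 := by
    intro x
    have e : (∑ n, (A n).indicator (fun _ => (1 : ℝ)) x) ^ 2 =
        ∑ n, ∑ n', (A n ∩ A n').indicator (fun _ => (1 : ℝ)) x := by
      rw [sq, Finset.sum_mul_sum]
      refine Finset.sum_congr rfl fun n _ => Finset.sum_congr rfl fun n' _ => ?_
      by_cases h : x ∈ A n <;> by_cases h' : x ∈ A n' <;> simp [h, h']
    rw [hg]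
    simp only
    rw [sub_sq, e]
    ring
  have hi : ∀ S : Set X, MeasurableSet S → Integrable (S.indicator (fun _ => (1 : ℝ))) ρ := fun S hS =>
    (integrable_const (1 : ℝ)).indicator hS
  have hint : ∀ S : Set X, MeasurableSet S → ∫ x, S.indicator (fun _ => (1 : ℝ)) x ∂ρ = ρ.real S := by
    intro S hS
    rw [integral_indicator_const _ hS]
    simp
  have hi1 : Integrable (fun x => ∑ n, ∑ n', (A n ∩ A n').indicator (fun _ => (1 : ℝ)) x) ρ :=
    integrable_finsetSum _ fun n _ => integrable_finsetSum _ fun n' _ => hi _ ((hA n).inter (hA n'))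
  have hi2 : Integrable (fun x => 2 * s * (∑ n, (A n).indicator (fun _ => (1 : ℝ)) x)) ρ :=
    (integrable_finsetSum _ fun n _ => hi _ (hA n)).const_mul _
  have hi3 : Integrable (fun x => (∑ n, ∑ n', (A n ∩ A n').indicator (fun _ => (1 : ℝ)) x) -
      2 * s * (∑ n, (A n).indicator (fun _ => (1 : ℝ)) x)) ρ := hi1.sub hi2
  have hI : ∫ x, g x ∂ρ = (∑ n, ∑ n', ρ.real (A n ∩ A n')) - 2 * s * (∑ n, f * a n) + s ^ 2 * f := by
    have e : (fun x => g x) = fun x => ((∑ n, ∑ n', (A n ∩ A n').indicator (fun _ => (1 : ℝ)) x) -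
      2 * s * (∑ n, (A n).indicator (fun _ => (1 : ℝ)) x)) + s ^ 2 := funext hexp
    rw [e, integral_add hi3 (integrable_const _), integral_sub hi1 hi2, integral_const_mul,
      integral_finsetSum _ (fun n _ => hi _ (hA n)),
      integral_finsetSum _ (fun n _ => integrable_finsetSum _ fun n' _ => hi _ ((hA n).inter (hA n'))),
      integral_const, r0, smul_eq_mul, mul_comm f]
    congr 1
    congr 1
    · refine Finset.sum_congr rfl fun n _ => ?_
      rw [integral_finsetSum _ fun n' _ => hi _ ((hA n).inter (hA n'))]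
      exact Finset.sum_congr rfl fun n' _ => hint _ ((hA n).inter (hA n'))
    · congr 1
      exact Finset.sum_congr rfl fun n _ => by rw [hint _ (hA n), r1]
  have hgi : Integrable g ρ := by
    have e : g = fun x => ((∑ n, ∑ n', (A n ∩ A n').indicator (fun _ => (1 : ℝ)) x) -
      2 * s * (∑ n, (A n).indicator (fun _ => (1 : ℝ)) x)) + s ^ 2 := funext hexp
    rw [e]
    exact hi3.add (integrable_const _)
  have hU : MeasurableSet (⋃ n, A n)ᶜ := (MeasurableSet.iUnion hA).compl
  -- lower bound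
  have hlow : s ^ 2 * ρ.real (⋃ n, A n)ᶜ ≤ ∫ x, g x ∂ρ := by
    rw [← hint _ hU, ← integral_const_mul]
    refine integral_mono ((hi _ hU).const_mul _) hgi fun x => ?_
    by_cases hx : x ∈ (⋃ n, A n)ᶜ
    · have hN : ∑ n, (A n).indicator (fun _ => (1 : ℝ)) x = 0 := by
        refine Finset.sum_eq_zero fun n _ => ?_
        rw [Set.indicator_of_notMem]
        intro h
        exact hx (Set.mem_iUnion.2 ⟨n, h⟩)
      simp only [Set.indicator_of_mem hx, mul_one, hg, hN]
      nlinarith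
    · simp only [Set.indicator_of_notMem hx, mul_zero]
      exact sq_nonneg _
  -- upper bound
  have hup : ∑ n, ∑ n', ρ.real (A n ∩ A n') ≤ f * s + K * f * s ^ 2 := by
    have h3 : ∀ n n', ρ.real (A n ∩ A n') ≤ (if n = n' then f * a n else 0) + f * (K * (a n * a n')) := by
      intro n n'
      by_cases h : n = n'
      · subst h
        rw [if_pos rfl, Set.inter_self, r1]
        have : 0 ≤ f * (K * (a n * a n)) :=
          mul_nonneg hf (mul_nonneg (by linarith) (mul_nonneg (ha n).le (ha n).le))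
        linarith
      · rw [if_neg h, zero_add]
        exact r2 n n' h
    calc ∑ n, ∑ n', ρ.real (A n ∩ A n')
        ≤ ∑ n, ∑ n', ((if n = n' then f * a n else 0) + f * (K * (a n * a n'))) :=
          Finset.sum_le_sum fun n _ => Finset.sum_le_sum fun n' _ => h3 n n'
      _ = f * s + K * f * s ^ 2 := by
          simp only [Finset.sum_add_distrib, Finset.sum_ite_eq, Finset.mem_univ, if_true]
          rw [hs, ← Finset.mul_sum]
          congr 1
          have : ∀ n, ∑ n', f * (K * (a n * a n')) = K * f * (a n * ∑ n', a n') := by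
            intro n
            rw [← Finset.mul_sum, ← Finset.mul_sum, ← Finset.mul_sum]
            ring
          simp only [this]
          rw [← Finset.mul_sum, ← Finset.sum_mul]
          ring
  have hmain : s ^ 2 * ρ.real (⋃ n, A n)ᶜ ≤ f * s + (K - 1) * f * s ^ 2 := by
    have h4 : (∑ n, f * a n) = f * s := by rw [hs, Finset.mul_sum]
    rw [hI, h4] at hlow
    nlinarith
  have hfin : ρ.real (⋃ n, A n)ᶜ ≤ f * (1 / s + (K - 1)) := by
    have h5 : f * (1 / s + (K - 1)) = (f * s + (K - 1) * f * s ^ 2) / s ^ 2 := by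
      field_simp
    rw [h5, le_div_iff₀ (by positivity)]
    linarith
  have h6 : μ (F \ ⋃ n, A n) = ρ (⋃ n, A n)ᶜ := by
    rw [hρ, Measure.restrict_apply hU, Set.inter_comm, Set.sdiff_eq]
  rw [h6]
  refine ENNReal.le_ofReal_iff_toReal_le (measure_ne_top _ _) ?_ |>.2 hfin
  refine le_trans ?_ hfin
  exact measureReal_nonneg

end Pool.Agent.FPP
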