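import Pool.Agent.FPP.Defs
import Pool.Agent.FPP.R1
import Pool.Agent.FPP.R2
import Pool.Agent.FPP.R3

open scoped ENNReal BigOperators
open MeasureTheory Filter Topology

namespace Pool.Agent.FPP

/-!
**[FPP-R4] A good pair touches with high probability.**
PROOF. Apply `second_moment` with `F = {l | (l i).1 ∈ Ioc 0 xi ∧ (l j).1 ∈ Ioc 0 xj}` (a box, measure `f = ν (Ioc 0 xi) * ν (Ioc 0 xj) ≤ xi * xj`, `IsExp.Iic_le`), `A n = {l | (∀ γ, γ ≠ i → γ ≠ j → t n γ < (l γ).1) ∧ (l (v n)).2 ≤ τ}`. By `box_measure`: `μ (F ∩ A n) = f * (1 - exp (-τ)) * exp (- ∑ γ ≠ i, j, t n γ) = f * a n`, and for `n ≠ n'` (`v n ≠ v n'`) `μ (F ∩ A n ∩ A n') = f * (1 - exp (-τ)) ^ 2 * exp (- ∑ γ ≠ i, j, max (t n γ) (t n' γ)) = f * a n * a n' * exp (∑ γ ≠ i, j, min (t n γ) (t n' γ)) ≤ f * (exp κ * (a n * a n'))`.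
`a n ≥ (1 - exp (-τ)) * exp (-Z)`, so `∑ n, a n ≥ L * ((1 - exp (-τ)) * exp (-Z)) > 0`. The set in the statement is `F \ ⋃ n, A n`.
-/

theorem r4_box {V : Type} [Fintype V] [DecidableEq V] {ν : Measure ℝ} (hν : IsExp ν)
    {i j : V} (hij : i ≠ j) (u : V → ℝ) (hu : ∀ γ, 0 ≤ u γ) (W : Finset V) {τ : ℝ} (hτ : 0 ≤ τ) (xi xj : ℝ) :
    (Measure.pi fun _ : V => ν.prod ν) {l | ((l i).1 ∈ Set.Ioc 0 xi ∧ (l j).1 ∈ Set.Ioc 0 xj) ∧
        (∀ γ, γ ≠ i → γ ≠ j → u γ < (l γ).1) ∧ ∀ γ ∈ W, (l γ).2 ≤ τ} =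
      ν (Set.Ioc 0 xi) * ν (Set.Ioc 0 xj) *
        ENNReal.ofReal ((1 - Real.exp (-τ)) ^ W.card * Real.exp (-∑ γ ∈ (Finset.univ.erase i).erase j, u γ)) := by
  have hp := hν.prob
  set A : V → Set ℝ := fun γ => if γ = i then Set.Ioc 0 xi else if γ = j then Set.Ioc 0 xj else Set.Ioi (u γ) with hA
  set B : V → Set ℝ := fun γ => if γ ∈ W then Set.Iic τ else Set.univ with hB
  have hAm : ∀ γ, MeasurableSet (A γ) := by
    intro γ
    simp only [hA]
    split_ifs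
    · exact measurableSet_Ioc
    · exact measurableSet_Ioc
    · exact measurableSet_Ioi
  have hBm : ∀ γ, MeasurableSet (B γ) := by
    intro γ
    simp only [hB]
    split_ifs
    · exact measurableSet_Iic
    · exact MeasurableSet.univ
  have hAi : A i = Set.Ioc 0 xi := by simp [hA]
  have hAj : A j = Set.Ioc 0 xj := by simp [hA, hij.symm]
  have hset : {l : V → ℝ × ℝ | ((l i).1 ∈ Set.Ioc 0 xi ∧ (l j).1 ∈ Set.Ioc 0 xj) ∧
        (∀ γ, γ ≠ i → γ ≠ j → u γ < (l γ).1) ∧ ∀ γ ∈ W, (l γ).2 ≤ τ} =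
      {l | ∀ γ, (l γ).1 ∈ A γ ∧ (l γ).2 ∈ B γ} := by
    ext l
    simp only [Set.mem_ofPred_eq]
    constructor
    · rintro ⟨⟨h1, h2⟩, h3, h4⟩ γ
      refine ⟨?_, ?_⟩
      · by_cases hi : γ = i
        · rw [hi, hAi]; exact h1
        · by_cases hj : γ = j
          · rw [hj, hAj]; exact h2
          · simp only [hA, if_neg hi, if_neg hj]
            exact h3 γ hi hj
      · by_cases hW : γ ∈ W
        · simp only [hB, if_pos hW]
          exact h4 γ hW
        · simp only [hB, if_neg hW]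
          exact Set.mem_univ _
    · intro h
      refine ⟨⟨hAi ▸ (h i).1, hAj ▸ (h j).1⟩, fun γ hi hj => ?_, fun γ hW => ?_⟩
      · have := (h γ).1
        simp only [hA, if_neg hi, if_neg hj] at this
        exact this
      · have := (h γ).2
        simp only [hB, if_pos hW] at this
        exact this
  have hji : j ∈ Finset.univ.erase i := Finset.mem_erase.2 ⟨hij.symm, Finset.mem_univ _⟩
  rw [hset, box_measure hν A B hAm hBm, Finset.prod_mul_distrib, ← Finset.mul_prod_erase _ _ (Finset.mem_univ i),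
    ← Finset.mul_prod_erase _ _ hji, hAi, hAj]
  have e1 : ∏ γ ∈ (Finset.univ.erase i).erase j, ν (A γ) =
      ENNReal.ofReal (Real.exp (-∑ γ ∈ (Finset.univ.erase i).erase j, u γ)) := by
    rw [← Finset.sum_neg_distrib, Real.exp_sum, ENNReal.ofReal_prod_of_nonneg fun γ _ => (Real.exp_pos _).le]
    refine Finset.prod_congr rfl fun γ hγ => ?_
    have h1 : γ ≠ j := Finset.ne_of_mem_erase hγ
    have h2 : γ ≠ i := Finset.ne_of_mem_erase (Finset.mem_of_mem_erase hγ)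
    simp only [hA, if_neg h1, if_neg h2]
    exact hν.Ioi (hu γ)
  have e2 : ∏ γ, ν (B γ) = ENNReal.ofReal ((1 - Real.exp (-τ)) ^ W.card) := by
    have h0 : (0 : ℝ) ≤ 1 - Real.exp (-τ) := by
      have := Real.exp_le_one_iff.2 (show -τ ≤ 0 by linarith)
      linarith
    have h1 : ∀ γ, ν (B γ) = if γ ∈ W then ENNReal.ofReal (1 - Real.exp (-τ)) else 1 := by
      intro γ
      simp only [hB]
      split_ifs
      · exact hν.Iic hτ
      · exact measure_univ
    rw [Finset.prod_congr rfl fun γ _ => h1 γ, Finset.prod_ite_mem, Finset.univ_inter, Finset.prod_const,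
      ENNReal.ofReal_pow h0]
  have h3 : (0 : ℝ) ≤ (1 - Real.exp (-τ)) ^ W.card := by
    have := Real.exp_le_one_iff.2 (show -τ ≤ 0 by linarith)
    exact pow_nonneg (by linarith) _
  rw [e1, e2, ENNReal.ofReal_mul h3]
  ring

theorem pair_bound {V : Type} [Fintype V] [DecidableEq V] {ν : Measure ℝ} (hν : IsExp ν)
    {i j : V} (hij : i ≠ j) {L : ℕ} (hL : 0 < L) (v : Fin L → V) (hv : Function.Injective v)
    (t : Fin L → V → ℝ) (ht : ∀ n γ, 0 ≤ t n γ) {κ Z τ xi xj : ℝ} (hκ0 : 0 ≤ κ)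
    (hκ : ∀ n n', n ≠ n' → ∑ γ, min (t n γ) (t n' γ) ≤ κ) (hZ : ∀ n, ∑ γ, t n γ ≤ Z)
    (hτ : 0 < τ) (hxi : 0 ≤ xi) (hxj : 0 ≤ xj) :
    (Measure.pi fun _ : V => ν.prod ν) {l | ((l i).1 ∈ Set.Ioc 0 xi ∧ (l j).1 ∈ Set.Ioc 0 xj) ∧
        ∀ n, ¬((∀ γ, γ ≠ i → γ ≠ j → t n γ < (l γ).1) ∧ (l (v n)).2 ≤ τ)} ≤
      ENNReal.ofReal (xi * xj *
        (1 / (L * ((1 - Real.exp (-τ)) * Real.exp (-Z))) + (Real.exp κ - 1))) := by
  have hp := hν.prob
  set μ := Measure.pi fun _ : V => ν.prod ν with hμ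
  set S := (Finset.univ.erase i).erase j with hS
  have he : 0 < 1 - Real.exp (-τ) := by
    have := Real.exp_lt_exp.2 (show -τ < 0 by linarith)
    rw [Real.exp_zero] at this
    linarith
  set F : Set (V → ℝ × ℝ) := {l | (l i).1 ∈ Set.Ioc 0 xi ∧ (l j).1 ∈ Set.Ioc 0 xj} with hFdef
  set A : Fin L → Set (V → ℝ × ℝ) := fun n => {l | (∀ γ, γ ≠ i → γ ≠ j → t n γ < (l γ).1) ∧ (l (v n)).2 ≤ τ}
    with hAdef
  set a : Fin L → ℝ := fun n => (1 - Real.exp (-τ)) * Real.exp (-∑ γ ∈ S, t n γ) with ha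
  have m1 : ∀ γ : V, Measurable fun l : V → ℝ × ℝ => (l γ).1 := fun γ => measurable_fst.comp (measurable_pi_apply γ)
  have m2 : ∀ γ : V, Measurable fun l : V → ℝ × ℝ => (l γ).2 := fun γ => measurable_snd.comp (measurable_pi_apply γ)
  have hF : MeasurableSet F := (m1 i measurableSet_Ioc).inter (m1 j measurableSet_Ioc)
  have hA : ∀ n, MeasurableSet (A n) := by
    intro n
    have e : A n = (⋂ γ, {l | γ ≠ i → γ ≠ j → t n γ < (l γ).1}) ∩ {l | (l (v n)).2 ≤ τ} := by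
      ext l
      simp only [hAdef, Set.mem_ofPred_eq, Set.mem_inter_iff, Set.mem_iInter]
    rw [e]
    refine (MeasurableSet.iInter fun γ => ?_).inter (m2 (v n) measurableSet_Iic)
    by_cases h1 : γ ≠ i
    · by_cases h2 : γ ≠ j
      · have : {l : V → ℝ × ℝ | γ ≠ i → γ ≠ j → t n γ < (l γ).1} = (fun l => (l γ).1) ⁻¹' Set.Ioi (t n γ) := by
          ext l
          simp [h1, h2]
        rw [this]
        exact m1 γ measurableSet_Ioi
      · have : {l : V → ℝ × ℝ | γ ≠ i → γ ≠ j → t n γ < (l γ).1} = Set.univ := by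
          ext l
          simp only [Set.mem_ofPred_eq, Set.mem_univ, iff_true]
          intro _ h
          exact absurd h h2
        rw [this]
        exact MeasurableSet.univ
    · have : {l : V → ℝ × ℝ | γ ≠ i → γ ≠ j → t n γ < (l γ).1} = Set.univ := by
        ext l
        simp only [Set.mem_ofPred_eq, Set.mem_univ, iff_true]
        intro h
        exact absurd h h1
      rw [this]
      exact MeasurableSet.univ
  -- the measure of `F`
  set f : ℝ := (ν (Set.Ioc 0 xi) * ν (Set.Ioc 0 xj)).toReal with hf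
  have hfne : ν (Set.Ioc 0 xi) * ν (Set.Ioc 0 xj) ≠ ⊤ := ENNReal.mul_ne_top (measure_ne_top _ _) (measure_ne_top _ _)
  have hfE : ν (Set.Ioc 0 xi) * ν (Set.Ioc 0 xj) = ENNReal.ofReal f := (ENNReal.ofReal_toReal hfne).symm
  have hf0 : 0 ≤ f := ENNReal.toReal_nonneg
  have hfle : f ≤ xi * xj := by
    have h1 : ν (Set.Ioc 0 xi) ≤ ENNReal.ofReal xi := (measure_mono fun x hx => hx.2).trans (hν.Iic_le hxi)
    have h2 : ν (Set.Ioc 0 xj) ≤ ENNReal.ofReal xj := (measure_mono fun x hx => hx.2).trans (hν.Iic_le hxj)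
    refine ENNReal.toReal_le_of_le_ofReal (mul_nonneg hxi hxj) ?_
    rw [ENNReal.ofReal_mul hxi]
    exact mul_le_mul' h1 h2
  have h0 : μ F = ENNReal.ofReal f := by
    have hbox := box_measure hν (fun γ => if γ = i then Set.Ioc 0 xi else if γ = j then Set.Ioc 0 xj else Set.univ)
      (fun _ => Set.univ) (fun γ => by
        split_ifs
        · exact measurableSet_Ioc
        · exact measurableSet_Ioc
        · exact MeasurableSet.univ) (fun _ => MeasurableSet.univ)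
    have hset : F = {l | ∀ γ, (l γ).1 ∈ (if γ = i then Set.Ioc 0 xi else if γ = j then Set.Ioc 0 xj else Set.univ) ∧
        (l γ).2 ∈ (Set.univ : Set ℝ)} := by
      ext l
      simp only [hFdef, Set.mem_ofPred_eq, Set.mem_univ, and_true]
      constructor
      · rintro ⟨h1, h2⟩ γ
        split_ifs with h3 h4
        · rw [h3]; exact h1
        · rw [h4]; exact h2
        · exact Set.mem_univ _
      · intro h
        have h1 := h i
        have h2 := h j
        rw [if_pos rfl] at h1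
        rw [if_neg hij.symm, if_pos rfl] at h2
        exact ⟨h1, h2⟩
    have hji : j ∈ Finset.univ.erase i := Finset.mem_erase.2 ⟨hij.symm, Finset.mem_univ _⟩
    rw [hset, hμ, hbox, ← Finset.mul_prod_erase _ _ (Finset.mem_univ i), ← Finset.mul_prod_erase _ _ hji,
      Finset.prod_eq_one, ← hfE]
    · simp [hij.symm]
    · intro γ hγ
      have h1 : γ ≠ j := Finset.ne_of_mem_erase hγ
      have h2 : γ ≠ i := Finset.ne_of_mem_erase (Finset.mem_of_mem_erase hγ)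
      simp [h1, h2]
  have h1 : ∀ n, μ (F ∩ A n) = ENNReal.ofReal (f * a n) := by
    intro n
    have := r4_box hν hij (t n) (ht n) {v n} hτ.le xi xj
    have hset : F ∩ A n = {l | ((l i).1 ∈ Set.Ioc 0 xi ∧ (l j).1 ∈ Set.Ioc 0 xj) ∧
        (∀ γ, γ ≠ i → γ ≠ j → t n γ < (l γ).1) ∧ ∀ γ ∈ ({v n} : Finset V), (l γ).2 ≤ τ} := by
      ext l
      simp only [hFdef, hAdef, Set.mem_inter_iff, Set.mem_ofPred_eq, Finset.mem_singleton, forall_eq]
    rw [hset, hμ, this, hfE, ← ENNReal.ofReal_mul hf0, Finset.card_singleton, pow_one]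
  have h2 : ∀ n n', n ≠ n' → μ (F ∩ A n ∩ A n') ≤ ENNReal.ofReal (f * (Real.exp κ * (a n * a n'))) := by
    intro n n' hne
    have := r4_box hν hij (fun γ => max (t n γ) (t n' γ)) (fun γ => le_max_of_le_left (ht n γ)) {v n, v n'} hτ.le xi xj
    have hset : F ∩ A n ∩ A n' = {l | ((l i).1 ∈ Set.Ioc 0 xi ∧ (l j).1 ∈ Set.Ioc 0 xj) ∧
        (∀ γ, γ ≠ i → γ ≠ j → max (t n γ) (t n' γ) < (l γ).1) ∧ ∀ γ ∈ ({v n, v n'} : Finset V), (l γ).2 ≤ τ} := by
      ext l
      simp only [hFdef, hAdef, Set.mem_inter_iff, Set.mem_ofPred_eq, Finset.mem_insert, Finset.mem_singleton,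
        forall_eq_or_imp, forall_eq, max_lt_iff]
      constructor
      · rintro ⟨⟨h1, h2, h3⟩, h4, h5⟩
        exact ⟨h1, fun γ hi hj => ⟨h2 γ hi hj, h4 γ hi hj⟩, h3, h5⟩
      · rintro ⟨h1, h2, h3, h4⟩
        exact ⟨⟨h1, fun γ hi hj => (h2 γ hi hj).1, h3⟩, fun γ hi hj => (h2 γ hi hj).2, h4⟩
    have hcard : ({v n, v n'} : Finset V).card = 2 := Finset.card_pair fun h => hne (hv h)
    rw [hset, hμ, this, hfE, ← ENNReal.ofReal_mul hf0, hcard]
    refine ENNReal.ofReal_le_ofReal (mul_le_mul_of_nonneg_left ?_ hf0)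
    have h3 : Real.exp κ * (a n * a n') = (1 - Real.exp (-τ)) ^ 2 *
        Real.exp (κ + (-∑ γ ∈ S, t n γ + -∑ γ ∈ S, t n' γ)) := by
      rw [ha, Real.exp_add, Real.exp_add]
      ring
    rw [h3]
    refine mul_le_mul_of_nonneg_left (Real.exp_le_exp.2 ?_) (sq_nonneg _)
    have h4 : ∑ γ ∈ S, max (t n γ) (t n' γ) + ∑ γ ∈ S, min (t n γ) (t n' γ) = ∑ γ ∈ S, t n γ + ∑ γ ∈ S, t n' γ := by
      rw [← Finset.sum_add_distrib, ← Finset.sum_add_distrib]
      exact Finset.sum_congr rfl fun γ _ => max_add_min _ _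
    have h5 : ∑ γ ∈ S, min (t n γ) (t n' γ) ≤ κ :=
      (Finset.sum_le_sum_of_subset_of_nonneg (Finset.subset_univ _) fun γ _ _ => le_min (ht n γ) (ht n' γ)).trans
        (hκ n n' hne)
    linarith
  have hapos : ∀ n, 0 < a n := fun n => mul_pos he (Real.exp_pos _)
  have hmain := second_moment μ F hF hL A hA f (Real.exp κ) hf0 (Real.one_le_exp hκ0) h0 a hapos h1 h2
  have hset : {l : V → ℝ × ℝ | ((l i).1 ∈ Set.Ioc 0 xi ∧ (l j).1 ∈ Set.Ioc 0 xj) ∧
        ∀ n, ¬((∀ γ, γ ≠ i → γ ≠ j → t n γ < (l γ).1) ∧ (l (v n)).2 ≤ τ)} = F \ ⋃ n, A n := by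
    ext l
    simp only [hFdef, hAdef, Set.mem_sdiff, Set.mem_ofPred_eq, Set.mem_iUnion, not_exists]
  rw [hset]
  refine hmain.trans (ENNReal.ofReal_le_ofReal ?_)
  have hLpos : (0 : ℝ) < L := by exact_mod_cast hL
  have hbpos : 0 < (L : ℝ) * ((1 - Real.exp (-τ)) * Real.exp (-Z)) := mul_pos hLpos (mul_pos he (Real.exp_pos _))
  have hsum : (L : ℝ) * ((1 - Real.exp (-τ)) * Real.exp (-Z)) ≤ ∑ n, a n := by
    have h3 : ∀ n, (1 - Real.exp (-τ)) * Real.exp (-Z) ≤ a n := by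
      intro n
      refine mul_le_mul_of_nonneg_left (Real.exp_le_exp.2 ?_) he.le
      have h4 : ∑ γ ∈ S, t n γ ≤ Z :=
        (Finset.sum_le_sum_of_subset_of_nonneg (Finset.subset_univ _) fun γ _ _ => ht n γ).trans (hZ n)
      linarith
    calc (L : ℝ) * ((1 - Real.exp (-τ)) * Real.exp (-Z)) = ∑ _n : Fin L, (1 - Real.exp (-τ)) * Real.exp (-Z) := by
          rw [Finset.sum_const, Finset.card_univ, Fintype.card_fin, nsmul_eq_mul]
      _ ≤ ∑ n, a n := Finset.sum_le_sum fun n _ => h3 n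
  have h6 : 1 / (∑ n, a n) ≤ 1 / ((L : ℝ) * ((1 - Real.exp (-τ)) * Real.exp (-Z))) :=
    one_div_le_one_div_of_le hbpos hsum
  have h7 : 0 ≤ 1 / (∑ n, a n) + (Real.exp κ - 1) := by
    have h8 : 0 ≤ 1 / (∑ n, a n) := one_div_nonneg.2 (Finset.sum_nonneg fun n _ => (hapos n).le)
    have h9 := Real.one_le_exp hκ0
    linarith
  calc f * (1 / (∑ n, a n) + (Real.exp κ - 1)) ≤ xi * xj * (1 / (∑ n, a n) + (Real.exp κ - 1)) :=
        mul_le_mul_of_nonneg_right hfle h7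
    _ ≤ _ := mul_le_mul_of_nonneg_left (by linarith) (mul_nonneg hxi hxj)

end Pool.Agent.FPP
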