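import Pool.Agent.FPP.Defs
import Pool.Agent.FPP.R1
import Pool.Agent.FPP.R2
import Pool.Agent.FPP.R4
import Pool.Agent.FPP.R5

open scoped ENNReal BigOperators
open MeasureTheory Filter Topology

namespace Pool.Agent.FPP

/-!
**[FPP-R9] The bad set: measurable and small.**
PROOF. `M' = exp (2 c) * M`, `T = exp C * M' * exp C`. Bad conditions on `l : V → Lb`, `E γ = (xt V l γ).1`: (A0) `∃ γ ∈ V, E γ ≤ 0`: measure `0` (`le_one_label` with `x = 0`, finite union). (A1) `∀ γ ∈ W, M * k γ < E γ`: measure `exp (- M ∑ W k) ≤ exp (-M z₀ / 2) ≤ ε` (`all_gt`). (A2) `∃ γ ∈ W \ W₁, E γ ≤ M * k γ`: at most `M * ∑ (W \ W₁) k ≤ ε`. (A3) `∃ w ∈ W, s * w ∉ W₁ ∧ E (s * w) ≤ exp c * M * k w`: at most `exp c * M * exp c * ∑ γ ∈ V \ W₁, k γ ≤ ε` (`k w = k (s⁻¹ (s w)) ≤ exp c * k (s w)`, the points `s * w` are distinct elements of `V \ W₁`).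
(A4) for `q ≠ q' ∈ W₁` not good: `E q ≤ M' k q ∧ E q' ≤ M' k q'`, at most `M' ^ 2 k q k q'` (`two_labels`); sum `≤ M' ^ 2 ε₁ ≤ ε` (`hbad`). (A5) for `q ≠ q' ∈ W₁` good, with `u, v` from `GoodG`: `(E q ∈ Ioc 0 (M' k q) ∧ E q' ∈ Ioc 0 (M' k q')) ∧ ∀ n, ¬((∀ γ : V, γ ≠ q → γ ≠ q' → T * k ((u n)⁻¹ * γ) < E γ) ∧ (l (v n)).2 ≤ τ)`: `pair_bound` with `t n γ = T * k ((u n)⁻¹ * γ)`, `Z = T * z₁`, `κ = T * δ` gives at most `M' ^ 2 k q k q' * ε₂`; sum over pairs `≤ M' ^ 2 z₁ ^ 2 ε₂ ≤ ε`.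
`v` is injective: if `v n = v n'` with `n ≠ n'` then `k ((v n)⁻¹ * γ) ≤ exp C * min (k ((u n)⁻¹ * γ)) (k ((u n')⁻¹ * γ))` for all `γ`, and the sums over `γ` give `z₀ ≤ exp C * δ`, contradicting `hδ` (sums over all of `Γ`: `k ∘ ((v n)⁻¹ * ·)` has the sum of `k`, `Equiv.mulLeft`). `B` = the union of all these measurable sets (`xt_measurable`); its measure is at most `5 * ε`. Outside `B` the conditions hold for every extension `l : Γ → Lb` (all labels that occur are in `V`: `xt V (fun v => l v) γ = l γ` for `γ ∈ V`; `hWV`, `hVs`, `hVK`).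
-/

theorem r9_xt {Γ : Type} {V : Finset Γ} {γ : Γ} (h : γ ∈ V) (l : V → Lb) :
    xt V l γ = l ⟨γ, h⟩ := by
  unfold xt
  exact dif_pos h

theorem r9_xt' {Γ : Type} {V : Finset Γ} {γ : Γ} (h : γ ∈ V) (l : Γ → Lb) :
    xt V (fun v : V => l v) γ = l γ := by
  rw [r9_xt h]

theorem r9_union {X ι : Type} [MeasurableSpace X] (μ : Measure X) (I : Finset ι) (A : ι → Set X)
    (b : ι → ℝ) (hb : ∀ i ∈ I, 0 ≤ b i) (hA : ∀ i ∈ I, μ (A i) ≤ ENNReal.ofReal (b i)) {x : ℝ}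
    (hx : ∑ i ∈ I, b i ≤ x) : μ (⋃ i ∈ I, A i) ≤ ENNReal.ofReal x := by
  calc μ (⋃ i ∈ I, A i) ≤ ∑ i ∈ I, μ (A i) := measure_biUnion_finset_le I A
    _ ≤ ∑ i ∈ I, ENNReal.ofReal (b i) := Finset.sum_le_sum hA
    _ = ENNReal.ofReal (∑ i ∈ I, b i) := (ENNReal.ofReal_sum_of_nonneg hb).symm
    _ ≤ _ := ENNReal.ofReal_le_ofReal hx

theorem r9_one {Γ : Type} {ν : Measure ℝ} (hν : IsExp ν) {V : Finset Γ} {γ : Γ} (h : γ ∈ V)
    {x : ℝ} (hx : 0 ≤ x) :
    (Measure.pi fun _ : V => ν.prod ν) {l | (xt V l γ).1 ≤ x} ≤ ENNReal.ofReal x := by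
  simp_rw [r9_xt h]
  exact le_one_label hν (⟨γ, h⟩ : V) hx

theorem r9_two {Γ : Type} {ν : Measure ℝ} (hν : IsExp ν) {V : Finset Γ} {q q' : Γ} (h : q ∈ V)
    (h' : q' ∈ V) (hne : q ≠ q') {x y : ℝ} (hx : 0 ≤ x) (hy : 0 ≤ y) :
    (Measure.pi fun _ : V => ν.prod ν) {l | (xt V l q).1 ≤ x ∧ (xt V l q').1 ≤ y} ≤
      ENNReal.ofReal (x * y) := by
  simp_rw [r9_xt h, r9_xt h']
  exact two_labels hν (i := (⟨q, h⟩ : V)) (j := (⟨q', h'⟩ : V))
    (fun e => hne (congrArg Subtype.val e)) hx hy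

theorem r9_meas {Γ : Type} (V : Finset Γ) (γ : Γ) (x : ℝ) :
    MeasurableSet {l : V → Lb | (xt V l γ).1 ≤ x} :=
  measurableSet_le (measurable_fst.comp (xt_measurable V γ)) measurable_const

theorem r9_sum {Γ : Type} [DecidableEq Γ] {V A : Finset Γ} (h : A ⊆ V) (F : Γ → ℝ) :
    ∑ i ∈ (Finset.univ : Finset V).filter (fun i : V => (i : Γ) ∈ A), F i = ∑ γ ∈ A, F γ := by
  rw [Finset.sum_filter, Finset.sum_coe_sort V (fun γ => if γ ∈ A then F γ else 0),
    ← Finset.sum_filter, Finset.filter_mem_eq_inter, Finset.inter_eq_right.2 h]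

theorem r9_all {Γ : Type} {ν : Measure ℝ} (hν : IsExp ν) {V A : Finset Γ} (h : A ⊆ V)
    {F : Γ → ℝ} (hF : ∀ γ, 0 ≤ F γ) :
    (Measure.pi fun _ : V => ν.prod ν) {l | ∀ γ ∈ A, F γ < (xt V l γ).1} =
      ENNReal.ofReal (Real.exp (-∑ γ ∈ A, F γ)) := by
  classical
  have := all_gt hν ((Finset.univ : Finset V).filter (fun i : V => (i : Γ) ∈ A)) (fun i : V => F i)
    (fun i _ => hF i)
  rw [r9_sum h F] at this
  rw [← this]
  congr 1
  ext l
  simp only [Set.mem_ofPred_eq, Finset.mem_filter, Finset.mem_univ, true_and]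
  constructor
  · intro h1 i hi
    have := h1 i hi
    rwa [r9_xt i.2] at this
  · intro h1 γ hγ
    rw [r9_xt (h hγ)]
    exact h1 ⟨γ, h hγ⟩ hγ

theorem r9_pair {Γ : Type} [Group Γ] {ν : Measure ℝ} (hν : IsExp ν) {k : Γ → ℝ}
    {z₀ z₁ c : ℝ} {S : Finset Γ} (hk : IsRate k z₀ z₁ c S)
    {S' K W V : Finset Γ} {C R M' τ δ : ℝ} {L : ℕ} (hL : 0 < L)
    (hM : 0 < M') (hτ : 0 < τ) (hδ0 : 0 ≤ δ) (hδ : Real.exp C * δ < z₀)
    (hWV : W ⊆ V) (hVK : ∀ u ∈ K, u ∈ V ∧ ∀ w ∈ W, u * w ∈ V) {q q' : Γ} (hq : q ∈ W)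
    (hq' : q' ∈ W) (hne : q ≠ q') (hg : GoodG k S' C R δ L K q q') :
    ∃ A : Set (V → Lb), MeasurableSet A ∧ (Measure.pi fun _ : V => ν.prod ν) A ≤
      ENNReal.ofReal ((M' * k q) * (M' * k q') *
        (1 / (L * ((1 - Real.exp (-τ)) * Real.exp (-(Real.exp C * M' * Real.exp C * z₁)))) +
          (Real.exp (Real.exp C * M' * Real.exp C * δ) - 1))) ∧
      ∀ l : Γ → Lb, (fun v : V => l v) ∉ A → 0 < (l q).1 → 0 < (l q').1 →
        (l q).1 ≤ M' * k q → (l q').1 ≤ M' * k q' →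
        ∃ u v, Site k S' C R K q q' u v ∧
          (∀ γ, (u⁻¹ * γ ∈ W ∨ v⁻¹ * γ ∈ W) → γ ≠ q → γ ≠ q' →
            Real.exp C * M' * Real.exp C * k (u⁻¹ * γ) < (l γ).1) ∧ (l v).2 ≤ τ := by
  classical
  obtain ⟨u, v, hS, hmin⟩ := hg
  have hsum : ∀ a : Γ, Summable fun γ => k (a⁻¹ * γ) := fun a =>
    (Equiv.mulLeft a⁻¹).summable_iff.2 hk.summ
  have htsum : ∀ a : Γ, ∑' γ, k (a⁻¹ * γ) = ∑' γ, k γ := fun a =>
    (Equiv.mulLeft a⁻¹).tsum_eq k
  have hvV : ∀ n, v n ∈ V := fun n => (hVK _ (hS n).2.1).1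
  have hminS : ∀ n n', Summable fun γ => min (k ((u n)⁻¹ * γ)) (k ((u n')⁻¹ * γ)) :=
    fun n n' => Summable.of_nonneg_of_le (fun γ => le_min (hk.pos _).le (hk.pos _).le)
      (fun γ => min_le_left _ _) (hsum _)
  set T : ℝ := Real.exp C * M' * Real.exp C with hTdef
  have hT : 0 < T := by positivity
  have hinj : Function.Injective (fun n => (⟨v n, hvV n⟩ : V)) := by
    intro n n' hnn
    by_contra hne'
    have hv : v n = v n' := congrArg Subtype.val hnn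
    have h1 : ∑' γ, k ((v n)⁻¹ * γ) ≤
        ∑' γ, Real.exp C * min (k ((u n)⁻¹ * γ)) (k ((u n')⁻¹ * γ)) := by
      refine (hsum (v n)).tsum_le_tsum (fun γ => ?_) ((hminS n n').mul_left _)
      rw [mul_min_of_nonneg _ _ (Real.exp_pos C).le]
      refine le_min ((hS n).2.2.2.2.2.2.2 γ) ?_
      rw [hv]
      exact (hS n').2.2.2.2.2.2.2 γ
    rw [htsum, tsum_mul_left] at h1
    have h2 := hmin n n' hne'
    have h3 := hk.lo
    have h4 : Real.exp C * ∑' γ, min (k ((u n)⁻¹ * γ)) (k ((u n')⁻¹ * γ)) ≤ Real.exp C * δ :=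
      mul_le_mul_of_nonneg_left h2 (Real.exp_pos C).le
    linarith
  have pb := pair_bound hν (i := (⟨q, hWV hq⟩ : V)) (j := (⟨q', hWV hq'⟩ : V))
    (fun e => hne (congrArg Subtype.val e)) hL (fun n => (⟨v n, hvV n⟩ : V)) hinj
    (fun n γ => T * k ((u n)⁻¹ * (γ : Γ))) (fun n γ => (mul_pos hT (hk.pos _)).le)
    (κ := T * δ) (Z := T * z₁) (τ := τ) (xi := M' * k q) (xj := M' * k q') (by positivity)
    (by
      intro n n' hnn
      calc ∑ γ : V, min (T * k ((u n)⁻¹ * (γ : Γ))) (T * k ((u n')⁻¹ * (γ : Γ)))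
          = ∑ γ : V, T * min (k ((u n)⁻¹ * (γ : Γ))) (k ((u n')⁻¹ * (γ : Γ))) := by
            refine Finset.sum_congr rfl fun γ _ => ?_
            rw [mul_min_of_nonneg _ _ hT.le]
        _ = T * ∑ γ ∈ V, min (k ((u n)⁻¹ * γ)) (k ((u n')⁻¹ * γ)) := by
            rw [← Finset.mul_sum]
            congr 1
            exact Finset.sum_coe_sort V (fun γ => min (k ((u n)⁻¹ * γ)) (k ((u n')⁻¹ * γ)))
        _ ≤ T * ∑' γ, min (k ((u n)⁻¹ * γ)) (k ((u n')⁻¹ * γ)) := by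
            refine mul_le_mul_of_nonneg_left ?_ hT.le
            exact (hminS n n').sum_le_tsum V fun γ _ => le_min (hk.pos _).le (hk.pos _).le
        _ ≤ T * δ := mul_le_mul_of_nonneg_left (hmin n n' hnn) hT.le)
    (by
      intro n
      calc ∑ γ : V, T * k ((u n)⁻¹ * (γ : Γ))
          = T * ∑ γ ∈ V, k ((u n)⁻¹ * γ) := by
            rw [← Finset.mul_sum]
            congr 1
            exact Finset.sum_coe_sort V (fun γ => k ((u n)⁻¹ * γ))
        _ ≤ T * ∑' γ, k ((u n)⁻¹ * γ) := by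
            refine mul_le_mul_of_nonneg_left ?_ hT.le
            exact (hsum (u n)).sum_le_tsum V fun γ _ => (hk.pos _).le
        _ ≤ T * z₁ := by
            rw [htsum]
            exact mul_le_mul_of_nonneg_left hk.hi hT.le)
    hτ (mul_pos hM (hk.pos _)).le (mul_pos hM (hk.pos _)).le
  refine ⟨_, ?_, pb, ?_⟩
  · rw [measurableSet_setOfPred]
    refine Measurable.and (Measurable.and ?_ ?_) (Measurable.forall fun n =>
      Measurable.not (Measurable.and (Measurable.forall fun γ => Measurable.imp ?_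
        (Measurable.imp ?_ ?_)) ?_))
    · exact measurableSet_setOfPred.1
        ((measurable_fst.comp (measurable_pi_apply _)) measurableSet_Ioc)
    · exact measurableSet_setOfPred.1
        ((measurable_fst.comp (measurable_pi_apply _)) measurableSet_Ioc)
    · exact measurable_const
    · exact measurable_const
    · exact measurableSet_setOfPred.1
        ((measurable_fst.comp (measurable_pi_apply γ)) measurableSet_Ioi)
    · exact measurableSet_setOfPred.1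
        (measurableSet_le (measurable_snd.comp (measurable_pi_apply _)) measurable_const)
  · intro l hl h0 h0' hle hle'
    simp only [Set.mem_ofPred_eq, not_and, not_forall, not_not] at hl
    obtain ⟨n, hn⟩ := hl ⟨⟨h0, hle⟩, ⟨h0', hle'⟩⟩
    refine ⟨u n, v n, hS n, ?_, hn.2⟩
    intro γ hγ hγq hγq'
    have hγV : γ ∈ V := by
      rcases hγ with h | h
      · have := (hVK _ (hS n).1).2 _ h
        rwa [mul_inv_cancel_left] at this
      · have := (hVK _ (hS n).2.1).2 _ h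
        rwa [mul_inv_cancel_left] at this
    exact hn.1 ⟨γ, hγV⟩ (fun e => hγq (congrArg Subtype.val e))
      (fun e => hγq' (congrArg Subtype.val e))

open Classical in
theorem bad_set {Γ : Type} [Group Γ] {ν : Measure ℝ} (hν : IsExp ν) {k : Γ → ℝ}
    {z₀ z₁ c : ℝ} {S : Finset Γ} (hk : IsRate k z₀ z₁ c S) (hz₀ : 0 < z₀) (hc : 0 ≤ c)
    {S' K W W₁ V : Finset Γ} {C R M τ δ ε ε₁ : ℝ} {L : ℕ} (hL : 0 < L) (hC0 : 0 ≤ C)
    (hM : 0 < M) (hτ : 0 < τ) (hδ0 : 0 ≤ δ) (hδ : Real.exp C * δ < z₀)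
    {s : Γ} (hsS : s ∈ S) (hW₁ : W₁ ⊆ W) (hWV : W ⊆ V) (hVs : ∀ w ∈ W, s * w ∈ V)
    (hVK : ∀ u ∈ K, u ∈ V ∧ ∀ w ∈ W, u * w ∈ V)
    (h1 : Real.exp (-(M * (z₀ / 2))) ≤ ε) (h1' : z₀ / 2 ≤ ∑ γ ∈ W, k γ)
    (h3 : Real.exp c * M * (Real.exp c * ∑ γ ∈ V \ W₁, k γ) ≤ ε)
    (hbad : ∑ q ∈ W₁, ∑ q' ∈ W₁,
      (if GoodG k S' C R δ L K q q' then 0 else k q * k q') ≤ ε₁)
    (h4 : (Real.exp (2 * c) * M) ^ 2 * ε₁ ≤ ε)
    (h5 : (Real.exp (2 * c) * M) ^ 2 * z₁ ^ 2 *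
      (1 / (L * ((1 - Real.exp (-τ)) *
        Real.exp (-(Real.exp C * (Real.exp (2 * c) * M) * Real.exp C * z₁)))) +
        (Real.exp (Real.exp C * (Real.exp (2 * c) * M) * Real.exp C * δ) - 1)) ≤ ε) :
    ∃ B : Set (V → Lb), MeasurableSet B ∧
      (Measure.pi fun _ : V => ν.prod ν) B ≤ ENNReal.ofReal (5 * ε) ∧
      ∀ l : Γ → Lb, (fun v : V => l v) ∉ B →
        (∀ γ ∈ W₁, 0 < (l γ).1) ∧ (∃ γ ∈ W, (l γ).1 ≤ M * k γ) ∧
        (∀ γ ∈ W, (l γ).1 ≤ M * k γ → γ ∈ W₁) ∧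
        (∀ w ∈ W, (l (s * w)).1 ≤ Real.exp c * M * k w → s * w ∈ W₁) ∧
        (∀ q ∈ W₁, ∀ q' ∈ W₁, q ≠ q' → (l q).1 ≤ Real.exp (2 * c) * M * k q →
          (l q').1 ≤ Real.exp (2 * c) * M * k q' → ∃ u v, Site k S' C R K q q' u v ∧
            (∀ γ, (u⁻¹ * γ ∈ W ∨ v⁻¹ * γ ∈ W) → γ ≠ q → γ ≠ q' →
              Real.exp C * (Real.exp (2 * c) * M) * Real.exp C * k (u⁻¹ * γ) < (l γ).1) ∧
            (l v).2 ≤ τ) := by
  classical
  set M' : ℝ := Real.exp (2 * c) * M with hM'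
  have hM'0 : 0 < M' := by positivity
  have hε0 : 0 ≤ ε := (Real.exp_pos _).le.trans h1
  have hz₁ : 0 ≤ z₁ := hz₀.le.trans (hk.lo.trans hk.hi)
  have hW₁V : W₁ ⊆ V := hW₁.trans hWV
  set ε₂ : ℝ := 1 / (L * ((1 - Real.exp (-τ)) *
        Real.exp (-(Real.exp C * M' * Real.exp C * z₁)))) +
        (Real.exp (Real.exp C * M' * Real.exp C * δ) - 1) with hε₂
  have hε₂0 : 0 ≤ ε₂ := by
    have h2 : 0 < 1 - Real.exp (-τ) := by
      have : Real.exp (-τ) < 1 := Real.exp_lt_one_iff.2 (by linarith)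
      linarith
    have h3 : 0 ≤ Real.exp (Real.exp C * M' * Real.exp C * δ) - 1 := by
      have : 1 ≤ Real.exp (Real.exp C * M' * Real.exp C * δ) := Real.one_le_exp (by positivity)
      linarith
    have h4 : 0 ≤ 1 / (L * ((1 - Real.exp (-τ)) *
        Real.exp (-(Real.exp C * M' * Real.exp C * z₁)))) := by positivity
    rw [hε₂]
    linarith
  have hkp := hk.pos
  -- pairs
  have hpair : ∀ p : Γ × Γ, p.1 ∈ W₁ → p.2 ∈ W₁ → p.1 ≠ p.2 →
      ∃ A : Set (V → Lb), MeasurableSet A ∧ (Measure.pi fun _ : V => ν.prod ν) A ≤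
        ENNReal.ofReal (M' ^ 2 * (if GoodG k S' C R δ L K p.1 p.2 then 0 else k p.1 * k p.2) +
          M' ^ 2 * (k p.1 * k p.2) * ε₂) ∧
        ∀ l : Γ → Lb, (fun v : V => l v) ∉ A → 0 < (l p.1).1 → 0 < (l p.2).1 →
          (l p.1).1 ≤ M' * k p.1 → (l p.2).1 ≤ M' * k p.2 →
          ∃ u v, Site k S' C R K p.1 p.2 u v ∧
            (∀ γ, (u⁻¹ * γ ∈ W ∨ v⁻¹ * γ ∈ W) → γ ≠ p.1 → γ ≠ p.2 →
              Real.exp C * M' * Real.exp C * k (u⁻¹ * γ) < (l γ).1) ∧ (l v).2 ≤ τ := by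
    intro p hp1 hp2 hne
    by_cases hg : GoodG k S' C R δ L K p.1 p.2
    · obtain ⟨A, hA1, hA2, hA3⟩ := r9_pair hν hk hL hM'0 hτ hδ0 hδ hWV hVK (hW₁ hp1)
        (hW₁ hp2) hne hg
      refine ⟨A, hA1, hA2.trans (le_of_eq ?_), hA3⟩
      congr 1
      rw [if_pos hg, ← hε₂]
      ring
    · refine ⟨{l | (xt V l p.1).1 ≤ M' * k p.1 ∧ (xt V l p.2).1 ≤ M' * k p.2},
        (r9_meas V _ _).inter (r9_meas V _ _), ?_, ?_⟩
      · refine (r9_two hν (hW₁V hp1) (hW₁V hp2) hne (mul_pos hM'0 (hkp _)).le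
          (mul_pos hM'0 (hkp _)).le).trans (ENNReal.ofReal_le_ofReal ?_)
        rw [if_neg hg]
        have : 0 ≤ M' ^ 2 * (k p.1 * k p.2) * ε₂ :=
          mul_nonneg (mul_nonneg (sq_nonneg _) (mul_pos (hkp _) (hkp _)).le) hε₂0
        nlinarith
      · intro l hl _ _ h1 h2
        exfalso
        apply hl
        refine ⟨?_, ?_⟩
        · rw [r9_xt' (hW₁V hp1)]; exact h1
        · rw [r9_xt' (hW₁V hp2)]; exact h2
  choose! A hAm hAμ hAl using hpair
  set μ : Measure (V → Lb) := Measure.pi fun _ : V => ν.prod ν with hμ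
  -- the sets
  set B0 : Set (V → Lb) := ⋃ γ ∈ W₁, {l | (xt V l γ).1 ≤ 0} with hB0
  set B1 : Set (V → Lb) := {l | ∀ γ ∈ W, M * k γ < (xt V l γ).1} with hB1
  set B2 : Set (V → Lb) := ⋃ γ ∈ W \ W₁, {l | (xt V l γ).1 ≤ M * k γ} with hB2
  set B3 : Set (V → Lb) := ⋃ w ∈ W.filter (fun w => s * w ∉ W₁),
    {l | (xt V l (s * w)).1 ≤ Real.exp c * M * k w} with hB3
  set B4 : Set (V → Lb) := ⋃ p ∈ (W₁ ×ˢ W₁).filter (fun p => p.1 ≠ p.2), A p with hB4
  have m0 : μ B0 ≤ ENNReal.ofReal 0 := by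
    refine r9_union μ W₁ _ (fun _ => 0) (fun _ _ => le_rfl) (fun γ hγ => ?_) (by simp)
    exact r9_one hν (hW₁V hγ) le_rfl
  have m1 : μ B1 ≤ ENNReal.ofReal ε := by
    rw [hB1, hμ, r9_all hν hWV (fun γ => (mul_pos hM (hkp γ)).le)]
    refine ENNReal.ofReal_le_ofReal (le_trans ?_ h1)
    rw [← Finset.mul_sum]
    refine Real.exp_le_exp.2 ?_
    have := mul_le_mul_of_nonneg_left h1' hM.le
    linarith
  have hec : 1 ≤ Real.exp c := Real.one_le_exp hc
  have m2 : μ B2 ≤ ENNReal.ofReal ε := by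
    refine r9_union μ (W \ W₁) _ (fun γ => M * k γ) (fun γ _ => (mul_pos hM (hkp γ)).le)
      (fun γ hγ => ?_) ?_
    · exact r9_one hν (hWV (Finset.mem_sdiff.1 hγ).1) (mul_pos hM (hkp γ)).le
    · refine le_trans ?_ h3
      rw [← Finset.mul_sum]
      have h6 : ∑ γ ∈ W \ W₁, k γ ≤ ∑ γ ∈ V \ W₁, k γ :=
        Finset.sum_le_sum_of_subset_of_nonneg (Finset.sdiff_subset_sdiff hWV subset_rfl)
          fun γ _ _ => (hkp γ).le
      have h7 : 0 ≤ ∑ γ ∈ V \ W₁, k γ := Finset.sum_nonneg fun γ _ => (hkp γ).le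
      calc M * ∑ γ ∈ W \ W₁, k γ ≤ M * ∑ γ ∈ V \ W₁, k γ :=
            mul_le_mul_of_nonneg_left h6 hM.le
        _ = 1 * M * (1 * ∑ γ ∈ V \ W₁, k γ) := by ring
        _ ≤ _ := by gcongr
  have m3 : μ B3 ≤ ENNReal.ofReal ε := by
    refine r9_union μ (W.filter (fun w => s * w ∉ W₁)) _ (fun w => Real.exp c * M * k w)
      (fun w _ => (mul_pos (mul_pos (Real.exp_pos c) hM) (hkp w)).le) (fun w hw => ?_) ?_
    · exact r9_one hν (hVs w (Finset.mem_filter.1 hw).1)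
        (mul_pos (mul_pos (Real.exp_pos c) hM) (hkp w)).le
    · refine le_trans ?_ h3
      rw [← Finset.mul_sum]
      refine mul_le_mul_of_nonneg_left ?_ (by positivity)
      have h6 : ∀ w, k w ≤ Real.exp c * k (s * w) := by
        intro w
        have := (hk.har s hsS (s * w)).1
        rwa [inv_mul_cancel_left] at this
      calc ∑ w ∈ W.filter (fun w => s * w ∉ W₁), k w
          ≤ ∑ w ∈ W.filter (fun w => s * w ∉ W₁), Real.exp c * k (s * w) :=
            Finset.sum_le_sum fun w _ => h6 w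
        _ = Real.exp c * ∑ w ∈ W.filter (fun w => s * w ∉ W₁), k (s * w) := by
            rw [Finset.mul_sum]
        _ = Real.exp c * ∑ γ ∈ (W.filter (fun w => s * w ∉ W₁)).image (fun w => s * w), k γ := by
            rw [Finset.sum_image]
            intro x _ y _ hxy
            exact mul_left_cancel hxy
        _ ≤ Real.exp c * ∑ γ ∈ V \ W₁, k γ := by
            refine mul_le_mul_of_nonneg_left ?_ (Real.exp_pos c).le
            refine Finset.sum_le_sum_of_subset_of_nonneg ?_ fun γ _ _ => (hkp γ).le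
            intro γ hγ
            obtain ⟨w, hw, rfl⟩ := Finset.mem_image.1 hγ
            rw [Finset.mem_filter] at hw
            exact Finset.mem_sdiff.2 ⟨hVs w hw.1, hw.2⟩
  have m4 : μ B4 ≤ ENNReal.ofReal (2 * ε) := by
    have hnn1 : ∀ p : Γ × Γ, 0 ≤ M' ^ 2 *
        (if GoodG k S' C R δ L K p.1 p.2 then 0 else k p.1 * k p.2) := by
      intro p
      refine mul_nonneg (sq_nonneg _) ?_
      split_ifs
      · exact le_rfl
      · exact (mul_pos (hkp _) (hkp _)).le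
    have hnn2 : ∀ p : Γ × Γ, 0 ≤ M' ^ 2 * (k p.1 * k p.2) * ε₂ := fun p =>
      mul_nonneg (mul_nonneg (sq_nonneg _) (mul_pos (hkp _) (hkp _)).le) hε₂0
    refine r9_union μ _ _ (fun p => M' ^ 2 *
      (if GoodG k S' C R δ L K p.1 p.2 then 0 else k p.1 * k p.2) +
          M' ^ 2 * (k p.1 * k p.2) * ε₂) (fun p _ => add_nonneg (hnn1 p) (hnn2 p))
      (fun p hp => ?_) ?_
    · rw [Finset.mem_filter, Finset.mem_product] at hp
      exact hAμ p hp.1.1 hp.1.2 hp.2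
    · calc ∑ p ∈ (W₁ ×ˢ W₁).filter (fun p => p.1 ≠ p.2), (M' ^ 2 *
            (if GoodG k S' C R δ L K p.1 p.2 then 0 else k p.1 * k p.2) +
            M' ^ 2 * (k p.1 * k p.2) * ε₂)
          ≤ ∑ p ∈ W₁ ×ˢ W₁, (M' ^ 2 *
            (if GoodG k S' C R δ L K p.1 p.2 then 0 else k p.1 * k p.2) +
            M' ^ 2 * (k p.1 * k p.2) * ε₂) :=
            Finset.sum_le_sum_of_subset_of_nonneg (Finset.filter_subset _ _)
              fun p _ _ => add_nonneg (hnn1 p) (hnn2 p)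
        _ = M' ^ 2 * (∑ q ∈ W₁, ∑ q' ∈ W₁,
              (if GoodG k S' C R δ L K q q' then 0 else k q * k q')) +
            M' ^ 2 * ((∑ q ∈ W₁, k q) * ∑ q' ∈ W₁, k q') * ε₂ := by
            rw [Finset.sum_add_distrib, Finset.sum_product' (f := fun q q' => M' ^ 2 *
              (if GoodG k S' C R δ L K q q' then 0 else k q * k q')),
              Finset.sum_product' (f := fun q q' => M' ^ 2 * (k q * k q') * ε₂)]
            congr 1
            · rw [Finset.mul_sum]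
              refine Finset.sum_congr rfl fun q _ => ?_
              rw [Finset.mul_sum]
            · rw [Finset.sum_mul_sum, Finset.mul_sum, Finset.sum_mul]
              refine Finset.sum_congr rfl fun q _ => ?_
              rw [Finset.mul_sum, Finset.sum_mul]
        _ ≤ M' ^ 2 * ε₁ + M' ^ 2 * (z₁ * z₁) * ε₂ := by
            have hs1 : ∑ q ∈ W₁, k q ≤ z₁ :=
              (hk.summ.sum_le_tsum W₁ fun γ _ => (hkp γ).le).trans hk.hi
            have hs0 : 0 ≤ ∑ q ∈ W₁, k q := Finset.sum_nonneg fun γ _ => (hkp γ).le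
            gcongr
        _ ≤ ε + ε := by
            refine add_le_add h4 ?_
            have : M' ^ 2 * (z₁ * z₁) * ε₂ = M' ^ 2 * z₁ ^ 2 * ε₂ := by ring
            rw [this]
            exact h5
        _ = 2 * ε := by ring
  refine ⟨B0 ∪ (B1 ∪ (B2 ∪ (B3 ∪ B4))), ?_, ?_, ?_⟩
  · refine MeasurableSet.union ?_ (MeasurableSet.union ?_ (MeasurableSet.union ?_
      (MeasurableSet.union ?_ ?_)))
    · exact Finset.measurableSet_biUnion _ fun γ _ => r9_meas V γ 0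
    · have : B1 = ⋂ γ ∈ W, {l | M * k γ < (xt V l γ).1} := by
        ext l
        simp only [hB1, Set.mem_ofPred_eq, Set.mem_iInter]
      rw [this]
      exact Finset.measurableSet_biInter _ fun γ _ =>
        measurableSet_lt measurable_const (measurable_fst.comp (xt_measurable V γ))
    · exact Finset.measurableSet_biUnion _ fun γ _ => r9_meas V γ _
    · exact Finset.measurableSet_biUnion _ fun γ _ => r9_meas V _ _
    · refine Finset.measurableSet_biUnion _ fun p hp => ?_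
      rw [Finset.mem_filter, Finset.mem_product] at hp
      exact hAm p hp.1.1 hp.1.2 hp.2
  · calc μ (B0 ∪ (B1 ∪ (B2 ∪ (B3 ∪ B4))))
        ≤ μ B0 + (μ B1 + (μ B2 + (μ B3 + μ B4))) := by
          refine (measure_union_le _ _).trans (add_le_add le_rfl ?_)
          refine (measure_union_le _ _).trans (add_le_add le_rfl ?_)
          refine (measure_union_le _ _).trans (add_le_add le_rfl ?_)
          exact measure_union_le _ _
      _ ≤ ENNReal.ofReal 0 + (ENNReal.ofReal ε + (ENNReal.ofReal ε + (ENNReal.ofReal ε +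
            ENNReal.ofReal (2 * ε)))) := by gcongr
      _ = ENNReal.ofReal (5 * ε) := by
          rw [← ENNReal.ofReal_add hε0 (by positivity), ← ENNReal.ofReal_add hε0 (by positivity),
            ← ENNReal.ofReal_add hε0 (by positivity), ENNReal.ofReal_zero, zero_add]
          congr 1
          ring
  · intro l hl
    simp only [Set.mem_union, not_or] at hl
    obtain ⟨hl0, hl1, hl2, hl3, hl4⟩ := hl
    have c0 : ∀ γ ∈ W₁, 0 < (l γ).1 := by
      intro γ hγ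
      by_contra hcon
      apply hl0
      rw [hB0]
      refine Set.mem_biUnion hγ ?_
      rw [Set.mem_ofPred_eq, r9_xt' (hW₁V hγ)]
      exact not_lt.1 hcon
    refine ⟨c0, ?_, ?_, ?_, ?_⟩
    · by_contra hcon
      push Not at hcon
      apply hl1
      rw [hB1]
      intro γ hγ
      rw [r9_xt' (hWV hγ)]
      exact hcon γ hγ
    · intro γ hγ hle
      by_contra hcon
      apply hl2
      rw [hB2]
      refine Set.mem_biUnion (Finset.mem_sdiff.2 ⟨hγ, hcon⟩) ?_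
      rw [Set.mem_ofPred_eq, r9_xt' (hWV hγ)]
      exact hle
    · intro w hw hle
      by_contra hcon
      apply hl3
      rw [hB3]
      refine Set.mem_biUnion (Finset.mem_filter.2 ⟨hw, hcon⟩) ?_
      rw [Set.mem_ofPred_eq, r9_xt' (hVs w hw)]
      exact hle
    · intro q hq q' hq' hne hle hle'
      refine hAl (q, q') hq hq' hne l ?_ (c0 q hq) (c0 q' hq') hle hle'
      intro hmem
      apply hl4
      rw [hB4]
      exact Set.mem_biUnion (Finset.mem_filter.2 ⟨Finset.mem_product.2 ⟨hq, hq'⟩, hne⟩) hmem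

end Pool.Agent.FPP
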