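import Pool.Agent.FPP.Defs
import Pool.Agent.FPP.R1
import Pool.Agent.FPP.R5
import Pool.Agent.FPP.R6
import Pool.Agent.FPP.R8
import Pool.Agent.FPP.R9

open scoped ENNReal BigOperators
open MeasureTheory Filter Topology

namespace Pool.Agent.FPP

/-!
**[FPP-R10] Race kernels give finite range rules.**
PROOF. Let `ε ≠ 0` be given, let `η > 0` real with `ENNReal.ofReal (5 * η) ≤ ε` and `ofReal η ≤ ε`. From `RaceProp`: `z₀, z₁, c`. Choose `M > 0` with `exp (-(M z₀ / 2)) ≤ η`; `R = 2 c + 1`; `ε₁ > 0` with `(exp (2 c) M) ^ 2 * ε₁ ≤ η`; get `C`, `S'`. Choose `τ > 0` with `S'.card * τ ≤ η`. With `T = exp C * (exp (2 c) * M) * exp C` choose `L > 0` and then `δ > 0` such that `h5` of `bad_set` holds (`z₁ ≥ 0` may be assumed: `z₁ ≥ z₀`; first `L` large makes `1 / (L …)` small, then `δ → 0` makes `exp (T δ) - 1` small) and `exp C * δ < z₀`. Get `k`, `K`.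
`W₁`: a finite set with `exp c * M * (exp c * ∑ γ ∈ V \ W₁, k γ) ≤ η` for every finite `V` (summability: `Summable.vanishing`-type lemma, `sum (V \ W₁) ≤ tsum - sum W₁`; `summable_iff_vanishing`/`tendsto_tsum_compl_atTop_zero`). `W` : a finite set containing `W₁`, all `s⁻¹ * w` (`s ∈ S`, `w ∈ W₁`), all `u⁻¹ * w` (`u ∈ K`, `w ∈ W₁`), with `z₀ / 2 ≤ ∑ γ ∈ W, k γ` (the sums over finite sets tend to `∑' k ≥ z₀`). `V` : contains `1`, `W`, all `s * w`, all `u`, `u * w` (`s ∈ S`, `u ∈ K`, `w ∈ W`). `e`: an injection `Γ → ℕ`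
(`Countable Γ`: from summability `k > 0` (`Summable.countable_support`)). `J = W ⊕ S'` (subtypes), `t = Subtype.val` on both, `U (inl w) = {l | Win k W e (fun γ => (xt V l γ).1) w}`, `U (inr t) = {l | (xt V l 1).2 ≤ τ}`; cost by `rule_cost`. `B s` from `bad_set`. Outside `B s` use `connect`; its relation is contained in that of `RuleProp`: `xt V (fun v => l (a * v)) γ = l (a * γ)` for `γ ∈ V ⊇ W ∪ {1}`, and `Win` only looks at labels in `W` (so `Win` for the two families is equivalent). `Relation.EqvGen.mono`.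
-/

theorem r10_win {Γ : Type} {k : Γ → ℝ} {W : Finset Γ} {e : Γ → ℕ} {E E' : Γ → ℝ}
    (h : ∀ γ ∈ W, E γ = E' γ) {w : Γ} (hw : Win k W e E w) : Win k W e E' w := by
  refine ⟨hw.1, fun w' hw' hne => ?_⟩
  rw [← h w hw.1, ← h w' hw']
  exact hw.2 w' hw' hne

theorem r10_par {z₀ z₁ M' C η τ : ℝ} (hη : 0 < η) (hM' : 0 < M')
    (hτ : 0 < τ) (hz₀ : 0 < z₀) :
    ∃ (L : ℕ) (δ : ℝ), 0 < L ∧ 0 < δ ∧ Real.exp C * δ < z₀ ∧
      M' ^ 2 * z₁ ^ 2 *
      (1 / (L * ((1 - Real.exp (-τ)) *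
        Real.exp (-(Real.exp C * M' * Real.exp C * z₁)))) +
        (Real.exp (Real.exp C * M' * Real.exp C * δ) - 1)) ≤ η := by
  set T : ℝ := Real.exp C * M' * Real.exp C with hT
  have hT0 : 0 < T := by positivity
  set A : ℝ := (1 - Real.exp (-τ)) * Real.exp (-(T * z₁)) with hA
  have hA0 : 0 < A := by
    have : Real.exp (-τ) < 1 := Real.exp_lt_one_iff.2 (by linarith)
    have h2 : 0 < 1 - Real.exp (-τ) := by linarith
    positivity
  set Q : ℝ := M' ^ 2 * z₁ ^ 2 with hQ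
  have hQ0 : 0 ≤ Q := by positivity
  obtain ⟨L, hL⟩ := exists_nat_gt (2 * Q / (A * η))
  set x : ℝ := η / (2 * (Q + 1)) with hx
  have hx0 : 0 < x := by positivity
  refine ⟨L + 1, min (Real.log (1 + x) / T) (z₀ / (2 * Real.exp C)), Nat.succ_pos L, ?_, ?_, ?_⟩
  · refine lt_min (div_pos (Real.log_pos (by linarith)) hT0) (by positivity)
  · have h1 : Real.exp C * min (Real.log (1 + x) / T) (z₀ / (2 * Real.exp C)) ≤
        Real.exp C * (z₀ / (2 * Real.exp C)) :=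
      mul_le_mul_of_nonneg_left (min_le_right _ _) (Real.exp_pos C).le
    have h2 : Real.exp C * (z₀ / (2 * Real.exp C)) = z₀ / 2 := by
      field_simp
    linarith
  · have hexp : Real.exp (T * min (Real.log (1 + x) / T) (z₀ / (2 * Real.exp C))) - 1 ≤ x := by
      have h1 : T * min (Real.log (1 + x) / T) (z₀ / (2 * Real.exp C)) ≤ Real.log (1 + x) := by
        calc T * min (Real.log (1 + x) / T) (z₀ / (2 * Real.exp C))
            ≤ T * (Real.log (1 + x) / T) := mul_le_mul_of_nonneg_left (min_le_left _ _) hT0.le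
          _ = Real.log (1 + x) := by field_simp
      have h2 := Real.exp_le_exp.2 h1
      rw [Real.exp_log (by linarith)] at h2
      linarith
    have hL1 : (0 : ℝ) < ((L + 1 : ℕ) : ℝ) := by positivity
    have hQ1 : Q * (1 / (((L + 1 : ℕ) : ℝ) * A)) ≤ η / 2 := by
      rw [mul_one_div, div_le_iff₀ (by positivity)]
      have h3 : 2 * Q / (A * η) ≤ ((L + 1 : ℕ) : ℝ) := by
        push_cast
        linarith
      rw [div_le_iff₀ (by positivity)] at h3
      linarith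
    have hQ2 : Q * x ≤ η / 2 := by
      rw [hx, mul_div_assoc', div_le_iff₀ (by positivity)]
      nlinarith
    calc Q * (1 / (((L + 1 : ℕ) : ℝ) * A) +
          (Real.exp (T * min (Real.log (1 + x) / T) (z₀ / (2 * Real.exp C))) - 1))
        ≤ Q * (1 / (((L + 1 : ℕ) : ℝ) * A) + x) :=
          mul_le_mul_of_nonneg_left (by linarith) hQ0
      _ = Q * (1 / (((L + 1 : ℕ) : ℝ) * A)) + Q * x := by ring
      _ ≤ η := by linarith

/-- finite sets which carry almost the whole sum -/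
theorem r10_fin {Γ : Type} {k : Γ → ℝ} (hk : Summable k) {x : ℝ} (hx : x < ∑' γ, k γ) :
    ∃ W : Finset Γ, x < ∑ γ ∈ W, k γ :=
  (hk.hasSum.eventually (lt_mem_nhds hx)).exists

theorem rule_of_race {Γ : Type} [Group Γ] (S : Finset Γ) (h : RaceProp Γ S) {ν : Measure ℝ}
    (hν : IsExp ν) : RuleProp Γ S (ν.prod ν) := by
  classical
  intro ε hε
  obtain ⟨r, hr0, hr⟩ := ENNReal.lt_iff_exists_nnreal_btwn.1 (pos_iff_ne_zero.2 hε)
  have hr0' : 0 < (r : ℝ) := by exact_mod_cast hr0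
  set η : ℝ := r / 5 with hη
  have hη0 : 0 < η := by positivity
  have hη5 : ENNReal.ofReal (5 * η) ≤ ε := by
    have : 5 * η = r := by rw [hη]; ring
    rw [this, ENNReal.ofReal_coe_nnreal]
    exact hr.le
  have hη1 : ENNReal.ofReal η ≤ ε :=
    (ENNReal.ofReal_le_ofReal (by linarith)).trans hη5
  obtain ⟨z₀, z₁, c, hz₀, hc, h⟩ := h
  set M : ℝ := 2 / z₀ * max 1 (-Real.log η) with hM
  have hmax : 0 < max 1 (-Real.log η) := lt_of_lt_of_le one_pos (le_max_left _ _)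
  have hM0 : 0 < M := by positivity
  have hM1 : Real.exp (-(M * (z₀ / 2))) ≤ η := by
    have e1 : M * (z₀ / 2) = max 1 (-Real.log η) := by
      rw [hM]; field_simp
    rw [e1]
    calc Real.exp (-max 1 (-Real.log η)) ≤ Real.exp (Real.log η) := by
          refine Real.exp_le_exp.2 ?_
          have := le_max_right 1 (-Real.log η)
          linarith
      _ = η := Real.exp_log hη0
  set M' : ℝ := Real.exp (2 * c) * M with hM'
  have hM'0 : 0 < M' := by positivity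
  obtain ⟨C, S', hC0, h⟩ := h (2 * c + 1) (η / M' ^ 2) (by positivity)
  have h4 : M' ^ 2 * (η / M' ^ 2) ≤ η := by
    apply le_of_eq
    field_simp
  set τ : ℝ := η / (S'.card + 1) with hτ
  have hτ0 : 0 < τ := by positivity
  obtain ⟨L, δ, hL, hδ0, hδ, h5⟩ := r10_par (z₁ := z₁) (C := C) hη0 hM'0 hτ0 hz₀
  obtain ⟨k, K, hk, hgood⟩ := h L δ hδ0
  have hkp := hk.pos
  -- the windows
  obtain ⟨W₁, hW₁⟩ : ∃ W₁ : Finset Γ, ∀ V : Finset Γ,
      Real.exp c * M * (Real.exp c * ∑ γ ∈ V \ W₁, k γ) ≤ η := by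
    set x : ℝ := η / (Real.exp c * M * Real.exp c) with hx
    have hx0 : 0 < x := by positivity
    obtain ⟨W₁, hW₁⟩ := r10_fin hk.summ (x := ∑' γ, k γ - x) (by linarith)
    refine ⟨W₁, fun V => ?_⟩
    have h1 : ∑ γ ∈ V \ W₁, k γ + ∑ γ ∈ W₁, k γ ≤ ∑' γ, k γ := by
      rw [← Finset.sum_union Finset.sdiff_disjoint]
      exact hk.summ.sum_le_tsum _ fun γ _ => (hkp γ).le
    have h2 : ∑ γ ∈ V \ W₁, k γ ≤ x := by linarith
    calc Real.exp c * M * (Real.exp c * ∑ γ ∈ V \ W₁, k γ)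
        ≤ Real.exp c * M * (Real.exp c * x) := by gcongr
      _ = η := by rw [hx]; field_simp
  obtain ⟨W₂, hW₂⟩ := r10_fin hk.summ (x := z₀ / 2) (by linarith [hk.lo])
  set W : Finset Γ := W₁ ∪ (W₂ ∪ ((S ×ˢ W₁).image (fun p => p.1⁻¹ * p.2) ∪
    (K ×ˢ W₁).image (fun p => p.1⁻¹ * p.2))) with hW
  set V : Finset Γ := {1} ∪ (W ∪ ((S ×ˢ W).image (fun p => p.1 * p.2) ∪
    (K ∪ (K ×ˢ W).image (fun p => p.1 * p.2)))) with hV
  have w1 : W₁ ⊆ W := Finset.subset_union_left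
  have w2 : W₂ ⊆ W := fun x hx => by
    simp only [hW, Finset.mem_union]; tauto
  have w3 : ∀ s ∈ S, ∀ w ∈ W₁, s⁻¹ * w ∈ W := fun s hs w hw => by
    have : s⁻¹ * w ∈ (S ×ˢ W₁).image (fun p => p.1⁻¹ * p.2) :=
      Finset.mem_image.2 ⟨(s, w), Finset.mem_product.2 ⟨hs, hw⟩, rfl⟩
    simp only [hW, Finset.mem_union]; tauto
  have w4 : ∀ u ∈ K, ∀ w ∈ W₁, u⁻¹ * w ∈ W := fun s hs w hw => by
    have : s⁻¹ * w ∈ (K ×ˢ W₁).image (fun p => p.1⁻¹ * p.2) :=
      Finset.mem_image.2 ⟨(s, w), Finset.mem_product.2 ⟨hs, hw⟩, rfl⟩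
    simp only [hW, Finset.mem_union]; tauto
  have v1 : (1 : Γ) ∈ V := by simp [hV]
  have v2 : W ⊆ V := fun x hx => by
    simp only [hV, Finset.mem_union]; tauto
  have v3 : ∀ s ∈ S, ∀ w ∈ W, s * w ∈ V := fun s hs w hw => by
    have : s * w ∈ (S ×ˢ W).image (fun p => p.1 * p.2) :=
      Finset.mem_image.2 ⟨(s, w), Finset.mem_product.2 ⟨hs, hw⟩, rfl⟩
    simp only [hV, Finset.mem_union]; tauto
  have v4 : ∀ u ∈ K, u ∈ V ∧ ∀ w ∈ W, u * w ∈ V := fun s hs => by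
    refine ⟨by simp only [hV, Finset.mem_union]; tauto, fun w hw => ?_⟩
    have : s * w ∈ (K ×ˢ W).image (fun p => p.1 * p.2) :=
      Finset.mem_image.2 ⟨(s, w), Finset.mem_product.2 ⟨hs, hw⟩, rfl⟩
    simp only [hV, Finset.mem_union]; tauto
  have hW2 : z₀ / 2 ≤ ∑ γ ∈ W, k γ :=
    hW₂.le.trans (Finset.sum_le_sum_of_subset_of_nonneg w2 fun γ _ _ => (hkp γ).le)
  -- ties
  have hcount : Countable Γ := by
    have h1 := hk.summ.countable_support
    have h2 : Function.support k = Set.univ := by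
      ext γ
      simp [(hkp γ).ne']
    rw [h2] at h1
    exact Set.countable_univ_iff.1 h1
  obtain ⟨e, he⟩ := Countable.exists_injective_nat Γ
  -- the bad sets
  have hB : ∀ s ∈ S, ∃ B : Set (V → Lb), MeasurableSet B ∧
      (Measure.pi fun _ : V => ν.prod ν) B ≤ ENNReal.ofReal (5 * η) ∧
      ∀ l : Γ → Lb, (fun v : V => l v) ∉ B →
        (∀ γ ∈ W₁, 0 < (l γ).1) ∧ (∃ γ ∈ W, (l γ).1 ≤ M * k γ) ∧
        (∀ γ ∈ W, (l γ).1 ≤ M * k γ → γ ∈ W₁) ∧
        (∀ w ∈ W, (l (s * w)).1 ≤ Real.exp c * M * k w → s * w ∈ W₁) ∧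
        (∀ q ∈ W₁, ∀ q' ∈ W₁, q ≠ q' → (l q).1 ≤ Real.exp (2 * c) * M * k q →
          (l q').1 ≤ Real.exp (2 * c) * M * k q' →
          ∃ u v, Site k S' C (2 * c + 1) K q q' u v ∧
            (∀ γ, (u⁻¹ * γ ∈ W ∨ v⁻¹ * γ ∈ W) → γ ≠ q → γ ≠ q' →
              Real.exp C * (Real.exp (2 * c) * M) * Real.exp C * k (u⁻¹ * γ) < (l γ).1) ∧
            (l v).2 ≤ τ) := by
    intro s hs
    refine bad_set hν hk hz₀ hc hL hC0 hM0 hτ0 hδ0.le hδ hs w1 v2 (v3 s hs) v4 hM1 hW2 ?_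
      (hgood W₁) h4 h5
    convert hW₁ V
  choose! B hBm hBμ hBl using hB
  refine ⟨V, W ⊕ S', inferInstance, Sum.elim (fun w => (w : Γ)) (fun t => (t : Γ)),
    Sum.elim (fun w => {l : V → Lb | Win k W e (fun γ => (xt V l γ).1) w})
      (fun _ => {l : V → Lb | (xt V l 1).2 ≤ τ}), B, ?_, ?_, ?_⟩
  · rintro (w | t)
    · exact win_measurable k W V e w
    · exact measurableSet_le (measurable_snd.comp (xt_measurable V 1)) measurable_const
  · rw [Fintype.sum_sum_type]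
    simp only [Sum.elim_inl, Sum.elim_inr]
    rw [Finset.sum_coe_sort W (fun w => (Measure.pi fun _ : V => ν.prod ν)
      {l : V → Lb | Win k W e (fun γ => (xt V l γ).1) w}),
      Finset.sum_coe_sort S' (fun _ => (Measure.pi fun _ : V => ν.prod ν)
      {l : V → Lb | (xt V l 1).2 ≤ τ})]
    refine (rule_cost hν k W V S' v1 e hτ0.le).trans ?_
    gcongr
    refine le_trans ?_ hη1
    rw [← ENNReal.ofReal_natCast, ← ENNReal.ofReal_mul (by positivity)]
    refine ENNReal.ofReal_le_ofReal ?_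
    rw [hτ, mul_div_assoc', div_le_iff₀ (by positivity)]
    nlinarith
  · intro s hs
    refine ⟨hBm s hs, (hBμ s hs).trans hη5, fun l hl => ?_⟩
    obtain ⟨a0, a1, a2, a3, a5⟩ := hBl s hs l hl
    have hcon := connect hkp hC0 (R := 2 * c + 1) (by linarith) hc hM0 he l (hk.har s hs) w1
      (w3 s hs) w4 a0 a1 a2 a3 a5
    refine hcon.mono ?_
    rintro a b (⟨w, hw, rfl⟩ | ⟨t, ht, hlt, rfl⟩)
    · refine ⟨Sum.inl ⟨w, hw.1⟩, rfl, ?_⟩
      show Win k W e (fun γ => (xt V (fun v : V => l (a * v)) γ).1) w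
      refine r10_win (fun γ hγ => ?_) hw
      exact congrArg Prod.fst (r9_xt' (v2 hγ) (fun g => l (a * g))).symm
    · refine ⟨Sum.inr ⟨t, ht⟩, rfl, ?_⟩
      show (xt V (fun v : V => l (a * v)) 1).2 ≤ τ
      rw [r9_xt' v1 (fun g => l (a * g)), mul_one]
      exact hlt

end Pool.Agent.FPP
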