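import Pool.Agent.FPP.Defs

open scoped ENNReal BigOperators
open MeasureTheory Filter Topology

namespace Pool.Agent.FPP

/-!
**[FPP-T1] Marginals of a product measure.**
PROOF. Both sides define measures of `U` (`Measure.map (fun ω v => ω (j v))`), so it is enough to compare on rectangles (`Measure.pi_eq`): the preimage of `Set.pi univ A` is the rectangle with sides `A v` at `j v` and `univ` outside the range of `j`; `Measure.pi_pi`, `Finset.prod` over `I` (`Finset.prod_subset`, `Finset.prod_image`/`prod_map` with injectivity, `ν univ = 1`).
-/

theorem pi_map_injective {V I : Type} [Fintype V] [Fintype I] {Y : Type} [MeasurableSpace Y]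
    (ν : Measure Y) [IsProbabilityMeasure ν] (j : V → I) (hj : Function.Injective j)
    (U : Set (V → Y)) (hU : MeasurableSet U) :
    (Measure.pi fun _ : I => ν) {ω | (fun v => ω (j v)) ∈ U} = (Measure.pi fun _ : V => ν) U := by
  classical
  have hm : Measurable (fun ω : I → Y => fun v => ω (j v)) := by fun_prop
  have key : Measure.map (fun ω : I → Y => fun v => ω (j v)) (Measure.pi fun _ : I => ν) =
      Measure.pi (fun _ : V => ν) := by
    symm
    apply Measure.pi_eq
    intro s hs
    rw [Measure.map_apply hm (MeasurableSet.univ_pi hs)]
    let t : I → Set Y := fun i => if h : ∃ v, j v = i then s h.choose else Set.univ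
    have ht : ∀ v, t (j v) = s v := by
      intro v
      have h : ∃ v', j v' = j v := ⟨v, rfl⟩
      simp only [t]
      rw [dif_pos h, hj h.choose_spec]
    have ht2 : ∀ i, i ∉ Set.range j → t i = Set.univ := by
      intro i hi
      simp only [t]
      rw [dif_neg]
      rintro ⟨v, hv⟩
      exact hi ⟨v, hv⟩
    have e : (fun ω : I → Y => fun v => ω (j v)) ⁻¹' (Set.pi Set.univ s) = Set.pi Set.univ t := by
      ext ω
      rw [Set.mem_preimage, Set.mem_univ_pi, Set.mem_univ_pi]
      constructor
      · intro h i
        by_cases hi : i ∈ Set.range j
        · obtain ⟨v, rfl⟩ := hi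
          rw [ht]
          exact h v
        · rw [ht2 i hi]
          trivial
      · intro h v
        have := h (j v)
        rw [ht] at this
        exact this
    rw [e, Measure.pi_pi]
    symm
    apply Fintype.prod_of_injective j hj
    · intro i hi
      rw [ht2 i hi, measure_univ]
    · intro v
      rw [ht]
  rw [← key, Measure.map_apply hm hU]
  rfl

end Pool.Agent.FPP
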