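import Pool.Agent.FPP.Defs
import Pool.Agent.COST.Defs

open scoped ENNReal BigOperators
open MeasureTheory Filter Topology

namespace Pool.Agent.FPP

/-!
**[FPP-T2] A finite partition that separates a finite window.**
-/

theorem separate {G : Type} [Group G] (α : COST.StdAction G) (V : Finset G) {ε : ℝ≥0∞}
    (hε : ε ≠ 0) : ∃ (M : ℕ) (Q : α.X → Fin M), Measurable Q ∧
      α.μ {x | ∃ v ∈ V, ∃ v' ∈ V, v ≠ v' ∧ Q (v⁻¹ • x) = Q (v'⁻¹ • x)} ≤ ε := by
  classical
  let b : α.X → ℕ → Bool := MeasurableSpace.mapNatBool α.X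
  have hbm : Measurable b := MeasurableSpace.measurable_mapNatBool α.X
  have hbi : Function.Injective b := MeasurableSpace.injective_mapNatBool α.X
  let q : ∀ m : ℕ, α.X → (Fin m → Bool) := fun m x i => b x i
  have hqm : ∀ m, Measurable (q m) := by
    intro m
    apply measurable_pi_lambda
    intro i
    exact (measurable_pi_apply (i : ℕ)).comp hbm
  let Nm : ℕ → Set α.X := fun m => {x | ∃ v ∈ V, ∃ v' ∈ V, v ≠ v' ∧ q m (v⁻¹ • x) = q m (v'⁻¹ • x)}
  have hNm : ∀ m, MeasurableSet (Nm m) := by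
    intro m
    have e : Nm m = ⋃ v ∈ V, ⋃ v' ∈ V, {x | v ≠ v' ∧ q m (v⁻¹ • x) = q m (v'⁻¹ • x)} := by
      ext x
      simp only [Nm, Set.mem_ofPred_eq, Set.mem_iUnion, exists_prop]
    rw [e]
    apply Finset.measurableSet_biUnion
    intro v _
    apply Finset.measurableSet_biUnion
    intro v' _
    by_cases hvv : v = v'
    · have e2 : {x : α.X | v ≠ v' ∧ q m (v⁻¹ • x) = q m (v'⁻¹ • x)} = ∅ := by
        ext x
        simp [hvv]
      rw [e2]
      exact MeasurableSet.empty
    · have e2 : {x : α.X | v ≠ v' ∧ q m (v⁻¹ • x) = q m (v'⁻¹ • x)} =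
          {x | q m (v⁻¹ • x) = q m (v'⁻¹ • x)} := by
        ext x
        simp [hvv]
      rw [e2]
      exact measurableSet_eq_fun ((hqm m).comp (α.mp _).measurable) ((hqm m).comp (α.mp _).measurable)
  have hanti : Antitone Nm := by
    intro m m' hmm x hx
    obtain ⟨v, hv, v', hv', hne, h⟩ := hx
    refine ⟨v, hv, v', hv', hne, ?_⟩
    funext i
    exact congrFun h ⟨i, lt_of_lt_of_le i.2 hmm⟩
  have hzero : α.μ (⋂ m, Nm m) = 0 := by
    have h1 : ∀ᵐ x ∂α.μ, x ∉ ⋂ m, Nm m := by
      filter_upwards [α.free] with x hx hcon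
      rw [Set.mem_iInter] at hcon
      -- distinct points of the window
      have hdist : ∀ v v' : G, v ≠ v' → ∃ i : ℕ, b (v⁻¹ • x) i ≠ b (v'⁻¹ • x) i := by
        intro v v' hne
        by_contra hcon2
        push Not at hcon2
        have h2 : v⁻¹ • x = v'⁻¹ • x := hbi (funext hcon2)
        have h3 : (v' * v⁻¹) • x = x := by
          rw [mul_smul, h2, smul_inv_smul]
        have h4 := hx _ h3
        apply hne
        exact (mul_inv_eq_one.mp h4).symm
      choose! f hf using hdist
      let m := V.sup fun v => V.sup fun v' => f v v' + 1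
      obtain ⟨v, hv, v', hv', hne, h⟩ := hcon m
      have h5 : f v v' < m := by
        have h6 : f v v' + 1 ≤ V.sup fun v' => f v v' + 1 := Finset.le_sup (f := fun v' => f v v' + 1) hv'
        have h7 : (V.sup fun v' => f v v' + 1) ≤ m :=
          Finset.le_sup (f := fun v => V.sup fun v' => f v v' + 1) hv
        omega
      exact hf v v' hne (congrFun h ⟨f v v', h5⟩)
    exact measure_eq_zero_iff_ae_notMem.mpr h1
  have hlim := tendsto_measure_iInter_atTop (μ := α.μ) (fun m => (hNm m).nullMeasurableSet) hanti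
    ⟨0, measure_ne_top _ _⟩
  rw [hzero] at hlim
  obtain ⟨m, hm⟩ := (hlim.eventually (gt_mem_nhds (pos_iff_ne_zero.mpr hε))).exists
  refine ⟨Fintype.card (Fin m → Bool), fun x => Fintype.equivFin (Fin m → Bool) (q m x), ?_, ?_⟩
  · exact (measurable_of_finite _).comp (hqm m)
  · refine le_trans (le_of_eq ?_) hm.le
    change α.μ _ = α.μ (Nm m)
    congr 1
    ext x
    simp only [Nm, Set.mem_ofPred_eq, EmbeddingLike.apply_eq_iff_eq]

end Pool.Agent.FPP
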