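import Pool.Agent.FPP.Defs
import Pool.Agent.FPP.T1
import Pool.Agent.COST.Defs

open scoped ENNReal BigOperators
open MeasureTheory Filter Topology

namespace Pool.Agent.FPP

/-!
**[FPP-T3] Labels for the pieces (first moment).**
-/

theorem exists_labels {G : Type} [Group G] (α : COST.StdAction G) {V : Finset G}
    {ν : Measure Lb} [IsProbabilityMeasure ν] {M : ℕ} (Q : α.X → Fin M) (hQ : Measurable Q)
    {J : Type} [Fintype J] (U : J → Set (V → Lb)) (hU : ∀ j, MeasurableSet (U j)) :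
    ∃ ω : Fin M → Lb,
      ∑ j, α.μ {x | (fun v : V => ω (Q ((v : G)⁻¹ • x))) ∈ U j} ≤
        ∑ j, ((Measure.pi fun _ : V => ν) (U j) +
          α.μ {x | ∃ v ∈ V, ∃ v' ∈ V, v ≠ v' ∧ Q (v⁻¹ • x) = Q (v'⁻¹ • x)}) := by
  classical
  set N : Set α.X := {x | ∃ v ∈ V, ∃ v' ∈ V, v ≠ v' ∧ Q (v⁻¹ • x) = Q (v'⁻¹ • x)} with hN
  have hNm : MeasurableSet N := by
    have e : N = ⋃ v ∈ V, ⋃ v' ∈ V, {x | v ≠ v' ∧ Q (v⁻¹ • x) = Q (v'⁻¹ • x)} := by
      ext x
      simp only [hN, Set.mem_ofPred_eq, Set.mem_iUnion, exists_prop]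
    rw [e]
    apply Finset.measurableSet_biUnion
    intro v _
    apply Finset.measurableSet_biUnion
    intro v' _
    by_cases hvv : v = v'
    · have e2 : {x : α.X | v ≠ v' ∧ Q (v⁻¹ • x) = Q (v'⁻¹ • x)} = ∅ := by
        ext x
        simp [hvv]
      rw [e2]
      exact MeasurableSet.empty
    · have e2 : {x : α.X | v ≠ v' ∧ Q (v⁻¹ • x) = Q (v'⁻¹ • x)} =
          {x | Q (v⁻¹ • x) = Q (v'⁻¹ • x)} := by
        ext x
        simp [hvv]
      rw [e2]
      exact measurableSet_eq_fun (hQ.comp (α.mp _).measurable) (hQ.comp (α.mp _).measurable)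
  let P : Measure (Fin M → Lb) := Measure.pi fun _ => ν
  have hjoint : Measurable (fun p : (Fin M → Lb) × α.X => fun v : V => p.1 (Q ((v : G)⁻¹ • p.2))) := by
    apply measurable_pi_lambda
    intro v
    have h1 : Measurable (fun p : (Fin M → Lb) × Fin M => p.1 p.2) := by
      apply measurable_from_prod_countable_left
      intro i
      exact measurable_pi_apply i
    have h2 : Measurable (fun p : (Fin M → Lb) × α.X => (p.1, Q ((v : G)⁻¹ • p.2))) :=
      measurable_fst.prodMk ((hQ.comp (α.mp _).measurable).comp measurable_snd)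
    exact h1.comp h2
  have hE : ∀ j, MeasurableSet {p : (Fin M → Lb) × α.X |
      (fun v : V => p.1 (Q ((v : G)⁻¹ • p.2))) ∈ U j} := fun j => hjoint (hU j)
  have hfm : ∀ j, Measurable fun ω : Fin M → Lb =>
      α.μ {x | (fun v : V => ω (Q ((v : G)⁻¹ • x))) ∈ U j} := fun j =>
    measurable_measure_prodMk_left (hE j)
  have hint : ∀ j, ∫⁻ ω, α.μ {x | (fun v : V => ω (Q ((v : G)⁻¹ • x))) ∈ U j} ∂P ≤
      (Measure.pi fun _ : V => ν) (U j) + α.μ N := by
    intro j
    have e1 : ∫⁻ ω, α.μ {x | (fun v : V => ω (Q ((v : G)⁻¹ • x))) ∈ U j} ∂P =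
        ∫⁻ x, P {ω | (fun v : V => ω (Q ((v : G)⁻¹ • x))) ∈ U j} ∂α.μ := by
      have h1 := Measure.prod_apply (μ := P) (ν := α.μ) (hE j)
      have h2 := Measure.prod_apply_symm (μ := P) (ν := α.μ) (hE j)
      exact h1.symm.trans h2
    rw [e1]
    have h3 : ∀ x, P {ω | (fun v : V => ω (Q ((v : G)⁻¹ • x))) ∈ U j} ≤
        (Measure.pi fun _ : V => ν) (U j) + Set.indicator N (fun _ => (1 : ℝ≥0∞)) x := by
      intro x
      by_cases hx : x ∈ N
      · rw [Set.indicator_of_mem hx]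
        exact prob_le_one.trans le_add_self
      · rw [Set.indicator_of_notMem hx, add_zero]
        apply le_of_eq
        apply pi_map_injective ν (fun v : V => Q ((v : G)⁻¹ • x)) _ (U j) (hU j)
        intro v v' hvv
        by_contra hne
        apply hx
        exact ⟨v, v.2, v', v'.2, fun h => hne (Subtype.ext h), hvv⟩
    refine (lintegral_mono h3).trans ?_
    rw [lintegral_add_left measurable_const, lintegral_const, measure_univ, mul_one,
      lintegral_indicator_const hNm, one_mul]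
  obtain ⟨ω, hω⟩ := exists_le_lintegral (μ := P)
    (f := fun ω => ∑ j, α.μ {x | (fun v : V => ω (Q ((v : G)⁻¹ • x))) ∈ U j})
    (Finset.measurable_sum _ fun j _ => hfm j).aemeasurable
  refine ⟨ω, hω.trans ?_⟩
  rw [lintegral_finsetSum _ (fun j _ => hfm j)]
  exact Finset.sum_le_sum fun j _ => hint j

end Pool.Agent.FPP
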