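import Pool.Agent.FPP.Defs
import Pool.Agent.FPP.T2
import Pool.Agent.FPP.T3
import Pool.Agent.COST.Lift

open scoped ENNReal BigOperators
open MeasureTheory Filter Topology

namespace Pool.Agent.FPP

/-!
**[FPP-T4] From finite range rules to the cost.**
-/

theorem t4_eps {η : ℝ≥0∞} (hη : η ≠ 0) (n : ℕ) :
    ∃ ε : ℝ≥0∞, ε ≠ 0 ∧ (1 + (n : ℝ≥0∞)) * ε ≤ η := by
  refine ⟨η / (1 + (n : ℝ≥0∞)), ?_, ?_⟩
  · have h1 : (1 + (n : ℝ≥0∞)) ≠ ⊤ := by
      have : ((1 + n : ℕ) : ℝ≥0∞) ≠ ⊤ := ENNReal.natCast_ne_top _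
      push_cast at this
      exact this
    exact (ENNReal.div_pos hη h1).ne'
  · exact ENNReal.mul_div_le

theorem t4_gen {G : Type} [Group G] (α : COST.StdAction G) (S : Finset G)
    (hS : Subgroup.closure (S : Set G) = ⊤) {V : Finset G} {J : Type} (t : J → G)
    (U : J → Set (V → Lb)) (B : G → Set (V → Lb)) (lab : α.X → Lb)
    (hB : ∀ s ∈ S, ∀ l : G → Lb, (fun v : V => l v) ∉ B s →
        Relation.EqvGen (fun a b => ∃ i, b = a * t i ∧ (fun v : V => l (a * v)) ∈ U i) 1 s)
    (x : α.X) (k : G) :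
    Relation.EqvGen (fun a b => ∃ j : J ⊕ S,
      a ∈ (Sum.elim (fun j => {x : α.X | (fun v : V => lab ((v : G)⁻¹ • x)) ∈ U j})
        (fun s : S => {x : α.X | (fun v : V => lab ((v : G)⁻¹ • x)) ∈ B s}) j) ∧
      b = (Sum.elim (fun j => (t j)⁻¹) (fun s : S => (s : G)⁻¹) j) • a) x (k • x) := by
  set r : α.X → α.X → Prop := Relation.EqvGen (fun a b => ∃ j : J ⊕ S,
      a ∈ (Sum.elim (fun j => {x : α.X | (fun v : V => lab ((v : G)⁻¹ • x)) ∈ U j})
        (fun s : S => {x : α.X | (fun v : V => lab ((v : G)⁻¹ • x)) ∈ B s}) j) ∧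
      b = (Sum.elim (fun j => (t j)⁻¹) (fun s : S => (s : G)⁻¹) j) • a) with hr
  have hrefl : ∀ z, r z z := fun z => Relation.EqvGen.refl z
  have hsymm : ∀ {a b}, r a b → r b a := fun h => Relation.EqvGen.symm _ _ h
  have htrans : ∀ {a b c}, r a b → r b c → r a c := fun h h' => Relation.EqvGen.trans _ _ _ h h'
  have h1 : ∀ s ∈ S, ∀ z : α.X, r z (s⁻¹ • z) := by
    intro s hs z
    by_cases hb : (fun v : V => lab ((v : G)⁻¹ • z)) ∈ B s
    · exact Relation.EqvGen.rel _ _ ⟨Sum.inr ⟨s, hs⟩, hb, rfl⟩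
    · have h2 := hB s hs (fun γ => lab (γ⁻¹ • z)) hb
      have h3 : ∀ a b : G, Relation.EqvGen (fun a b => ∃ i, b = a * t i ∧
          (fun v : V => (fun γ => lab (γ⁻¹ • z)) (a * v)) ∈ U i) a b →
          r (a⁻¹ • z) (b⁻¹ • z) := by
        intro a b hab
        induction hab with
        | rel a b hab =>
          obtain ⟨i, hb, hi⟩ := hab
          refine Relation.EqvGen.rel _ _ ⟨Sum.inl i, ?_, ?_⟩
          · change (fun v : V => lab ((v : G)⁻¹ • a⁻¹ • z)) ∈ U i
            have e : (fun v : V => lab ((v : G)⁻¹ • a⁻¹ • z)) =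
                (fun v : V => (fun γ => lab (γ⁻¹ • z)) (a * v)) := by
              funext v
              change lab _ = lab _
              rw [← mul_smul, mul_inv_rev]
            rw [e]
            exact hi
          · change b⁻¹ • z = (t i)⁻¹ • a⁻¹ • z
            rw [← mul_smul, hb, mul_inv_rev]
        | refl a => exact hrefl _
        | symm a b _ ih => exact hsymm ih
        | trans a b c _ _ ih1 ih2 => exact htrans ih1 ih2
      have h4 := h3 1 s h2
      rw [inv_one, one_smul] at h4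
      exact h4
  have h2 : ∀ g : G, ∀ z : α.X, r z (g • z) := by
    intro g
    have hg : g ∈ Subgroup.closure (S : Set G) := by
      rw [hS]
      trivial
    refine Subgroup.closure_induction (p := fun g _ => ∀ z, r z (g • z)) ?_ ?_ ?_ ?_ hg
    · intro s hs z
      have h3 := h1 s hs (s • z)
      rw [inv_smul_smul] at h3
      exact hsymm h3
    · intro z
      rw [one_smul]
      exact hrefl z
    · intro a b _ _ ha hb z
      rw [mul_smul]
      exact htrans (hb z) (ha _)
    · intro a _ ha z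
      have h3 := ha (a⁻¹ • z)
      rw [smul_inv_smul] at h3
      exact hsymm h3
  exact h2 k x

theorem cost_le_one {G : Type} [Group G] (S : Finset G)
    (hS : Subgroup.closure (S : Set G) = ⊤) {ν : Measure Lb} [IsProbabilityMeasure ν]
    (h : RuleProp G S ν) (α : COST.StdAction G) : α.cost ≤ 1 := by
  classical
  apply ENNReal.le_of_forall_pos_le_add
  intro η hη _
  have hη2 : ((η : ℝ≥0∞) / 2) ≠ 0 := by
    simp only [ne_eq, ENNReal.div_eq_zero_iff, ENNReal.coe_eq_zero, ENNReal.ofNat_ne_top, or_false]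
    exact hη.ne'
  obtain ⟨ε, hε, hεη⟩ := t4_eps hη2 S.card
  obtain ⟨V, J, _, t, U, B, hU, hUsum, hB⟩ := h ε hε
  obtain ⟨ε', hε', hεη'⟩ := t4_eps hη2 (Fintype.card J + S.card)
  obtain ⟨M, Q, hQ, hN⟩ := separate α V hε'
  let U' : J ⊕ S → Set (V → Lb) := Sum.elim U (fun s => B s)
  have hU' : ∀ j, MeasurableSet (U' j) := by
    intro j
    rcases j with j | s
    · exact hU j
    · exact (hB s s.2).1
  obtain ⟨ω, hω⟩ := exists_labels (ν := ν) α Q hQ U' hU'
  let lab : α.X → Lb := fun x => ω (Q x)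
  have hlab : Measurable lab := by
    have h1 : Measurable ω := measurable_of_countable ω
    exact h1.comp hQ
  let D : J ⊕ S → Set α.X :=
    Sum.elim (fun j => {x : α.X | (fun v : V => lab ((v : G)⁻¹ • x)) ∈ U j})
        (fun s : S => {x : α.X | (fun v : V => lab ((v : G)⁻¹ • x)) ∈ B s})
  have hDm : ∀ j, MeasurableSet (D j) := by
    intro j
    have h1 : Measurable (fun x : α.X => fun v : V => lab ((v : G)⁻¹ • x)) := by
      apply measurable_pi_lambda
      intro v
      exact hlab.comp (α.mp _).measurable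
    rcases j with j | s
    · exact h1 (hU j)
    · exact h1 (hB s s.2).1
  have hgen := COST.cost_le_fam α (J := J ⊕ S)
    (Sum.elim (fun j => (t j)⁻¹) (fun s : S => (s : G)⁻¹)) D hDm
    (Filter.Eventually.of_forall fun x k =>
      t4_gen α S hS t U B lab (fun s hs => (hB s hs).2.2) x k)
  rw [tsum_fintype] at hgen
  have h1 : ∑ j, α.μ (D j) ≤ ∑ j, ((Measure.pi fun _ : V => ν) (U' j) + ε') := by
    calc ∑ j, α.μ (D j) = ∑ j, α.μ {x | (fun v : V => ω (Q ((v : G)⁻¹ • x))) ∈ U' j} := by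
          apply Finset.sum_congr rfl
          intro j _
          rcases j with j | s
          · rfl
          · rfl
      _ ≤ _ := hω
      _ ≤ ∑ j, ((Measure.pi fun _ : V => ν) (U' j) + ε') := by
          apply Finset.sum_le_sum
          intro j _
          gcongr
  have h2 : ∑ j, ((Measure.pi fun _ : V => ν) (U' j) + ε') ≤
      (1 + ε + S.card * ε) + (Fintype.card J + S.card : ℕ) * ε' := by
    rw [Finset.sum_add_distrib, Fintype.sum_sum_type]
    have e1 : ∑ x : S, (Measure.pi fun _ : V => ν) (U' (Sum.inr x)) ≤ S.card * ε := by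
      calc ∑ x : S, (Measure.pi fun _ : V => ν) (U' (Sum.inr x)) ≤ ∑ _x : S, ε :=
            Finset.sum_le_sum fun s _ => (hB s s.2).2.1
        _ = S.card * ε := by
            rw [Finset.sum_const, Finset.card_univ, Fintype.card_coe, nsmul_eq_mul]
    have e2 : ∑ _x : J ⊕ S, ε' = (Fintype.card J + S.card : ℕ) * ε' := by
      rw [Finset.sum_const, Finset.card_univ, Fintype.card_sum, Fintype.card_coe, nsmul_eq_mul]
    rw [e2]
    gcongr
    exact hUsum
  have h3 : (1 + ε + S.card * ε) + (Fintype.card J + S.card : ℕ) * ε' ≤ 1 + (η : ℝ≥0∞) := by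
    calc (1 + ε + S.card * ε) + (Fintype.card J + S.card : ℕ) * ε'
        ≤ (1 + ε + S.card * ε) + (1 + (Fintype.card J + S.card : ℕ)) * ε' := by
          gcongr
          exact le_add_self
      _ = 1 + ((1 + (S.card : ℝ≥0∞)) * ε + (1 + (Fintype.card J + S.card : ℕ)) * ε') := by
          ring
      _ ≤ 1 + ((η : ℝ≥0∞) / 2 + (η : ℝ≥0∞) / 2) := by
          gcongr
      _ = 1 + η := by rw [ENNReal.add_halves]
  exact hgen.trans (h1.trans (h2.trans h3))

end Pool.Agent.FPP
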