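import Pool.Agent.FPP.Defs
import Pool.Agent.COST.L1

open scoped ENNReal BigOperators
open MeasureTheory Filter Topology

namespace Pool.Agent.FPP

/-!
**[FPP-Z1] Lower bound for the cost, and the Betti number.**
-/

theorem bettiOne_nonneg {G : Type} [Group G] {d : ℕ} (s : Fin d → G) :
    0 ≤ COST.bettiOne s := by
  unfold COST.bettiOne
  have h : COST.vd (COST.finCycles s) ≤ COST.vd (COST.cycles s) := by
    apply COST.vd_mono
    intro f hf
    exact hf.1
  linarith

theorem cost_one {G : Type} [Group G] [Infinite G] {d : ℕ} (s : Fin d → G)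
    (hs : Subgroup.closure (Set.range s) = ⊤) (h : ∀ α : COST.StdAction G, α.cost ≤ 1) :
    (∀ α : COST.StdAction G, α.cost = 1) ∧ COST.groupCost G = 1 ∧
      COST.Statement.bettiOne s = 0 := by
  have hcG : Countable G := COST.e7_1_countable s hs
  have h0 := bettiOne_nonneg s
  have h1 := COST.betti_le_cost s hs
  have h2 : (1 : ℝ≥0∞) ≤ ENNReal.ofReal (1 + COST.bettiOne s) := by
    rw [← ENNReal.ofReal_one]
    exact ENNReal.ofReal_le_ofReal (by linarith)
  have h3 : ∀ α : COST.StdAction G, COST.groupCost G ≤ α.cost := fun α => iInf_le _ α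
  have h4 : ∀ α : COST.StdAction G, α.cost = 1 := fun α =>
    le_antisymm (h α) ((h2.trans h1).trans (h3 α))
  have h5 : COST.groupCost G = 1 := by
    apply le_antisymm
    · exact (h3 (COST.PMP.toStd (COST.PMP.point G))).trans (h _)
    · exact h2.trans h1
  refine ⟨h4, h5, ?_⟩
  rw [COST.statement_bettiOne]
  rw [h5] at h1
  have h6 : 1 + COST.bettiOne s ≤ 1 := by
    rw [← ENNReal.ofReal_one] at h1
    exact (ENNReal.ofReal_le_ofReal_iff (by norm_num)).mp h1
  linarith

end Pool.Agent.FPP
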