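import Pool.Agent.FPP.Defs
import Pool.Agent.FPP.GDefs
import Pool.Agent.FPP.G4

open scoped ENNReal BigOperators
open MeasureTheory Filter Topology

namespace Pool.Agent.FPP

/-!
**[FPP-Z2] The group is infinite.**
PROOF. If `Γ` is finite, every term of the sum is `≥ (Nat.card Γ)⁻¹ > 0`, so `F` is finite (`ENNReal.finite_const_le_of_tsum_ne_top`), and `V₁ × V₂ = ⋃ g, g⁻¹ • F` is finite; but `V₁` is infinite (`infinite_vertices`) and `V₂` is nonempty.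
-/

theorem infinite_group {Γ : Type} [Group Γ] {V₁ V₂ : Type} [MulAction Γ V₁] [MulAction Γ V₂]
    (G₁ : SimpleGraph V₁) (G₂ : SimpleGraph V₂) (h₁ : NonamGraph G₁) (h₂ : NonamGraph G₂)
    (F : Set (V₁ × V₂)) (hF : ∀ ω : V₁ × V₂, ∃ g : Γ, g • ω ∈ F)
    (hfin : ∑' ω : F, (Nat.card (MulAction.stabilizer Γ (ω : V₁ × V₂)) : ℝ≥0∞)⁻¹ ≠ ⊤) :
    Infinite Γ := by
  by_contra hinf
  rw [not_infinite_iff_finite] at hinf
  have := infinite_vertices G₁ h₁
  have : Nonempty V₂ := h₂.conn.nonempty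
  have hcard : ∀ ω : V₁ × V₂, (Nat.card Γ : ℝ≥0∞)⁻¹ ≤
      (Nat.card (MulAction.stabilizer Γ (ω : V₁ × V₂)) : ℝ≥0∞)⁻¹ := by
    intro ω
    rw [ENNReal.inv_le_inv, Nat.cast_le]
    exact Nat.card_le_card_of_injective Subtype.val Subtype.val_injective
  have hne : (Nat.card Γ : ℝ≥0∞)⁻¹ ≠ 0 := ENNReal.inv_ne_zero.2 (ENNReal.natCast_ne_top _)
  have h3 := ENNReal.finite_const_le_of_tsum_ne_top hfin hne
  have h4 : {i : F | (Nat.card Γ : ℝ≥0∞)⁻¹ ≤
      (Nat.card (MulAction.stabilizer Γ (i : V₁ × V₂)) : ℝ≥0∞)⁻¹} = Set.univ := by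
    ext i
    simp only [Set.mem_setOf_eq, Set.mem_univ, iff_true]
    exact hcard i
  rw [h4, Set.finite_univ_iff] at h3
  have hFf : F.Finite := Set.toFinite F
  have h5 : (⋃ g : Γ, (fun ω : V₁ × V₂ => g • ω) ⁻¹' F).Finite :=
    Set.finite_iUnion fun g => hFf.preimage (MulAction.injective g).injOn
  have h6 : (⋃ g : Γ, (fun ω : V₁ × V₂ => g • ω) ⁻¹' F) = Set.univ := by
    ext ω
    simp only [Set.mem_iUnion, Set.mem_preimage, Set.mem_univ, iff_true]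
    exact hF ω
  rw [h6] at h5
  exact Set.infinite_univ h5

end Pool.Agent.FPP
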