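import Pool.Agent.FPP.Defs
import Pool.Agent.FPP.GDefs
import Pool.Agent.FPP.G4
import Pool.Agent.FPP.C2
import Pool.Agent.FPP.I7
import Pool.Agent.FPP.R1
import Pool.Agent.FPP.R10
import Pool.Agent.FPP.T4
import Pool.Agent.FPP.Z1
import Pool.Agent.FPP.Z2

open scoped ENNReal BigOperators
open MeasureTheory Filter Topology

namespace Pool.Agent.FPP

/-!
**[FPP-Z3] Fixed price 1.**
PROOF. `kern_of_graph` for both graphs, `exists_wt` (`V₁ × V₂` is nonempty) gives `φ`, `o` with `φ o ≠ 0`; `S = Finset.univ.image s` generates; `raceProp`, `exists_isExp`, `rule_of_race`, `cost_le_one` (`ν.prod ν` is a probability measure); `infinite_group`; `cost_one`.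
-/

theorem fixed_price {Γ : Type} [Group Γ] {V₁ V₂ : Type} [MulAction Γ V₁] [MulAction Γ V₂]
    (G₁ : SimpleGraph V₁) (G₂ : SimpleGraph V₂) (h₁ : NonamGraph G₁) (h₂ : NonamGraph G₂)
    (a₁ : ∀ (g : Γ) (x y : V₁), G₁.Adj (g • x) (g • y) ↔ G₁.Adj x y)
    (a₂ : ∀ (g : Γ) (x y : V₂), G₂.Adj (g • x) (g • y) ↔ G₂.Adj x y)
    (hst : ∀ ω : V₁ × V₂, Finite (MulAction.stabilizer Γ ω)) (F : Set (V₁ × V₂))
    (hF : ∀ ω : V₁ × V₂, ∃ g : Γ, g • ω ∈ F)
    (hfin : ∑' ω : F, (Nat.card (MulAction.stabilizer Γ (ω : V₁ × V₂)) : ℝ≥0∞)⁻¹ ≠ ⊤)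
    {d : ℕ} (s : Fin d → Γ) (hs : Subgroup.closure (Set.range s) = ⊤) :
    (∀ α : COST.StdAction Γ, α.cost = 1) ∧ COST.groupCost Γ = 1 ∧
      COST.Statement.bettiOne s = 0 := by
  classical
  obtain ⟨P₁, κ₁, ρ₁, hK₁⟩ := kern_of_graph G₁ h₁ a₁
  obtain ⟨P₂, κ₂, ρ₂, hK₂⟩ := kern_of_graph G₂ h₂ a₂
  obtain ⟨φ, hφ, hne⟩ := exists_wt hst F hF hfin
  have hn₁ : Nonempty V₁ := h₁.conn.nonempty
  have hn₂ : Nonempty V₂ := h₂.conn.nonempty
  obtain ⟨o, ho⟩ := hne inferInstance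
  obtain ⟨ν, hν⟩ := exists_isExp
  have hprob : IsProbabilityMeasure ν := hν.prob
  have hS : Subgroup.closure ((Finset.univ.image s : Finset Γ) : Set Γ) = ⊤ := by
    rw [Finset.coe_image, Finset.coe_univ, Set.image_univ]
    exact hs
  have hrule := rule_of_race (Finset.univ.image s)
    (raceProp hK₁ hK₂ hφ o ho (hst o) (Finset.univ.image s)) hν
  have hinf : Infinite Γ := infinite_group G₁ G₂ h₁ h₂ F hF hfin
  exact cost_one s hs fun α => cost_le_one (Finset.univ.image s) hS hrule α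

end Pool.Agent.FPP
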